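import Pool.Agent.Work.MP_3035da_co.Connect

/-!
# BGlue : rooted colourings of small, disconnected and separable graphs

* `rc_small`: `W ⊆ {r, x}`: `f r = c`, all others colour `c + 1`; clusters are single vertices
  (`MR` relates nothing: the only possible edge in `W` joins `r` and `x`).
* `rc_disj`: `r ∈ X` (else exchange). Take `f1` for `X, r, c` and `f2` for `W \ X` with any root in
  it (if it is empty nothing to do), `f = f1` on `X`, `f2` off `X`. `MR G W f` never joins `X` to `W \ X`,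
  clusters stay in one part, and are clusters of `f1` or `f2`.
* `rc_cut`: `W1 = insert s X`, `W2 = insert s Y`, `Y = (W \ {s}) \ X`. Say `r ∈ W1` (else exchange the roles of
  `X` and `Y`). `f1` for `W1, r, c`; `f2` for `W2`, root `s`, colour `f1 s`. `f = f1` on `W1`, `f2` on `Y`
  (they agree at `s`). `s` is alone in its cluster in `W2`, so no `MR G W f` step goes between `s` and `Y`, and
  none between `X` and `Y`: clusters of `f` in `W` are clusters of `f1` in `W1` or of `f2` in `W2`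
  (those avoiding `s`). Root: for `r ≠ s` neighbours of `r` in `W` are in `W1`. For `r = s`: neighbours in `W1`
  by `f1`, in `W2` by `f2`.
-/

set_option autoImplicit false
open Classical

namespace CC3

variable {V : Type} [Fintype V]

private theorem bglue_count {G : SimpleGraph V} {W W1 Y W2 : Finset V} {M : ℕ}
    {f f1 f2 : V → Fin 3} (hcov : ∀ v ∈ W, v ∈ W1 ∨ v ∈ Y) (hY2 : ∀ v ∈ Y, v ∈ W2)
    (hf1 : ∀ v ∈ W1, f v = f1 v) (hf2 : ∀ v ∈ Y, f v = f2 v)
    (hcross : ∀ x ∈ W1, ∀ y ∈ Y, G.Adj x y → f x ≠ f y)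
    (h1 : ∀ v ∈ W1,
      (Finset.univ.filter (fun u => Relation.ReflTransGen (MR G W1 f1) v u)).card ≤ M)
    (h2 : ∀ v ∈ W2,
      (Finset.univ.filter (fun u => Relation.ReflTransGen (MR G W2 f2) v u)).card ≤ M) :
    ∀ v ∈ W, (Finset.univ.filter (fun u => Relation.ReflTransGen (MR G W f) v u)).card ≤ M := by
  intro v hv
  rcases hcov v hv with hv1 | hv2
  · refine le_trans (Finset.card_le_card ?_) (h1 v hv1)
    intro u hu
    simp only [Finset.mem_filter, Finset.mem_univ, true_and] at hu ⊢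
    have key : u ∈ W1 ∧ Relation.ReflTransGen (MR G W1 f1) v u := by
      induction hu with
      | refl => exact ⟨hv1, Relation.ReflTransGen.refl⟩
      | @tail x y hxy hstep ih =>
        obtain ⟨hx1, hx2⟩ := ih
        obtain ⟨hadj, hxW, hyW, hfe⟩ := hstep
        rcases hcov y hyW with hy1 | hy2
        · refine ⟨hy1, hx2.tail ⟨hadj, hx1, hy1, ?_⟩⟩
          rw [← hf1 x hx1, ← hf1 y hy1]; exact hfe
        · exact absurd hfe (hcross x hx1 y hy2 hadj)
    exact key.2
  · refine le_trans (Finset.card_le_card ?_) (h2 v (hY2 v hv2))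
    intro u hu
    simp only [Finset.mem_filter, Finset.mem_univ, true_and] at hu ⊢
    have key : u ∈ Y ∧ Relation.ReflTransGen (MR G W2 f2) v u := by
      induction hu with
      | refl => exact ⟨hv2, Relation.ReflTransGen.refl⟩
      | @tail x y hxy hstep ih =>
        obtain ⟨hx1, hx2⟩ := ih
        obtain ⟨hadj, hxW, hyW, hfe⟩ := hstep
        rcases hcov y hyW with hy1 | hy2
        · exact absurd hfe.symm (hcross y hy1 x hx1 hadj.symm)
        · refine ⟨hy2, hx2.tail ⟨hadj, hY2 x hx1, hY2 y hy2, ?_⟩⟩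
          rw [← hf2 x hx1, ← hf2 y hy2]; exact hfe
    exact key.2

theorem rc_small {G : SimpleGraph V} {W : Finset V} {M : ℕ} (hM : 1 ≤ M) (hW : W.card ≤ M + 1) :
    RC G W M := by
  intro r hr c
  have hc : c + 1 ≠ c := by revert c; decide
  refine ⟨fun v => if v = r then c else c + 1, by simp, ?_, ?_⟩
  · intro u _ hadj
    have hne : u ≠ r := hadj.ne.symm
    simp only [if_neg hne, if_true]
    exact hc
  · intro v hv
    have hstep : ∀ x y, MR G W (fun v => if v = r then c else c + 1) x y → x ≠ r ∧ y ≠ r := by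
      rintro x y ⟨hadj, _, _, hfe⟩
      have hne : x ≠ y := hadj.ne
      by_cases hxr : x = r
      · have hyr : y ≠ r := fun h => hne (hxr.trans h.symm)
        simp only [if_pos hxr, if_neg hyr] at hfe
        exact absurd hfe.symm hc
      · by_cases hyr : y = r
        · simp only [if_neg hxr, if_pos hyr] at hfe
          exact absurd hfe hc
        · exact ⟨hxr, hyr⟩
    by_cases hvr : v = r
    · refine le_trans (Finset.card_le_card (t := {v}) ?_) (by simpa using hM)
      intro u hu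
      simp only [Finset.mem_filter, Finset.mem_univ, true_and] at hu
      rw [Finset.mem_singleton]
      induction hu with
      | refl => rfl
      | @tail x y _ hs ih => exact absurd (ih.trans hvr) (hstep x y hs).1
    · refine le_trans (Finset.card_le_card (t := W.erase r) ?_) ?_
      · intro u hu
        simp only [Finset.mem_filter, Finset.mem_univ, true_and] at hu
        rw [Finset.mem_erase]
        induction hu with
        | refl => exact ⟨hvr, hv⟩
        | @tail x y _ hs _ => exact ⟨(hstep x y hs).2, hs.2.2.1⟩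
      · rw [Finset.card_erase_of_mem hr]
        omega

private theorem bglue_disj {G : SimpleGraph V} {W X Y : Finset V} {M : ℕ}
    (hcov : ∀ v ∈ W, v ∈ X ∨ v ∈ Y) (hdis : ∀ v ∈ Y, v ∉ X)
    (hno : ∀ a ∈ X, ∀ b ∈ Y, ¬ G.Adj a b) (h1 : RC G X M) (h2 : RC G Y M)
    {r : V} (hr : r ∈ X) (c : Fin 3) :
    ∃ f : V → Fin 3, f r = c ∧ (∀ u ∈ W, G.Adj r u → f u ≠ f r) ∧
    ∀ v ∈ W, (Finset.univ.filter (fun u => Relation.ReflTransGen (MR G W f) v u)).card ≤ M := by
  obtain ⟨f1, hf1r, hf1n, hf1c⟩ := h1 r hr c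
  have hex : ∃ f2 : V → Fin 3, ∀ v ∈ Y,
      (Finset.univ.filter (fun u => Relation.ReflTransGen (MR G Y f2) v u)).card ≤ M := by
    by_cases hY : Y.Nonempty
    · obtain ⟨z, hz⟩ := hY
      obtain ⟨f2, _, _, h⟩ := h2 z hz 0
      exact ⟨f2, h⟩
    · rw [Finset.not_nonempty_iff_eq_empty] at hY
      subst hY
      exact ⟨fun _ => 0, fun v hv => absurd hv (Finset.notMem_empty v)⟩
  obtain ⟨f2, hf2c⟩ := hex
  have hX' : ∀ v ∈ X, (if v ∈ X then f1 v else f2 v) = f1 v := fun v hv => if_pos hv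
  have hY' : ∀ v ∈ Y, (if v ∈ X then f1 v else f2 v) = f2 v := fun v hv => if_neg (hdis v hv)
  refine ⟨fun v => if v ∈ X then f1 v else f2 v, ?_, ?_, ?_⟩
  · show (if r ∈ X then f1 r else f2 r) = c
    rw [hX' r hr]; exact hf1r
  · intro u hu hadj
    show (if u ∈ X then f1 u else f2 u) ≠ (if r ∈ X then f1 r else f2 r)
    rcases hcov u hu with h | h
    · rw [hX' u h, hX' r hr]; exact hf1n u h hadj
    · exact absurd hadj (hno r hr u h)
  · exact bglue_count (W1 := X) (Y := Y) (W2 := Y) (f1 := f1) (f2 := f2) hcov (fun v hv => hv)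
      hX' hY' (fun x hx y hy hadj => absurd hadj (hno x hx y hy)) hf1c hf2c

theorem rc_disj {G : SimpleGraph V} {W X : Finset V} {M : ℕ} (hX : X ⊆ W)
    (hno : ∀ a ∈ X, ∀ b ∈ W \ X, ¬ G.Adj a b) (h1 : RC G X M) (h2 : RC G (W \ X) M) :
    RC G W M := by
  intro r hr c
  by_cases hrX : r ∈ X
  · exact bglue_disj (X := X) (Y := W \ X)
      (fun v hv => by
        by_cases h : v ∈ X
        · exact Or.inl h
        · exact Or.inr (Finset.mem_sdiff.2 ⟨hv, h⟩))
      (fun v hv => (Finset.mem_sdiff.1 hv).2) hno h1 h2 hrX c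
  · exact bglue_disj (X := W \ X) (Y := X)
      (fun v hv => by
        by_cases h : v ∈ X
        · exact Or.inr h
        · exact Or.inl (Finset.mem_sdiff.2 ⟨hv, h⟩))
      (fun v hv h => (Finset.mem_sdiff.1 h).2 hv)
      (fun a ha b hb hadj => hno b hb a ha hadj.symm) h2 h1
      (Finset.mem_sdiff.2 ⟨hr, hrX⟩) c

private theorem bglue_cut {G : SimpleGraph V} {W X Y : Finset V} {M : ℕ} {s : V}
    (hcov : ∀ v ∈ W, v = s ∨ v ∈ X ∨ v ∈ Y) (hdis : ∀ v ∈ Y, v ≠ s ∧ v ∉ X)
    (hno : ∀ a ∈ X, ∀ b ∈ Y, ¬ G.Adj a b) (h1 : RC G (insert s X) M)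
    (h2 : RC G (insert s Y) M) {r : V} (hr : r = s ∨ r ∈ X) (c : Fin 3) :
    ∃ f : V → Fin 3, f r = c ∧ (∀ u ∈ W, G.Adj r u → f u ≠ f r) ∧
    ∀ v ∈ W, (Finset.univ.filter (fun u => Relation.ReflTransGen (MR G W f) v u)).card ≤ M := by
  have hr1 : r ∈ insert s X := Finset.mem_insert.2 hr
  obtain ⟨f1, hf1r, hf1n, hf1c⟩ := h1 r hr1 c
  obtain ⟨f2, hf2s, hf2n, hf2c⟩ := h2 s (Finset.mem_insert_self s Y) (f1 s)
  have hX' : ∀ v ∈ insert s X, (if v ∈ insert s X then f1 v else f2 v) = f1 v :=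
    fun v hv => if_pos hv
  have hYn : ∀ v ∈ Y, v ∉ insert s X := fun v hv h => by
    rcases Finset.mem_insert.1 h with h | h
    · exact (hdis v hv).1 h
    · exact (hdis v hv).2 h
  have hY' : ∀ v ∈ Y, (if v ∈ insert s X then f1 v else f2 v) = f2 v :=
    fun v hv => if_neg (hYn v hv)
  have hcov' : ∀ v ∈ W, v ∈ insert s X ∨ v ∈ Y := fun v hv => by
    rcases hcov v hv with h | h | h
    · exact Or.inl (Finset.mem_insert.2 (Or.inl h))
    · exact Or.inl (Finset.mem_insert.2 (Or.inr h))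
    · exact Or.inr h
  have hcross : ∀ x ∈ insert s X, ∀ y ∈ Y, G.Adj x y →
      (if x ∈ insert s X then f1 x else f2 x) ≠ (if y ∈ insert s X then f1 y else f2 y) := by
    intro x hx y hy hadj
    rw [hX' x hx, hY' y hy]
    rcases Finset.mem_insert.1 hx with rfl | hx
    · rw [← hf2s]
      exact (hf2n y (Finset.mem_insert_of_mem hy) hadj).symm
    · exact absurd hadj (hno x hx y hy)
  refine ⟨fun v => if v ∈ insert s X then f1 v else f2 v, ?_, ?_, ?_⟩
  · show (if r ∈ insert s X then f1 r else f2 r) = c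
    rw [hX' r hr1]; exact hf1r
  · intro u hu hadj
    show (if u ∈ insert s X then f1 u else f2 u) ≠ (if r ∈ insert s X then f1 r else f2 r)
    rcases hcov' u hu with h | h
    · rw [hX' u h, hX' r hr1]; exact hf1n u h hadj
    · exact (hcross r hr1 u h hadj).symm
  · exact bglue_count (W1 := insert s X) (Y := Y) (W2 := insert s Y) (f1 := f1) (f2 := f2) hcov'
      (fun v hv => Finset.mem_insert_of_mem hv) hX' hY' hcross hf1c hf2c

theorem rc_cut {G : SimpleGraph V} {W X : Finset V} {M : ℕ} {s : V} (hs : s ∈ W)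
    (hX : X ⊆ W \ {s}) (hno : ∀ a ∈ X, ∀ b ∈ (W \ {s}) \ X, ¬ G.Adj a b)
    (h1 : RC G (insert s X) M) (h2 : RC G (insert s ((W \ {s}) \ X)) M) : RC G W M := by
  intro r hr c
  have hcase : ∀ v ∈ W, v = s ∨ v ∈ X ∨ v ∈ (W \ {s}) \ X := fun v hv => by
    by_cases hvs : v = s
    · exact Or.inl hvs
    · by_cases hvX : v ∈ X
      · exact Or.inr (Or.inl hvX)
      · refine Or.inr (Or.inr (Finset.mem_sdiff.2 ⟨Finset.mem_sdiff.2 ⟨hv, ?_⟩, hvX⟩))
        rwa [Finset.mem_singleton]
  have hXs : ∀ v ∈ X, v ≠ s := fun v hv h => by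
    have := (Finset.mem_sdiff.1 (hX hv)).2
    rw [Finset.mem_singleton] at this
    exact this h
  have hYs : ∀ v ∈ (W \ {s}) \ X, v ≠ s := fun v hv h => by
    have := (Finset.mem_sdiff.1 (Finset.mem_sdiff.1 hv).1).2
    rw [Finset.mem_singleton] at this
    exact this h
  rcases hcase r hr with h | h | h
  · exact bglue_cut hcase (fun v hv => ⟨hYs v hv, (Finset.mem_sdiff.1 hv).2⟩) hno h1 h2
      (Or.inl h) c
  · exact bglue_cut hcase (fun v hv => ⟨hYs v hv, (Finset.mem_sdiff.1 hv).2⟩) hno h1 h2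
      (Or.inr h) c
  · refine bglue_cut (X := (W \ {s}) \ X) (Y := X) (fun v hv => ?_)
      (fun v hv => ⟨hXs v hv, fun h' => (Finset.mem_sdiff.1 h').2 hv⟩)
      (fun a ha b hb hadj => hno b hb a ha hadj.symm) h2 h1 (Or.inr h) c
    rcases hcase v hv with h | h | h
    · exact Or.inl h
    · exact Or.inr (Or.inr h)
    · exact Or.inr (Or.inl h)

end CC3
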