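import Mathlib

/-!
# MP_3035da_co : clustered 3-colouring of planar graphs, definitions (FIXED FILE)

Everything is classical: no `DecidableEq` argument anywhere, every file says `open Classical`.
Overview of the proof: `/team-store/blueprint_3035da.md`.
-/

set_option autoImplicit false
open Classical

namespace CC3

variable {V : Type}

/-! ## mod 2 chains of edges -/

/-- mod 2 edge chains: `h u v` is the coefficient of the edge `uv`. -/
abbrev Ch (V : Type) := V → V → ZMod 2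

/-- the chain of the single edge `ab` (zero when `a = b`) -/
noncomputable def ed (a b : V) : Ch V :=
  fun u v => if a ≠ b ∧ ((u = a ∧ v = b) ∨ (u = b ∧ v = a)) then 1 else 0

/-- the chain of the path (walk) given by a list -/
noncomputable def pc : List V → Ch V
  | [] => 0
  | [_] => 0
  | a :: b :: l => ed a b + pc (b :: l)

/-- the chain of the closed walk given by a cyclic list -/
noncomputable def cyc : List V → Ch V
  | [] => 0
  | a :: l => pc (a :: (l ++ [a]))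

def SymC (h : Ch V) : Prop := ∀ u v, h u v = h v u

/-- every vertex has even degree in the chain -/
def EvnC [Fintype V] (h : Ch V) : Prop := ∀ v, ∑ u, h v u = 0

/-- the chain is supported on the edges of `G` -/
def Sub (G : SimpleGraph V) (h : Ch V) : Prop := ∀ a b, h a b ≠ 0 → G.Adj a b

/-! ## connectivity in cut form -/

/-- `G` restricted to the vertex set `U` is connected (cut form). -/
def Cn (G : SimpleGraph V) (U : Finset V) : Prop :=
  ∀ X ⊆ U, X.Nonempty → X ≠ U → ∃ a ∈ X, ∃ b ∈ U \ X, G.Adj a b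

/-- the graph induced on `W`, the other vertices being isolated -/
def resg (G : SimpleGraph V) (W : Finset V) : SimpleGraph V where
  Adj a b := G.Adj a b ∧ a ∈ W ∧ b ∈ W
  symm := ⟨fun _ _ h => ⟨h.1.symm, h.2.2, h.2.1⟩⟩
  loopless := ⟨fun _ h => h.1.ne rfl⟩

/-! ## triangulated spheres and discs -/

/-- boundary of a set of triangles -/
noncomputable def bd (J : Finset (Finset V)) : Ch V :=
  fun u v => if u = v then 0 else ((J.filter (fun t => u ∈ t ∧ v ∈ t)).card : ZMod 2)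

/-- A triangulated sphere (mod 2 homology form); vertices outside all triangles are allowed. -/
structure Sph (V : Type) [Fintype V] where
  F : Finset (Finset V)
  card3 : ∀ t ∈ F, t.card = 3
  edge2 : ∀ u v, u ≠ v → (∃ t ∈ F, u ∈ t ∧ v ∈ t) →
    (F.filter (fun t => u ∈ t ∧ v ∈ t)).card = 2
  link : ∀ v, ∀ X ⊆ F, (∀ t ∈ X, v ∈ t) → (∀ u, bd X v u = 0) →
    X = ∅ ∨ X = F.filter (fun t => v ∈ t)
  closed : ∀ X ⊆ F, bd X = 0 → X = ∅ ∨ X = F
  hom : ∀ h : Ch V, SymC h → EvnC h → (∀ a b, h a b ≠ 0 → a ≠ b ∧ ∃ t ∈ F, a ∈ t ∧ b ∈ t) →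
    ∃ Y ⊆ F, bd Y = h

/-- vertices of a set of triangles -/
noncomputable def vs (J : Finset (Finset V)) : Finset V := J.biUnion id

/-- the graph of a triangulated sphere -/
def Sph.gr [Fintype V] (T : Sph V) : SimpleGraph V where
  Adj u v := u ≠ v ∧ ∃ t ∈ T.F, u ∈ t ∧ v ∈ t
  symm := ⟨fun _ _ h => ⟨h.1.symm, h.2.choose, h.2.choose_spec.1, h.2.choose_spec.2.2,
    h.2.choose_spec.2.1⟩⟩
  loopless := ⟨fun _ h => h.1 rfl⟩

/-- adjacency by an edge of a triangle of `J` -/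
def JA (J : Finset (Finset V)) (u v : V) : Prop := u ≠ v ∧ ∃ t ∈ J, u ∈ t ∧ v ∈ t

/-- `J` is a disc of `T` with boundary cycle `C` -/
structure Disc [Fintype V] (T : Sph V) (J : Finset (Finset V)) (C : List V) : Prop where
  sub : J ⊆ T.F
  nd : C.Nodup
  len : 3 ≤ C.length
  bdy : bd J = cyc C

/-- interior vertices of the disc `J` with boundary `C` -/
noncomputable def inn (J : Finset (Finset V)) (C : List V) : Finset V :=
  (vs J).filter (fun v => v ∉ C)

/-- degrees at most `D` -/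
def DegLe [Fintype V] (G : SimpleGraph V) (D : ℕ) : Prop :=
  ∀ v, (Finset.univ.filter (fun u => G.Adj v u)).card ≤ D

/-- no chord inside the disc -/
def Chordless (J : Finset (Finset V)) (C : List V) : Prop :=
  ∀ a ∈ C, ∀ b ∈ C, JA J a b → cyc C a b = 1

/-! ## the colouring recursion -/

/-- Data of a coloured vertex. `kd` (kind): 0 = open cut (blank), 1 = main (on a thread), 2 = bent,
3 = finished cut alone in its colour, 4 = finished cut attached to a younger label (hooked),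
5 = finished cut attached to an older label (charged to its window).
`lab` is the label (name, end, end); `oc m b` = the older cut hooked by the main vertex `m` on side `b`
(`false` = side A, `true` = side B); `win s` = the cut chosen in the window of `s`. -/
structure Rec (V : Type) where
  col : Fin 3
  lab : V × V × V
  kd : Fin 6
  oc : Bool → V
  win : V

abbrev Stt (V : Type) := V → Rec V

/-- window length -/
def Mw (D : ℕ) : ℕ := 10 * D + 20
/-- spacing of cuts -/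
def Ls (D : ℕ) : ℕ := 12 * D + 60
/-- bound for the length of segments (`Ls D + 2 * Mw D`) -/
def Lm (D : ℕ) : ℕ := 32 * D + 100

/-- `z` is an end of the label `X` -/
def IsEnd (z : V) (X : V × V × V) : Prop := X.2.1 = z ∨ X.2.2 = z

/-- the potential of a side: Lipschitz on `A ∪ K`, increasing through the cuts of `A`,
with only the immediate neighbours of a cut at distance one, and distinct cuts `Ls D` apart. -/
def Phi [Fintype V] (T : Sph V) (D : ℕ) (s : Stt V) (K : Finset V) (A : List V) (p : V → ℤ) :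
    Prop :=
  (∀ u v, (u ∈ A ∨ u ∈ K) → (v ∈ A ∨ v ∈ K) → T.gr.Adj u v → p u ≤ p v + 1) ∧
  ∀ l₁ r l₂, A = l₁ ++ r :: l₂ → (s r).kd = 0 →
    (∀ z ∈ l₁, p z + 1 ≤ p r) ∧ (∀ z ∈ l₂, p r + 1 ≤ p z) ∧
    (∀ z ∈ l₁, p z + 1 = p r → l₁.getLast? = some z) ∧
    (∀ z ∈ l₂, p r + 1 = p z → l₂.head? = some z) ∧
    (∀ z ∈ l₂, (s z).kd = 0 → p r + (Ls D : ℤ) ≤ p z)

/-- invariants of one side `A` (colour `c`) of a disc with interior `K` -/
structure Side [Fintype V] (T : Sph V) (D : ℕ) (s : Stt V) (K : Finset V) (A : List V)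
    (c : Fin 3) : Prop where
  ne : A ≠ []
  kds : ∀ z ∈ A, (s z).kd = 0 ∨ (s z).kd = 1 ∨ (s z).kd = 2
  cols : ∀ z ∈ A, (s z).kd ≠ 0 → (s z).col = c
  labs : ∀ l₁ z z' l₂, A = l₁ ++ z :: z' :: l₂ → (s z).kd ≠ 0 → (s z').kd ≠ 0 →
    (s z).lab = (s z').lab
  endR : ∀ l₁ z z' l₂, A = l₁ ++ z :: z' :: l₂ → (s z).kd = 0 →
    (s z').kd ≠ 0 ∧ IsEnd z (s z').lab
  endL : ∀ l₁ z z' l₂, A = l₁ ++ z :: z' :: l₂ → (s z').kd = 0 →
    (s z).kd ≠ 0 ∧ IsEnd z' (s z).lab
  phi : ∃ p, Phi T D s K A p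

/-- invariants of a two-sided disc instance `(J; A, B)` with colours `a`, `b` -/
structure Inv [Fintype V] (T : Sph V) (D : ℕ) (s : Stt V) (J : Finset (Finset V))
    (A B : List V) (a b : Fin 3) : Prop where
  disc : Disc T J (A ++ B)
  sideA : Side T D s (inn J (A ++ B)) A a
  sideB : Side T D s (inn J (A ++ B)) B b
  apart : ∀ w ∈ A, ∀ w' ∈ B, (s w).kd = 0 → (s w').kd = 0 →
    ¬ T.gr.Adj w w' ∧ ∀ y ∈ inn J (A ++ B), ¬ (T.gr.Adj w y ∧ T.gr.Adj w' y)
  mode : a ≠ b ∨ (a = b ∧ (∀ z ∈ A ++ B, (s z).kd ≠ 0) ∧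
    ∀ z ∈ A ++ B, ∀ z' ∈ A ++ B, (s z).lab = (s z').lab)

/-- certificate of a finished vertex `v` of the interior `K` -/
structure GoodAt [Fintype V] (T : Sph V) (D : ℕ) (s : Stt V) (K : Finset V) (v : V) : Prop where
  k0 : (s v).kd ≠ 0
  k2 : (s v).kd = 2 → ∃ w, IsEnd w (s v).lab ∧ T.gr.Adj v w
  k3 : (s v).kd = 3 → (s v).lab = (v, v, v)
  k4 : (s v).kd = 4 → ∃ m ∈ K, ∃ b, (s m).kd = 1 ∧ (s m).lab = (s v).lab ∧ (s m).oc b = v
  k5 : (s v).kd = 5 → 3 * D ≤ (K.filter (fun q => (s q).win = v ∧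
    ∃ u, T.gr.Adj q u ∧ ((s u).kd = 1 ∨ (s u).kd = 2) ∧ (s u).lab = (s v).lab)).card

/-- report on a boundary cut `r` of the side with colour `c`, `B` the opposite side -/
def Rep [Fintype V] (T : Sph V) (s : Stt V) (J : Finset (Finset V)) (K : Finset V) (B : List V)
    (c : Fin 3) (r : V) : Prop :=
  ((∃ b ∈ B, JA J r b) → ∀ v ∈ K, T.gr.Adj r v → (s v).col = c) ∧
  ((¬ ∃ b ∈ B, JA J r b) → ∃ t X, t ≠ c ∧
    (∀ v ∈ K, T.gr.Adj r v → (s v).col = c ∨ ((s v).col = t ∧ (s v).lab = X)) ∧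
    ∃ m ∈ K, ∃ i, (s m).kd = 1 ∧ (s m).lab = X ∧ (s m).oc i = r)

/-- postcondition: the interior of the disc instance is finished -/
structure Post [Fintype V] (T : Sph V) (D : ℕ) (s : Stt V) (J : Finset (Finset V))
    (A B : List V) (a b : Fin 3) : Prop where
  good : ∀ v ∈ inn J (A ++ B), GoodAt T D s (inn J (A ++ B)) v
  name : ∀ v ∈ inn J (A ++ B), (s v).kd = 1 → (s v).lab.1 ∈ inn J (A ++ B)
  seg : ∀ X, ((inn J (A ++ B)).filter (fun v => (s v).kd = 1 ∧ (s v).lab = X)).card ≤ Lm D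
  adj : ∀ v ∈ inn J (A ++ B), ∀ u, T.gr.Adj v u → (s u).kd ≠ 0 → (s u).col = (s v).col →
    (s u).lab = (s v).lab
  repA : ∀ r ∈ A, (s r).kd = 0 → Rep T s J (inn J (A ++ B)) B a r
  repB : ∀ r ∈ B, (s r).kd = 0 → Rep T s J (inn J (A ++ B)) A b r

/-- the instance can be finished without touching anything outside the interior -/
def Solv [Fintype V] (T : Sph V) (D : ℕ) (s : Stt V) (J : Finset (Finset V))
    (A B : List V) (a b : Fin 3) : Prop :=
  ∃ s' : Stt V, (∀ v, v ∉ inn J (A ++ B) → s' v = s v) ∧ Post T D s' J A B a b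

/-- Context of the geodesic step: a chordless disc `(J; A, B)` without cuts at the corners, a geodesic
`S` of the interior `K` with potential `p` (`p` = position on `S`), joining the apexes of the two corner
edges; removing the two corner triangles leaves `J1` (boundary `A ++ S.reverse`) and `J2` (boundary
`S ++ B`). -/
structure GCtx [Fintype V] (T : Sph V) (D : ℕ) (s : Stt V) (J : Finset (Finset V))
    (A B : List V) (a b : Fin 3) (S : List V) (p : V → ℤ) (J1 J2 : Finset (Finset V)) :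
    Prop where
  deg : DegLe T.gr D
  inv : Inv T D s J A B a b
  chl : Chordless J (A ++ B)
  corner : ∀ z, (A.head? = some z ∨ A.getLast? = some z ∨ B.head? = some z ∨
    B.getLast? = some z) → (s z).kd ≠ 0
  ne : S ≠ []
  nd : S.Nodup
  inK : ∀ v ∈ S, v ∈ inn J (A ++ B)
  chain : S.IsChain T.gr.Adj
  lip : ∀ u ∈ inn J (A ++ B), ∀ v ∈ inn J (A ++ B), T.gr.Adj u v → p u ≤ p v + 1
  idx : ∀ (i : ℕ) (hi : i < S.length), p S[i] = i
  sub1 : J1 ⊆ J
  sub2 : J2 ⊆ J
  disj : Disjoint J1 J2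
  card1 : J1.card < J.card
  card2 : J2.card < J.card
  bd1 : bd J1 = cyc (A ++ S.reverse)
  bd2 : bd J2 = cyc (S ++ B)
  cover : ∀ t ∈ J, t ∈ J1 ∨ t ∈ J2 ∨ ∀ v ∈ t, A.head? = some v ∨ A.getLast? = some v ∨
    B.head? = some v ∨ B.getLast? = some v ∨ S.head? = some v ∨ S.getLast? = some v

/-- `u` is a vertex of `S` within distance two of `r` through `K` -/
def Hr [Fintype V] (T : Sph V) (K : Finset V) (S : List V) (r u : V) : Prop :=
  u ∈ S ∧ (T.gr.Adj r u ∨ ∃ y ∈ K, T.gr.Adj r y ∧ T.gr.Adj y u)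

/-- `v ∈ S` is in the forbidden zone of the cut `r` of the side `Z` -/
def Zn [Fintype V] (T : Sph V) (K : Finset V) (S : List V) (p : V → ℤ) (Z : List V) (r v : V) :
    Prop :=
  v ∈ S ∧ ((∃ u u', Hr T K S r u ∧ Hr T K S r u' ∧ p u ≤ p v ∧ p v ≤ p u') ∨
    ∃ l₁ x y l₂, Z = l₁ ++ x :: r :: y :: l₂ ∧ T.gr.Adj v x ∧ T.gr.Adj v y)

/-- the choice of the new cuts `U` on the geodesic `S`; `w v` = the cut of the window of `v` -/
structure Cuts [Fintype V] (T : Sph V) (D : ℕ) (s : Stt V) (K : Finset V)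
    (A B S : List V) (p : V → ℤ) (U : Finset V) (w : V → V) : Prop where
  mem : ∀ t ∈ U, t ∈ S ∧ S.head? ≠ some t ∧ S.getLast? ≠ some t
  gap : ∀ t ∈ U, ∀ t' ∈ U, p t < p t' → p t + (Ls D : ℤ) ≤ p t'
  run : ∀ u ∈ S, ∀ v ∈ S, p u ≤ p v → (∀ t ∈ U, ¬ (p u ≤ p t ∧ p t ≤ p v)) →
    p v + 1 ≤ p u + (Lm D : ℤ)
  far : ∀ t ∈ U, ∀ r, (r ∈ A ∨ r ∈ B) → (s r).kd = 0 →
    ¬ T.gr.Adj r t ∧ ∀ y ∈ K, ¬ (T.gr.Adj r y ∧ T.gr.Adj t y)
  btw : ∀ t ∈ U, ∀ r, (r ∈ A ∨ r ∈ B) → (s r).kd = 0 → ∀ u ∈ S, ∀ v ∈ S,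
    T.gr.Adj r u → T.gr.Adj r v → ¬ (p u ≤ p t ∧ p t ≤ p v)
  labA : ∀ t ∈ U, ∀ u ∈ A, ∀ v ∈ A, T.gr.Adj t u → T.gr.Adj t v → (s u).lab = (s v).lab
  labB : ∀ t ∈ U, ∀ u ∈ B, ∀ v ∈ B, T.gr.Adj t u → T.gr.Adj t v → (s u).lab = (s v).lab
  chg : ∀ t ∈ U, (¬ ∃ u ∈ A, T.gr.Adj t u) ∨ (¬ ∃ u ∈ B, T.gr.Adj t u) ∨
    ∃ X, (∃ u ∈ B, T.gr.Adj t u ∧ (s u).lab = X) ∧
      3 * D ≤ (S.toFinset.filter (fun q => w q = t ∧
        ∃ u ∈ B, T.gr.Adj q u ∧ (s u).kd ≠ 0 ∧ (s u).lab = X)).card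

/-- labels `lb` of the segments of `S` between the cuts `U` -/
structure Labs (D : ℕ) (S : List V) (p : V → ℤ) (U : Finset V) (lb : V → V × V × V) : Prop where
  name : ∀ v ∈ S, (lb v).1 ∈ S
  same : ∀ u ∈ S, ∀ v ∈ S, p u ≤ p v → (∀ t ∈ U, ¬ (p u ≤ p t ∧ p t ≤ p v)) → lb u = lb v
  ends : ∀ t ∈ U, ∀ v ∈ S, (p v = p t + 1 ∨ p v + 1 = p t) → v ∉ U ∧ IsEnd t (lb v)
  seg : ∀ X, (S.toFinset.filter (fun v => v ∉ U ∧ lb v = X)).card ≤ Lm D

/-- the state after placing the thread `S` with cuts `U` (colour `c`) -/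
noncomputable def mkS [Fintype V] (T : Sph V) (s : Stt V) (A B S : List V) (U : Finset V)
    (w : V → V) (lb : V → V × V × V) (c : Fin 3) : Stt V := fun v =>
  if v ∈ S then
    (if v ∈ U then ⟨c, (v, v, v), 0, fun _ => v, w v⟩
     else ⟨c, lb v, 1, fun i =>
        if h : ∃ r, r ∈ (if i then B else A) ∧ (s r).kd = 0 ∧ T.gr.Adj v r then h.choose else v,
        w v⟩)
  else s v

/-- induction hypothesis: all instances with fewer than `n` triangles can be finished -/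
def IHyp [Fintype V] (T : Sph V) (D n : ℕ) : Prop :=
  ∀ (s : Stt V) (J : Finset (Finset V)) (A B : List V) (a b : Fin 3), J.card < n →
    Inv T D s J A B a b → Solv T D s J A B a b

/-! ## rooted colourings of graphs -/

/-- monochromatic cluster relation inside `W` -/
def MR (G : SimpleGraph V) (W : Finset V) (f : V → Fin 3) (x y : V) : Prop :=
  G.Adj x y ∧ x ∈ W ∧ y ∈ W ∧ f x = f y

/-- `G` on `W` has, for every root `r` and colour `c`, a 3-colouring with clusters of size at most `M` in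
which `r` has colour `c` and is alone in its cluster -/
def RC [Fintype V] (G : SimpleGraph V) (W : Finset V) (M : ℕ) : Prop :=
  ∀ r ∈ W, ∀ c : Fin 3, ∃ f : V → Fin 3, f r = c ∧ (∀ u ∈ W, G.Adj r u → f u ≠ f r) ∧
    ∀ v ∈ W, (Finset.univ.filter (fun u => Relation.ReflTransGen (MR G W f) v u)).card ≤ M

end CC3
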