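import Pool.Agent.Work.MP_3035da_co.Connect
import Pool.Agent.Work.MP_3035da_co.K.UniqRel
import Pool.Agent.Work.MP_3035da_co.T.Defs
import Pool.Agent.Work.MP_3035da_co.Br.ToSph

/-!
# Bridge : from the face systems of parts K, T (helper68) to `Sph`

* `twoConn_of_cn`: `a, b ∈ U (resg G W)` are in `W`; `Cn.reach` for `W \ {w}`, then translate
  `Relation.ReflTransGen` to `(av (resg G W) {w}).Reachable`.
* `nonisol_of_cn`: `v ∈ W`; choose `s ∈ W`, `s ≠ v`; the cut form for `W \ {s}` with `X = {v}`
  (`3 ≤ W.card`, so `X ≠ W \ {s}`) gives a neighbour.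
* `sph_of_faces`. `g k = tri a b c` with `a, b, c` distinct; let `e k = {a, b, c} : Finset W` = the vertices `v`
  with `∃ d, g k s(v, d) = 1`; for `u ≠ v`: `g k s(u, v) = 1 ↔ u ∈ e k ∧ v ∈ e k`, and `g k s(u, u) = 0`.
  `e` is injective: if `e k = e k'`, `k ≠ k'`, then `g k = g k'` so `∑ i ∈ {k, k'}, g i = 0`, so by `uniq_rel` all
  other `g i` are `0`, but triangles are not zero, so `univ = {k, k'}`; every non isolated `v` lies on a face
  (an edge of `G'` lies in some face: `no_bridge`, with a third vertex from `h4`), so there are at most 3 non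
  isolated vertices, contradiction to `h4`.
  `F = univ.image e`. For `I : Finset (Fin m)`: `bd (I.image e) u v = (∑ i ∈ I, g i) s(u, v)` for `u ≠ v`.
  `card3`: clear. `edge2`: `FaceSys.two` / `FaceSys.pair`. `closed`: `uniq_rel` (triangles are not `0`).
  `link`: `X = I.image e`, all members of `I` at `v`; `(∑ i ∈ I, g i) s(v, d) = 0` for all `d`: `same_class`
  gives: all faces at `v` are in `I`, or none, in the second case `I = ∅`.
  `hom`: `h` gives the chain `z e = Sym2.lift ⟨h, hs⟩ e` in the cycle space of `G'` (`span`); two vertices of a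
  common triangle are adjacent in `G'` (`FaceSys.edge`).
  `T.gr = G'`: an edge of `G'` lies in a face (`no_bridge`), and conversely.
-/

set_option autoImplicit false
open Classical

namespace CC3

open Pool.Agent.Work.MP_3035da_co

theorem twoConn_of_cn {V : Type} {G : SimpleGraph V} {W : Finset V}
    (h : ∀ s, Cn G (W \ {s})) : K.TwoConn (resg G W) := by
  intro w a b ha hb haw hbw
  obtain ⟨a', ha'⟩ := ha
  obtain ⟨b', hb'⟩ := hb
  have haW : a ∈ W \ {w} := by
    simp [ha'.2.1, haw]
  have hbW : b ∈ W \ {w} := by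
    simp [hb'.2.1, hbw]
  have hr := (h w).reach haW hbW
  have key : ∀ {c : V}, Relation.ReflTransGen
      (fun a b => G.Adj a b ∧ a ∈ W \ {w} ∧ b ∈ W \ {w}) a c → (K.av (resg G W) {w}).Reachable a c := by
    intro c hc
    induction hc with
    | refl => exact SimpleGraph.Reachable.refl _
    | @tail p q _ hpq ih =>
      obtain ⟨hadj, hp, hq⟩ := hpq
      rw [Finset.mem_sdiff, Finset.mem_singleton] at hp hq
      have : (K.av (resg G W) {w}).Adj p q := ⟨⟨hadj, hp.1, hq.1⟩, hp.2, hq.2⟩
      exact ih.trans this.reachable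
  exact key hr

theorem nonisol_of_cn {V : Type} {G : SimpleGraph V} {W : Finset V} (h3 : 3 ≤ W.card)
    (h : ∀ s, Cn G (W \ {s})) {v : V} (hv : v ∈ W) : ∃ u, (resg G W).Adj v u := by
  obtain ⟨s, hs, hsv⟩ : ∃ s ∈ W, s ≠ v := by
    by_contra hcon
    push Not at hcon
    have hsub : W ⊆ {v} := fun w hw => by simp [hcon w hw]
    have h1 := Finset.card_le_card hsub
    rw [Finset.card_singleton] at h1
    omega
  have hne : ({v} : Finset V) ≠ W \ {s} := by
    intro h1
    have h2 : (W \ {s}).card = 1 := by rw [← h1, Finset.card_singleton]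
    have h4 : (W \ {s}).card = W.card - 1 := by
      rw [Finset.sdiff_singleton_eq_erase, Finset.card_erase_of_mem hs]
    omega
  obtain ⟨p, hp, q, hq, hpq⟩ := h s {v} (by
    intro w hw
    rw [Finset.mem_singleton] at hw
    rw [hw]
    simp [hv, hsv.symm]) ⟨v, by simp⟩ hne
  rw [Finset.mem_singleton] at hp
  subst hp
  have hq' := (Finset.mem_sdiff.1 (Finset.mem_sdiff.1 hq).1).1
  exact ⟨q, hpq, hv, hq'⟩

theorem sph_of_faces {W : Type} [Fintype W] {G' : SimpleGraph W} {m : ℕ}
    {g : Fin m → K.Chain W} (hf : K.FaceSys G' g) (hc : K.TwoConn G') (ht : ∀ k, K.IsTri (g k))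
    (h4 : 4 ≤ (Finset.univ.filter (fun v => ∃ u, G'.Adj v u)).card) :
    ∃ T : Sph W, T.gr = G' := by
  obtain ⟨s, hs, hcard⟩ := Finset.exists_subset_card_eq h4
  have e : Fin 4 ≃ s := (Fintype.equivFinOfCardEq (by rw [Fintype.card_coe, hcard])).symm
  obtain ⟨T, hT⟩ := to_sph hf hc ht ⟨fun j => (e j).1, fun i j hij =>
    e.injective (Subtype.ext hij), fun j => (Finset.mem_filter.1 (hs (e j).2)).2⟩
  refine ⟨T, ?_⟩
  ext u v
  exact hT u v

end CC3
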