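import Pool.Agent.Work.MP_3035da_co.Defs

/-!
# Count : colouring a triangulated sphere with a root, and bounding the clusters

`root_top`: `root_disc` gives `C` (length at least 3), write `C = c1 :: B`, `A = [c1]`, `J = T.F.filter (r ∉ ·)`.
Initial state `s0 = fun _ => ⟨0, (r, r, r), 2, fun _ => r, r⟩`. `Inv T D s0 J [c1] B 0 0`: no cuts, potential `0`,
`mode`: second alternative. `solve` gives `s` with `Post`, `s = s0` off `K = inn J C`.
Every `v ∈ vs T.F`, `v ≠ r` is in `C` or in `K`.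

`cluster_bound`: for a label `X` let `N i` = number of the `v` (`≠ r`, in `C ∪ K`) with kind `i`, label `X`.
 `N 1 ≤ Lm D` (`seg`; members of `C` have kind 2). `N 2 ≤ 2 D`: each is adjacent to an end of `X`
 (`k2`; members of `C` are adjacent to `r`, an end of `(r,r,r)`). `N 3 ≤ 1` (`k3`: `X = (v,v,v)`).
 `N 4 ≤ 2 N 1`: `v` is determined by `(m, i)`, `(s m).oc i = v`, `m` main with label `X`.
 `3 D * N 5 ≤ D (N 1 + N 2)`: the sets `{q | (s q).win = v, q ~ some u of kind 1, 2 and label X}` for the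
 different `v` of kind 5 and label `X` are disjoint, of size `≥ 3 D`, contained in the set of neighbours of the
 `N 1 + N 2` vertices `u` (the `u` are in `C ∪ K`: neighbours of `q ∈ K`). As `D ≥ 1`, `3 N 5 ≤ N 1 + N 2`.
 Total `≤ 3 Lm D + 2 D + 1 + (Lm D + 2 D)/3 ≤ 1000 D`.
Colouring `f r = 1`, `f v = (s v).col` for `v ≠ r`: all neighbours of `r` are in `C`, colour `0`.
A monochromatic component (in `T.gr`) of `v ≠ r` in `vs T.F` stays off `r` and has constant label: an edge `uv`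
with both ends `≠ r`: if one is in `K`: `adj` (kinds are `≠ 0`); if both in `C`: both labels are `(r, r, r)`.
(`D ≥ 1` because `r ∈ vs T.F` has a neighbour.)
-/

set_option autoImplicit false
open Classical

namespace CC3

variable {V : Type} [Fintype V]

theorem cluster_bound {T : Sph V} {D : ℕ} (hD : DegLe T.gr D) (hD1 : 1 ≤ D) {r : V} {s : Stt V}
    {C : List V} {K : Finset V} (hC : ∀ u, T.gr.Adj r u ↔ u ∈ C) (hCK : ∀ v ∈ C, v ∉ K)
    (hK : ∀ v ∈ K, ∀ u, T.gr.Adj v u → u ∈ C ∨ u ∈ K)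
    (hCs : ∀ v ∈ C, (s v).col = 0 ∧ (s v).kd = 2 ∧ (s v).lab = (r, r, r))
    (hg : ∀ v ∈ K, GoodAt T D s K v)
    (hseg : ∀ X, (K.filter (fun v => (s v).kd = 1 ∧ (s v).lab = X)).card ≤ Lm D)
    (X : V × V × V) :
    (Finset.univ.filter (fun v => (v ∈ C ∨ v ∈ K) ∧ (s v).lab = X)).card ≤ 1000 * D := by
  let N : Fin 6 → Finset V := fun i =>
    Finset.univ.filter (fun v => ((v ∈ C ∨ v ∈ K) ∧ (s v).lab = X) ∧ (s v).kd = i)
  have hmem : ∀ i v, v ∈ N i ↔ ((v ∈ C ∨ v ∈ K) ∧ (s v).lab = X) ∧ (s v).kd = i := fun i v => by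
    simp only [N, Finset.mem_filter, Finset.mem_univ, true_and]
  have hinK : ∀ i v, i ≠ 2 → v ∈ N i → v ∈ K := by
    intro i v hi hv
    obtain ⟨⟨h, _⟩, hk⟩ := (hmem i v).1 hv
    rcases h with h | h
    · exact absurd (hk.symm.trans (hCs v h).2.1) hi
    · exact h
  -- kind 1
  have h1 : (N 1).card ≤ Lm D := by
    refine le_trans (Finset.card_le_card ?_) (hseg X)
    intro v hv
    have hvK := hinK 1 v (by decide) hv
    obtain ⟨⟨_, hl⟩, hk⟩ := (hmem 1 v).1 hv
    exact Finset.mem_filter.2 ⟨hvK, hk, hl⟩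
  -- kind 2
  have hnb : ∀ w, (Finset.univ.filter (fun u => T.gr.Adj w u)).card ≤ D := hD
  have h2 : (N 2).card ≤ 2 * D := by
    have hsub : N 2 ⊆ Finset.univ.filter (fun u => T.gr.Adj X.2.1 u) ∪
        Finset.univ.filter (fun u => T.gr.Adj X.2.2 u) := by
      intro v hv
      obtain ⟨⟨hCKv, hl⟩, hk⟩ := (hmem 2 v).1 hv
      have hex : ∃ w, IsEnd w X ∧ T.gr.Adj v w := by
        rcases hCKv with h | h
        · refine ⟨r, ?_, ((hC v).2 h).symm⟩
          rw [← hl, (hCs v h).2.2]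
          exact Or.inl rfl
        · obtain ⟨w, hw1, hw2⟩ := (hg v h).k2 hk
          exact ⟨w, hl ▸ hw1, hw2⟩
      obtain ⟨w, hw, hvw⟩ := hex
      rw [Finset.mem_union, Finset.mem_filter, Finset.mem_filter]
      rcases hw with hw | hw
      · exact Or.inl ⟨Finset.mem_univ _, hw ▸ hvw.symm⟩
      · exact Or.inr ⟨Finset.mem_univ _, hw ▸ hvw.symm⟩
    have h3 := Finset.card_le_card hsub
    have h4 := Finset.card_union_le (Finset.univ.filter (fun u => T.gr.Adj X.2.1 u))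
      (Finset.univ.filter (fun u => T.gr.Adj X.2.2 u))
    have h5 := hnb X.2.1
    have h6 := hnb X.2.2
    omega
  -- kind 3
  have h3 : (N 3).card ≤ 1 := by
    have hsub : N 3 ⊆ {X.1} := by
      intro v hv
      have hvK := hinK 3 v (by decide) hv
      obtain ⟨⟨_, hl⟩, hk⟩ := (hmem 3 v).1 hv
      have h := (hg v hvK).k3 hk
      rw [hl] at h
      rw [Finset.mem_singleton, h]
    have := Finset.card_le_card hsub
    rwa [Finset.card_singleton] at this
  -- kind 4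
  have h4 : (N 4).card ≤ 2 * (N 1).card := by
    have hsub : N 4 ⊆ ((N 1) ×ˢ (Finset.univ : Finset Bool)).image (fun q => (s q.1).oc q.2) := by
      intro v hv
      have hvK := hinK 4 v (by decide) hv
      obtain ⟨⟨_, hl⟩, hk⟩ := (hmem 4 v).1 hv
      obtain ⟨m, hm, b, hm1, hm2, hm3⟩ := (hg v hvK).k4 hk
      refine Finset.mem_image.2 ⟨(m, b), ?_, hm3⟩
      refine Finset.mem_product.2 ⟨?_, Finset.mem_univ _⟩
      exact (hmem 1 m).2 ⟨⟨Or.inr hm, hm2.trans hl⟩, hm1⟩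
    refine le_trans (Finset.card_le_card hsub) (le_trans Finset.card_image_le ?_)
    rw [Finset.card_product, Finset.card_univ, Fintype.card_bool, mul_comm]
  -- kind 5
  have h5 : 3 * (N 5).card ≤ (N 1).card + (N 2).card := by
    let Q : V → Finset V := fun v => K.filter (fun q => (s q).win = v ∧
      ∃ u, T.gr.Adj q u ∧ ((s u).kd = 1 ∨ (s u).kd = 2) ∧ (s u).lab = (s v).lab)
    have hQ : ∀ v ∈ N 5, 3 * D ≤ (Q v).card := by
      intro v hv
      have hvK := hinK 5 v (by decide) hv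
      obtain ⟨⟨_, hl⟩, hk⟩ := (hmem 5 v).1 hv
      exact (hg v hvK).k5 hk
    have hdisj : ∀ v ∈ N 5, ∀ v' ∈ N 5, v ≠ v' → Disjoint (Q v) (Q v') := by
      intro v _ v' _ hne
      rw [Finset.disjoint_left]
      intro q hq hq'
      exact hne ((Finset.mem_filter.1 hq).2.1.symm.trans (Finset.mem_filter.1 hq').2.1)
    have hcard : ((N 5).biUnion Q).card = ∑ v ∈ N 5, (Q v).card := Finset.card_biUnion hdisj
    have hsub : (N 5).biUnion Q ⊆ ((N 1) ∪ (N 2)).biUnion
        (fun u => Finset.univ.filter (fun q => T.gr.Adj u q)) := by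
      intro q hq
      obtain ⟨v, hv, hqv⟩ := Finset.mem_biUnion.1 hq
      obtain ⟨hqK, _, u, hqu, hku, hlu⟩ := Finset.mem_filter.1 hqv
      obtain ⟨⟨_, hl⟩, _⟩ := (hmem 5 v).1 hv
      refine Finset.mem_biUnion.2 ⟨u, ?_, Finset.mem_filter.2 ⟨Finset.mem_univ q, hqu.symm⟩⟩
      rw [Finset.mem_union]
      rcases hku with hku | hku
      · exact Or.inl ((hmem 1 u).2 ⟨⟨hK q hqK u hqu, hlu.trans hl⟩, hku⟩)
      · exact Or.inr ((hmem 2 u).2 ⟨⟨hK q hqK u hqu, hlu.trans hl⟩, hku⟩)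
    have hle := Finset.card_le_card hsub
    have hle2 : (((N 1) ∪ (N 2)).biUnion
        (fun u => Finset.univ.filter (fun q => T.gr.Adj u q))).card ≤ ((N 1) ∪ (N 2)).card * D :=
      Finset.card_biUnion_le_card_mul _ _ _ (fun u _ => hnb u)
    have hle3 := Finset.card_union_le (N 1) (N 2)
    have hsum : (N 5).card * (3 * D) ≤ ∑ v ∈ N 5, (Q v).card := by
      rw [← smul_eq_mul]
      exact Finset.card_nsmul_le_sum _ _ _ hQ
    have hfin : (N 5).card * (3 * D) ≤ ((N 1).card + (N 2).card) * D := by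
      calc (N 5).card * (3 * D) ≤ ∑ v ∈ N 5, (Q v).card := hsum
        _ = ((N 5).biUnion Q).card := hcard.symm
        _ ≤ _ := hle
        _ ≤ ((N 1) ∪ (N 2)).card * D := hle2
        _ ≤ ((N 1).card + (N 2).card) * D := Nat.mul_le_mul_right _ hle3
    have hfin' : (3 * (N 5).card) * D ≤ ((N 1).card + (N 2).card) * D := by
      calc (3 * (N 5).card) * D = (N 5).card * (3 * D) := by ring
        _ ≤ _ := hfin
    exact Nat.le_of_mul_le_mul_right hfin' hD1
  -- total
  have hcov : Finset.univ.filter (fun v => (v ∈ C ∨ v ∈ K) ∧ (s v).lab = X) ⊆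
      (((N 1 ∪ N 2) ∪ N 3) ∪ N 4) ∪ N 5 := by
    intro v hv
    obtain ⟨_, hvCK, hl⟩ := Finset.mem_filter.1 hv
    have hk0 : (s v).kd ≠ 0 := by
      rcases hvCK with h | h
      · rw [(hCs v h).2.1]; decide
      · exact (hg v h).k0
    have hi : ∀ i, (s v).kd = i → v ∈ N i := fun i hi => (hmem i v).2 ⟨⟨hvCK, hl⟩, hi⟩
    simp only [Finset.mem_union]
    have hcases : ∀ k : Fin 6, k ≠ 0 → k = 1 ∨ k = 2 ∨ k = 3 ∨ k = 4 ∨ k = 5 := by decide
    rcases hcases _ hk0 with h | h | h | h | h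
    · exact Or.inl (Or.inl (Or.inl (Or.inl (hi 1 h))))
    · exact Or.inl (Or.inl (Or.inl (Or.inr (hi 2 h))))
    · exact Or.inl (Or.inl (Or.inr (hi 3 h)))
    · exact Or.inl (Or.inr (hi 4 h))
    · exact Or.inr (hi 5 h)
  have c0 := Finset.card_le_card hcov
  have c1 := Finset.card_union_le (((N 1 ∪ N 2) ∪ N 3) ∪ N 4) (N 5)
  have c2 := Finset.card_union_le ((N 1 ∪ N 2) ∪ N 3) (N 4)
  have c3 := Finset.card_union_le (N 1 ∪ N 2) (N 3)
  have c4 := Finset.card_union_le (N 1) (N 2)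
  unfold Lm at h1
  omega

end CC3
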