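import Pool.Agent.Work.MP_3035da_co.RootTop
import Pool.Agent.Work.MP_3035da_co.Cluster

/-!
# Count : colouring a triangulated sphere with a root, and bounding the clusters

`root_top`: `root_disc` gives `C` (length at least 3), write `C = c1 :: B`, `A = [c1]`, `J = T.F.filter (r ∉ ·)`.
Initial state `s0 = fun _ => ⟨0, (r, r, r), 2, fun _ => r, r⟩`. `Inv T D s0 J [c1] B 0 0`: no cuts, potential `0`,
`mode`: second alternative. `solve` gives `s` with `Post`, `s = s0` off `K = inn J C`.
Every `v ∈ vs T.F`, `v ≠ r` is in `C` or in `K`.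

`cluster_bound`: for a label `X` let `N i` = number of the `v` (`≠ r`, in `C ∪ K`) with kind `i`, label `X`.
 `N 1 ≤ Lm D` (`seg`; members of `C` have kind 2). `N 2 ≤ 2 D`: each is adjacent to an end of `X`
 (`k2`; members of `C` are adjacent to `r`, an end of `(r,r,r)`). `N 3 ≤ 1` (`k3`: `X = (v,v,v)`).
 `N 4 ≤ 2 N 1`: `v` is determined by `(m, i)`, `(s m).oc i = v`, `m` main with label `X`.
 `3 D * N 5 ≤ D (N 1 + N 2)`: the sets `{q | (s q).win = v, q ~ some u of kind 1, 2 and label X}` for the
 different `v` of kind 5 and label `X` are disjoint, of size `≥ 3 D`, contained in the set of neighbours of the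
 `N 1 + N 2` vertices `u` (the `u` are in `C ∪ K`: neighbours of `q ∈ K`). As `D ≥ 1`, `3 N 5 ≤ N 1 + N 2`.
 Total `≤ 3 Lm D + 2 D + 1 + (Lm D + 2 D)/3 ≤ 1000 D`.
Colouring `f r = 1`, `f v = (s v).col` for `v ≠ r`: all neighbours of `r` are in `C`, colour `0`.
A monochromatic component (in `T.gr`) of `v ≠ r` in `vs T.F` stays off `r` and has constant label: an edge `uv`
with both ends `≠ r`: if one is in `K`: `adj` (kinds are `≠ 0`); if both in `C`: both labels are `(r, r, r)`.
(`D ≥ 1` because `r ∈ vs T.F` has a neighbour.)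
-/

set_option autoImplicit false
open Classical

namespace CC3

variable {V : Type} [Fintype V]

theorem sph_colouring {T : Sph V} {D : ℕ} (hD : DegLe T.gr D) {r : V} (hr : r ∈ vs T.F) :
    ∃ f : V → Fin 3, (∀ u, T.gr.Adj r u → f u ≠ f r) ∧ ∀ v ∈ vs T.F,
      (Finset.univ.filter (fun u =>
        Relation.ReflTransGen (fun x y => T.gr.Adj x y ∧ f x = f y) v u)).card ≤ 1000 * D := by
  obtain ⟨s, C, K, hrC, hrK, hC, hcov, hCK, hK, hCs, hg, hseg, hadj⟩ := root_top hD hr
  have hD1 : 1 ≤ D := by
    obtain ⟨t, ht, hrt⟩ := Finset.mem_biUnion.1 hr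
    have hrt' : r ∈ t := hrt
    have h3 := T.card3 t ht
    have hex : ∃ u ∈ t, u ≠ r := by
      by_contra hcon
      push Not at hcon
      have hsub : t ⊆ {r} := fun u hu => Finset.mem_singleton.2 (hcon u hu)
      have := Finset.card_le_card hsub
      rw [Finset.card_singleton] at this
      omega
    obtain ⟨u, hu, hur⟩ := hex
    have h1 : u ∈ Finset.univ.filter (fun u => T.gr.Adj r u) :=
      Finset.mem_filter.2 ⟨Finset.mem_univ u, ⟨Ne.symm hur, t, ht, hrt', hu⟩⟩
    exact le_trans (Finset.card_pos.2 ⟨u, h1⟩) (hD r)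
  have hfr : ∀ v, v ≠ r → (if v = r then (1 : Fin 3) else (s v).col) = (s v).col :=
    fun v hv => if_neg hv
  have hroot : ∀ u, T.gr.Adj r u →
      (if u = r then (1 : Fin 3) else (s u).col) ≠ (if r = r then (1 : Fin 3) else (s r).col) := by
    intro u hu
    have hne : u ≠ r := fun h => T.gr.loopless.irrefl r (h ▸ hu)
    rw [hfr u hne, if_pos rfl, (hCs u ((hC u).1 hu)).1]
    decide
  refine ⟨fun v => if v = r then 1 else (s v).col, hroot, ?_⟩
  intro v hv
  by_cases hvr : v = r
  · refine le_trans (Finset.card_le_card (t := {r}) ?_) ?_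
    · intro u hu
      simp only [Finset.mem_filter, Finset.mem_univ, true_and] at hu
      rw [Finset.mem_singleton]
      induction hu with
      | refl => exact hvr
      | @tail x y _ hstep ih =>
        exfalso
        obtain ⟨hxy, hfe⟩ := hstep
        rw [ih] at hxy hfe
        exact hroot y hxy hfe.symm
    · rw [Finset.card_singleton]; omega
  · have hvCK : v ∈ C ∨ v ∈ K := by
      rcases hcov v hv with h | h
      · exact absurd h hvr
      · exact h
    refine le_trans (Finset.card_le_card ?_)
      (cluster_bound hD hD1 hC hCK hK hCs hg hseg (s v).lab)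
    intro u hu
    simp only [Finset.mem_filter, Finset.mem_univ, true_and] at hu ⊢
    induction hu with
    | refl => exact ⟨hvCK, rfl⟩
    | @tail x y _ hstep ih =>
      obtain ⟨hx, hxl⟩ := ih
      obtain ⟨hxy, hfe⟩ := hstep
      have hxr : x ≠ r := by
        rintro rfl
        rcases hx with h | h
        · exact hrC h
        · exact hrK h
      have hyr : y ≠ r := by
        rintro rfl
        exact hroot x hxy.symm hfe
      have hyCK : y ∈ C ∨ y ∈ K := by
        have hyv : y ∈ vs T.F := by
          obtain ⟨_, t, ht, _, hyt⟩ := hxy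
          exact Finset.mem_biUnion.2 ⟨t, ht, hyt⟩
        rcases hcov y hyv with h | h
        · exact absurd h hyr
        · exact h
      refine ⟨hyCK, ?_⟩
      rw [← hxl]
      rw [hfr x hxr, hfr y hyr] at hfe
      rcases hx with h | h
      · rcases hyCK with h' | h'
        · rw [(hCs x h).2.2, (hCs y h').2.2]
        · exact (hadj y h' x hxy.symm hfe).symm
      · exact hadj x h y hxy hfe.symm

end CC3
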