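import Pool.Agent.Work.MP_3035da_co.K.Kur
import Pool.Agent.Work.MP_3035da_co.T.Main
import Pool.Agent.Work.MP_3035da_co.Bridge
import Pool.Agent.Work.MP_3035da_co.Count
import Pool.Agent.Work.MP_3035da_co.BGlue

/-!
# BBlock : the colouring of one block, and of the whole graph

* `bblock_sph`: `K.kfree_plane`, `K.triangulate` (helper68, parts K and T) for `resg G W`, `sph_of_faces`.
* `rc_block`: `sph_colouring`, restricted to the block and with permuted colours.
* `rc_all`: strong induction on `W.card`. `W.card ≤ 3`: `rc_small`. If `¬ Cn G W`: cut `X`,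
  `rc_disj`. If for some `s` `¬ Cn G (W \ {s})`: `rc_cut`. Otherwise `rc_block`.
-/

set_option autoImplicit false
open Classical

namespace CC3

open Pool.Agent.Work.MP_3035da_co

variable {V : Type} [Fintype V]

/-- the sphere around one block -/
private theorem bblock_sph {G : SimpleGraph V} {W : Finset V} {D : ℕ}
    (h2 : ∀ s, Cn G (W \ {s})) (h4 : 4 ≤ W.card) (hK : K.KFree G) (hD : DegLe G D) :
    ∃ (V' : Type) (_ : Fintype V') (T : Sph V') (e : V → V'), Function.Injective e ∧
      (∀ u v, (resg G W).Adj u v → T.gr.Adj (e u) (e v)) ∧ DegLe T.gr (3 * D + 6) := by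
  have hle : resg G W ≤ G := fun a b h => h.1
  have hK' : K.KFree (resg G W) := K.KFree.mono hle hK
  have hD' : ∀ v, ((resg G W).neighborSet v).ncard ≤ D := fun v => by
    refine le_trans ?_ (hD v)
    rw [← Set.ncard_coe_finset]
    refine Set.ncard_le_ncard ?_ (Set.toFinite _)
    intro u hu
    simp only [Finset.coe_filter, Finset.mem_univ, true_and]
    exact hle hu
  obtain ⟨W', hW', φ, G', m, g, hf, hc, ht, hadj, hdeg⟩ :=
    K.triangulate (K.kfree_plane hK') (twoConn_of_cn h2) hD'
  have h4' : 4 ≤ (Finset.univ.filter (fun v => ∃ u, G'.Adj v u)).card := by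
    refine le_trans h4 ?_
    rw [← Finset.card_map φ]
    refine Finset.card_le_card ?_
    intro x hx
    obtain ⟨v, hv, rfl⟩ := Finset.mem_map.1 hx
    obtain ⟨u, hu⟩ := nonisol_of_cn (by omega) h2 hv
    exact Finset.mem_filter.2 ⟨Finset.mem_univ _, φ u, hadj v u hu⟩
  obtain ⟨T, hT⟩ := sph_of_faces hf hc ht h4'
  refine ⟨W', hW', T, φ, φ.injective, ?_, ?_⟩
  · intro u v huv
    rw [hT]
    exact hadj u v huv
  · intro w
    rw [hT]
    refine le_trans (le_of_eq ?_) (hdeg w)
    rw [← Set.ncard_coe_finset]
    congr 1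
    ext u
    simp

theorem rc_block {G : SimpleGraph V} {W : Finset V} {D : ℕ} (h2 : ∀ s, Cn G (W \ {s}))
    (h4 : 4 ≤ W.card) (hK : K.KFree G) (hD : DegLe G D) : RC G W (1000 * (3 * D + 6)) := by
  obtain ⟨V', _, T, e, he, hadj, hdeg⟩ := bblock_sph h2 h4 hK hD
  intro r hr c
  have hvs : ∀ v ∈ W, e v ∈ vs T.F := by
    intro v hv
    obtain ⟨a, ha⟩ := nonisol_of_cn (by omega) h2 hv
    obtain ⟨_, t, ht, h1, _⟩ := hadj v a ha
    exact Finset.mem_biUnion.2 ⟨t, ht, h1⟩
  obtain ⟨f', hf1, hf2⟩ := sph_colouring hdeg (hvs r hr)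
  let π : Equiv.Perm (Fin 3) := Equiv.swap (f' (e r)) c
  have hπ : π (f' (e r)) = c := Equiv.swap_apply_left _ _
  refine ⟨fun v => π (f' (e v)), hπ, ?_, ?_⟩
  · intro u hu hru heq
    have h1 : f' (e u) = f' (e r) := π.injective heq
    exact hf1 (e u) (hadj r u ⟨hru, hr, hu⟩) h1
  · intro v hv
    refine le_trans ?_ (hf2 (e v) (hvs v hv))
    refine Finset.card_le_card_of_injOn e ?_ (he.injOn)
    intro u hu
    simp only [Finset.coe_filter, Finset.mem_univ, true_and] at hu ⊢
    change Relation.ReflTransGen (MR G W (fun v => π (f' (e v)))) v u at hu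
    change Relation.ReflTransGen (fun x y => T.gr.Adj x y ∧ f' x = f' y) (e v) (e u)
    induction hu with
    | refl => exact Relation.ReflTransGen.refl
    | @tail x y _ hstep ih =>
      obtain ⟨hxy, hx, hy, hfe⟩ := hstep
      exact ih.tail ⟨hadj x y ⟨hxy, hx, hy⟩, π.injective hfe⟩

private theorem bblock_cut {G : SimpleGraph V} {U : Finset V} (h : ¬ Cn G U) :
    ∃ X ⊆ U, X.Nonempty ∧ (U \ X).Nonempty ∧ ∀ a ∈ X, ∀ b ∈ U \ X, ¬ G.Adj a b := by
  unfold Cn at h
  push Not at h
  obtain ⟨X, hX, hne, hneq, hno⟩ := h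
  refine ⟨X, hX, hne, ?_, hno⟩
  rw [Finset.sdiff_nonempty]
  exact fun hsub => hneq (Finset.Subset.antisymm hX hsub)

theorem rc_all {G : SimpleGraph V} {D : ℕ} (hK : K.KFree G) (hD : DegLe G D) (W : Finset V) :
    RC G W (1000 * (3 * D + 6)) := by
  induction hn : W.card using Nat.strong_induction_on generalizing W with
  | _ n IH =>
    subst hn
    by_cases hc2 : W.card ≤ 3
    · exact rc_small (by omega) (by omega)
    by_cases hcn : Cn G W
    · by_cases hcs : ∀ s, Cn G (W \ {s})
      · exact rc_block hcs (by omega) hK hD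
      · push Not at hcs
        obtain ⟨s, hs⟩ := hcs
        have hsW : s ∈ W := by
          by_contra hsn
          apply hs
          have : W \ {s} = W := by
            ext v
            rw [Finset.mem_sdiff, Finset.mem_singleton]
            exact ⟨fun h => h.1, fun h => ⟨h, fun h' => hsn (h' ▸ h)⟩⟩
          rw [this]
          exact hcn
        obtain ⟨X, hX, hXne, hYne, hno⟩ := bblock_cut hs
        have hcard : (W \ {s}).card + 1 = W.card := by
          have h4 : ({s} : Finset V) ⊆ W := by
            intro v hv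
            rw [Finset.mem_singleton] at hv
            subst hv
            exact hsW
          have h5 := Finset.card_sdiff_of_subset h4
          rw [Finset.card_singleton] at h5
          omega
        have h6 := Finset.card_sdiff_of_subset hX
        have h7 := hXne.card_pos
        have h8 := hYne.card_pos
        have h9 := Finset.card_le_card hX
        refine rc_cut hsW hX hno (IH _ ?_ _ rfl) (IH _ ?_ _ rfl)
        · have := Finset.card_insert_le s X
          omega
        · have := Finset.card_insert_le s ((W \ {s}) \ X)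
          omega
    · obtain ⟨X, hX, hXne, hYne, hno⟩ := bblock_cut hcn
      have h6 := Finset.card_sdiff_of_subset hX
      have h7 := hXne.card_pos
      have h8 := hYne.card_pos
      have h9 := Finset.card_le_card hX
      refine rc_disj hX hno (IH _ ?_ _ rfl) (IH _ ?_ _ rfl)
      · omega
      · omega

end CC3
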