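import Pool.Agent.Work.MP_3035da_co.ChainEven

/-!
# Connect : consequences of connectivity in cut form

* `Cn.reach`: let `X` be the set of `w ∈ U` reachable from `u` inside `U`
  (`Relation.ReflTransGen (fun a b => G.Adj a b ∧ a ∈ U ∧ b ∈ U) u w`). If `X ≠ U`, `Cn` gives an edge
  leaving `X`, contradiction.
* `Cn.chain`: induction on `ReflTransGen` from `Cn.reach`, adding `ed` of each step (`sum_ed`).
* `cn_of_reach`: the converse of `Cn.reach`.
* `Cn.insert`: if `U` is connected and the new vertex `x` has a neighbour in `U` then `insert x U` is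
  connected.
-/

set_option autoImplicit false
open Classical

namespace CC3

variable {V : Type}

theorem Cn.reach {G : SimpleGraph V} {U : Finset V} (h : Cn G U) {u v : V} (hu : u ∈ U)
    (hv : v ∈ U) : Relation.ReflTransGen (fun a b => G.Adj a b ∧ a ∈ U ∧ b ∈ U) u v := by
  by_contra hcon
  set X := U.filter (fun w => Relation.ReflTransGen (fun a b => G.Adj a b ∧ a ∈ U ∧ b ∈ U) u w)
    with hX
  obtain ⟨a, ha, b, hb, hab⟩ := h X (Finset.filter_subset _ _)
    ⟨u, Finset.mem_filter.2 ⟨hu, Relation.ReflTransGen.refl⟩⟩ (fun he => by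
      have : v ∈ X := by rw [he]; exact hv
      exact hcon (Finset.mem_filter.1 this).2)
  obtain ⟨hbU, hbX⟩ := Finset.mem_sdiff.1 hb
  obtain ⟨haU, hua⟩ := Finset.mem_filter.1 ha
  exact hbX (Finset.mem_filter.2 ⟨hbU, hua.tail ⟨hab, haU, hbU⟩⟩)

theorem cn_of_reach {G : SimpleGraph V} {U : Finset V} (u : V) (hu : u ∈ U)
    (h : ∀ v ∈ U, Relation.ReflTransGen (fun a b => G.Adj a b ∧ a ∈ U ∧ b ∈ U) u v) :
    Cn G U := by
  have _ := hu
  intro X hXU hXn hXne
  by_contra hno
  push Not at hno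
  have key : ∀ w, Relation.ReflTransGen (fun a b => G.Adj a b ∧ a ∈ U ∧ b ∈ U) u w →
      (u ∈ X ↔ w ∈ X) := by
    intro w hw
    induction hw with
    | refl => exact Iff.rfl
    | @tail b c _ hbc ih =>
      rw [ih]
      obtain ⟨hadj, hb, hc⟩ := hbc
      constructor
      · intro hbX
        by_contra hcX
        exact hno b hbX c (Finset.mem_sdiff.2 ⟨hc, hcX⟩) hadj
      · intro hcX
        by_contra hbX
        exact hno c hcX b (Finset.mem_sdiff.2 ⟨hb, hbX⟩) hadj.symm
  obtain ⟨x, hx⟩ := hXn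
  have huX : u ∈ X := (key x (h x (hXU hx))).2 hx
  apply hXne
  apply Finset.Subset.antisymm hXU
  intro v hv
  exact (key v (h v hv)).1 huX

theorem Cn.insert {G : SimpleGraph V} {U : Finset V} (h : Cn G U) {x y : V} (hy : y ∈ U)
    (hxy : G.Adj x y) : Cn G (Insert.insert x U) := by
  have hy' : y ∈ Insert.insert x U := Finset.mem_insert_of_mem hy
  have hx' : x ∈ Insert.insert x U := Finset.mem_insert_self _ _
  refine cn_of_reach y hy' fun v hv => ?_
  rcases Finset.mem_insert.1 hv with rfl | hvU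
  · exact Relation.ReflTransGen.single ⟨hxy.symm, hy', hx'⟩
  · have h4 := h.reach hy hvU
    exact Relation.ReflTransGen.mono (p := fun a b => G.Adj a b ∧ a ∈ Insert.insert x U ∧
      b ∈ Insert.insert x U) (fun a b h5 => ⟨h5.1, Finset.mem_insert_of_mem h5.2.1,
      Finset.mem_insert_of_mem h5.2.2⟩) _ _ h4

theorem Cn.mono {G G' : SimpleGraph V} {U : Finset V} (h : Cn G U)
    (hG : ∀ a ∈ U, ∀ b ∈ U, G.Adj a b → G'.Adj a b) : Cn G' U := by
  intro X hXU hXn hXne
  obtain ⟨a, ha, b, hb, hab⟩ := h X hXU hXn hXne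
  exact ⟨a, ha, b, hb, hG a (hXU ha) b (Finset.mem_sdiff.1 hb).1 hab⟩

theorem Cn.chain [Fintype V] {G : SimpleGraph V} {U : Finset V} (h : Cn G U) {u v : V}
    (hu : u ∈ U) (hv : v ∈ U) :
    ∃ q : Ch V, SymC q ∧ (∀ a b, q a b ≠ 0 → G.Adj a b ∧ a ∈ U ∧ b ∈ U) ∧
      ∀ w, ∑ x, q w x = (if w = u then 1 else 0) + (if w = v then 1 else 0) := by
  induction h.reach hu hv with
  | refl =>
    refine ⟨0, symC_zero, fun a b hab => absurd rfl hab, fun w => ?_⟩
    simp only [Pi.zero_apply, Finset.sum_const_zero]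
    exact (CharTwo.add_self_eq_zero _).symm
  | @tail b c _ hbc ih =>
    obtain ⟨hadj, hb, hc⟩ := hbc
    obtain ⟨q, hq1, hq2, hq3⟩ := ih hb
    refine ⟨q + ed b c, symC_add hq1 (symC_ed b c), fun x y hxy => ?_, fun w => ?_⟩
    · by_cases hq : q x y = 0
      · rw [Pi.add_apply, Pi.add_apply, hq, zero_add] at hxy
        have h1 : b ≠ c ∧ ((x = b ∧ y = c) ∨ (x = c ∧ y = b)) := by
          by_contra h2
          exact hxy (if_neg h2)
        rcases h1.2 with ⟨rfl, rfl⟩ | ⟨rfl, rfl⟩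
        · exact ⟨hadj, hb, hc⟩
        · exact ⟨hadj.symm, hc, hb⟩
      · exact hq2 x y hq
    · have h1 : ∑ x, (q + ed b c) w x = ∑ x, q w x + ∑ x, ed b c w x := by
        rw [← Finset.sum_add_distrib]
        rfl
      rw [h1, hq3, sum_ed]
      have h2 : ∀ p q r : ZMod 2, (p + q) + (q + r) = p + r := by decide
      exact h2 _ _ _

end CC3
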