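import Pool.Agent.Work.MP_3035da_co.DBasic
import Pool.Agent.Work.MP_3035da_co.Connect

/-!
# DChordless : discs without chords

* `Disc.apex`: `bedge` gives the triangle `t = {a, b, x}`. If `x ∈ C` then `JA J a x`, `JA J b x`, so
  `cyc C a x = cyc C b x = cyc C a b = 1`, so all edges of `bd {t}` are in `cyc C`; `sub_cyc` gives
  `bd {t} = cyc C = bd J` so `bd (J \ {t}) = 0`, `J \ {t} = ∅` by `T.closed` (`t ∉ J \ {t}` so it is
  not `T.F`), so `J = {t}`, all vertices of which are in `C`; contradiction to the interior vertex.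
* `Disc.base`: the same computation: `J = {t}` and `C` has 3 members (`C.toFinset ⊆ t`, by `Disc.mem_vs`).
* `Disc.int_conn`: suppose `X ⊆ K = inn J C`, `X ≠ ∅, K`, no edge between `X` and `K \ X`. Let
  `Z = {t ∈ J | t ∩ X ≠ ∅}`. For an edge `uv` (`u ≠ v`): if `u ∈ X` or `v ∈ X`, both triangles of `uv`
  in `T` are in `J` (`allin`) and in `Z`: `bd Z u v = 0`. If `u ∈ K \ X` (or `v`): no triangle containing
  `u` meets `X`: `bd Z u v = 0`. If `u, v ∈ C` and `bd Z u v ≠ 0` then `JA J u v` so `cyc C u v = 1`. Hence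
  `bd Z ≤ cyc C`; by `sub_cyc` `bd Z = 0` or `= cyc C`. `bd Z = 0`: by `T.closed` `Z = ∅` (false, `X ≠ ∅`)
  or `Z = T.F`, then `J = T.F` and `bd J = 0 ≠ cyc C`. `bd Z = cyc C`: `bd (J \ Z) = 0`, so `J \ Z = ∅` (it is
  not `T.F`), but the triangles at a vertex of `K \ X` are in `J \ Z`.
-/

set_option autoImplicit false
open Classical

namespace CC3

variable {V : Type} [Fintype V]

theorem bd_F (T : Sph V) : bd T.F = 0 := by
  funext u v
  simp only [bd, Pi.zero_apply]
  by_cases huv : u = v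
  · rw [if_pos huv]
  · rw [if_neg huv]
    by_cases h : ∃ t ∈ T.F, u ∈ t ∧ v ∈ t
    · rw [T.edge2 u v huv h]; rfl
    · rw [Finset.filter_eq_empty_iff.mpr (fun {t} ht hh => h ⟨t, ht, hh⟩)]
      simp

private theorem bd_ex {J : Finset (Finset V)} {u v : V} (h : bd J u v ≠ 0) :
    u ≠ v ∧ ∃ t ∈ J, u ∈ t ∧ v ∈ t := by
  simp only [bd] at h
  by_cases huv : u = v
  · rw [if_pos huv] at h; exact absurd rfl h
  · rw [if_neg huv] at h
    refine ⟨huv, ?_⟩
    by_contra hcon
    push Not at hcon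
    apply h
    rw [Finset.filter_eq_empty_iff.mpr (fun {t} ht hh => hcon t ht hh.1 hh.2)]
    simp

private theorem cyc_ne_zero {l : List V} (hl : l.Nodup) (h3 : 3 ≤ l.length) : cyc l ≠ 0 := by
  intro h0
  obtain ⟨v, hv⟩ := List.exists_mem_of_length_pos (l := l) (by omega)
  obtain ⟨p, s, _, _, _, hn⟩ := cyc_nbrs hl h3 hv
  have h1 := (hn p).mpr (Or.inl rfl)
  rw [h0] at h1
  exact absurd h1 (by simp)

private theorem tri_all {T : Sph V} {J : Finset (Finset V)} {C : List V} (h : Disc T J C)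
    {a b x : V} (ht : ({a, b, x} : Finset V) ∈ J) (hab : cyc C a b = 1) (hbx : cyc C b x = 1)
    (hxa : cyc C x a = 1) : ∀ t ∈ J, t = {a, b, x} := by
  have nab : a ≠ b := (cyc_mem (by rw [hab]; decide)).2.2
  have nbx : b ≠ x := (cyc_mem (by rw [hbx]; decide)).2.2
  have nxa : x ≠ a := (cyc_mem (by rw [hxa]; decide)).2.2
  have hb3 := bd_tri nab nbx nxa
  have hed : ∀ p q u v : V, ed p q u v ≠ 0 → cyc C p q = 1 → cyc C u v ≠ 0 := by
    intro p q u v huv hpq
    simp only [ed] at huv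
    split_ifs at huv with h2
    · rcases h2.2 with ⟨rfl, rfl⟩ | ⟨rfl, rfl⟩
      · rw [hpq]; decide
      · rw [symC_cyc C, hpq]; decide
    · exact absurd rfl huv
  have hle : ∀ u v, bd {({a, b, x} : Finset V)} u v ≠ 0 → cyc C u v ≠ 0 := by
    intro u v huv
    rw [hb3] at huv
    simp only [Pi.add_apply] at huv
    by_cases g1 : ed a b u v = 0
    · by_cases g2 : ed b x u v = 0
      · by_cases g3 : ed x a u v = 0
        · rw [g1, g2, g3] at huv
          exact absurd (by simp) huv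
        · exact hed _ _ _ _ g3 hxa
      · exact hed _ _ _ _ g2 hbx
    · exact hed _ _ _ _ g1 hab
  have hev : EvnC (bd {({a, b, x} : Finset V)}) := by
    apply evn_bd
    intro t ht'
    rw [Finset.mem_singleton] at ht'
    rw [ht']
    exact T.card3 _ (h.sub ht)
  have hne : bd {({a, b, x} : Finset V)} ≠ 0 := by
    intro h0
    have h1 : bd {({a, b, x} : Finset V)} a b = 1 := by
      simp only [bd]
      rw [if_neg nab, Finset.filter_singleton, if_pos ⟨by simp, by simp⟩]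
      simp
    rw [h0] at h1
    exact absurd h1 (by simp)
  have hJ : bd (J.erase {a, b, x}) = 0 := by
    rcases sub_cyc h.nd h.len (symC_bd _) hev hle with h1 | h1
    · exact absurd h1 hne
    · rw [bd_erase ht, h.bdy, h1, ch_add_self]
  rcases T.closed _ ((Finset.erase_subset _ _).trans h.sub) hJ with h1 | h1
  · intro t ht'
    by_contra hcon
    have : t ∈ J.erase {a, b, x} := Finset.mem_erase.mpr ⟨hcon, ht'⟩
    rw [h1] at this
    exact Finset.notMem_empty _ this
  · exfalso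
    have : ({a, b, x} : Finset V) ∈ J.erase {a, b, x} := by rw [h1]; exact h.sub ht
    exact (Finset.mem_erase.mp this).1 rfl

theorem Disc.apex {T : Sph V} {J : Finset (Finset V)} {C : List V} (h : Disc T J C)
    (hc : Chordless J C) (hn : (inn J C).Nonempty) {a b : V} (hab : cyc C a b = 1) :
    ∃ x ∈ inn J C, ({a, b, x} : Finset V) ∈ J ∧ ∀ t ∈ J, a ∈ t → b ∈ t → t = {a, b, x} := by
  obtain ⟨x, hxa, hxb, hx, hu⟩ := h.bedge hab
  refine ⟨x, ?_, hx, hu⟩
  rw [mem_inn]
  refine ⟨⟨_, hx, by simp⟩, fun hxC => ?_⟩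
  have hm := cyc_mem (l := C) (u := a) (v := b) (by rw [hab]; decide)
  have h1 : cyc C b x = 1 := hc b hm.2.1 x hxC ⟨hxb.symm, _, hx, by simp, by simp⟩
  have h2 : cyc C x a = 1 := hc x hxC a hm.1 ⟨hxa, _, hx, by simp, by simp⟩
  have h3 := tri_all h hx hab h1 h2
  obtain ⟨v, hv⟩ := hn
  rw [mem_inn] at hv
  obtain ⟨⟨t, ht, hvt⟩, hvC⟩ := hv
  rw [h3 t ht] at hvt
  simp only [Finset.mem_insert, Finset.mem_singleton] at hvt
  rcases hvt with rfl | rfl | rfl
  · exact hvC hm.1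
  · exact hvC hm.2.1
  · exact hvC hxC

theorem Disc.base {T : Sph V} {J : Finset (Finset V)} {C : List V} (h : Disc T J C)
    (hc : Chordless J C) (hn : inn J C = ∅) : C.length = 3 := by
  have hlen := h.len
  obtain ⟨a, ha⟩ := List.exists_mem_of_length_pos (l := C) (by omega)
  obtain ⟨b, s, _, _, _, hnb⟩ := cyc_nbrs h.nd h.len ha
  have hab : cyc C a b = 1 := (hnb b).mpr (Or.inl rfl)
  obtain ⟨x, hxa, hxb, hx, hu⟩ := h.bedge hab
  have hm := cyc_mem (l := C) (u := a) (v := b) (by rw [hab]; decide)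
  have hxC : x ∈ C := by
    by_contra hcon
    have : x ∈ inn J C := mem_inn.mpr ⟨⟨_, hx, by simp⟩, hcon⟩
    rw [hn] at this
    exact Finset.notMem_empty _ this
  have h1 : cyc C b x = 1 := hc b hm.2.1 x hxC ⟨hxb.symm, _, hx, by simp, by simp⟩
  have h2 : cyc C x a = 1 := hc x hxC a hm.1 ⟨hxa, _, hx, by simp, by simp⟩
  have h3 := tri_all h hx hab h1 h2
  have h4 : C.toFinset ⊆ ({a, b, x} : Finset V) := by
    intro v hv
    rw [List.mem_toFinset] at hv
    obtain ⟨t, ht, hvt⟩ := CC3.mem_vs.mp (h.mem_vs hv)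
    rw [h3 t ht] at hvt
    exact hvt
  have h5 := Finset.card_le_card h4
  rw [List.toFinset_card_of_nodup h.nd] at h5
  have h6 : ({a, b, x} : Finset V).card ≤ 3 := Finset.card_le_three
  omega

theorem Disc.int_conn {T : Sph V} {J : Finset (Finset V)} {C : List V} (h : Disc T J C)
    (hc : Chordless J C) : Cn T.gr (inn J C) := by
  intro X hXU hXne hXU'
  by_contra hcon
  push Not at hcon
  have hno : ∀ t ∈ J, ∀ w ∈ X, w ∈ t → ∀ y ∈ t, y ∈ inn J C → y ∈ X := by
    intro t ht w hw hwt y hyt hy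
    by_contra hyX
    apply hcon w hw y (Finset.mem_sdiff.mpr ⟨hy, hyX⟩)
    exact ⟨fun hwy => hyX (hwy ▸ hw), t, h.sub ht, hwt, hyt⟩
  set Z := J.filter (fun t => ∃ w ∈ X, w ∈ t) with hZ
  have hZJ : Z ⊆ J := Finset.filter_subset _ _
  have hX0 : ∀ u ∈ X, ∀ v, bd Z u v = 0 := by
    intro u hu v
    by_cases huv : u = v
    · subst huv; simp [bd]
    have h1 : bd Z u v = bd T.F u v := by
      simp only [bd]
      rw [if_neg huv, if_neg huv]
      congr 2
      ext t
      simp only [hZ, Finset.mem_filter]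
      constructor
      · rintro ⟨⟨g1, _⟩, g2⟩
        exact ⟨h.sub g1, g2⟩
      · rintro ⟨g1, g2⟩
        exact ⟨⟨h.allin (hXU hu) g1 g2.1, u, hu, g2.1⟩, g2⟩
    rw [h1, bd_F]
    rfl
  have hle : ∀ u v, bd Z u v ≠ 0 → cyc C u v ≠ 0 := by
    intro u v huv
    have hu : u ∉ X := fun hu => huv (hX0 u hu v)
    have hv : v ∉ X := fun hv => huv (by rw [symC_bd Z]; exact hX0 v hv u)
    obtain ⟨hne, t, htZ, hut, hvt⟩ := bd_ex huv
    obtain ⟨htJ, w, hw, hwt⟩ := Finset.mem_filter.mp htZ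
    have huC : u ∈ C := by
      by_contra hC
      exact hu (hno t htJ w hw hwt u hut (mem_inn.mpr ⟨⟨t, htJ, hut⟩, hC⟩))
    have hvC : v ∈ C := by
      by_contra hC
      exact hv (hno t htJ w hw hwt v hvt (mem_inn.mpr ⟨⟨t, htJ, hvt⟩, hC⟩))
    rw [hc u huC v hvC ⟨hne, t, htJ, hut, hvt⟩]
    decide
  have hev : EvnC (bd Z) := evn_bd (fun t ht => T.card3 t (h.sub (hZJ ht)))
  obtain ⟨w, hw⟩ := hXne
  obtain ⟨⟨t0, ht0, hwt0⟩, _⟩ := mem_inn.mp (hXU hw)
  have ht0Z : t0 ∈ Z := Finset.mem_filter.mpr ⟨ht0, w, hw, hwt0⟩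
  rcases sub_cyc h.nd h.len (symC_bd _) hev hle with h1 | h1
  · rcases T.closed Z (hZJ.trans h.sub) h1 with h2 | h2
    · rw [h2] at ht0Z
      exact Finset.notMem_empty _ ht0Z
    · have hJ : J = T.F := Finset.Subset.antisymm h.sub (h2 ▸ hZJ)
      have h3 := h.bdy
      rw [hJ, bd_F] at h3
      exact cyc_ne_zero h.nd h.len h3.symm
  · have h2 : bd (J \ Z) = 0 := by
      rw [bd_sdiff hZJ, h.bdy, h1, ch_add_self]
    rcases T.closed (J \ Z) (Finset.sdiff_subset.trans h.sub) h2 with h3 | h3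
    · obtain ⟨y, hy, hyX⟩ : ∃ y ∈ inn J C, y ∉ X := by
        by_contra hall
        push Not at hall
        exact hXU' (Finset.Subset.antisymm hXU hall)
      obtain ⟨⟨t, ht, hyt⟩, _⟩ := mem_inn.mp hy
      have htZ : t ∉ Z := by
        intro htZ
        obtain ⟨_, w', hw', hwt'⟩ := Finset.mem_filter.mp htZ
        exact hyX (hno t ht w' hw' hwt' y hyt hy)
      have : t ∈ J \ Z := Finset.mem_sdiff.mpr ⟨ht, htZ⟩
      rw [h3] at this
      exact Finset.notMem_empty _ this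
    · have : t0 ∈ J \ Z := by rw [h3]; exact h.sub ht0
      exact (Finset.mem_sdiff.mp this).2 ht0Z

end CC3
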