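import Pool.Agent.Work.MP_3035da_co.CSym
import Pool.Agent.Work.MP_3035da_co.DChordless

/-!
# CBase : chordless disc without interior vertices

`K = inn J (A ++ B) = ∅`; take `s' = s`. All fields of `Post` are vacuous except `repA`, `repB`:
by `Disc.base` `(A ++ B).length = 3`, so any two different members are consecutive on the cyclic list
(`cyc_nbrs`), so for `r ∈ A` and any `b ∈ B` (`B ≠ []`) `cyc (A ++ B) r b = 1`, `JA J r b`
(`Disc.ja_of_cyc`): the first half of `Rep` is vacuous, the second does not apply.
-/

set_option autoImplicit false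
open Classical

namespace CC3

variable {V : Type} [Fintype V]

theorem step_base {T : Sph V} {D : ℕ} {s : Stt V} {J : Finset (Finset V)} {A B : List V}
    {a b : Fin 3} (inv : Inv T D s J A B a b) (hc : Chordless J (A ++ B))
    (hn : inn J (A ++ B) = ∅) : Solv T D s J A B a b := by
  have hlen : (A ++ B).length = 3 := inv.disc.base hc hn
  have hnd : (A ++ B).Nodup := inv.disc.nd
  have hne : ∀ x ∈ A, ∀ y ∈ B, x ≠ y := (List.nodup_append.1 hnd).2.2
  have key : ∀ x ∈ A ++ B, ∀ y ∈ A ++ B, x ≠ y → JA J x y := by
    intro x hx y hy hxy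
    obtain ⟨p, q, hpq, hpx, hqx, hall⟩ := cyc_nbrs hnd hlen.ge hx
    have hp : p ∈ A ++ B := (cyc_mem (ne_of_eq_of_ne ((hall p).2 (Or.inl rfl)) one_ne_zero)).2.1
    have hq : q ∈ A ++ B := (cyc_mem (ne_of_eq_of_ne ((hall q).2 (Or.inr rfl)) one_ne_zero)).2.1
    refine inv.disc.ja_of_cyc ((hall y).2 ?_)
    by_contra hcon
    have h1 : y ≠ p := fun h => hcon (Or.inl h)
    have h2 : y ≠ q := fun h => hcon (Or.inr h)
    have h4 : ({x, y, p, q} : Finset V) ⊆ (A ++ B).toFinset := by
      intro z hz
      simp only [Finset.mem_insert, Finset.mem_singleton] at hz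
      rw [List.mem_toFinset]
      rcases hz with rfl | rfl | rfl | rfl
      · exact hx
      · exact hy
      · exact hp
      · exact hq
    have h5 : ({x, y, p, q} : Finset V).card = 4 := by
      rw [Finset.card_insert_of_notMem, Finset.card_insert_of_notMem, Finset.card_insert_of_notMem,
        Finset.card_singleton]
      · simpa using hpq
      · simp only [Finset.mem_insert, Finset.mem_singleton]
        rintro (h | h)
        · exact h1 h
        · exact h2 h
      · simp only [Finset.mem_insert, Finset.mem_singleton]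
        rintro (h | h | h)
        · exact hxy h
        · exact hpx h.symm
        · exact hqx h.symm
    have h6 := Finset.card_le_card h4
    have h7 := List.toFinset_card_le (A ++ B)
    omega
  have hmA : ∀ x ∈ A, x ∈ A ++ B := fun x hx => List.mem_append_left _ hx
  have hmB : ∀ x ∈ B, x ∈ A ++ B := fun x hx => List.mem_append_right _ hx
  refine ⟨s, fun _ _ => rfl, ?_, ?_, ?_, ?_, ?_, ?_⟩
  · intro v hv
    rw [hn] at hv
    exact absurd hv (Finset.notMem_empty v)
  · intro v hv
    rw [hn] at hv
    exact absurd hv (Finset.notMem_empty v)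
  · intro X
    rw [hn]
    simp
  · intro v hv
    rw [hn] at hv
    exact absurd hv (Finset.notMem_empty v)
  · intro r hr _
    rw [hn]
    refine ⟨fun _ v hv => absurd hv (Finset.notMem_empty v), fun h => ?_⟩
    obtain ⟨y, hy⟩ := List.exists_mem_of_ne_nil _ inv.sideB.ne
    exact absurd ⟨y, hy, key r (hmA r hr) y (hmB y hy) (hne r hr y hy)⟩ h
  · intro r hr _
    rw [hn]
    refine ⟨fun _ v hv => absurd hv (Finset.notMem_empty v), fun h => ?_⟩
    obtain ⟨y, hy⟩ := List.exists_mem_of_ne_nil _ inv.sideA.ne
    exact absurd ⟨y, hy, key r (hmB r hr) y (hmA y hy) (hne y hy r hr).symm⟩ h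


end CC3
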