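import Pool.Agent.Work.MP_3035da_co.DBasic
import Pool.Agent.Work.MP_3035da_co.DChordless

/-!
# DFan : removing the star of a boundary vertex

`Disc.fan_gen`: induction on `J.card` for all `Q`. Let `v` be the head and `u` the last of `Q` (`Q` has at
least two elements). The boundary edge `wu` is in exactly one triangle `t = {w, u, y}` of `J` (`bedge`).
* `y = v`: `J' = J.erase t` has `bd J' = cyc (w :: Q) + ed w u + ed u v + ed v w = cyc Q`. The set of
  triangles of `J'` at `w` is even at `w`, and does not contain `t`, so by `T.link` it is empty: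
  `J.filter (w ∉ ·) = J'`. Take `ys = []`. A `y' ∈ inn` adjacent to `w` would be in a triangle of `J` at
  `w` (`Disc.nbr`), which is `t`, so `y' ∈ {w, u, v} ⊆ C`.
* `y ≠ v`: by `hNC` `y ∉ Q`, so `y` is interior. `J1 = J.erase t`, `Q1 = Q ++ [y]`:
  `Disc T J1 (w :: Q1)` (`bd_erase`, `bd_tri`; boundary `cyc (w :: (Q ++ [y]))`); `hNC` holds for it:
  a triangle `t' ∈ J1` at `w` containing `u` would be `t` (`bedge`).
  `inn J C = insert y (inn J1 (w :: Q1))`. Induction gives `ys'` with
  `bd (J1.filter (w ∉ ·)) = cyc (ys' ++ (Q ++ [y])) = cyc (y :: (ys' ++ Q))`; `ys = y :: ys'`.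
`Disc.fan`: chordless gives `hNC` (if `x ∈ t ∩ Q`, `w ∈ t`, then `cyc C w x = 1`, `cyc_head`-like).
`ys ≠ []`: otherwise, let `t = {w, u, y}` be as above, `y ∈ C`, so `y = v` (`cyc C w y = 1`), `cyc C u v = 1`
by chordlessness, so `C` has length 3 (`cyc_nbrs`), `bd {t} = cyc C = bd J`, so `bd (J \ {t}) = 0`, so by
`T.closed` `J = {t}` (`J \ {t} ≠ T.F`), contradiction to `inn ≠ ∅`.
Interior of the new disc: `v' ∈ inn J C \ ys` has all its triangles in `J` (`allin`), none contains `w`.
-/

set_option autoImplicit false
open Classical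

namespace CC3

variable {V : Type} [Fintype V]

private theorem two_ends {Q : List V} (h : 2 ≤ Q.length) : ∃ v M u, Q = v :: (M ++ [u]) := by
  cases Q with
  | nil => simp at h
  | cons v L =>
    have h1 : L ≠ [] := by
      rintro rfl
      simp at h
    refine ⟨v, L.dropLast, L.getLast h1, ?_⟩
    rw [List.dropLast_append_getLast h1]

theorem Disc.fan_gen {T : Sph V} (n : ℕ) : ∀ (J : Finset (Finset V)) (w : V) (Q : List V),
    J.card ≤ n → Disc T J (w :: Q) →
    (∀ t ∈ J, w ∈ t → ∀ x ∈ t, x ∈ Q → Q.head? = some x ∨ Q.getLast? = some x) →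
    ∃ ys : List V, (ys ++ Q).Nodup ∧ (∀ y, y ∈ ys ↔ y ∈ inn J (w :: Q) ∧ T.gr.Adj w y) ∧
      bd (J.filter (fun t => w ∉ t)) = cyc (ys ++ Q) := by
  induction n with
  | zero =>
    intro J w Q hJ h
    exfalso
    obtain ⟨t, ht, _⟩ := CC3.mem_vs.mp (h.mem_vs (v := w) (by simp))
    have : 0 < J.card := Finset.card_pos.mpr ⟨t, ht⟩
    omega
  | succ n ih =>
    intro J w Q hJ h hNC
    have hlen := h.len
    obtain ⟨v, M, u, hQ⟩ := two_ends (Q := Q) (by
      simp only [List.length_cons] at hlen; omega)
    have hnd := h.nd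
    have hwQ : w ∉ Q := (List.nodup_cons.mp hnd).1
    have hQn : Q.Nodup := (List.nodup_cons.mp hnd).2
    have huQ : u ∈ Q := by rw [hQ]; simp
    have hvQ : v ∈ Q := by rw [hQ]; simp
    have hwu : w ≠ u := fun e => hwQ (e ▸ huQ)
    have hwv : w ≠ v := fun e => hwQ (e ▸ hvQ)
    have hcwu : cyc (w :: Q) w u = 1 := by
      rw [hQ]
      rw [hQ] at hnd
      exact (cyc_head hnd u).mpr (Or.inr rfl)
    have hhead : Q.head? = some v := by rw [hQ]; rfl
    have hlast : Q.getLast? = some u := by
      rw [hQ, ← List.cons_append, List.getLast?_concat]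
    obtain ⟨y, hyw, hyu, hyt, huniq⟩ := h.bedge hcwu
    have eP : pc (w :: Q) = ed w v + pc Q := by rw [hQ, pc_cons_cons]
    have eQ : cyc Q = pc Q + ed u v := by rw [hQ]; exact cyc_concat v M u
    have eC : cyc (w :: Q) = pc (w :: Q) + ed u w := by rw [hQ]; exact cyc_concat w (v :: M) u
    have h2 : (2 : ZMod 2) = 0 := by decide
    have hsubE : J.erase {w, u, y} ⊆ T.F := (Finset.erase_subset _ _).trans h.sub
    have hAdj : T.gr.Adj w y := ⟨hyw.symm, _, h.sub hyt, by simp, by simp⟩
    have hfilt : (J.erase {w, u, y}).filter (fun t => w ∉ t) = J.filter (fun t => w ∉ t) := by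
      ext t
      simp only [Finset.mem_filter, Finset.mem_erase]
      constructor
      · rintro ⟨⟨_, g1⟩, g2⟩
        exact ⟨g1, g2⟩
      · rintro ⟨g1, g2⟩
        exact ⟨⟨fun e => g2 (by rw [e]; simp), g1⟩, g2⟩
    by_cases hyQ : y ∈ Q
    · have hyv : y = v := by
        rcases hNC _ hyt (by simp) y (by simp) hyQ with g | g
        · rw [hhead] at g; exact (Option.some.inj g).symm
        · rw [hlast] at g; exact absurd (Option.some.inj g).symm hyu
      subst hyv
      have hbd : bd (J.erase {w, u, y}) = cyc Q := by
        rw [bd_erase hyt, h.bdy, bd_tri hwu hyu.symm hyw, eC, eP, eQ, ed_comm u w, ed_comm y w]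
        funext p q
        simp only [Pi.add_apply]
        linear_combination (ed w y p q + ed w u p q) * h2
      have hX : (J.erase {w, u, y}).filter (fun t => w ∈ t) = ∅ := by
        rcases T.link w ((J.erase {w, u, y}).filter (fun t => w ∈ t))
          ((Finset.filter_subset _ _).trans hsubE) (fun t ht => (Finset.mem_filter.mp ht).2)
          (by
            intro z
            by_cases hwz : w = z
            · subst hwz; simp [bd]
            · have g1 : bd (J.erase {w, u, y}) w z = 0 := by
                rw [hbd]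
                by_contra hcon
                exact hwQ (cyc_mem hcon).1
              rw [← g1]
              simp only [bd]
              rw [if_neg hwz, if_neg hwz, Finset.filter_filter]
              congr 2
              ext t
              simp only [Finset.mem_filter]
              tauto) with g | g
        · exact g
        · exfalso
          have g1 : ({w, u, y} : Finset V) ∈ T.F.filter (fun t => w ∈ t) :=
            Finset.mem_filter.mpr ⟨h.sub hyt, by simp⟩
          rw [← g] at g1
          exact (Finset.mem_erase.mp (Finset.mem_filter.mp g1).1).1 rfl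
      have hone : ∀ t ∈ J, w ∈ t → t = {w, u, y} := by
        intro t ht hwt
        by_contra hcon
        have g1 : t ∈ (J.erase {w, u, y}).filter (fun t => w ∈ t) :=
          Finset.mem_filter.mpr ⟨Finset.mem_erase.mpr ⟨hcon, ht⟩, hwt⟩
        rw [hX] at g1
        exact Finset.notMem_empty _ g1
      refine ⟨[], by simpa using hQn, ?_, ?_⟩
      · intro z
        refine ⟨fun g => absurd g (by simp), fun g => ?_⟩
        exfalso
        obtain ⟨_, t, ht, hzt, hwt⟩ := (h.nbr g.1 g.2.symm).1
        have g1 := hone t ht hwt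
        rw [g1] at hzt
        simp only [Finset.mem_insert, Finset.mem_singleton] at hzt
        apply (mem_inn.mp g.1).2
        rcases hzt with e | e | e
        · rw [e]; simp
        · rw [e]; exact List.mem_cons_of_mem _ huQ
        · rw [e]; exact List.mem_cons_of_mem _ hyQ
      · rw [List.nil_append, ← hbd, ← hfilt]
        congr 1
        rw [Finset.filter_eq_self]
        intro t ht hwt
        have g1 : t ∈ (J.erase {w, u, y}).filter (fun t => w ∈ t) :=
          Finset.mem_filter.mpr ⟨ht, hwt⟩
        rw [hX] at g1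
        exact Finset.notMem_empty _ g1
    · have hQ1 : (Q ++ [y]).Nodup := by
        rw [List.nodup_append]
        exact ⟨hQn, by simp, fun a ha b hb => by
          rw [List.mem_singleton] at hb
          exact fun e => hyQ (by rw [← hb, ← e]; exact ha)⟩
      have hD1 : Disc T (J.erase {w, u, y}) (w :: (Q ++ [y])) := by
        refine ⟨hsubE, ?_, ?_, ?_⟩
        · rw [List.nodup_cons]
          refine ⟨?_, hQ1⟩
          rw [List.mem_append, List.mem_singleton]
          rintro (g | g)
          · exact hwQ g
          · exact hyw g.symm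
        · simp only [List.length_cons, List.length_append] at hlen ⊢
          omega
        · have e1 : pc (w :: (Q ++ [y])) = pc (w :: Q) + ed u y := by
            have e2 : w :: (Q ++ [y]) = (w :: v :: M) ++ u :: [y] := by rw [hQ]; simp
            have e3 : w :: Q = (w :: v :: M) ++ [u] := by rw [hQ]; simp
            rw [e2, pc_append (w :: v :: M) u [y], ← e3, pc_cons_cons]
            have e4 : pc [y] = 0 := rfl
            rw [e4, add_zero]
          rw [bd_erase hyt, h.bdy, bd_tri hwu hyu.symm hyw, eC, cyc_concat, e1, ed_comm u w]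
          funext p q
          simp only [Pi.add_apply]
          linear_combination (ed w u p q) * h2
      have hcard : (J.erase {w, u, y}).card ≤ n := by
        rw [Finset.card_erase_of_mem hyt]
        omega
      obtain ⟨ys, hys1, hys2, hys3⟩ := ih (J.erase {w, u, y}) w (Q ++ [y]) hcard hD1 (by
        intro t ht hwt x hxt hxQ
        rw [Finset.mem_erase] at ht
        rw [List.mem_append, List.mem_singleton] at hxQ
        rcases hxQ with g | g
        · rcases hNC t ht.2 hwt x hxt g with g1 | g1
          · left
            rw [List.head?_append, g1]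
            rfl
          · exfalso
            rw [hlast] at g1
            have g2 := Option.some.inj g1
            subst g2
            exact ht.1 (huniq t ht.2 hwt hxt)
        · right
          rw [List.getLast?_concat, g])
      refine ⟨y :: ys, ?_, ?_, ?_⟩
      · have hp : (y :: ys ++ Q).Perm (ys ++ (Q ++ [y])) := by
          have := (List.perm_append_singleton y (ys ++ Q)).symm
          simpa using this
        exact hp.nodup_iff.mpr hys1
      · intro z
        rw [List.mem_cons]
        constructor
        · rintro (g | g)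
          · subst g
            refine ⟨mem_inn.mpr ⟨⟨_, hyt, by simp⟩, ?_⟩, hAdj⟩
            rw [List.mem_cons]
            rintro (g | g)
            · exact hyw g
            · exact hyQ g
          · have g1 := (hys2 z).mp g
            exact ⟨h.inn_mono hD1 (Finset.erase_subset _ _) g1.1, g1.2⟩
        · rintro ⟨g1, g2⟩
          by_cases hzy : z = y
          · exact Or.inl hzy
          · right
            apply (hys2 z).mpr
            refine ⟨?_, g2⟩
            rw [mem_inn] at g1 ⊢
            obtain ⟨⟨t, ht, hzt⟩, hzC⟩ := g1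
            have hz1 : z ≠ w := fun e => hzC (by rw [e]; simp)
            have hz2 : z ∉ Q := fun e => hzC (List.mem_cons_of_mem _ e)
            have hz3 : z ≠ u := fun e => hz2 (e ▸ huQ)
            refine ⟨⟨t, Finset.mem_erase.mpr ⟨?_, ht⟩, hzt⟩, ?_⟩
            · rintro rfl
              simp only [Finset.mem_insert, Finset.mem_singleton] at hzt
              tauto
            · simp only [List.mem_cons, List.mem_append]
              rintro (e | e | e | e)
              · exact hz1 e
              · exact hz2 e
              · exact hzy e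
              · simp at e
      · rw [← hfilt, hys3]
        have := cyc_rot [y] (ys ++ Q)
        rw [List.singleton_append] at this
        rw [List.cons_append, this, List.append_assoc]

theorem Disc.fan {T : Sph V} {J : Finset (Finset V)} {w : V} {Q : List V}
    (h : Disc T J (w :: Q)) (hc : Chordless J (w :: Q)) (hn : (inn J (w :: Q)).Nonempty) :
    ∃ ys : List V, ys ≠ [] ∧ (∀ y, y ∈ ys ↔ y ∈ inn J (w :: Q) ∧ T.gr.Adj w y) ∧
      Disc T (J.filter (fun t => w ∉ t)) (ys ++ Q) ∧
      (∀ v, v ∈ inn (J.filter (fun t => w ∉ t)) (ys ++ Q) ↔ v ∈ inn J (w :: Q) ∧ v ∉ ys) ∧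
      (J.filter (fun t => w ∉ t)).card < J.card := by
  have hlen := h.len
  have hnd := h.nd
  have hwQ : w ∉ Q := (List.nodup_cons.mp hnd).1
  obtain ⟨v, M, u, hQ⟩ := two_ends (Q := Q) (by
    simp only [List.length_cons] at hlen; omega)
  have hhead : Q.head? = some v := by rw [hQ]; rfl
  have hlast : Q.getLast? = some u := by
    rw [hQ, ← List.cons_append, List.getLast?_concat]
  have hcw : ∀ x, cyc (w :: Q) w x = 1 ↔ (x = v ∨ x = u) := by
    intro x
    rw [hQ]
    rw [hQ] at hnd
    exact cyc_head hnd x
  obtain ⟨ys, h1, h2, h3⟩ := Disc.fan_gen J.card J w Q le_rfl h (by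
    intro t ht hwt x hxt hxQ
    have hwx : w ≠ x := fun e => hwQ (e ▸ hxQ)
    have g1 := hc w (by simp) x (List.mem_cons_of_mem _ hxQ) ⟨hwx, t, ht, hwt, hxt⟩
    rcases (hcw x).mp g1 with e | e
    · left; rw [hhead, e]
    · right; rw [hlast, e])
  have hne : ys ≠ [] := by
    obtain ⟨x, hx, hxt, _⟩ := h.apex hc hn ((hcw u).mpr (Or.inr rfl))
    have hxw : w ≠ x := fun e => (mem_inn.mp hx).2 (by rw [← e]; simp)
    have : x ∈ ys := (h2 x).mpr ⟨hx, hxw, _, h.sub hxt, by simp, by simp⟩
    exact List.ne_nil_of_mem this
  have hD : Disc T (J.filter (fun t => w ∉ t)) (ys ++ Q) := by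
    refine ⟨(Finset.filter_subset _ _).trans h.sub, h1, ?_, h3⟩
    have := List.length_pos_of_ne_nil hne
    simp only [List.length_cons] at hlen
    rw [List.length_append]
    omega
  refine ⟨ys, hne, h2, hD, ?_, ?_⟩
  · intro z
    constructor
    · intro hz
      obtain ⟨⟨t, ht, hzt⟩, hzC⟩ := mem_inn.mp hz
      rw [Finset.mem_filter] at ht
      rw [List.mem_append] at hzC
      refine ⟨mem_inn.mpr ⟨⟨t, ht.1, hzt⟩, ?_⟩, fun e => hzC (Or.inl e)⟩
      rw [List.mem_cons]
      rintro (e | e)
      · exact ht.2 (e ▸ hzt)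
      · exact hzC (Or.inr e)
    · rintro ⟨hz, hzy⟩
      obtain ⟨⟨t, ht, hzt⟩, hzC⟩ := mem_inn.mp hz
      have hzw : w ≠ z := fun e => hzC (by rw [← e]; simp)
      refine mem_inn.mpr ⟨⟨t, Finset.mem_filter.mpr ⟨ht, fun hwt => ?_⟩, hzt⟩, ?_⟩
      · exact hzy ((h2 z).mpr ⟨hz, hzw, t, h.sub ht, hwt, hzt⟩)
      · rw [List.mem_append]
        rintro (e | e)
        · exact hzy e
        · exact hzC (List.mem_cons_of_mem _ e)
  · apply Finset.card_lt_card
    obtain ⟨t, ht, hwt⟩ := CC3.mem_vs.mp (h.mem_vs (v := w) (by simp))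
    refine ⟨Finset.filter_subset _ _, fun hcon => ?_⟩
    exact (Finset.mem_filter.mp (hcon ht)).2 hwt

end CC3
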