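import Pool.Agent.Work.MP_3035da_co.CSym
import Pool.Agent.Work.MP_3035da_co.DFan

/-!
# CCorner : removing the star of a cut at a corner (bending)

Chordless disc with interior `K ≠ ∅`, side `A = w :: A'`, `w` a cut. `Disc.fan` for the boundary
`w :: (A' ++ B)`: `ys ≠ []`, members = interior neighbours of `w`, `J' = J.filter (w ∉ ·)`,
`Disc T J' (ys ++ (A' ++ B))`, interior `K' = K \ ys`. New state
`s1 v = if v ∈ ys then ⟨a, X, 2, (s v).oc, (s v).win⟩ else s v`, with `X = (s x).lab` if `A' = x :: _`, and
`X = (w, w, w)` if `A' = []`. In both cases `IsEnd w X` (`endR` of side `A`).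
`mode` of `inv`: `w` is a cut so `a ≠ b`.
(1) `Inv T D s1 J' (ys ++ A') B a b`. Side `ys ++ A'`: kinds/colours clear; `labs`: members of `ys` have
label `X`, which is the label of the head `x` of `A'` (`x` is not a cut by `endR`); other pairs are pairs of
`A'`; `endR/endL`: the pairs with a cut are pairs of `A'` (the last of `ys` and `x` are no cuts).
`Phi` with the same potential `p`: Lipschitz on a smaller set (`ys ⊆ K`, `K' ⊆ K`). Let `r` be a cut of
`A'`: `p w + Ls D ≤ p r` (last clause of `Phi` for `w`), and `p y ≤ p w + 1` for `y ∈ ys`, so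
`p y + 1 ≤ p r` and never `p y + 1 = p r` (`Ls D ≥ 3`). The other clauses as in `A`.
If `A' = []` there is no cut. `apart`: cuts of `A'` and of `B`, smaller interior.
(2) `J'.card < J.card`, so IH gives `s'`, equal to `s1` off `K'`, `Post T D s' J' (ys ++ A') B a b`.
(3) `Post T D s' J (w :: A') B a b`. `K = K' ∪ ys`.
`good` for `y ∈ ys`: kind 2, `w` is an end of `X`, adjacent to `y`. For `v ∈ K'`: `GoodAt.mono`.
`name`: members of `ys` are not main. `seg`: the same vertices.
`adj`: `v ∈ K'`: from `Post` of `J'`. `v = y ∈ ys`, `u` adjacent, `u ∈ K ∪ A ∪ B` (`Disc.nbr`):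
 `u ∈ K'`: `adj` of `J'` at `u` (neighbour `y`, kind 2), symmetric; `u ∈ ys`: same label;
 `u = w`: kind 0, excluded; `u ∈ B`: colour `b ≠ a`; `u ∈ A'` with kind `≠ 0`: no cut of `A'` lies between
 the head `x` and `u`: such a cut `r` would have `p w + Ls D ≤ p r ≤ p u` and `p u ≤ p y + 1 ≤ p w + 2`;
 so `(s u).lab = (s x).lab = X` (`Side.lab_eq`).
`repA` for `r = w`: `JA J w bl` for the last vertex `bl` of `B` (consecutive on the cyclic list); all
 interior neighbours are in `ys`, coloured `a`.
`repA` for a cut `r ∈ A'`: `r` is adjacent to no `y ∈ ys` (`|p r - p w| ≤ 2` contradicts `Ls D`) and not to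
 `w`; so its neighbours in `K` are in `K'`, and `JA J r x ↔ JA J' r x` for `x ∈ B`: a triangle at `w`
 containing `r` would give `r` adjacent to `w`. So `Rep` for `J'` is `Rep` for `J`.
`repB` for a cut `r ∈ B`: by `apart` `r` is not adjacent to `w` and has no common neighbour in `K` with `w`,
 so it is adjacent to no `y ∈ ys`. Its neighbours in `K` are in `K'`; for `x ∈ A`: `x ≠ w`, so
 `(∃ x ∈ w :: A', JA J r x) ↔ (∃ x ∈ ys ++ A', JA J' r x)`.
-/

set_option autoImplicit false
open Classical

namespace CC3

variable {V : Type} [Fintype V]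

/-- decompositions of an appended list at two consecutive members -/
private theorem ccorner_split {α : Type} {ys A : List α} {l₁ l₂ : List α} {z z' : α}
    (h : ys ++ A = l₁ ++ z :: z' :: l₂) :
    (∃ a', l₁ = ys ++ a' ∧ A = a' ++ z :: z' :: l₂) ∨ (z ∈ ys ∧ z' ∈ ys) ∨
      (z ∈ ys ∧ A = z' :: l₂) := by
  rcases List.append_eq_append_iff.1 h with ⟨a', h1, h2⟩ | ⟨c', h1, h2⟩
  · exact Or.inl ⟨a', h1, h2⟩
  · cases c' with
    | nil =>
      left
      refine ⟨[], ?_, ?_⟩
      · rw [List.append_nil] at h1 ⊢
        exact h1.symm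
      · exact h2.symm
    | cons c1 c2 =>
      have h3 : z = c1 ∧ z' :: l₂ = c2 ++ A := by
        simpa using h2
      obtain ⟨rfl, h4⟩ := h3
      have hz : z ∈ ys := by
        rw [h1]
        simp
      cases c2 with
      | nil =>
        right
        right
        exact ⟨hz, h4.symm⟩
      | cons c3 c4 =>
        right
        left
        have h5 : z' = c3 := by
          have := congrArg List.head? h4
          simpa using this
        refine ⟨hz, ?_⟩
        rw [h1, h5]
        simp

private theorem ccorner_split1 {α : Type} {ys A : List α} {l₁ l₂ : List α} {z : α}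
    (h : ys ++ A = l₁ ++ z :: l₂) :
    (∃ a', l₁ = ys ++ a' ∧ A = a' ++ z :: l₂) ∨ z ∈ ys := by
  rcases List.append_eq_append_iff.1 h with ⟨a', h1, h2⟩ | ⟨c', h1, h2⟩
  · exact Or.inl ⟨a', h1, h2⟩
  · cases c' with
    | nil =>
      left
      refine ⟨[], ?_, ?_⟩
      · rw [List.append_nil] at h1 ⊢
        exact h1.symm
      · exact h2.symm
    | cons c1 c2 =>
      right
      have h3 : z = c1 := by
        have := congrArg List.head? h2
        simpa using this
      rw [h1, h3]
      simp

theorem step_corner {T : Sph V} {D : ℕ} {s : Stt V} {J : Finset (Finset V)} {A' B : List V}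
    {w : V} {a b : Fin 3} (IH : IHyp T D J.card) (inv : Inv T D s J (w :: A') B a b)
    (hc : Chordless J (w :: A' ++ B)) (hn : (inn J (w :: A' ++ B)).Nonempty)
    (hw : (s w).kd = 0) : Solv T D s J (w :: A') B a b := by
  have hdisc := inv.disc
  obtain ⟨ys, hys0, hys, hD', hinn, hcard⟩ := Disc.fan (Q := A' ++ B) hdisc hc hn
  set J' := J.filter (fun t => w ∉ t) with hJ'
  rw [← List.append_assoc] at hD'
  have hinn' : ∀ v, v ∈ inn J' (ys ++ A' ++ B) ↔ v ∈ inn J (w :: A' ++ B) ∧ v ∉ ys := by
    intro v
    rw [List.append_assoc]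
    exact hinn v
  clear hinn
  set K := inn J (w :: A' ++ B) with hK
  set K' := inn J' (ys ++ A' ++ B) with hK'
  have hysK : ∀ y, y ∈ ys ↔ y ∈ K ∧ T.gr.Adj w y := hys
  have hK'K : ∀ v ∈ K', v ∈ K := fun v hv => ((hinn' v).1 hv).1
  have hK'ys : ∀ v ∈ K', v ∉ ys := fun v hv => ((hinn' v).1 hv).2
  have hKn : ∀ v ∈ K, v ≠ w ∧ v ∉ A' ∧ v ∉ B := by
    intro v hv
    have h1 := (mem_inn.1 hv).2
    simp only [List.cons_append, List.mem_cons, List.mem_append, not_or] at h1
    exact h1
  have hwK : w ∉ K := fun h => (hKn w h).1 rfl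
  have hwys : w ∉ ys := fun h => hwK ((hysK w).1 h).1
  have hAys : ∀ v ∈ A', v ∉ ys := fun v hv h => (hKn v ((hysK v).1 h).1).2.1 hv
  have hBys : ∀ v ∈ B, v ∉ ys := fun v hv h => (hKn v ((hysK v).1 h).1).2.2 hv
  have hAK : ∀ v ∈ A', v ∉ K := fun v hv h => (hKn v h).2.1 hv
  have hBK : ∀ v ∈ B, v ∉ K := fun v hv h => (hKn v h).2.2 hv
  have hwA : w ∈ w :: A' := List.mem_cons_self
  have hAA : ∀ v ∈ A', v ∈ w :: A' := fun v hv => List.mem_cons_of_mem _ hv
  have hab : a ≠ b := by
    rcases inv.mode with h1 | ⟨_, h1, _⟩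
    · exact h1
    · exact absurd hw (h1 w (List.mem_append_left _ hwA))
  have hwn : w ∉ A' ∧ w ∉ B := by
    have h1 := hdisc.nd
    simp only [List.cons_append, List.nodup_cons, List.mem_append, not_or] at h1
    exact h1.1
  have hJ'J : J' ⊆ J := Finset.filter_subset _ _
  have hLs : (Ls D : ℤ) = 12 * (D : ℤ) + 60 := by
    unfold Ls
    push_cast
    ring
  -- the label
  obtain ⟨X, hXend, hXx⟩ : ∃ X : V × V × V, IsEnd w X ∧
      ∀ x l, A' = x :: l → (s x).kd ≠ 0 ∧ (s x).lab = X := by
    cases hA : A' with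
    | nil => exact ⟨(w, w, w), Or.inl rfl, fun x l h => by cases h⟩
    | cons x l =>
      have h1 := inv.sideA.endR [] w x l (by rw [hA]; rfl) hw
      refine ⟨(s x).lab, h1.2, fun x' l' h => ?_⟩
      have h2 : x = x' := by
        have := congrArg List.head? h
        simpa using this
      rw [← h2]
      exact ⟨h1.1, rfl⟩
  -- the potential
  obtain ⟨p, hp1, hp2⟩ := inv.sideA.phi
  have hpw := hp2 [] w A' rfl hw
  have hlipw : ∀ y ∈ ys, p y ≤ p w + 1 := fun y hy =>
    hp1 y w (Or.inr ((hysK y).1 hy).1) (Or.inl hwA) ((hysK y).1 hy).2.symm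
  have hcutw : ∀ r ∈ A', (s r).kd = 0 → p w + (Ls D : ℤ) ≤ p r := hpw.2.2.2.2
  have hrw : ∀ r ∈ A', (s r).kd = 0 → ¬ T.gr.Adj r w := by
    intro r hr hk hadj
    have h1 := hp1 r w (Or.inl (hAA r hr)) (Or.inl hwA) hadj
    have h2 := hcutw r hr hk
    omega
  have hrys : ∀ r ∈ A', (s r).kd = 0 → ∀ y ∈ ys, ¬ T.gr.Adj r y := by
    intro r hr hk y hy hadj
    have h1 := hp1 r y (Or.inl (hAA r hr)) (Or.inr ((hysK y).1 hy).1) hadj
    have h2 := hcutw r hr hk
    have h3 := hlipw y hy
    omega
  -- the new state
  let s1 : Stt V := fun v => if v ∈ ys then ⟨a, X, 2, (s v).oc, (s v).win⟩ else s v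
  have e1 : ∀ v ∈ ys, s1 v = ⟨a, X, 2, (s v).oc, (s v).win⟩ := fun v hv => if_pos hv
  have e0 : ∀ v, v ∉ ys → s1 v = s v := fun v hv => if_neg hv
  have hk2 : ∀ v ∈ ys, (s1 v).kd ≠ 0 := by
    intro v hv
    rw [e1 v hv]
    show (2 : Fin 6) ≠ 0
    decide
  have eA : ∀ v ∈ A', s1 v = s v := fun v hv => e0 v (hAys v hv)
  have eB : ∀ v ∈ B, s1 v = s v := fun v hv => e0 v (hBys v hv)
  have inv1 : Inv T D s1 J' (ys ++ A') B a b := by
    constructor
    · exact hD'
    · constructor
      · intro h
        exact hys0 (List.append_eq_nil_iff.1 h).1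
      · intro z hz
        rcases List.mem_append.1 hz with h1 | h1
        · right
          right
          rw [e1 z h1]
        · rw [eA z h1]
          exact inv.sideA.kds z (hAA z h1)
      · intro z hz hkd
        rcases List.mem_append.1 hz with h1 | h1
        · rw [e1 z h1]
        · rw [eA z h1] at hkd ⊢
          exact inv.sideA.cols z (hAA z h1) hkd
      · intro l₁ z z' l₂ hl hz hz'
        rcases ccorner_split hl with ⟨a', _, h2⟩ | ⟨h1, h2⟩ | ⟨h1, h2⟩
        · have hzA : z ∈ A' := by rw [h2]; simp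
          have hzA' : z' ∈ A' := by rw [h2]; simp
          rw [eA z hzA] at hz ⊢
          rw [eA z' hzA'] at hz' ⊢
          exact inv.sideA.labs (w :: a') z z' l₂ (by rw [h2]; rfl) hz hz'
        · rw [e1 z h1, e1 z' h2]
        · have hzA' : z' ∈ A' := by rw [h2]; simp
          rw [e1 z h1, eA z' hzA']
          exact (hXx z' l₂ h2).2.symm
      · intro l₁ z z' l₂ hl hz
        rcases ccorner_split hl with ⟨a', _, h2⟩ | ⟨h1, h2⟩ | ⟨h1, h2⟩
        · have hzA : z ∈ A' := by rw [h2]; simp
          have hzA' : z' ∈ A' := by rw [h2]; simp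
          rw [eA z hzA] at hz
          rw [eA z' hzA']
          exact inv.sideA.endR (w :: a') z z' l₂ (by rw [h2]; rfl) hz
        · exact absurd hz (hk2 z h1)
        · exact absurd hz (hk2 z h1)
      · intro l₁ z z' l₂ hl hz'
        rcases ccorner_split hl with ⟨a', _, h2⟩ | ⟨h1, h2⟩ | ⟨h1, h2⟩
        · have hzA : z ∈ A' := by rw [h2]; simp
          have hzA' : z' ∈ A' := by rw [h2]; simp
          rw [eA z' hzA'] at hz'
          rw [eA z hzA]
          exact inv.sideA.endL (w :: a') z z' l₂ (by rw [h2]; rfl) hz'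
        · exact absurd hz' (hk2 z' h2)
        · have hzA' : z' ∈ A' := by rw [h2]; simp
          rw [eA z' hzA'] at hz'
          exact absurd hz' (hXx z' l₂ h2).1
      · refine ⟨p, ?_, ?_⟩
        · have hin : ∀ u, (u ∈ ys ++ A' ∨ u ∈ K') → (u ∈ w :: A' ∨ u ∈ K) := by
            intro u hu
            rcases hu with hu | hu
            · rcases List.mem_append.1 hu with h1 | h1
              · exact Or.inr ((hysK u).1 h1).1
              · exact Or.inl (hAA u h1)
            · exact Or.inr (hK'K u hu)
          intro u v hu hv hadj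
          exact hp1 u v (hin u hu) (hin v hv) hadj
        · intro l₁ r l₂ hl hr
          rcases ccorner_split1 hl with ⟨a', h1, h2⟩ | h1
          · have hrA : r ∈ A' := by rw [h2]; simp
            have hr' := hr
            rw [eA r hrA] at hr'
            obtain ⟨q1, q2, q3, q4, q5⟩ := hp2 (w :: a') r l₂ (by rw [h2]; rfl) hr'
            have hcw := hcutw r hrA hr'
            refine ⟨?_, q2, ?_, q4, ?_⟩
            · intro z hz
              rw [h1] at hz
              rcases List.mem_append.1 hz with h3 | h3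
              · have := hlipw z h3
                omega
              · exact q1 z (List.mem_cons_of_mem _ h3)
            · intro z hz hzr
              rw [h1] at hz ⊢
              rcases List.mem_append.1 hz with h3 | h3
              · have := hlipw z h3
                omega
              · have h4 := q3 z (List.mem_cons_of_mem _ h3) hzr
                have hne : a' ≠ [] := List.ne_nil_of_mem h3
                rw [List.getLast?_append_of_ne_nil _ hne]
                rw [← h4]
                have h5 : w :: a' = [w] ++ a' := rfl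
                rw [h5, List.getLast?_append_of_ne_nil _ hne]
            · intro z hz hkz
              have hzA : z ∈ A' := by rw [h2]; simp [hz]
              rw [eA z hzA] at hkz
              exact q5 z hz hkz
          · exact absurd hr (hk2 r h1)
    · exact Side.congr inv.sideB eB (fun v hv => hK'K v hv)
    · intro w₁ hw₁ w' hw' hk1 hk2'
      rw [eB w' hw'] at hk2'
      rcases List.mem_append.1 hw₁ with h1 | h1
      · exact absurd hk1 (hk2 w₁ h1)
      · rw [eA w₁ h1] at hk1
        obtain ⟨h2, h3⟩ := inv.apart w₁ (hAA w₁ h1) w' hw' hk1 hk2'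
        exact ⟨h2, fun y hy => h3 y (hK'K y hy)⟩
    · exact Or.inl hab
  obtain ⟨s', hs', hP⟩ := IH s1 J' (ys ++ A') B a b hcard inv1
  have hs'ys : ∀ v ∈ ys, s' v = ⟨a, X, 2, (s v).oc, (s v).win⟩ := by
    intro v hv
    rw [hs' v (fun h => hK'ys v h hv), e1 v hv]
  have hs'o : ∀ v, v ∉ K → s' v = s v := by
    intro v hv
    rw [hs' v (fun h => hv (hK'K v h)), e0 v (fun h => hv ((hysK v).1 h).1)]
  have hKsplit : ∀ v ∈ K, v ∈ K' ∨ v ∈ ys := by
    intro v hv
    by_cases h1 : v ∈ ys
    · exact Or.inr h1
    · exact Or.inl ((hinn' v).2 ⟨hv, h1⟩)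
  refine ⟨s', hs'o, ?_⟩
  -- triangles avoiding `w`
  have hJA' : ∀ r x, r ≠ w → ¬ T.gr.Adj r w → JA J r x → JA J' r x := by
    rintro r x hrw' hadj ⟨hne, t, ht, hr, hx⟩
    refine ⟨hne, t, ?_, hr, hx⟩
    rw [hJ', Finset.mem_filter]
    refine ⟨ht, fun hwt => hadj ?_⟩
    exact JA.adj hdisc.sub ⟨hrw', t, ht, hr, hwt⟩
  have hJA : ∀ r x, JA J' r x → JA J r x := by
    rintro r x ⟨hne, t, ht, hr, hx⟩
    exact ⟨hne, t, hJ'J ht, hr, hx⟩
  constructor
  · -- good
    intro v hv
    rcases hKsplit v hv with h1 | h1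
    · exact GoodAt.mono (hP.good v h1) (fun u hu => hK'K u hu)
    · have h2 := hs'ys v h1
      constructor
      · rw [h2]
        show (2 : Fin 6) ≠ 0
        decide
      · intro _
        refine ⟨w, ?_, ((hysK v).1 h1).2.symm⟩
        rw [h2]
        exact hXend
      · intro h3
        rw [h2] at h3
        exact absurd h3 (show ¬ (2 : Fin 6) = 3 by decide)
      · intro h3
        rw [h2] at h3
        exact absurd h3 (show ¬ (2 : Fin 6) = 4 by decide)
      · intro h3
        rw [h2] at h3
        exact absurd h3 (show ¬ (2 : Fin 6) = 5 by decide)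
  · -- name
    intro v hv hkd
    rcases hKsplit v hv with h1 | h1
    · exact hK'K _ (hP.name v h1 hkd)
    · rw [hs'ys v h1] at hkd
      exact absurd hkd (show ¬ (2 : Fin 6) = 1 by decide)
  · -- seg
    intro X0
    refine le_trans (Finset.card_le_card ?_) (hP.seg X0)
    intro v hv
    rw [Finset.mem_filter] at hv ⊢
    rcases hKsplit v hv.1 with h1 | h1
    · exact ⟨h1, hv.2⟩
    · have h2 := hv.2.1
      rw [hs'ys v h1] at h2
      exact absurd h2 (show ¬ (2 : Fin 6) = 1 by decide)
  · -- adj
    intro v hv u hadj hkd hcol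
    rcases hKsplit v hv with h1 | h1
    · exact hP.adj v h1 u hadj hkd hcol
    · have hv2 := hs'ys v h1
      have hvk : (s' v).kd ≠ 0 := by
        rw [hv2]
        show (2 : Fin 6) ≠ 0
        decide
      rcases (Disc.nbr hdisc hv hadj).2 with h2 | h2
      · rcases hKsplit u h2 with h3 | h3
        · exact (hP.adj u h3 v hadj.symm hvk hcol.symm).symm
        · rw [hs'ys u h3, hv2]
      · simp only [List.cons_append, List.mem_cons, List.mem_append] at h2
        rcases h2 with h2 | h2 | h2
        · exfalso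
          rw [h2, hs'o w hwK] at hkd
          exact hkd hw
        · rw [hs'o u (hAK u h2)] at hkd ⊢
          rw [hv2]
          show (s u).lab = X
          cases hA : A' with
          | nil =>
            rw [hA] at h2
            cases h2
          | cons x l =>
            obtain ⟨hxk, hxl⟩ := hXx x l hA
            rw [hA] at h2
            rcases List.mem_cons.1 h2 with h3 | h3
            · rw [h3]
              exact hxl
            · obtain ⟨m, l₂, hm⟩ := List.append_of_mem h3
              have hside : Side T D s K ([w] ++ x :: (m ++ u :: l₂)) a := by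
                have h9 : Side T D s K (w :: A') a := inv.sideA
                have hAeq : w :: A' = [w] ++ x :: (m ++ u :: l₂) := by
                  rw [hA, hm]
                  rfl
                rw [hAeq] at h9
                exact h9
              rw [← hxl]
              refine (Side.lab_eq hside ?_ hxk hkd).symm
              intro z hz hkz
              obtain ⟨m1, m2, hm12⟩ := List.append_of_mem hz
              have hzA : z ∈ A' := by
                rw [hA, hm, hm12]
                simp
              have h4 := hcutw z hzA hkz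
              have h5 := hp2 (w :: x :: m1) z (m2 ++ u :: l₂) (by
                rw [hA, hm, hm12]
                simp) hkz
              have h6 := h5.2.1 u (by simp)
              have huA : u ∈ w :: A' := by
                rw [hA]
                exact List.mem_cons_of_mem _ (List.mem_cons_of_mem _ h3)
              have h7 := hp1 u v (Or.inl huA) (Or.inr hv) hadj.symm
              have h8 := hlipw v h1
              omega
        · exfalso
          rw [hs'o u (hBK u h2)] at hkd hcol
          have := inv.sideB.cols u h2 hkd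
          rw [this, hv2] at hcol
          exact hab hcol.symm
  · -- repA
    intro r hr hkr
    rcases List.mem_cons.1 hr with h1 | h1
    · rw [h1]
      refine ⟨fun _ v hv hwv => ?_, fun h2 => ?_⟩
      · rw [hs'ys v ((hysK v).2 ⟨hv, hwv⟩)]
      · exfalso
        apply h2
        -- the last vertex of `B`
        obtain ⟨B0, bl, hB⟩ : ∃ B0 bl, B = B0 ++ [bl] :=
          ⟨B.dropLast, B.getLast inv.sideB.ne, (List.dropLast_append_getLast _).symm⟩
        refine ⟨bl, by rw [hB]; simp, ?_⟩
        apply Disc.ja_of_cyc hdisc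
        have hlen := hdisc.len
        have hnd := hdisc.nd
        cases hAB : A' ++ B0 with
        | nil =>
          exfalso
          rw [hB] at hlen
          have h3 := congrArg List.length hAB
          simp at h3 hlen
          rw [h3.1, h3.2] at hlen
          simp at hlen
        | cons x m =>
          have h3 : w :: A' ++ B = w :: x :: (m ++ [bl]) := by
            rw [hB]
            have h4 : w :: A' ++ (B0 ++ [bl]) = w :: ((A' ++ B0) ++ [bl]) := by
              simp
            rw [h4, hAB]
            rfl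
          rw [h3] at hnd ⊢
          exact (cyc_head hnd bl).2 (Or.inr rfl)
    · rw [hs'o r (hAK r h1)] at hkr
      have hrep := hP.repA r (List.mem_append_right _ h1) (by
        rw [hs'o r (hAK r h1)]
        exact hkr)
      have hrne : r ≠ w := fun h => hwn.1 (h ▸ h1)
      have hvK' : ∀ v ∈ K, T.gr.Adj r v → v ∈ K' := by
        intro v hv hrv
        rcases hKsplit v hv with h2 | h2
        · exact h2
        · exact absurd hrv (hrys r h1 hkr v h2)
      refine ⟨fun h2 v hv hrv => ?_, fun h2 => ?_⟩
      · obtain ⟨x, hx, hJx⟩ := h2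
        exact hrep.1 ⟨x, hx, hJA' r x hrne (hrw r h1 hkr) hJx⟩ v (hvK' v hv hrv) hrv
      · obtain ⟨t, X1, ht, h3, m, hm, i, h4⟩ := hrep.2 (fun ⟨x, hx, hJx⟩ => h2 ⟨x, hx, hJA r x hJx⟩)
        exact ⟨t, X1, ht, fun v hv hrv => h3 v (hvK' v hv hrv) hrv, m, hK'K m hm, i, h4⟩
  · -- repB
    intro r hr hkr
    have hkr' := hkr
    rw [hs'o r (hBK r hr)] at hkr
    obtain ⟨hap1, hap2⟩ := inv.apart w hwA r hr hw hkr
    have hrne : r ≠ w := fun h => hwn.2 (h ▸ hr)
    have hrw' : ¬ T.gr.Adj r w := fun h => hap1 h.symm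
    have hry : ∀ y ∈ ys, ¬ T.gr.Adj r y := fun y hy h =>
      hap2 y ((hysK y).1 hy).1 ⟨((hysK y).1 hy).2, h⟩
    have hvK' : ∀ v ∈ K, T.gr.Adj r v → v ∈ K' := by
      intro v hv hrv
      rcases hKsplit v hv with h2 | h2
      · exact h2
      · exact absurd hrv (hry v h2)
    have hiff : (∃ x ∈ w :: A', JA J r x) ↔ ∃ x ∈ ys ++ A', JA J' r x := by
      constructor
      · rintro ⟨x, hx, hJx⟩
        rcases List.mem_cons.1 hx with h1 | h1
        · exfalso
          rw [h1] at hJx
          exact hrw' (JA.adj hdisc.sub hJx)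
        · exact ⟨x, List.mem_append_right _ h1, hJA' r x hrne hrw' hJx⟩
      · rintro ⟨x, hx, hJx⟩
        rcases List.mem_append.1 hx with h1 | h1
        · exact absurd (JA.adj hdisc.sub (hJA r x hJx)) (hry x h1)
        · exact ⟨x, hAA x h1, hJA r x hJx⟩
    have hrep := hP.repB r hr hkr'
    refine ⟨fun h2 v hv hrv => ?_, fun h2 => ?_⟩
    · exact hrep.1 (hiff.1 h2) v (hvK' v hv hrv) hrv
    · obtain ⟨t, X1, ht, h3, m, hm, i, h4⟩ := hrep.2 (fun h => h2 (hiff.2 h))
      exact ⟨t, X1, ht, fun v hv hrv => h3 v (hvK' v hv hrv) hrv, m, hK'K m hm, i, h4⟩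

end CC3
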