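import Pool.Agent.Work.MP_3035da_co.DBasic

/-!
# CSym : symmetries and frame lemmas of the colouring recursion

* swap: `(A, B) ↦ (B, A)` : `A ++ B ~r B ++ A` (`Disc.rotate`), `inn` depends only on the members
  (`inn_congr`); the other fields are symmetric.
* reversal: `(A.reverse, B.reverse)`: `(A ++ B).reverse = B.reverse ++ A.reverse ~r A.reverse ++ B.reverse`
  (`Disc.rev`, `Disc.rotate`). `Side.reverse`: decompositions of `A.reverse` correspond to those of `A`,
  `endR`/`endL` are exchanged; potential `-p` (for the last clause of `Phi` use the decomposition of `A` at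
  the other cut).
* `Side.sub`: an infix of a side is a side (`l₁ ++ (x ++ y) ++ l₂` decompositions; the immediate
  neighbours in the infix are the immediate neighbours).
* `Side.congr`: only the values of `s` on `A` matter, and `K` may be made smaller.
* `GoodAt.mono`, `GoodAt.update`, `Rep.update`: the witnesses are in `K`.
-/

set_option autoImplicit false
open Classical

namespace CC3

variable {V : Type} [Fintype V]

theorem Side.congr {T : Sph V} {D : ℕ} {s s' : Stt V} {K K' : Finset V} {A : List V}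
    {c : Fin 3} (h : Side T D s K A c) (hs : ∀ z ∈ A, s' z = s z) (hK : K' ⊆ K) :
    Side T D s' K' A c := by
  have hm1 : ∀ {l₁ l₂ : List V} {z : V}, A = l₁ ++ z :: l₂ → z ∈ A := by
    intro l₁ l₂ z e
    rw [e]
    exact List.mem_append_right _ List.mem_cons_self
  have hm2 : ∀ {l₁ l₂ : List V} {z z' : V}, A = l₁ ++ z :: z' :: l₂ → z' ∈ A := by
    intro l₁ l₂ z z' e
    rw [e]
    exact List.mem_append_right _ (List.mem_cons_of_mem _ List.mem_cons_self)
  refine ⟨h.ne, ?_, ?_, ?_, ?_, ?_, ?_⟩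
  · intro z hz
    rw [hs z hz]
    exact h.kds z hz
  · intro z hz
    rw [hs z hz]
    exact h.cols z hz
  · intro l₁ z z' l₂ e
    rw [hs z (hm1 e), hs z' (hm2 e)]
    exact h.labs l₁ z z' l₂ e
  · intro l₁ z z' l₂ e
    rw [hs z (hm1 e), hs z' (hm2 e)]
    exact h.endR l₁ z z' l₂ e
  · intro l₁ z z' l₂ e
    rw [hs z (hm1 e), hs z' (hm2 e)]
    exact h.endL l₁ z z' l₂ e
  · obtain ⟨q, h1, h2⟩ := h.phi
    refine ⟨q, fun u v hu hv huv => h1 u v (hu.imp id fun x => hK x) (hv.imp id fun x => hK x) huv,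
      fun l₁ r l₂ e hr => ?_⟩
    rw [hs r (hm1 e)] at hr
    obtain ⟨a1, a2, a3, a4, a5⟩ := h2 l₁ r l₂ e hr
    refine ⟨a1, a2, a3, a4, fun z hz hz0 => ?_⟩
    have hzA : z ∈ A := by
      rw [e]
      exact List.mem_append_right _ (List.mem_cons_of_mem _ hz)
    rw [hs z hzA] at hz0
    exact a5 z hz hz0

theorem Side.sub {T : Sph V} {D : ℕ} {s : Stt V} {K : Finset V} {l₁ A l₂ : List V}
    {c : Fin 3} (h : Side T D s K (l₁ ++ A ++ l₂) c) (hA : A ≠ []) : Side T D s K A c := by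
  have hmem : ∀ z ∈ A, z ∈ l₁ ++ A ++ l₂ := fun z hz =>
    List.mem_append_left _ (List.mem_append_right _ hz)
  have hd : ∀ {m₁ m₂ : List V} {z : V}, A = m₁ ++ z :: m₂ →
      l₁ ++ A ++ l₂ = (l₁ ++ m₁) ++ z :: (m₂ ++ l₂) := by
    intro m₁ m₂ z e
    rw [e]
    simp only [List.append_assoc, List.cons_append]
  have hd2 : ∀ {m₁ m₂ : List V} {z z' : V}, A = m₁ ++ z :: z' :: m₂ →
      l₁ ++ A ++ l₂ = (l₁ ++ m₁) ++ z :: z' :: (m₂ ++ l₂) := by
    intro m₁ m₂ z z' e
    rw [e]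
    simp only [List.append_assoc, List.cons_append]
  refine ⟨hA, fun z hz => h.kds z (hmem z hz), fun z hz => h.cols z (hmem z hz),
    fun m₁ z z' m₂ e => h.labs _ z z' _ (hd2 e), fun m₁ z z' m₂ e => h.endR _ z z' _ (hd2 e),
    fun m₁ z z' m₂ e => h.endL _ z z' _ (hd2 e), ?_⟩
  obtain ⟨q, h1, h2⟩ := h.phi
  refine ⟨q, fun u v hu hv huv => h1 u v (hu.imp (hmem u) id) (hv.imp (hmem v) id) huv,
    fun m₁ r m₂ e hr => ?_⟩
  obtain ⟨a1, a2, a3, a4, a5⟩ := h2 _ r _ (hd e) hr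
  refine ⟨fun z hz => a1 z (List.mem_append_right _ hz), fun z hz => a2 z (List.mem_append_left _ hz),
    fun z hz hzr => ?_, fun z hz hzr => ?_, fun z hz => a5 z (List.mem_append_left _ hz)⟩
  · have h3 := a3 z (List.mem_append_right _ hz) hzr
    have hne : m₁ ≠ [] := List.ne_nil_of_mem hz
    rwa [List.getLast?_append_of_ne_nil _ hne] at h3
  · have h3 := a4 z (List.mem_append_left _ hz) hzr
    have hne : m₂ ≠ [] := List.ne_nil_of_mem hz
    rwa [List.head?_append_of_ne_nil _ hne] at h3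

/-- no cut between two vertices of a side: same label -/
theorem Side.lab_eq {T : Sph V} {D : ℕ} {s : Stt V} {K : Finset V} {l₁ m l₂ : List V}
    {u v : V} {c : Fin 3} (h : Side T D s K (l₁ ++ u :: (m ++ v :: l₂)) c)
    (hm : ∀ z ∈ m, (s z).kd ≠ 0) (hu : (s u).kd ≠ 0) (hv : (s v).kd ≠ 0) :
    (s u).lab = (s v).lab := by
  have key : ∀ (m l₁ : List V) (u : V) (A : List V), Side T D s K A c →
      A = l₁ ++ u :: (m ++ v :: l₂) → (∀ z ∈ m, (s z).kd ≠ 0) → (s u).kd ≠ 0 →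
      (s u).lab = (s v).lab := by
    intro m
    induction m with
    | nil =>
      intro l₁ u A hA e _ hu
      exact hA.labs l₁ u v l₂ e hu hv
    | cons w m ih =>
      intro l₁ u A hA e hm hu
      have hw : (s w).kd ≠ 0 := hm w List.mem_cons_self
      have h1 : (s u).lab = (s w).lab := hA.labs l₁ u w (m ++ v :: l₂) e hu hw
      rw [h1]
      refine ih (l₁ ++ [u]) w A hA ?_ (fun z hz => hm z (List.mem_cons_of_mem _ hz)) hw
      rw [e]
      simp only [List.append_assoc, List.cons_append, List.nil_append]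
  exact key m l₁ u _ h rfl hm hu

theorem GoodAt.mono {T : Sph V} {D : ℕ} {s : Stt V} {K K' : Finset V} {v : V}
    (h : GoodAt T D s K v) (hK : K ⊆ K') : GoodAt T D s K' v := by
  refine ⟨h.k0, h.k2, h.k3, fun h4 => ?_, fun h5 => (h.k5 h5).trans ?_⟩
  · obtain ⟨m, hm, b, h1⟩ := h.k4 h4
    exact ⟨m, hK hm, b, h1⟩
  · exact Finset.card_le_card (Finset.filter_subset_filter _ hK)

/-- changing only open cuts outside `K` (to kinds 3, 4, 5) keeps `GoodAt` on `K` -/
theorem GoodAt.update {T : Sph V} {D : ℕ} {s s' : Stt V} {K : Finset V} {v : V}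
    (h : GoodAt T D s K v) (hv : v ∈ K) (hK : ∀ u ∈ K, s' u = s u)
    (hu : ∀ u, (∃ q ∈ K, T.gr.Adj q u) → ((s u).kd = 1 ∨ (s u).kd = 2) → s' u = s u) :
    GoodAt T D s' K v := by
  have hsv : s' v = s v := hK v hv
  refine ⟨?_, ?_, ?_, ?_, ?_⟩
  · rw [hsv]
    exact h.k0
  · rw [hsv]
    exact h.k2
  · rw [hsv]
    exact h.k3
  · rw [hsv]
    intro h4
    obtain ⟨m, hm, b, h1⟩ := h.k4 h4
    exact ⟨m, hm, b, by rw [hK m hm]; exact h1⟩
  · rw [hsv]
    intro h5
    refine (h.k5 h5).trans (Finset.card_le_card fun q hq => ?_)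
    obtain ⟨h1, h2, u, h3, h4, h6⟩ := Finset.mem_filter.1 hq
    refine Finset.mem_filter.2 ⟨h1, ?_, u, h3, ?_, ?_⟩
    · rw [hK q h1]
      exact h2
    · rw [hu u ⟨q, h1, h3⟩ h4]
      exact h4
    · rw [hu u ⟨q, h1, h3⟩ h4]
      exact h6

theorem Rep.congr {T : Sph V} {s s' : Stt V} {J : Finset (Finset V)} {K : Finset V}
    {B B' : List V} {c : Fin 3} {r : V} (h : Rep T s J K B c r) (hK : ∀ u ∈ K, s' u = s u)
    (hB : ∀ z, z ∈ B ↔ z ∈ B') : Rep T s' J K B' c r := by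
  have hex : (∃ b ∈ B', JA J r b) ↔ ∃ b ∈ B, JA J r b := by
    constructor
    · rintro ⟨b, hb, h1⟩
      exact ⟨b, (hB b).2 hb, h1⟩
    · rintro ⟨b, hb, h1⟩
      exact ⟨b, (hB b).1 hb, h1⟩
  refine ⟨fun h1 v hv hr => ?_, fun h1 => ?_⟩
  · rw [hK v hv]
    exact h.1 (hex.1 h1) v hv hr
  · obtain ⟨t, X, h2, h3, m, hm, i, h4⟩ := h.2 (fun h' => h1 (hex.2 h'))
    refine ⟨t, X, h2, fun v hv hr => ?_, m, hm, i, ?_⟩
    · rw [hK v hv]
      exact h3 v hv hr
    · rw [hK m hm]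
      exact h4

end CC3
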