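import Pool.Agent.Work.MP_3035da_co.DBasic

/-!
# DSplit : filling even chains inside a disc; splitting along a chord or a crossing path

* `Disc.fill`. `T.hom` gives `Y ⊆ T.F` with `bd Y = E`. Let `X = Y ∩ J`. For `u ≠ v` with
  `cyc C u v = 0`: if `JA J u v`, both triangles with the edge `uv` are in `J` (`iedge`), so
  `bd X u v = bd Y u v = E u v`; if not `JA J u v`, `bd X u v = 0 = E u v`. So `bd X + E` lives on `cyc C`,
  is even (`evn_bd`) and by `sub_cyc` it is `0` or `cyc C`. In the second case take `J \ X`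
  (`bd_sdiff`, `h.bdy`).
* `Disc.chord_split`. `E = cyc (a :: (P ++ [b]))`: its edges are edges of `cyc C` or `ab`. `J1` from
  `fill`, `J2 = J \ J1`, `bd J2 = cyc C + E = cyc (b :: (Q ++ [a]))` (`cyc_chord`). Both are nonempty because
  their boundaries are not zero. Lengths at least 3 as `P, Q ≠ []`.
* `Disc.cross`. `E = cyc (A ++ S.reverse)`. Its edges: those of `pc A` (edges of `cyc C`), those of `pc S`
  and `ak x1`, `x0 a1`, which have an end in `inn J C` and are edges of `T`, so `JA J`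
  (`Disc.nbr`; `a1 x0` is in the triangle `h0`, `ak x1` in `h1`). `J1` from `fill`, `J' = J \ J1`,
  `bd J' = cyc (A ++ B) + cyc (A ++ S.reverse)`. `t0 = {bl, a1, x0}` is in `J'`: `bd J' bl a1 = 1`
  (`bl ∉ A ++ S.reverse`), so `J'` contains a triangle with the edge `bl a1`, and `J` has only one
  (`bedge`). The same for `t1 = {ak, b1, x1}`. `t0 ≠ t1`: `t0 ∩ C = {bl, a1}`, `t1 ∩ C = {ak, b1}` and
  these pairs are different: `bl, b1 ∈ B`, `a1, ak ∈ A`, equality would give `bl = b1`, `a1 = ak`, so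
  `A = [a1]`, `B = [b1]`, against `h.len`. `J2 = (J'.erase t0).erase t1`;
  expand all `cyc` (`A = a1 :: _` and so on, `cyc (A ++ B) = pc A + ed ak b1 + pc B + ed bl a1`).
-/

set_option autoImplicit false
open Classical

namespace CC3

variable {V : Type} [Fintype V]

private theorem bd_ex {J : Finset (Finset V)} {u v : V} (h : bd J u v ≠ 0) :
    u ≠ v ∧ ∃ t ∈ J, u ∈ t ∧ v ∈ t := by
  simp only [bd] at h
  by_cases huv : u = v
  · rw [if_pos huv] at h; exact absurd rfl h
  · rw [if_neg huv] at h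
    refine ⟨huv, ?_⟩
    by_contra hcon
    push Not at hcon
    apply h
    rw [Finset.filter_eq_empty_iff.mpr (fun {t} ht hh => hcon t ht hh.1 hh.2)]
    simp

private theorem eq_of_add_zero {g e : Ch V} (h : g + e = 0) : g = e := by
  have h1 : g + (e + e) = 0 + e := by rw [← add_assoc, h]
  rw [ch_add_self, add_zero, zero_add] at h1
  exact h1

theorem Disc.fill {T : Sph V} {J : Finset (Finset V)} {C : List V} (h : Disc T J C) {E : Ch V}
    (hs : SymC E) (he : EvnC E) (hE : ∀ u v, E u v ≠ 0 → JA J u v) : ∃ X ⊆ J, bd X = E := by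
  obtain ⟨Y, hY, hYE⟩ := T.hom E hs he (fun a b hab => by
    obtain ⟨h1, t, ht, hat, hbt⟩ := hE a b hab
    exact ⟨h1, t, h.sub ht, hat, hbt⟩)
  have hX : Y ∩ J ⊆ J := Finset.inter_subset_right
  have hkey : ∀ u v, (bd (Y ∩ J) + E) u v ≠ 0 → cyc C u v ≠ 0 := by
    intro u v hne hc
    apply hne
    rw [Pi.add_apply, Pi.add_apply]
    by_cases hJA : JA J u v
    · have h1 : bd (Y ∩ J) u v = E u v := by
        rw [← hYE]
        simp only [bd]
        rw [if_neg hJA.1, if_neg hJA.1]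
        congr 2
        ext t
        simp only [Finset.mem_filter, Finset.mem_inter]
        constructor
        · rintro ⟨⟨g1, _⟩, g2⟩
          exact ⟨g1, g2⟩
        · rintro ⟨g1, g2⟩
          exact ⟨⟨g1, h.iedge hJA hc (hY g1) g2.1 g2.2⟩, g2⟩
      rw [h1]
      rcases zmod2_cases (E u v) with g | g <;> rw [g] <;> decide
    · have h1 : E u v = 0 := by
        by_contra hcon
        exact hJA (hE u v hcon)
      have h2 : bd (Y ∩ J) u v = 0 := by
        by_contra hcon
        obtain ⟨g1, t, g2, g3, g4⟩ := bd_ex hcon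
        exact hJA ⟨g1, t, hX g2, g3, g4⟩
      rw [h1, h2, add_zero]
  have hev : EvnC (bd (Y ∩ J) + E) :=
    evn_add (evn_bd (fun t ht => T.card3 t (h.sub (hX ht)))) he
  rcases sub_cyc h.nd h.len (symC_add (symC_bd _) hs) hev hkey with h1 | h1
  · exact ⟨Y ∩ J, hX, eq_of_add_zero h1⟩
  · refine ⟨J \ (Y ∩ J), Finset.sdiff_subset, ?_⟩
    rw [bd_sdiff hX, h.bdy, ← h1, add_comm (bd (Y ∩ J)) E, add_assoc, ch_add_self, add_zero]

private theorem cyc_ne_zero {l : List V} (hl : l.Nodup) (h3 : 3 ≤ l.length) : cyc l ≠ 0 := by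
  intro h0
  obtain ⟨v, hv⟩ := List.exists_mem_of_length_pos (l := l) (by omega)
  obtain ⟨p, s, _, _, _, hn⟩ := cyc_nbrs hl h3 hv
  have h1 := (hn p).mpr (Or.inl rfl)
  rw [h0] at h1
  exact absurd h1 (by simp)

theorem Disc.chord_split {T : Sph V} {J : Finset (Finset V)} {a b : V} {P Q : List V}
    (h : Disc T J (a :: (P ++ b :: Q))) (hP : P ≠ []) (hQ : Q ≠ []) (hab : JA J a b) :
    ∃ J1 J2, J1 ∪ J2 = J ∧ Disjoint J1 J2 ∧ J1.Nonempty ∧ J2.Nonempty ∧
      Disc T J1 (a :: (P ++ [b])) ∧ Disc T J2 (b :: (Q ++ [a])) := by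
  have hnd := h.nd
  have hE : ∀ u v, cyc (a :: (P ++ [b])) u v ≠ 0 → JA J u v := by
    intro u v huv
    rw [cyc_concat, Pi.add_apply, Pi.add_apply] at huv
    by_cases h1 : pc (a :: (P ++ [b])) u v = 0
    · rw [h1, zero_add] at huv
      simp only [ed] at huv
      split_ifs at huv with h2
      · rcases h2.2 with ⟨rfl, rfl⟩ | ⟨rfl, rfl⟩
        · exact hab.symm
        · exact hab
      · exact absurd rfl huv
    · have h2 : pc (a :: (P ++ [b])) u v = 1 := (zmod2_ne _).mp h1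
      apply h.ja_of_cyc
      have h3 := cyc_of_infix (l₁ := []) (m := a :: (P ++ [b])) (l₂ := Q)
        (by simpa using hnd) (by simpa using h.len) h2
      simpa using h3
  obtain ⟨J1, hJ1, hbd1⟩ := h.fill (symC_cyc _) (evn_cyc _) hE
  have hbd2 : bd (J \ J1) = cyc (b :: (Q ++ [a])) := by
    rw [bd_sdiff hJ1, h.bdy, hbd1, cyc_chord, add_assoc, add_comm (cyc (b :: (Q ++ [a]))),
      ← add_assoc, ch_add_self, zero_add]
  have hnd1 : (a :: (P ++ [b])).Nodup := by
    have : (a :: (P ++ [b])).Sublist (a :: (P ++ b :: Q)) := by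
      apply List.Sublist.cons_cons
      apply List.Sublist.append_left
      simp
    exact hnd.sublist this
  have hnd2 : (b :: (Q ++ [a])).Nodup := by
    have h1 : (a :: (b :: Q)).Sublist (a :: (P ++ b :: Q)) := by
      apply List.Sublist.cons_cons
      exact List.sublist_append_right _ _
    have h2 := hnd.sublist h1
    have h3 : (b :: (Q ++ [a])).Perm (a :: (b :: Q)) := by
      have := List.perm_append_singleton a (b :: Q)
      simpa using this
    exact h3.nodup_iff.mpr h2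
  have hl1 : 3 ≤ (a :: (P ++ [b])).length := by
    have := List.length_pos_of_ne_nil hP
    simp only [List.length_cons, List.length_append, List.length_nil]
    omega
  have hl2 : 3 ≤ (b :: (Q ++ [a])).length := by
    have := List.length_pos_of_ne_nil hQ
    simp only [List.length_cons, List.length_append, List.length_nil]
    omega
  have d1 : Disc T J1 (a :: (P ++ [b])) := ⟨hJ1.trans h.sub, hnd1, hl1, hbd1⟩
  have d2 : Disc T (J \ J1) (b :: (Q ++ [a])) :=
    ⟨Finset.sdiff_subset.trans h.sub, hnd2, hl2, hbd2⟩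
  refine ⟨J1, J \ J1, Finset.union_sdiff_of_subset hJ1, Finset.disjoint_sdiff, ?_, ?_, d1, d2⟩
  · by_contra hcon
    rw [Finset.not_nonempty_iff_eq_empty] at hcon
    rw [hcon, bd_empty] at hbd1
    exact cyc_ne_zero hnd1 hl1 hbd1.symm
  · by_contra hcon
    rw [Finset.not_nonempty_iff_eq_empty] at hcon
    rw [hcon, bd_empty] at hbd2
    exact cyc_ne_zero hnd2 hl2 hbd2.symm

private theorem cyc_app {L M : List V} {l0 l1 m0 m1 : V} (hL0 : L.head? = some l0)
    (hL1 : L.getLast? = some l1) (hM0 : M.head? = some m0) (hM1 : M.getLast? = some m1) :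
    cyc (L ++ M) = pc L + ed l1 m0 + pc M + ed m1 l0 := by
  obtain ⟨L', rfl⟩ := List.head?_eq_some_iff.mp hL0
  obtain ⟨L'', hL''⟩ := List.getLast?_eq_some_iff.mp hL1
  obtain ⟨M', rfl⟩ := List.head?_eq_some_iff.mp hM0
  obtain ⟨M'', hM''⟩ := List.getLast?_eq_some_iff.mp hM1
  have e1 : cyc (l0 :: L' ++ m0 :: M') = pc ((l0 :: L') ++ ((m0 :: M') ++ [l0])) := by
    rw [List.cons_append, cyc_cons]
    simp
  rw [e1, hL'']
  have e2 : L'' ++ [l1] ++ (m0 :: M' ++ [l0]) = L'' ++ l1 :: (m0 :: (M' ++ [l0])) := by simp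
  rw [e2, pc_append L'' l1 (m0 :: (M' ++ [l0])), pc_cons_cons]
  have e3 : m0 :: (M' ++ [l0]) = M'' ++ m1 :: [l0] := by
    rw [← List.cons_append, hM'']; simp
  rw [e3, pc_append M'' m1 [l0], ← hM'', pc_cons_cons]
  have e4 : pc [l0] = 0 := rfl
  rw [e4, add_zero]
  simp only [add_assoc]

private theorem one_of_ends {L : List V} {x : V} (hn : L.Nodup) (h0 : L.head? = some x)
    (h1 : L.getLast? = some x) : L.length = 1 := by
  obtain ⟨L', rfl⟩ := List.head?_eq_some_iff.mp h0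
  cases L' with
  | nil => rfl
  | cons y L' =>
    exfalso
    rw [List.getLast?_cons_cons] at h1
    exact (List.nodup_cons.mp hn).1 (List.mem_of_getLast? h1)

theorem Disc.cross {T : Sph V} {J : Finset (Finset V)} {A B S : List V}
    {a1 ak b1 bl x0 x1 : V} (h : Disc T J (A ++ B))
    (hA0 : A.head? = some a1) (hA1 : A.getLast? = some ak)
    (hB0 : B.head? = some b1) (hB1 : B.getLast? = some bl)
    (hS0 : S.head? = some x0) (hS1 : S.getLast? = some x1) (hSn : S.Nodup)
    (hS : ∀ s ∈ S, s ∈ inn J (A ++ B)) (hSc : S.IsChain T.gr.Adj)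
    (h0 : ({bl, a1, x0} : Finset V) ∈ J) (h1 : ({ak, b1, x1} : Finset V) ∈ J) :
    ∃ J1 J2, J1 ⊆ J ∧ J2 ⊆ J ∧ Disjoint J1 J2 ∧ J1.card < J.card ∧ J2.card < J.card ∧
      bd J1 = cyc (A ++ S.reverse) ∧ bd J2 = cyc (S ++ B) ∧
      ∀ t ∈ J, t ∈ J1 ∨ t ∈ J2 ∨ t = {bl, a1, x0} ∨ t = {ak, b1, x1} := by
  have hnd := h.nd
  have hSC : ∀ s ∈ S, s ∉ A ++ B := fun s hs => (mem_inn.mp (hS s hs)).2
  have a1A : a1 ∈ A := List.mem_of_head? hA0
  have akA : ak ∈ A := List.mem_of_getLast? hA1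
  have b1B : b1 ∈ B := List.mem_of_head? hB0
  have blB : bl ∈ B := List.mem_of_getLast? hB1
  have x0S : x0 ∈ S := List.mem_of_head? hS0
  have x1S : x1 ∈ S := List.mem_of_getLast? hS1
  have hAB : ∀ x ∈ A, ∀ y ∈ B, x ≠ y := by
    intro x hx y hy hxy
    subst hxy
    exact (List.nodup_append.mp hnd).2.2 x hx x hy rfl
  have hSA : ∀ s ∈ S, ∀ x ∈ A, s ≠ x := fun s hs x hx hsx =>
    hSC s hs (List.mem_append.mpr (Or.inl (hsx ▸ hx)))
  have hSB : ∀ s ∈ S, ∀ x ∈ B, s ≠ x := fun s hs x hx hsx =>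
    hSC s hs (List.mem_append.mpr (Or.inr (hsx ▸ hx)))
  have nbl : bl ≠ a1 := (hAB a1 a1A bl blB).symm
  have na1 : a1 ≠ x0 := (hSA x0 x0S a1 a1A).symm
  have nx0 : x0 ≠ bl := hSB x0 x0S bl blB
  have nak : ak ≠ b1 := hAB ak akA b1 b1B
  have nb1 : b1 ≠ x1 := (hSB x1 x1S b1 b1B).symm
  have nx1 : x1 ≠ ak := hSA x1 x1S ak akA
  have hr0 : S.reverse.head? = some x1 := by rw [List.head?_reverse]; exact hS1
  have hr1 : S.reverse.getLast? = some x0 := by rw [List.getLast?_reverse]; exact hS0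
  have eAS : cyc (A ++ S.reverse) = pc A + ed ak x1 + pc S + ed x0 a1 := by
    rw [cyc_app hA0 hA1 hr0 hr1, pc_reverse]
  have eAB : cyc (A ++ B) = pc A + ed ak b1 + pc B + ed bl a1 := cyc_app hA0 hA1 hB0 hB1
  have eSB : cyc (S ++ B) = pc S + ed x1 b1 + pc B + ed bl x0 := cyc_app hS0 hS1 hB0 hB1
  have jax1 : JA J ak x1 := ⟨nx1.symm, _, h1, by simp, by simp⟩
  have jax0 : JA J x0 a1 := ⟨na1.symm, _, h0, by simp, by simp⟩
  have hed : ∀ a b u v : V, ed a b u v ≠ 0 → JA J a b → JA J u v := by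
    intro a b u v huv hab
    simp only [ed] at huv
    split_ifs at huv with h2
    · rcases h2.2 with ⟨rfl, rfl⟩ | ⟨rfl, rfl⟩
      · exact hab
      · exact hab.symm
    · exact absurd rfl huv
  have hE : ∀ u v, cyc (A ++ S.reverse) u v ≠ 0 → JA J u v := by
    intro u v huv
    rw [eAS] at huv
    simp only [Pi.add_apply] at huv
    by_cases g1 : pc A u v = 0
    · by_cases g2 : ed ak x1 u v = 0
      · by_cases g3 : pc S u v = 0
        · by_cases g4 : ed x0 a1 u v = 0
          · rw [g1, g2, g3, g4] at huv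
            exact absurd (by simp) huv
          · exact hed _ _ _ _ g4 jax0
        · have g5 := (sub_pc_iff T.gr hSn).mpr hSc u v g3
          exact (h.nbr (hS u (pc_mem g3).1) g5).1
      · exact hed _ _ _ _ g2 jax1
    · apply h.ja_of_cyc
      have h3 := cyc_of_infix (l₁ := []) (m := A) (l₂ := B)
        (by simpa using hnd) (by simpa using h.len) ((zmod2_ne _).mp g1)
      simpa using h3
  obtain ⟨J1, hJ1, hbd1⟩ := h.fill (symC_cyc _) (evn_cyc _) hE
  have hbdJ' : bd (J \ J1) = cyc (A ++ B) + cyc (A ++ S.reverse) := by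
    rw [bd_sdiff hJ1, h.bdy, hbd1]
  -- the boundary edges `bl a1` and `ak b1`
  have c0 : cyc (A ++ B) bl a1 = 1 := by
    rw [cyc_one_iff hnd h.len]
    obtain ⟨A', hA'⟩ := List.head?_eq_some_iff.mp hA0
    obtain ⟨B'', hB''⟩ := List.getLast?_eq_some_iff.mp hB1
    refine ⟨A' ++ B'', Or.inl ?_⟩
    rw [hA', hB'']
    have : (a1 :: A' ++ (B'' ++ [bl])) = (a1 :: A' ++ B'') ++ [bl] := by simp
    rw [this]
    have h2 := List.isRotated_append (l := a1 :: A' ++ B'') (l' := [bl])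
    simpa using h2
  have c1 : cyc (A ++ B) ak b1 = 1 := by
    rw [cyc_one_iff hnd h.len]
    obtain ⟨A'', hA''⟩ := List.getLast?_eq_some_iff.mp hA1
    obtain ⟨B', hB'⟩ := List.head?_eq_some_iff.mp hB0
    refine ⟨B' ++ A'', Or.inl ?_⟩
    rw [hA'', hB']
    have : (A'' ++ [ak] ++ b1 :: B') = A'' ++ (ak :: b1 :: B') := by simp
    rw [this]
    have h2 := List.isRotated_append (l := A'') (l' := ak :: b1 :: B')
    simpa using h2
  have d0 : cyc (A ++ S.reverse) bl a1 = 0 := by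
    by_contra hcon
    have h2 := (cyc_mem hcon).1
    rw [List.mem_append, List.mem_reverse] at h2
    rcases h2 with h2 | h2
    · exact hAB bl h2 bl blB rfl
    · exact hSB bl h2 bl blB rfl
  have d1 : cyc (A ++ S.reverse) ak b1 = 0 := by
    by_contra hcon
    have h2 := (cyc_mem hcon).2.1
    rw [List.mem_append, List.mem_reverse] at h2
    rcases h2 with h2 | h2
    · exact hAB b1 h2 b1 b1B rfl
    · exact hSB b1 h2 b1 b1B rfl
  have m0 : ({bl, a1, x0} : Finset V) ∈ J \ J1 := by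
    have h2 : bd (J \ J1) bl a1 ≠ 0 := by
      rw [hbdJ', Pi.add_apply, Pi.add_apply, c0, d0]; decide
    obtain ⟨_, t, ht, g1, g2⟩ := bd_ex h2
    obtain ⟨x, _, _, _, hu⟩ := h.bedge c0
    have g3 := hu t (Finset.mem_sdiff.mp ht).1 g1 g2
    have g4 := hu _ h0 (by simp) (by simp)
    rw [g4, ← g3]; exact ht
  have m1 : ({ak, b1, x1} : Finset V) ∈ J \ J1 := by
    have h2 : bd (J \ J1) ak b1 ≠ 0 := by
      rw [hbdJ', Pi.add_apply, Pi.add_apply, c1, d1]; decide
    obtain ⟨_, t, ht, g1, g2⟩ := bd_ex h2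
    obtain ⟨x, _, _, _, hu⟩ := h.bedge c1
    have g3 := hu t (Finset.mem_sdiff.mp ht).1 g1 g2
    have g4 := hu _ h1 (by simp) (by simp)
    rw [g4, ← g3]; exact ht
  have hne : ({ak, b1, x1} : Finset V) ≠ {bl, a1, x0} := by
    intro heq
    have g1 : bl ∈ ({ak, b1, x1} : Finset V) := by rw [heq]; simp
    have g2 : a1 ∈ ({ak, b1, x1} : Finset V) := by rw [heq]; simp
    simp only [Finset.mem_insert, Finset.mem_singleton] at g1 g2
    have g3 : bl = b1 := by
      rcases g1 with g1 | g1 | g1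
      · exact absurd g1.symm (hAB ak akA bl blB)
      · exact g1
      · exact absurd g1.symm (hSB x1 x1S bl blB)
    have g4 : a1 = ak := by
      rcases g2 with g2 | g2 | g2
      · exact g2
      · exact absurd g2 (hAB a1 a1A b1 b1B)
      · exact absurd g2.symm (hSA x1 x1S a1 a1A)
    have g5 := one_of_ends (List.nodup_append.mp hnd).1 hA0 (g4 ▸ hA1)
    have g6 := one_of_ends (List.nodup_append.mp hnd).2.1 hB0 (g3 ▸ hB1)
    have g7 := h.len
    rw [List.length_append] at g7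
    omega
  have hJ2J' : (((J \ J1).erase {bl, a1, x0}).erase {ak, b1, x1}) ⊆ J \ J1 :=
    (Finset.erase_subset _ _).trans (Finset.erase_subset _ _)
  have hJ2 : (((J \ J1).erase {bl, a1, x0}).erase {ak, b1, x1}) ⊆ J :=
    hJ2J'.trans Finset.sdiff_subset
  refine ⟨J1, ((J \ J1).erase {bl, a1, x0}).erase {ak, b1, x1}, hJ1, hJ2, ?_, ?_, ?_, hbd1,
    ?_, ?_⟩
  · exact Finset.disjoint_of_subset_right hJ2J' Finset.disjoint_sdiff
  · apply Finset.card_lt_card
    refine ⟨hJ1, fun hcon => ?_⟩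
    exact (Finset.mem_sdiff.mp m0).2 (hcon h0)
  · apply Finset.card_lt_card
    refine ⟨hJ2, fun hcon => ?_⟩
    have g1 := hcon h0
    rw [Finset.mem_erase, Finset.mem_erase] at g1
    exact g1.2.1 rfl
  · rw [bd_erase (Finset.mem_erase.mpr ⟨hne, m1⟩), bd_erase m0, hbdJ', bd_tri nbl na1 nx0,
      bd_tri nak nb1 nx1, eAS, eAB, eSB]
    rw [ed_comm a1 x0, ed_comm x0 bl, ed_comm b1 x1, ed_comm x1 ak]
    funext u v
    simp only [Pi.add_apply]
    have h2 : (2 : ZMod 2) = 0 := by decide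
    linear_combination (pc A u v + ed bl a1 u v + ed ak x1 u v + ed x0 a1 u v + ed ak b1 u v) * h2
  · intro t ht
    by_cases g1 : t ∈ J1
    · exact Or.inl g1
    · by_cases g2 : t = {bl, a1, x0}
      · exact Or.inr (Or.inr (Or.inl g2))
      · by_cases g3 : t = {ak, b1, x1}
        · exact Or.inr (Or.inr (Or.inr g3))
        · exact Or.inr (Or.inl (Finset.mem_erase.mpr ⟨g3, Finset.mem_erase.mpr
            ⟨g2, Finset.mem_sdiff.mpr ⟨ht, g1⟩⟩⟩))

end CC3
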