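import Pool.Agent.Work.MP_3035da_co.CPair
import Pool.Agent.Work.MP_3035da_co.DSplit

/-!
# COpp : chord between the two sides

`A = A1 ++ z :: A2`, `B = B1 ++ z' :: B2`, chord `z z'`. Rotate the boundary to
`z :: ((A2 ++ B1) ++ z' :: (B2 ++ A1))` and apply `Disc.chord_split`: `Ja` with boundary
`z :: ((A2 ++ B1) ++ [z']) = (z :: A2) ++ (B1 ++ [z'])` and `Jb` with boundary
`z' :: ((B2 ++ A1) ++ [z]) ~r (A1 ++ [z]) ++ (z' :: B2)`.
Sub-instances `(Jb; A1 ++ [z], z' :: B2)` and `(Ja; z :: A2, B1 ++ [z'])`, both with the colours `a, b`: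
`Inv` by `Side.sub`, `Side.congr` (interiors shrink: `Disc.inn_mono`), `apart` restricted,
`mode` restricted. Fewer triangles (both parts nonempty). Combine with `CC3.combine`.
Reports. Let `r ∈ A`, `r` a cut. First `r = z`: `JA J z z'` holds; in both sub-discs `z z'` is an edge
of the boundary so `JA Ji z z'`; so all interior neighbours of `z` in `K1` and `K2` are coloured `a`
(first halves), and `K = K1 ∪ K2` (`inn_union`). Now `r ≠ z`: `r` is in exactly one of the sub-discs, say
`J1` with sides `A', B'`, and `r ∉ vs J2` (`Disc.notin_vs`), so all neighbours of `r` in `K` are in `K1`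
(a neighbour in `K2` would put `r` in `vs J2`, `Disc.nbr`), and `JA J r x ↔ JA J1 r x`. If `JA J1 r x` with
`x ∈ B` then `x ∈ vs J1`, so (`Disc.notin_vs`) `x` is on the boundary of `J1`, so in `B'` (`x ∉ A`).
So `Rep` for `J` is `Rep` for `J1`.
The same for `r ∈ B`.
-/

set_option autoImplicit false
open Classical

namespace CC3

variable {V : Type} [Fintype V]

/-- a report of a part is a report of the whole disc -/
private theorem copp_lift {T : Sph V} {s : Stt V} {J J1 J2 : Finset (Finset V)}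
    {C C1 C2 B B1 : List V} {c : Fin 3} {r : V} (hD : Disc T J C) (hD1 : Disc T J1 C1)
    (hD2 : Disc T J2 C2) (hu : J1 ∪ J2 = J) (hm1 : ∀ v, v ∈ C1 → v ∈ C)
    (hm2 : ∀ v, v ∈ C2 → v ∈ C) (hr : r ∈ C) (hr2 : r ∉ C2) (hB1 : ∀ x ∈ B1, x ∈ B)
    (hB : ∀ x ∈ B, x ∈ C1 → x ∈ B1) (hBC : ∀ x ∈ B, x ∈ C)
    (hrep : Rep T s J1 (inn J1 C1) B1 c r) : Rep T s J (inn J C) B c r := by
  have hJ1 : J1 ⊆ J := by
    rw [← hu]
    exact Finset.subset_union_left
  have hJ2 : J2 ⊆ J := by
    rw [← hu]
    exact Finset.subset_union_right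
  have hrv : r ∉ vs J2 := Disc.notin_vs hD hD2 hJ2 hr hr2
  have hK : ∀ v ∈ inn J C, T.gr.Adj r v → v ∈ inn J1 C1 := by
    intro v hv hadj
    rcases (inn_union hD hD1 hD2 hu hm1 hm2 v).1 hv with h | h
    · exact h
    · exfalso
      obtain ⟨⟨_, t, ht, _, hrt⟩, _⟩ := Disc.nbr hD2 h hadj.symm
      exact hrv (mem_vs.2 ⟨t, ht, hrt⟩)
  have hJA : ∀ x, JA J r x ↔ JA J1 r x := by
    intro x
    constructor
    · rintro ⟨hne, t, ht, hrt, hxt⟩
      rw [← hu, Finset.mem_union] at ht
      rcases ht with ht | ht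
      · exact ⟨hne, t, ht, hrt, hxt⟩
      · exact absurd (mem_vs.2 ⟨t, ht, hrt⟩) hrv
    · rintro ⟨hne, t, ht, hrt, hxt⟩
      exact ⟨hne, t, hJ1 ht, hrt, hxt⟩
  have hiff : (∃ x ∈ B, JA J r x) ↔ ∃ x ∈ B1, JA J1 r x := by
    constructor
    · rintro ⟨x, hx, hJx⟩
      have h1 := (hJA x).1 hJx
      refine ⟨x, hB x hx ?_, h1⟩
      by_contra hxC
      obtain ⟨_, t, ht, _, hxt⟩ := h1
      exact Disc.notin_vs hD hD1 hJ1 (hBC x hx) hxC (mem_vs.2 ⟨t, ht, hxt⟩)
    · rintro ⟨x, hx, hJx⟩
      exact ⟨x, hB1 x hx, (hJA x).2 hJx⟩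
  refine ⟨fun h v hv hadj => hrep.1 (hiff.1 h) v (hK v hv hadj) hadj, fun h => ?_⟩
  obtain ⟨t, X, ht, h1, m, hm, i, h2⟩ := hrep.2 (fun h' => h (hiff.2 h'))
  exact ⟨t, X, ht, fun v hv hadj => h1 v (hK v hv hadj) hadj, m, Disc.inn_mono hD hD1 hJ1 hm, i, h2⟩

/-- the invariants of a part -/
private theorem copp_inv {T : Sph V} {D : ℕ} {s s' : Stt V} {J J1 : Finset (Finset V)}
    {A B A1 B1 l₁ l₂ m₁ m₂ : List V} {a b : Fin 3} (inv : Inv T D s J A B a b)
    (hD1 : Disc T J1 (A1 ++ B1)) (hJ : J1 ⊆ J) (hA : A = l₁ ++ A1 ++ l₂)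
    (hB : B = m₁ ++ B1 ++ m₂) (hA1 : A1 ≠ []) (hB1 : B1 ≠ [])
    (hs : ∀ v, v ∈ A ++ B → s' v = s v) : Inv T D s' J1 A1 B1 a b := by
  have hK := Disc.inn_mono inv.disc hD1 hJ
  have hAm : ∀ v ∈ A1, v ∈ A := by
    intro v hv
    rw [hA]
    simp [hv]
  have hBm : ∀ v ∈ B1, v ∈ B := by
    intro v hv
    rw [hB]
    simp [hv]
  have hsA : ∀ v ∈ A1, s' v = s v := fun v hv => hs v (List.mem_append_left _ (hAm v hv))
  have hsB : ∀ v ∈ B1, s' v = s v := fun v hv => hs v (List.mem_append_right _ (hBm v hv))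
  constructor
  · exact hD1
  · have h1 : Side T D s (inn J (A ++ B)) A a := inv.sideA
    have h2 : Side T D s (inn J (A ++ B)) A1 a := by
      generalize inn J (A ++ B) = K at h1
      rw [hA] at h1
      exact Side.sub h1 hA1
    exact Side.congr h2 hsA hK
  · have h1 : Side T D s (inn J (A ++ B)) B b := inv.sideB
    have h2 : Side T D s (inn J (A ++ B)) B1 b := by
      generalize inn J (A ++ B) = K at h1
      rw [hB] at h1
      exact Side.sub h1 hB1
    exact Side.congr h2 hsB hK
  · intro w hw w' hw' h1 h2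
    rw [hsA w hw] at h1
    rw [hsB w' hw'] at h2
    obtain ⟨h3, h4⟩ := inv.apart w (hAm w hw) w' (hBm w' hw') h1 h2
    exact ⟨h3, fun y hy => h4 y (hK hy)⟩
  · have hmem : ∀ v ∈ A1 ++ B1, v ∈ A ++ B := by
      intro v hv
      rcases List.mem_append.1 hv with h | h
      · exact List.mem_append_left _ (hAm v h)
      · exact List.mem_append_right _ (hBm v h)
    rcases inv.mode with h | ⟨h1, h2, h3⟩
    · exact Or.inl h
    · refine Or.inr ⟨h1, fun v hv => ?_, fun v hv v' hv' => ?_⟩
      · rw [hs v (hmem v hv)]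
        exact h2 v (hmem v hv)
      · rw [hs v (hmem v hv), hs v' (hmem v' hv')]
        exact h3 v (hmem v hv) v' (hmem v' hv')

private theorem copp_edge {T : Sph V} {J : Finset (Finset V)} {z z' : V} {P : List V}
    (hP : P ≠ []) (hD : Disc T J (z :: (P ++ [z']))) : JA J z z' := by
  cases P with
  | nil => exact absurd rfl hP
  | cons x m =>
    apply Disc.ja_of_cyc hD
    exact (cyc_head hD.nd z').2 (Or.inr rfl)

theorem step_opp {T : Sph V} {D : ℕ} {s : Stt V} {J : Finset (Finset V)} {A1 A2 B1 B2 : List V}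
    {z z' : V} {a b : Fin 3} (IH : IHyp T D J.card)
    (inv : Inv T D s J (A1 ++ z :: A2) (B1 ++ z' :: B2) a b) (hz : JA J z z')
    (h1 : A2 ≠ [] ∨ B1 ≠ []) (h2 : B2 ≠ [] ∨ A1 ≠ []) :
    Solv T D s J (A1 ++ z :: A2) (B1 ++ z' :: B2) a b := by
  set A := A1 ++ z :: A2 with hA
  set B := B1 ++ z' :: B2 with hB
  have hdisc := inv.disc
  have hrot : A ++ B ~r z :: ((A2 ++ B1) ++ z' :: (B2 ++ A1)) := by
    have e1 : A ++ B = A1 ++ (z :: (A2 ++ B1 ++ z' :: B2)) := by
      rw [hA, hB]
      simp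
    have e2 : z :: ((A2 ++ B1) ++ z' :: (B2 ++ A1)) = (z :: (A2 ++ B1 ++ z' :: B2)) ++ A1 := by
      simp
    rw [e1, e2]
    exact List.isRotated_append
  have hP : A2 ++ B1 ≠ [] := by
    intro h
    rw [List.append_eq_nil_iff] at h
    rcases h1 with h' | h'
    · exact h' h.1
    · exact h' h.2
  have hQ : B2 ++ A1 ≠ [] := by
    intro h
    rw [List.append_eq_nil_iff] at h
    rcases h2 with h' | h'
    · exact h' h.1
    · exact h' h.2
  obtain ⟨J1, J2, hu, hd, hn1, hn2, hD1, hD2⟩ :=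
    Disc.chord_split (Disc.rotate hdisc hrot) hP hQ hz
  have hzz1 : JA J1 z z' := copp_edge hP hD1
  have hzz2 : JA J2 z z' := (copp_edge hQ hD2).symm
  have hC1 : z :: (A2 ++ B1 ++ [z']) = (z :: A2) ++ (B1 ++ [z']) := by simp
  rw [hC1] at hD1
  have hD2' : Disc T J2 ((A1 ++ [z]) ++ (z' :: B2)) := by
    refine Disc.rotate hD2 ?_
    have e2 : z' :: ((B2 ++ A1) ++ [z]) = (z' :: B2) ++ (A1 ++ [z]) := by simp
    rw [e2]
    exact List.isRotated_append
  have hJ1 : J1 ⊆ J := by
    rw [← hu]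
    exact Finset.subset_union_left
  have hJ2 : J2 ⊆ J := by
    rw [← hu]
    exact Finset.subset_union_right
  have hcard : J1.card + J2.card = J.card := by
    rw [← hu, Finset.card_union_of_disjoint hd]
  have hc1 : J1.card < J.card := by
    have := hn2.card_pos
    omega
  have hc2 : J2.card < J.card := by
    have := hn1.card_pos
    omega
  have hmem1 : ∀ v, v ∈ (z :: A2) ++ (B1 ++ [z']) → v ∈ A ++ B := by
    intro v hv
    rw [hA, hB]
    simp only [List.mem_append, List.mem_cons, List.not_mem_nil, or_false] at hv ⊢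
    tauto
  have hmem2 : ∀ v, v ∈ (A1 ++ [z]) ++ (z' :: B2) → v ∈ A ++ B := by
    intro v hv
    rw [hA, hB]
    simp only [List.mem_append, List.mem_cons, List.not_mem_nil, or_false] at hv ⊢
    tauto
  -- disjointness
  obtain ⟨hAn, hBn, hABn⟩ := List.nodup_append.1 hdisc.nd
  have hAn' := hAn
  have hBn' := hBn
  rw [hA] at hAn'
  rw [hB] at hBn'
  obtain ⟨_, hzA2, hA1z⟩ := List.nodup_append.1 hAn'
  obtain ⟨_, hzB2, hB1z⟩ := List.nodup_append.1 hBn'
  have hz2 := (List.nodup_cons.1 hzA2).1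
  have hz2' := (List.nodup_cons.1 hzB2).1
  have hmemA : ∀ r, r ∈ A ↔ r ∈ A1 ∨ r = z ∨ r ∈ A2 := by
    intro r
    rw [hA]
    simp
  have hmemB : ∀ r, r ∈ B ↔ r ∈ B1 ∨ r = z' ∨ r ∈ B2 := by
    intro r
    rw [hB]
    simp
  have hAB : ∀ r, r ∈ A → r ∉ B := fun r hr hr' => hABn r hr r hr' rfl
  have hA12 : ∀ r, r ∈ A1 → r ∉ A2 ∧ r ≠ z := fun r hr =>
    ⟨fun h => hA1z r hr r (List.mem_cons_of_mem _ h) rfl,
      fun h => hA1z r hr z List.mem_cons_self h⟩
  have hB12 : ∀ r, r ∈ B1 → r ∉ B2 ∧ r ≠ z' := fun r hr =>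
    ⟨fun h => hB1z r hr r (List.mem_cons_of_mem _ h) rfl,
      fun h => hB1z r hr z' List.mem_cons_self h⟩
  have hA2z : ∀ r, r ∈ A2 → r ≠ z := fun r hr h => hz2 (h ▸ hr)
  have hB2z : ∀ r, r ∈ B2 → r ≠ z' := fun r hr h => hz2' (h ▸ hr)
  -- the invariants
  have hinvJ1 : Inv T D s J1 (z :: A2) (B1 ++ [z']) a b :=
    copp_inv (l₁ := A1) (l₂ := []) (m₁ := []) (m₂ := B2) inv hD1 hJ1 (by rw [hA]; simp)
      (by rw [hB]; simp) (by simp) (by simp) (fun _ _ => rfl)
  have hinvJ2 : ∀ s1 : Stt V, (∀ v, v ∉ inn J1 ((z :: A2) ++ (B1 ++ [z'])) → s1 v = s v) →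
      Inv T D s1 J2 (A1 ++ [z]) (z' :: B2) a b := by
    intro s1 hs1
    refine copp_inv (l₁ := []) (l₂ := A2) (m₁ := B1) (m₂ := []) inv hD2' hJ2 (by rw [hA]; simp)
      (by rw [hB]; simp) (by simp) (by simp) (fun v hv => hs1 v ?_)
    intro h
    exact (mem_inn.1 (Disc.inn_mono hdisc hD1 hJ1 h)).2 hv
  refine combine hdisc hD1 hD2' hu hd hmem1 hmem2 (IH s J1 _ _ a b hc1 hinvJ1)
    (fun s1 hs1 => IH s1 J2 _ _ a b hc2 (hinvJ2 s1 hs1)) ?_ ?_
  · intro s2 hs2 hP1 hP2 r hr hkr
    rcases (hmemA r).1 hr with h | h | h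
    · -- `r ∈ A1`
      have hrB := hAB r hr
      rw [hmemB] at hrB
      push Not at hrB
      have hx := hA12 r h
      refine copp_lift hdisc hD2' hD1 (by rw [Finset.union_comm]; exact hu) hmem2 hmem1
        (List.mem_append_left _ hr) ?_ (B1 := z' :: B2) ?_ ?_
        (fun x hx => List.mem_append_right _ hx)
        (hP2.repA r (by simp [h]) hkr)
      · simp only [List.mem_append, List.mem_cons, List.not_mem_nil, or_false]
        rintro ((h' | h') | h' | h')
        · exact hx.2 h'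
        · exact hx.1 h'
        · exact hrB.1 h'
        · exact hrB.2.1 h'
      · intro x hx'
        rw [hmemB]
        rcases List.mem_cons.1 hx' with h' | h'
        · exact Or.inr (Or.inl h')
        · exact Or.inr (Or.inr h')
      · intro x hx' hxC
        have hxA : x ∉ A := fun h' => hAB x h' hx'
        rw [hmemA] at hxA
        push Not at hxA
        simp only [List.mem_append, List.mem_cons, List.not_mem_nil, or_false] at hxC ⊢
        rcases hxC with (h' | h') | h'
        · exact absurd h' hxA.1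
        · exact absurd h' hxA.2.1
        · exact h'
    · -- `r = z`
      rw [h] at hkr ⊢
      have hzB : z' ∈ B := (hmemB z').2 (Or.inr (Or.inl rfl))
      refine ⟨fun _ v hv hadj => ?_, fun h' => absurd ⟨z', hzB, hz⟩ h'⟩
      rcases (inn_union hdisc hD1 hD2' hu hmem1 hmem2 v).1 hv with h' | h'
      · exact (hP1.repA z List.mem_cons_self hkr).1 ⟨z', by simp, hzz1⟩ v h' hadj
      · exact (hP2.repA z (by simp) hkr).1 ⟨z', by simp, hzz2⟩ v h' hadj
    · -- `r ∈ A2`
      have hrB := hAB r hr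
      rw [hmemB] at hrB
      push Not at hrB
      refine copp_lift hdisc hD1 hD2' hu hmem1 hmem2
        (List.mem_append_left _ hr) ?_ (B1 := B1 ++ [z']) ?_ ?_
        (fun x hx => List.mem_append_right _ hx)
        (hP1.repA r (by simp [h]) hkr)
      · simp only [List.mem_append, List.mem_cons, List.not_mem_nil, or_false]
        rintro ((h' | h') | h' | h')
        · exact (hA12 r h').1 h
        · exact hA2z r h h'
        · exact hrB.2.1 h'
        · exact hrB.2.2 h'
      · intro x hx'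
        rw [hmemB]
        simp only [List.mem_append, List.mem_cons, List.not_mem_nil, or_false] at hx'
        rcases hx' with h' | h'
        · exact Or.inl h'
        · exact Or.inr (Or.inl h')
      · intro x hx' hxC
        have hxA : x ∉ A := fun h' => hAB x h' hx'
        rw [hmemA] at hxA
        push Not at hxA
        simp only [List.mem_append, List.mem_cons, List.not_mem_nil, or_false] at hxC ⊢
        rcases hxC with (h' | h') | h'
        · exact absurd h' hxA.2.1
        · exact absurd h' hxA.2.2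
        · exact h'
  · intro s2 hs2 hP1 hP2 r hr hkr
    have hrA : r ∉ A := fun h' => hAB r h' hr
    rw [hmemA] at hrA
    push Not at hrA
    rcases (hmemB r).1 hr with h | h | h
    · -- `r ∈ B1`
      have hx := hB12 r h
      refine copp_lift hdisc hD1 hD2' hu hmem1 hmem2
        (List.mem_append_right _ hr) ?_ (B1 := z :: A2) ?_ ?_
        (fun x hx => List.mem_append_left _ hx)
        (hP1.repB r (by simp [h]) hkr)
      · simp only [List.mem_append, List.mem_cons, List.not_mem_nil, or_false]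
        rintro ((h' | h') | h' | h')
        · exact hrA.1 h'
        · exact hrA.2.1 h'
        · exact hx.2 h'
        · exact hx.1 h'
      · intro x hx'
        rw [hmemA]
        rcases List.mem_cons.1 hx' with h' | h'
        · exact Or.inr (Or.inl h')
        · exact Or.inr (Or.inr h')
      · intro x hx' hxC
        have hxB := hAB x hx'
        rw [hmemB] at hxB
        push Not at hxB
        simp only [List.mem_append, List.mem_cons, List.not_mem_nil, or_false] at hxC ⊢
        rcases hxC with h' | h' | h'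
        · exact h'
        · exact absurd h' hxB.1
        · exact absurd h' hxB.2.1
    · -- `r = z'`
      rw [h] at hkr ⊢
      have hzA : z ∈ A := (hmemA z).2 (Or.inr (Or.inl rfl))
      refine ⟨fun _ v hv hadj => ?_, fun h' => absurd ⟨z, hzA, hz.symm⟩ h'⟩
      rcases (inn_union hdisc hD1 hD2' hu hmem1 hmem2 v).1 hv with h' | h'
      · exact (hP1.repB z' (by simp) hkr).1 ⟨z, by simp, hzz1.symm⟩ v h' hadj
      · exact (hP2.repB z' List.mem_cons_self hkr).1 ⟨z, by simp, hzz2.symm⟩ v h' hadj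
    · -- `r ∈ B2`
      refine copp_lift hdisc hD2' hD1 (by rw [Finset.union_comm]; exact hu) hmem2 hmem1
        (List.mem_append_right _ hr) ?_ (B1 := A1 ++ [z]) ?_ ?_
        (fun x hx => List.mem_append_left _ hx)
        (hP2.repB r (by simp [h]) hkr)
      · simp only [List.mem_append, List.mem_cons, List.not_mem_nil, or_false]
        rintro ((h' | h') | h' | h')
        · exact hrA.2.1 h'
        · exact hrA.2.2 h'
        · exact (hB12 r h').1 h
        · exact hB2z r h h'
      · intro x hx'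
        rw [hmemA]
        simp only [List.mem_append, List.mem_cons, List.not_mem_nil, or_false] at hx'
        rcases hx' with h' | h'
        · exact Or.inl h'
        · exact Or.inr (Or.inl h')
      · intro x hx' hxC
        have hxB := hAB x hx'
        rw [hmemB] at hxB
        push Not at hxB
        simp only [List.mem_append, List.mem_cons, List.not_mem_nil, or_false] at hxC ⊢
        rcases hxC with h' | h' | h'
        · exact h'
        · exact absurd h' hxB.2.1
        · exact absurd h' hxB.2.2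

end CC3
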