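import Pool.Agent.Work.MP_3035da_co.CSym

/-!
# CPair : combining the solutions of two discs `J1`, `J2` with `J1 ∪ J2 = J`

The general combination used for both chord steps. `K = inn J (A ++ B)`, `Ki = inn Ji (Ai ++ Bi)`,
`K = K1 ∪ K2` (disjoint: `Disc.inn_disj`). All boundary vertices of `J1`, `J2` are boundary vertices of `J`
(`hmem`), every boundary vertex of `J` is on the boundary of `J1` or `J2` (`hcov`).
Solve `(J1; A1, B1)` from `s`: `s1`, equal to `s` off `K1`. The invariant for `J2` holds for `s1`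
(`h2` is given for every state that agrees with `s` on the boundary). Solve: `s2`, equal to `s1` off `K2`.
`Post` for `s2` on `K`:
* `K1` and `vs J1` are not touched by the second solution (`K2 ∩ vs J1 = ∅`), so `GoodAt`, `adj`, `name`,
  `Rep` for `J1` hold for `s2`; `GoodAt.mono`. An interior vertex `v ∈ K1` has all neighbours in `vs J1`.
* `seg`: if `X.1 ∈ K1` all main vertices of `K` with label `X` are in `K1` by `name`; otherwise in `K2`.
* the reports `hrepA`, `hrepB` are given as hypotheses: how to get `Rep` for `J` from those of `J1`, `J2`.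
-/

set_option autoImplicit false
open Classical

namespace CC3

variable {V : Type} [Fintype V]

private theorem inn_sub_vs {J : Finset (Finset V)} {C : List V} {v : V} (h : v ∈ inn J C) :
    v ∈ vs J := mem_vs.2 (mem_inn.1 h).1

private theorem post_transfer {T : Sph V} {D : ℕ} {s1 s2 : Stt V} {J1 : Finset (Finset V)}
    {A1 B1 : List V} {a1 b1 : Fin 3} {K2 : Finset V}
    (hD1 : Disc T J1 (A1 ++ B1)) (hK : ∀ v ∈ K2, v ∉ vs J1)
    (hP : Post T D s1 J1 A1 B1 a1 b1) (hs : ∀ v, v ∉ K2 → s2 v = s1 v) :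
    Post T D s2 J1 A1 B1 a1 b1 := by
  have ev : ∀ v ∈ vs J1, s2 v = s1 v := fun v hv => hs v fun h => hK v h hv
  have e1 : ∀ v ∈ inn J1 (A1 ++ B1), s2 v = s1 v := fun v hv => ev v (inn_sub_vs hv)
  have en : ∀ q ∈ inn J1 (A1 ++ B1), ∀ u, T.gr.Adj q u → s2 u = s1 u := by
    intro q hq u hqu
    obtain ⟨⟨-, t, ht, -, hu⟩, -⟩ := hD1.nbr hq hqu
    exact ev u (mem_vs.2 ⟨t, ht, hu⟩)
  refine ⟨?_, ?_, ?_, ?_, ?_, ?_⟩
  · intro v hv
    exact (hP.good v hv).update hv e1 fun u ⟨q, hq, hqu⟩ _ => en q hq u hqu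
  · intro v hv hk
    rw [e1 v hv] at hk ⊢
    exact hP.name v hv hk
  · intro X
    refine le_trans (le_of_eq ?_) (hP.seg X)
    congr 1
    refine Finset.filter_congr fun v hv => ?_
    rw [e1 v hv]
  · intro v hv u huv
    rw [e1 v hv, en v hv u huv]
    exact hP.adj v hv u huv
  · intro r hr hk
    rw [ev r (hD1.mem_vs (List.mem_append_left _ hr))] at hk
    exact (hP.repA r hr hk).congr e1 fun _ => Iff.rfl
  · intro r hr hk
    rw [ev r (hD1.mem_vs (List.mem_append_right _ hr))] at hk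
    exact (hP.repB r hr hk).congr e1 fun _ => Iff.rfl

private theorem inn_union' {T : Sph V} {J J1 J2 : Finset (Finset V)} {C C1 C2 : List V}
    (hD : Disc T J C) (hD1 : Disc T J1 C1) (hD2 : Disc T J2 C2)
    (hu : J1 ∪ J2 = J) (hmem1 : ∀ v, v ∈ C1 → v ∈ C) (hmem2 : ∀ v, v ∈ C2 → v ∈ C) (v : V) :
    v ∈ inn J C ↔ v ∈ inn J1 C1 ∨ v ∈ inn J2 C2 := by
  have s1 : J1 ⊆ J := by rw [← hu]; exact Finset.subset_union_left
  have s2 : J2 ⊆ J := by rw [← hu]; exact Finset.subset_union_right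
  constructor
  · intro hv
    obtain ⟨⟨t, ht, hvt⟩, hvC⟩ := mem_inn.1 hv
    rw [← hu, Finset.mem_union] at ht
    rcases ht with ht | ht
    · exact Or.inl (mem_inn.2 ⟨⟨t, ht, hvt⟩, fun h => hvC (hmem1 v h)⟩)
    · exact Or.inr (mem_inn.2 ⟨⟨t, ht, hvt⟩, fun h => hvC (hmem2 v h)⟩)
  · rintro (hv | hv)
    · exact hD.inn_mono hD1 s1 hv
    · exact hD.inn_mono hD2 s2 hv

theorem combine {T : Sph V} {D : ℕ} {s : Stt V} {J J1 J2 : Finset (Finset V)}
    {A B A1 B1 A2 B2 : List V} {a b a1 b1 a2 b2 : Fin 3}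
    (hD : Disc T J (A ++ B)) (hD1 : Disc T J1 (A1 ++ B1)) (hD2 : Disc T J2 (A2 ++ B2))
    (hu : J1 ∪ J2 = J) (hd : Disjoint J1 J2)
    (hmem1 : ∀ v, v ∈ A1 ++ B1 → v ∈ A ++ B) (hmem2 : ∀ v, v ∈ A2 ++ B2 → v ∈ A ++ B)
    (h1 : Solv T D s J1 A1 B1 a1 b1)
    (h2 : ∀ s1 : Stt V, (∀ v, v ∉ inn J1 (A1 ++ B1) → s1 v = s v) →
      Solv T D s1 J2 A2 B2 a2 b2)
    (hrepA : ∀ s2 : Stt V, (∀ v, v ∉ inn J (A ++ B) → s2 v = s v) →
      Post T D s2 J1 A1 B1 a1 b1 → Post T D s2 J2 A2 B2 a2 b2 →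
      ∀ r ∈ A, (s2 r).kd = 0 → Rep T s2 J (inn J (A ++ B)) B a r)
    (hrepB : ∀ s2 : Stt V, (∀ v, v ∉ inn J (A ++ B) → s2 v = s v) →
      Post T D s2 J1 A1 B1 a1 b1 → Post T D s2 J2 A2 B2 a2 b2 →
      ∀ r ∈ B, (s2 r).kd = 0 → Rep T s2 J (inn J (A ++ B)) A b r) :
    Solv T D s J A B a b := by
  have hU := inn_union' hD hD1 hD2 hu hmem1 hmem2
  have k21 : ∀ v ∈ inn J2 (A2 ++ B2), v ∉ vs J1 := fun v hv => hD2.inn_disj hD1.sub hd.symm hv
  have k12 : ∀ v ∈ inn J1 (A1 ++ B1), v ∉ inn J2 (A2 ++ B2) := fun v hv hv2 =>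
    k21 v hv2 (inn_sub_vs hv)
  obtain ⟨s1, hs1, hP1⟩ := h1
  obtain ⟨s2, hs2, hP2⟩ := h2 s1 hs1
  have hP1' := post_transfer hD1 k21 hP1 hs2
  have hs : ∀ v, v ∉ inn J (A ++ B) → s2 v = s v := by
    intro v hv
    rw [hU v, not_or] at hv
    rw [hs2 v hv.2, hs1 v hv.1]
  have sub1 : inn J1 (A1 ++ B1) ⊆ inn J (A ++ B) := fun v hv => (hU v).2 (Or.inl hv)
  have sub2 : inn J2 (A2 ++ B2) ⊆ inn J (A ++ B) := fun v hv => (hU v).2 (Or.inr hv)
  refine ⟨s2, hs, ?_, ?_, ?_, ?_, hrepA s2 hs hP1' hP2, hrepB s2 hs hP1' hP2⟩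
  · intro v hv
    rcases (hU v).1 hv with h | h
    · exact (hP1'.good v h).mono sub1
    · exact (hP2.good v h).mono sub2
  · intro v hv hk
    rcases (hU v).1 hv with h | h
    · exact sub1 (hP1'.name v h hk)
    · exact sub2 (hP2.name v h hk)
  · intro X
    by_cases hX : X.1 ∈ inn J1 (A1 ++ B1)
    · refine le_trans (Finset.card_le_card fun v hv => ?_) (hP1'.seg X)
      rw [Finset.mem_filter] at hv ⊢
      rcases (hU v).1 hv.1 with h | h
      · exact ⟨h, hv.2⟩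
      · have h3 := hP2.name v h hv.2.1
        rw [hv.2.2] at h3
        exact absurd h3 (k12 _ hX)
    · refine le_trans (Finset.card_le_card fun v hv => ?_) (hP2.seg X)
      rw [Finset.mem_filter] at hv ⊢
      rcases (hU v).1 hv.1 with h | h
      · have h3 := hP1'.name v h hv.2.1
        rw [hv.2.2] at h3
        exact absurd h3 hX
      · exact ⟨h, hv.2⟩
  · intro v hv
    rcases (hU v).1 hv with h | h
    · exact hP1'.adj v h
    · exact hP2.adj v h

/-- the interior of `J` is the union of the interiors (used for the reports) -/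
theorem inn_union {T : Sph V} {J J1 J2 : Finset (Finset V)} {C C1 C2 : List V}
    (hD : Disc T J C) (hD1 : Disc T J1 C1) (hD2 : Disc T J2 C2)
    (hu : J1 ∪ J2 = J) (hmem1 : ∀ v, v ∈ C1 → v ∈ C) (hmem2 : ∀ v, v ∈ C2 → v ∈ C) (v : V) :
    v ∈ inn J C ↔ v ∈ inn J1 C1 ∨ v ∈ inn J2 C2 :=
  inn_union' hD hD1 hD2 hu hmem1 hmem2 v

end CC3
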