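import Pool.Agent.Work.MP_3035da_co.CPair
import Pool.Agent.Work.MP_3035da_co.DSplit

/-!
# CSame : chord between two vertices of the same side

`A = A1 ++ z :: (M ++ z' :: A2)`, `M ≠ []`, chord `z z'`.
(1) No vertex of `z :: (M ++ [z'])` is a cut. Let `p` be a potential of side `A` (`Phi`), `r` a cut in
this list. `z z'` adjacent, so `|p z - p z'| ≤ 1`. If `r = z`: `p z + 1 ≤ p z'`, so `p z' = p z + 1`, so
(`Phi`, decomposition at `z`) `z'` is the immediate successor of `z`, but `M ≠ []` and no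
repetition: contradiction. `r = z'` symmetric. `r ∈ M`: `p z + 1 ≤ p r`, `p r + 1 ≤ p z'`, contradiction.
(2) Hence all vertices of `z :: (M ++ [z'])` have the same label (`Side.lab_eq`) and colour `a`.
(3) Rotate the boundary to `z :: (M ++ z' :: (A2 ++ B ++ A1))`, `Disc.chord_split`: `Jm` with boundary
`z :: (M ++ [z'])` = `[z] ++ (M ++ [z'])` and `Jr` with boundary `z' :: ((A2 ++ B ++ A1) ++ [z])`
`~r (A1 ++ z :: z' :: A2) ++ B`.
Sub-instances: `(Jr; A1 ++ z :: z' :: A2, B)` with colours `a, b` and the monochrome `(Jm; [z], M ++ [z'])`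
with colours `a, a` (`mode`: second alternative, `apart` vacuous).
`Side` for `A1 ++ z :: z' :: A2`: kinds, colours clear; `labs` for the pair `z z'` by (2); `endR/endL` pairs
are pairs of `A` (cuts are in `A1` or `A2`); `Phi` with the same `p`: a cut `r` of the new list is in `A1` or
`A2`, the vertices before/after it are among those of `A`, and the immediate neighbours of `r` are the same
as in `A` (as `z, z'` are kept).
(4) Reports: cuts of `A` are in `A1` or `A2`, so not in `vs Jm` (`Disc.notin_vs`), cuts of `B` as well.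
So their neighbours in `K` are in the interior of `Jr` and `JA J r x ↔ JA Jr r x`; for `r ∈ A`: `x ∈ B`.
For `r ∈ B`: `x ∈ A` with `JA Jr r x` is in `vs Jr`, so on the boundary of `Jr`, so in
`A1 ++ z :: z' :: A2`.
-/

set_option autoImplicit false
open Classical

namespace CC3

variable {V : Type} [Fintype V]

/-- decompositions of an appended list at two consecutive members -/
private theorem csame_split2 {α : Type} {ys zs : List α} {l₁ l₂ : List α} {x y : α}
    (h : ys ++ zs = l₁ ++ x :: y :: l₂) :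
    (∃ m, ys = l₁ ++ x :: y :: m) ∨ (ys = l₁ ++ [x] ∧ zs = y :: l₂) ∨
      (∃ m, zs = m ++ x :: y :: l₂) := by
  rcases List.append_eq_append_iff.1 h with ⟨a', _, h2⟩ | ⟨c', h1, h2⟩
  · exact Or.inr (Or.inr ⟨a', h2⟩)
  · rcases c' with _ | ⟨c, _ | ⟨d, e⟩⟩
    · exact Or.inr (Or.inr ⟨[], h2.symm⟩)
    · right
      left
      simp only [List.cons_append, List.nil_append, List.cons.injEq] at h2
      obtain ⟨rfl, h3⟩ := h2
      exact ⟨h1, h3.symm⟩
    · left
      simp only [List.cons_append, List.cons.injEq] at h2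
      obtain ⟨rfl, rfl, _⟩ := h2
      exact ⟨e, h1⟩

/-- decompositions of `A1 ++ z :: z' :: A2` at another member -/
private theorem csame_split1 {α : Type} {A1 A2 : List α} {z z' : α} {l₁ l₂ : List α} {r : α}
    (h : A1 ++ z :: z' :: A2 = l₁ ++ r :: l₂) (hz : r ≠ z) (hz' : r ≠ z') :
    (∃ m, A1 = l₁ ++ r :: m ∧ l₂ = m ++ z :: z' :: A2) ∨
      (∃ m, A2 = m ++ r :: l₂ ∧ l₁ = A1 ++ z :: z' :: m) := by
  rcases List.append_eq_append_iff.1 h with ⟨a', h1, h2⟩ | ⟨c', h1, h2⟩
  · rcases a' with _ | ⟨c, _ | ⟨d, e⟩⟩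
    · simp only [List.nil_append, List.cons.injEq] at h2
      exact absurd h2.1.symm hz
    · simp only [List.cons_append, List.nil_append, List.cons.injEq] at h2
      exact absurd h2.2.1.symm hz'
    · right
      simp only [List.cons_append, List.cons.injEq] at h2
      obtain ⟨rfl, rfl, h3⟩ := h2
      exact ⟨e, h3, h1⟩
  · rcases c' with _ | ⟨c, e⟩
    · simp only [List.nil_append, List.cons.injEq] at h2
      exact absurd h2.1 hz
    · left
      simp only [List.cons_append, List.cons.injEq] at h2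
      obtain ⟨rfl, h3⟩ := h2
      exact ⟨e, h1, h3⟩

/-- a report of a part is a report of the whole disc -/
private theorem csame_lift {T : Sph V} {s : Stt V} {J J1 J2 : Finset (Finset V)}
    {C C1 C2 B B1 : List V} {c : Fin 3} {r : V} (hD : Disc T J C) (hD1 : Disc T J1 C1)
    (hD2 : Disc T J2 C2) (hu : J1 ∪ J2 = J) (hm1 : ∀ v, v ∈ C1 → v ∈ C)
    (hm2 : ∀ v, v ∈ C2 → v ∈ C) (hr : r ∈ C) (hr2 : r ∉ C2) (hB1 : ∀ x ∈ B1, x ∈ B)
    (hB : ∀ x ∈ B, x ∈ C1 → x ∈ B1) (hBC : ∀ x ∈ B, x ∈ C)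
    (hrep : Rep T s J1 (inn J1 C1) B1 c r) : Rep T s J (inn J C) B c r := by
  have hJ1 : J1 ⊆ J := by
    rw [← hu]
    exact Finset.subset_union_left
  have hJ2 : J2 ⊆ J := by
    rw [← hu]
    exact Finset.subset_union_right
  have hrv : r ∉ vs J2 := Disc.notin_vs hD hD2 hJ2 hr hr2
  have hK : ∀ v ∈ inn J C, T.gr.Adj r v → v ∈ inn J1 C1 := by
    intro v hv hadj
    rcases (inn_union hD hD1 hD2 hu hm1 hm2 v).1 hv with h | h
    · exact h
    · exfalso
      obtain ⟨⟨_, t, ht, _, hrt⟩, _⟩ := Disc.nbr hD2 h hadj.symm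
      exact hrv (mem_vs.2 ⟨t, ht, hrt⟩)
  have hJA : ∀ x, JA J r x ↔ JA J1 r x := by
    intro x
    constructor
    · rintro ⟨hne, t, ht, hrt, hxt⟩
      rw [← hu, Finset.mem_union] at ht
      rcases ht with ht | ht
      · exact ⟨hne, t, ht, hrt, hxt⟩
      · exact absurd (mem_vs.2 ⟨t, ht, hrt⟩) hrv
    · rintro ⟨hne, t, ht, hrt, hxt⟩
      exact ⟨hne, t, hJ1 ht, hrt, hxt⟩
  have hiff : (∃ x ∈ B, JA J r x) ↔ ∃ x ∈ B1, JA J1 r x := by
    constructor
    · rintro ⟨x, hx, hJx⟩
      have h1 := (hJA x).1 hJx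
      refine ⟨x, hB x hx ?_, h1⟩
      by_contra hxC
      obtain ⟨_, t, ht, _, hxt⟩ := h1
      exact Disc.notin_vs hD hD1 hJ1 (hBC x hx) hxC (mem_vs.2 ⟨t, ht, hxt⟩)
    · rintro ⟨x, hx, hJx⟩
      exact ⟨x, hB1 x hx, (hJA x).2 hJx⟩
  refine ⟨fun h v hv hadj => hrep.1 (hiff.1 h) v (hK v hv hadj) hadj, fun h => ?_⟩
  obtain ⟨t, X, ht, h1, m, hm, i, h2⟩ := hrep.2 (fun h' => h (hiff.2 h'))
  exact ⟨t, X, ht, fun v hv hadj => h1 v (hK v hv hadj) hadj, m, Disc.inn_mono hD hD1 hJ1 hm, i, h2⟩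

/-- no vertex between the ends of the chord is a cut -/
private theorem csame_nocut {T : Sph V} {D : ℕ} {s : Stt V} {K : Finset V} {A1 M A2 : List V}
    {z z' : V} {c : Fin 3} (h : Side T D s K (A1 ++ z :: (M ++ z' :: A2)) c)
    (hnd : (A1 ++ z :: (M ++ z' :: A2)).Nodup) (hadj : T.gr.Adj z z') (hM : M ≠ []) :
    ∀ y ∈ z :: (M ++ [z']), (s y).kd ≠ 0 := by
  obtain ⟨p, hlip, hcut⟩ := h.phi
  obtain ⟨_, hnd2, _⟩ := List.nodup_append.1 hnd
  obtain ⟨hznot, hnd3⟩ := List.nodup_cons.1 hnd2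
  obtain ⟨_, _, hMz⟩ := List.nodup_append.1 hnd3
  have hzA : z ∈ A1 ++ z :: (M ++ z' :: A2) := by simp
  have hzA' : z' ∈ A1 ++ z :: (M ++ z' :: A2) := by simp
  have h1 := hlip z z' (Or.inl hzA) (Or.inl hzA') hadj
  have h2 := hlip z' z (Or.inl hzA') (Or.inl hzA) hadj.symm
  intro y hy h0
  rw [List.mem_cons, List.mem_append, List.mem_singleton] at hy
  rcases hy with rfl | hy | rfl
  · obtain ⟨_, a2, _, a4, _⟩ := hcut A1 y (M ++ z' :: A2) rfl h0
    have h3 := a2 z' (by simp)
    have h4 := a4 z' (by simp) (by omega)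
    rw [List.head?_append_of_ne_nil _ hM] at h4
    exact hMz z' (List.mem_of_mem_head? h4) z' List.mem_cons_self rfl
  · obtain ⟨m1, m2, rfl⟩ := List.append_of_mem hy
    obtain ⟨a1, a2, _, _, _⟩ := hcut (A1 ++ z :: m1) y (m2 ++ z' :: A2) (by simp) h0
    have h3 := a1 z (by simp)
    have h4 := a2 z' (by simp)
    omega
  · obtain ⟨a1, _, a3, _, _⟩ := hcut (A1 ++ z :: M) y A2 (by simp) h0
    have h3 := a1 z (by simp)
    have h4 := a3 z (by simp) (by omega)
    have h5 : (A1 ++ z :: M).getLast? = M.getLast? := by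
      have e : A1 ++ z :: M = (A1 ++ [z]) ++ M := by simp
      rw [e, List.getLast?_append_of_ne_nil _ hM]
    rw [h5] at h4
    have h6 := List.mem_of_getLast? h4
    exact hznot (List.mem_append_left _ h6)

/-- all labels between the ends of the chord are equal -/
private theorem csame_lab {T : Sph V} {D : ℕ} {s : Stt V} {K : Finset V} {A1 M A2 : List V}
    {z z' : V} {c : Fin 3} (h : Side T D s K (A1 ++ z :: (M ++ z' :: A2)) c)
    (hno : ∀ y ∈ z :: (M ++ [z']), (s y).kd ≠ 0) :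
    ∀ y ∈ z :: (M ++ [z']), (s z).lab = (s y).lab := by
  intro y hy
  rcases List.mem_cons.1 hy with rfl | hy'
  · rfl
  · obtain ⟨m1, m2, e⟩ := List.append_of_mem hy'
    have e2 : A1 ++ z :: (M ++ z' :: A2) = A1 ++ z :: (m1 ++ y :: (m2 ++ A2)) := by
      have e3 : M ++ z' :: A2 = (M ++ [z']) ++ A2 := by simp
      rw [e3, e]
      simp
    rw [e2] at h
    refine Side.lab_eq h (fun w hw => hno w ?_) (hno z List.mem_cons_self) (hno y hy)
    rw [e]
    exact List.mem_cons_of_mem _ (List.mem_append_left _ hw)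

/-- the shortened side -/
private theorem csame_side {T : Sph V} {D : ℕ} {s : Stt V} {K : Finset V} {A1 M A2 : List V}
    {z z' : V} {c : Fin 3} (h : Side T D s K (A1 ++ z :: (M ++ z' :: A2)) c)
    (hz : (s z).kd ≠ 0) (hz' : (s z').kd ≠ 0) (hl : (s z).lab = (s z').lab) :
    Side T D s K (A1 ++ z :: z' :: A2) c := by
  have hmem : ∀ v ∈ A1 ++ z :: z' :: A2, v ∈ A1 ++ z :: (M ++ z' :: A2) := by
    intro v hv
    simp only [List.mem_append, List.mem_cons] at hv ⊢
    tauto
  have hpair : ∀ l₁ x y l₂, A1 ++ z :: z' :: A2 = l₁ ++ x :: y :: l₂ →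
      (∃ m, A1 ++ z :: (M ++ z' :: A2) = l₁ ++ x :: y :: m) ∨ (x = z ∧ y = z') ∨
        (∃ m, A1 ++ z :: (M ++ z' :: A2) = m ++ x :: y :: l₂) := by
    intro l₁ x y l₂ e
    have e1 : A1 ++ z :: z' :: A2 = (A1 ++ [z]) ++ (z' :: A2) := by simp
    rw [e1] at e
    rcases csame_split2 e with ⟨m, h1⟩ | ⟨h1, h2⟩ | ⟨m, h1⟩
    · left
      refine ⟨m ++ (M ++ z' :: A2), ?_⟩
      have e2 : A1 ++ z :: (M ++ z' :: A2) = (A1 ++ [z]) ++ (M ++ z' :: A2) := by simp
      rw [e2, h1]
      simp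
    · right
      left
      have h3 := congrArg List.getLast? h1
      have h4 := congrArg List.head? h2
      simp only [List.getLast?_append, List.getLast?_singleton, Option.some_or,
        Option.some.injEq] at h3
      simp only [List.head?_cons, Option.some.injEq] at h4
      exact ⟨h3.symm, h4.symm⟩
    · right
      right
      refine ⟨A1 ++ z :: M ++ m, ?_⟩
      rw [h1]
      simp
  refine ⟨by simp, fun v hv => h.kds v (hmem v hv), fun v hv => h.cols v (hmem v hv), ?_, ?_, ?_, ?_⟩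
  · intro l₁ x y l₂ e hx hy
    rcases hpair l₁ x y l₂ e with ⟨m, h1⟩ | ⟨rfl, rfl⟩ | ⟨m, h1⟩
    · exact h.labs _ x y _ h1 hx hy
    · exact hl
    · exact h.labs _ x y _ h1 hx hy
  · intro l₁ x y l₂ e hx
    rcases hpair l₁ x y l₂ e with ⟨m, h1⟩ | ⟨rfl, rfl⟩ | ⟨m, h1⟩
    · exact h.endR _ x y _ h1 hx
    · exact absurd hx hz
    · exact h.endR _ x y _ h1 hx
  · intro l₁ x y l₂ e hy
    rcases hpair l₁ x y l₂ e with ⟨m, h1⟩ | ⟨rfl, rfl⟩ | ⟨m, h1⟩
    · exact h.endL _ x y _ h1 hy
    · exact absurd hy hz'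
    · exact h.endL _ x y _ h1 hy
  · obtain ⟨p, hlip, hcut⟩ := h.phi
    refine ⟨p, fun u v hu hv huv => hlip u v (hu.imp (hmem u) id) (hv.imp (hmem v) id) huv,
      fun l₁ r l₂ e hr => ?_⟩
    have hrz : r ≠ z := by
      rintro rfl
      exact hz hr
    have hrz' : r ≠ z' := by
      rintro rfl
      exact hz' hr
    rcases csame_split1 e hrz hrz' with ⟨m, h1, h2⟩ | ⟨m, h1, h2⟩
    · obtain ⟨a1, a2, a3, a4, a5⟩ := hcut l₁ r (m ++ z :: (M ++ z' :: A2)) (by rw [h1]; simp) hr
      have hm2 : ∀ y ∈ l₂, y ∈ m ++ z :: (M ++ z' :: A2) := by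
        intro y hy
        rw [h2] at hy
        simp only [List.mem_append, List.mem_cons] at hy ⊢
        tauto
      refine ⟨a1, fun y hy => a2 y (hm2 y hy), a3, fun y hy hpy => ?_,
        fun y hy => a5 y (hm2 y hy)⟩
      have h3 := a4 y (hm2 y hy) hpy
      rw [h2]
      cases m with
      | nil => simpa using h3
      | cons c d => simpa using h3
    · obtain ⟨a1, a2, a3, a4, a5⟩ := hcut (A1 ++ z :: (M ++ z' :: m)) r l₂
        (by rw [h1]; simp) hr
      have hm1 : ∀ y ∈ l₁, y ∈ A1 ++ z :: (M ++ z' :: m) := by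
        intro y hy
        rw [h2] at hy
        simp only [List.mem_append, List.mem_cons] at hy ⊢
        tauto
      refine ⟨fun y hy => a1 y (hm1 y hy), a2, fun y hy hpy => ?_, a4, a5⟩
      have h3 := a3 y (hm1 y hy) hpy
      have e1 : A1 ++ z :: (M ++ z' :: m) = (A1 ++ z :: M) ++ (z' :: m) := by simp
      have e2 : A1 ++ z :: z' :: m = (A1 ++ [z]) ++ (z' :: m) := by simp
      rw [e1, List.getLast?_append_of_ne_nil _ (List.cons_ne_nil _ _)] at h3
      rw [h2, e2, List.getLast?_append_of_ne_nil _ (List.cons_ne_nil _ _)]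
      exact h3

theorem step_same {T : Sph V} {D : ℕ} {s : Stt V} {J : Finset (Finset V)} {A1 M A2 B : List V}
    {z z' : V} {a b : Fin 3} (IH : IHyp T D J.card)
    (inv : Inv T D s J (A1 ++ z :: (M ++ z' :: A2)) B a b) (hz : JA J z z') (hM : M ≠ []) :
    Solv T D s J (A1 ++ z :: (M ++ z' :: A2)) B a b := by
  set A := A1 ++ z :: (M ++ z' :: A2) with hA
  have hdisc := inv.disc
  obtain ⟨hAn, hBn, hABn⟩ := List.nodup_append.1 hdisc.nd
  have hAB : ∀ r, r ∈ A → r ∉ B := fun r hr hr' => hABn r hr r hr' rfl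
  have hadj : T.gr.Adj z z' := by
    obtain ⟨h1, t, ht, h2, h3⟩ := hz
    exact ⟨h1, t, hdisc.sub ht, h2, h3⟩
  have hno : ∀ y ∈ z :: (M ++ [z']), (s y).kd ≠ 0 := csame_nocut inv.sideA hAn hadj hM
  have hlab : ∀ y ∈ z :: (M ++ [z']), (s z).lab = (s y).lab := csame_lab inv.sideA hno
  have hrot : A ++ B ~r z :: (M ++ z' :: (A2 ++ B ++ A1)) := by
    have e1 : A ++ B = A1 ++ (z :: (M ++ z' :: (A2 ++ B))) := by
      rw [hA]
      simp
    have e2 : z :: (M ++ z' :: (A2 ++ B ++ A1)) = (z :: (M ++ z' :: (A2 ++ B))) ++ A1 := by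
      simp
    rw [e1, e2]
    exact List.isRotated_append
  have hQ : A2 ++ B ++ A1 ≠ [] := by
    intro h
    rw [List.append_eq_nil_iff, List.append_eq_nil_iff] at h
    exact inv.sideB.ne h.1.2
  obtain ⟨J1, J2, hu, hd, hn1, hn2, hD1, hD2⟩ :=
    Disc.chord_split (Disc.rotate hdisc hrot) hM hQ hz
  have hC1 : z :: (M ++ [z']) = [z] ++ (M ++ [z']) := by simp
  rw [hC1] at hD1
  have hD2' : Disc T J2 ((A1 ++ z :: z' :: A2) ++ B) := by
    refine Disc.rotate hD2 ?_
    have e1 : z' :: ((A2 ++ B ++ A1) ++ [z]) = (z' :: (A2 ++ B)) ++ (A1 ++ [z]) := by simp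
    have e2 : (A1 ++ z :: z' :: A2) ++ B = (A1 ++ [z]) ++ (z' :: (A2 ++ B)) := by simp
    rw [e1, e2]
    exact List.isRotated_append
  have hJ1 : J1 ⊆ J := by
    rw [← hu]
    exact Finset.subset_union_left
  have hJ2 : J2 ⊆ J := by
    rw [← hu]
    exact Finset.subset_union_right
  have hcard : J1.card + J2.card = J.card := by
    rw [← hu, Finset.card_union_of_disjoint hd]
  have hc1 : J1.card < J.card := by
    have := hn2.card_pos
    omega
  have hc2 : J2.card < J.card := by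
    have := hn1.card_pos
    omega
  have hmem1 : ∀ v, v ∈ [z] ++ (M ++ [z']) → v ∈ A ++ B := by
    intro v hv
    rw [hA]
    simp only [List.mem_append, List.mem_cons, List.not_mem_nil, or_false] at hv ⊢
    tauto
  have hmemA : ∀ v, v ∈ A1 ++ z :: z' :: A2 → v ∈ A := by
    intro v hv
    rw [hA]
    simp only [List.mem_append, List.mem_cons] at hv ⊢
    tauto
  have hmem2 : ∀ v, v ∈ (A1 ++ z :: z' :: A2) ++ B → v ∈ A ++ B := by
    intro v hv
    rcases List.mem_append.1 hv with h | h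
    · exact List.mem_append_left _ (hmemA v h)
    · exact List.mem_append_right _ h
  have hno' : ∀ y ∈ [z] ++ (M ++ [z']), (s y).kd ≠ 0 := by
    rw [← hC1]
    exact hno
  have hlab' : ∀ y ∈ [z] ++ (M ++ [z']), (s z).lab = (s y).lab := by
    rw [← hC1]
    exact hlab
  have hK1 := Disc.inn_mono hdisc hD1 hJ1
  have hK2 := Disc.inn_mono hdisc hD2' hJ2
  have hsideA := inv.sideA
  -- the monochromatic part
  have hinv1 : Inv T D s J1 [z] (M ++ [z']) a a := by
    constructor
    · exact hD1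
    · have h2 : Side T D s (inn J (A ++ B)) [z] a := by
        generalize inn J (A ++ B) = K at hsideA
        have e : A = A1 ++ [z] ++ (M ++ z' :: A2) := by
          rw [hA]
          simp
        rw [e] at hsideA
        exact Side.sub hsideA (by simp)
      exact Side.congr h2 (fun _ _ => rfl) hK1
    · have h2 : Side T D s (inn J (A ++ B)) (M ++ [z']) a := by
        generalize inn J (A ++ B) = K at hsideA
        have e : A = (A1 ++ [z]) ++ (M ++ [z']) ++ A2 := by
          rw [hA]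
          simp
        rw [e] at hsideA
        exact Side.sub hsideA (by simp)
      exact Side.congr h2 (fun _ _ => rfl) hK1
    · intro w hw w' _ h1 _
      exact absurd h1 (hno' w (List.mem_append_left _ hw))
    · exact Or.inr ⟨rfl, hno', fun x hx y hy => (hlab' x hx).symm.trans (hlab' y hy)⟩
  have hinv2 : ∀ s1 : Stt V, (∀ v, v ∉ inn J1 ([z] ++ (M ++ [z'])) → s1 v = s v) →
      Inv T D s1 J2 (A1 ++ z :: z' :: A2) B a b := by
    intro s1 hs1'
    have hs1 : ∀ v, v ∈ A ++ B → s1 v = s v := by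
      intro v hv
      refine hs1' v fun h => ?_
      exact (mem_inn.1 (hK1 h)).2 hv
    constructor
    · exact hD2'
    · have h2 : Side T D s (inn J (A ++ B)) (A1 ++ z :: z' :: A2) a :=
        csame_side hsideA (hno z (by simp)) (hno z' (by simp)) (hlab z' (by simp))
      exact Side.congr h2 (fun v hv => hs1 v (List.mem_append_left _ (hmemA v hv))) hK2
    · exact Side.congr inv.sideB (fun v hv => hs1 v (List.mem_append_right _ hv)) hK2
    · intro w hw w' hw' h1 h2
      rw [hs1 w (List.mem_append_left _ (hmemA w hw))] at h1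
      rw [hs1 w' (List.mem_append_right _ hw')] at h2
      obtain ⟨h3, h4⟩ := inv.apart w (hmemA w hw) w' hw' h1 h2
      exact ⟨h3, fun y hy => h4 y (hK2 hy)⟩
    · rcases inv.mode with h | ⟨h1, h2, h3⟩
      · exact Or.inl h
      · refine Or.inr ⟨h1, fun v hv => ?_, fun v hv v' hv' => ?_⟩
        · rw [hs1 v (hmem2 v hv)]
          exact h2 v (hmem2 v hv)
        · rw [hs1 v (hmem2 v hv), hs1 v' (hmem2 v' hv')]
          exact h3 v (hmem2 v hv) v' (hmem2 v' hv')
  refine combine hdisc hD1 hD2' hu hd hmem1 hmem2 (IH s J1 _ _ a a hc1 hinv1)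
    (fun s1 hs1 => IH s1 J2 _ _ a b hc2 (hinv2 s1 hs1)) ?_ ?_
  · intro s2 hs2 _ hP2 r hr hkr
    have hrAB : r ∈ A ++ B := List.mem_append_left _ hr
    have hsr : s2 r = s r := hs2 r fun h => (mem_inn.1 h).2 hrAB
    have hrn : r ∉ [z] ++ (M ++ [z']) := by
      intro h
      rw [hsr] at hkr
      exact hno' r h hkr
    have hr' : r ∈ A1 ++ z :: z' :: A2 := by
      rw [hA] at hr
      simp only [List.mem_append, List.mem_cons, List.not_mem_nil, or_false] at hr hrn ⊢
      tauto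
    exact csame_lift hdisc hD2' hD1 (by rw [Finset.union_comm]; exact hu) hmem2 hmem1 hrAB hrn
      (fun x hx => hx) (fun x hx _ => hx) (fun x hx => List.mem_append_right _ hx)
      (hP2.repA r hr' hkr)
  · intro s2 hs2 _ hP2 r hr hkr
    have hrAB : r ∈ A ++ B := List.mem_append_right _ hr
    have hsr : s2 r = s r := hs2 r fun h => (mem_inn.1 h).2 hrAB
    have hrn : r ∉ [z] ++ (M ++ [z']) := by
      intro h
      rw [hsr] at hkr
      exact hno' r h hkr
    refine csame_lift hdisc hD2' hD1 (by rw [Finset.union_comm]; exact hu) hmem2 hmem1 hrAB hrn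
      hmemA (fun x hx hxC => ?_) (fun x hx => List.mem_append_left _ hx) (hP2.repB r hr hkr)
    rcases List.mem_append.1 hxC with h | h
    · exact h
    · exact absurd h (hAB x hx)

end CC3
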