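import Pool.Agent.Work.MP_3035da_co.CFrame

/-!
# CSym : symmetries and frame lemmas of the colouring recursion

* swap: `(A, B) ↦ (B, A)` : `A ++ B ~r B ++ A` (`Disc.rotate`), `inn` depends only on the members
  (`inn_congr`); the other fields are symmetric.
* reversal: `(A.reverse, B.reverse)`: `(A ++ B).reverse = B.reverse ++ A.reverse ~r A.reverse ++ B.reverse`
  (`Disc.rev`, `Disc.rotate`). `Side.reverse`: decompositions of `A.reverse` correspond to those of `A`,
  `endR`/`endL` are exchanged; potential `-p` (for the last clause of `Phi` use the decomposition of `A` at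
  the other cut).
* `Side.sub`: an infix of a side is a side (`l₁ ++ (x ++ y) ++ l₂` decompositions; the immediate
  neighbours in the infix are the immediate neighbours).
* `Side.congr`: only the values of `s` on `A` matter, and `K` may be made smaller.
* `GoodAt.mono`, `GoodAt.update`, `Rep.update`: the witnesses are in `K`.
-/

set_option autoImplicit false
open Classical

namespace CC3

variable {V : Type} [Fintype V]

theorem inn_swap (J : Finset (Finset V)) (A B : List V) : inn J (A ++ B) = inn J (B ++ A) :=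
  inn_congr (fun v => by rw [List.mem_append, List.mem_append, or_comm])

theorem inn_rev (J : Finset (Finset V)) (A B : List V) :
    inn J (A.reverse ++ B.reverse) = inn J (A ++ B) :=
  inn_congr (fun v => by
    rw [List.mem_append, List.mem_append, List.mem_reverse, List.mem_reverse])

theorem Inv.swap {T : Sph V} {D : ℕ} {s : Stt V} {J : Finset (Finset V)} {A B : List V}
    {a b : Fin 3} (h : Inv T D s J A B a b) : Inv T D s J B A b a := by
  have hi := inn_swap J A B
  refine ⟨h.disc.rotate List.isRotated_append, ?_, ?_, ?_, ?_⟩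
  · rw [← hi]
    exact h.sideB
  · rw [← hi]
    exact h.sideA
  · intro w hw w' hw' h0 h0'
    obtain ⟨h1, h2⟩ := h.apart w' hw' w hw h0' h0
    refine ⟨fun h3 => h1 h3.symm, fun y hy h3 => ?_⟩
    rw [← hi] at hy
    exact h2 y hy ⟨h3.2, h3.1⟩
  · rcases h.mode with h1 | ⟨h1, h2, h3⟩
    · exact Or.inl h1.symm
    · have hm : ∀ z, z ∈ B ++ A → z ∈ A ++ B := by
        intro z hz
        rw [List.mem_append] at hz ⊢
        exact hz.symm
      exact Or.inr ⟨h1.symm, fun z hz => h2 z (hm z hz), fun z hz z' hz' => h3 z (hm z hz) z' (hm z' hz')⟩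


theorem Solv.swap {T : Sph V} {D : ℕ} {s : Stt V} {J : Finset (Finset V)} {A B : List V}
    {a b : Fin 3} (h : Solv T D s J A B a b) : Solv T D s J B A b a := by
  have hi := inn_swap J A B
  obtain ⟨s', h1, h2⟩ := h
  refine ⟨s', fun v hv => h1 v (by rwa [hi]), ?_, ?_, ?_, ?_, ?_, ?_⟩
  · rw [← hi]
    exact h2.good
  · rw [← hi]
    exact h2.name
  · rw [← hi]
    exact h2.seg
  · rw [← hi]
    exact h2.adj
  · rw [← hi]
    exact h2.repB
  · rw [← hi]
    exact h2.repA


theorem Side.reverse {T : Sph V} {D : ℕ} {s : Stt V} {K : Finset V} {A : List V} {c : Fin 3}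
    (h : Side T D s K A c) : Side T D s K A.reverse c := by
  have hd : ∀ {l₁ l₂ : List V} {z : V}, A.reverse = l₁ ++ z :: l₂ →
      A = l₂.reverse ++ z :: l₁.reverse := by
    intro l₁ l₂ z e
    have e2 := congrArg List.reverse e
    rw [List.reverse_reverse] at e2
    rw [e2]
    simp only [List.reverse_append, List.reverse_cons, List.append_assoc, List.cons_append,
      List.nil_append]
  have hd2 : ∀ {l₁ l₂ : List V} {z z' : V}, A.reverse = l₁ ++ z :: z' :: l₂ →
      A = l₂.reverse ++ z' :: z :: l₁.reverse := by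
    intro l₁ l₂ z z' e
    rw [hd e]
    simp only [List.reverse_cons, List.append_assoc, List.cons_append, List.nil_append]
  have hne : A.reverse ≠ [] := by
    intro e
    exact h.ne (List.reverse_eq_nil_iff.1 e)
  refine ⟨hne, fun z hz => h.kds z (List.mem_reverse.1 hz), fun z hz => h.cols z (List.mem_reverse.1 hz),
    fun l₁ z z' l₂ e hz hz' => (h.labs _ _ _ _ (hd2 e) hz' hz).symm,
    fun l₁ z z' l₂ e hz => h.endL _ _ _ _ (hd2 e) hz,
    fun l₁ z z' l₂ e hz => h.endR _ _ _ _ (hd2 e) hz, ?_⟩
  obtain ⟨q, h1, h2⟩ := h.phi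
  refine ⟨fun v => - q v, fun u v hu hv huv => ?_, fun l₁ r l₂ e hr => ?_⟩
  · have h3 := h1 v u (hv.imp List.mem_reverse.1 id) (hu.imp List.mem_reverse.1 id) huv.symm
    show - q u ≤ - q v + 1
    linarith
  obtain ⟨a1, a2, a3, a4, a5⟩ := h2 _ r _ (hd e) hr
  refine ⟨fun z hz => ?_, fun z hz => ?_, fun z hz hzr => ?_, fun z hz hzr => ?_,
    fun z hz hz0 => ?_⟩
  · have h3 := a2 z (List.mem_reverse.2 hz)
    show - q z + 1 ≤ - q r
    linarith
  · have h3 := a1 z (List.mem_reverse.2 hz)
    show - q r + 1 ≤ - q z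
    linarith
  · have hzr' : - q z + 1 = - q r := hzr
    have h3 := a4 z (List.mem_reverse.2 hz) (by linarith)
    rwa [List.head?_reverse] at h3
  · have hzr' : - q r + 1 = - q z := hzr
    have h3 := a3 z (List.mem_reverse.2 hz) (by linarith)
    rwa [List.getLast?_reverse] at h3
  · obtain ⟨m₁, m₂, e3⟩ := List.append_of_mem hz
    have e4 : A = m₂.reverse ++ z :: (m₁.reverse ++ r :: l₁.reverse) := by
      rw [hd e, e3]
      simp only [List.reverse_append, List.reverse_cons, List.append_assoc, List.cons_append,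
        List.nil_append]
    have h3 := (h2 _ z _ e4 hz0).2.2.2.2 r (List.mem_append_right _ List.mem_cons_self) hr
    show - q r + (Ls D : ℤ) ≤ - q z
    linarith


theorem Inv.reverse {T : Sph V} {D : ℕ} {s : Stt V} {J : Finset (Finset V)} {A B : List V}
    {a b : Fin 3} (h : Inv T D s J A B a b) : Inv T D s J A.reverse B.reverse a b := by
  have hi := inn_rev J A B
  refine ⟨?_, ?_, ?_, ?_, ?_⟩
  · have h1 := h.disc.rev
    rw [List.reverse_append] at h1
    exact h1.rotate List.isRotated_append
  · rw [hi]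
    exact h.sideA.reverse
  · rw [hi]
    exact h.sideB.reverse
  · intro w hw w' hw' h0 h0'
    rw [hi]
    exact h.apart w (List.mem_reverse.1 hw) w' (List.mem_reverse.1 hw') h0 h0'
  · have hm : ∀ z, z ∈ A.reverse ++ B.reverse → z ∈ A ++ B := by
      intro z hz
      rw [List.mem_append, List.mem_reverse, List.mem_reverse] at hz
      exact List.mem_append.2 hz
    rcases h.mode with h1 | ⟨h1, h2, h3⟩
    · exact Or.inl h1
    · exact Or.inr ⟨h1, fun z hz => h2 z (hm z hz), fun z hz z' hz' => h3 z (hm z hz) z' (hm z' hz')⟩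


theorem Solv.reverse {T : Sph V} {D : ℕ} {s : Stt V} {J : Finset (Finset V)} {A B : List V}
    {a b : Fin 3} (h : Solv T D s J A.reverse B.reverse a b) : Solv T D s J A B a b := by
  have hi := inn_rev J A B
  obtain ⟨s', h1, h2⟩ := h
  refine ⟨s', fun v hv => h1 v (by rwa [hi]), ?_, ?_, ?_, ?_, ?_, ?_⟩
  · rw [← hi]
    exact h2.good
  · rw [← hi]
    exact h2.name
  · rw [← hi]
    exact h2.seg
  · rw [← hi]
    exact h2.adj
  · intro r hr h0
    rw [← hi]
    exact (h2.repA r (List.mem_reverse.2 hr) h0).congr (fun _ _ => rfl) (fun z => List.mem_reverse)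
  · intro r hr h0
    rw [← hi]
    exact (h2.repB r (List.mem_reverse.2 hr) h0).congr (fun _ _ => rfl) (fun z => List.mem_reverse)


end CC3
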