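import Pool.Agent.Work.MP_3035da_co.Defs

/-!
# ChainAlg : algebra of the chains `ed`, `pc`, `cyc`  (all values in `ZMod 2`)

Proofs: unfold, induction on the list, `CharTwo.add_self_eq_zero`, `funext u; funext v; split_ifs`.
* `pc_append`: induction on `l₁` (cases `l₁ = []`, `[a]`, `a :: b :: l`).
* `pc_reverse`: induction using `pc_append` and `ed_comm`.
* `cyc_rot`: for `l₁ = a :: l`, `l₂ = b :: m`: both sides are
  `pc (a :: l ++ [b]) + pc (b :: m ++ [a])` by `pc_append`.
* `cyc_chord`, `cyc_ear` : expand both sides with `pc_append`, the new path occurs twice and cancels.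
-/

set_option autoImplicit false
open Classical

namespace CC3

variable {V : Type}

private theorem CC3_two (h : Ch V) : h + h = 0 := by
  funext u v
  exact CharTwo.add_self_eq_zero _

theorem ed_comm (a b : V) : ed a b = ed b a := by
  funext u v
  unfold ed
  have h : (a ≠ b ∧ ((u = a ∧ v = b) ∨ (u = b ∧ v = a))) ↔
      (b ≠ a ∧ ((u = b ∧ v = a) ∨ (u = a ∧ v = b))) := by
    constructor
    · rintro ⟨h, h1⟩
      exact ⟨h.symm, h1.symm⟩
    · rintro ⟨h, h1⟩
      exact ⟨h.symm, h1.symm⟩
  simp only [h]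

theorem ed_self (a : V) : ed a a = 0 := by
  funext u v
  unfold ed
  rw [if_neg (fun h => h.1 rfl)]
  rfl

theorem ed_one {a b : V} (h : a ≠ b) : ed a b a b = 1 := by
  unfold ed
  rw [if_pos ⟨h, Or.inl ⟨rfl, rfl⟩⟩]

theorem pc_cons_cons (a b : V) (l : List V) : pc (a :: b :: l) = ed a b + pc (b :: l) := rfl

theorem pc_append (l₁ : List V) (x : V) (l₂ : List V) :
    pc (l₁ ++ x :: l₂) = pc (l₁ ++ [x]) + pc (x :: l₂) := by
  induction l₁ with
  | nil =>
    show pc (x :: l₂) = (0 : Ch V) + pc (x :: l₂)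
    rw [zero_add]
  | cons a l ih =>
    cases l with
    | nil =>
      show ed a x + pc (x :: l₂) = ed a x + pc [x] + pc (x :: l₂)
      show ed a x + pc (x :: l₂) = ed a x + (0 : Ch V) + pc (x :: l₂)
      rw [add_zero]
    | cons b l =>
      show ed a b + pc (b :: l ++ x :: l₂) = ed a b + pc (b :: l ++ [x]) + pc (x :: l₂)
      rw [ih, add_assoc]

theorem pc_reverse (l : List V) : pc l.reverse = pc l := by
  induction l with
  | nil => rfl
  | cons a l ih =>
    cases l with
    | nil => rfl
    | cons b l =>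
      have h1 : (a :: b :: l).reverse = l.reverse ++ b :: [a] := by
        simp only [List.reverse_cons, List.append_assoc, List.cons_append, List.nil_append]
      have h2 : (b :: l).reverse = l.reverse ++ [b] := by
        simp only [List.reverse_cons]
      rw [h1, pc_append, ← h2, ih]
      show pc (b :: l) + (ed b a + (0 : Ch V)) = ed a b + pc (b :: l)
      rw [add_zero, ed_comm b a, add_comm]

theorem cyc_cons (a : V) (l : List V) : cyc (a :: l) = pc (a :: (l ++ [a])) := rfl

/-- a cycle given by a path plus its closing edge -/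
theorem cyc_concat (a : V) (P : List V) (b : V) :
    cyc (a :: (P ++ [b])) = pc (a :: (P ++ [b])) + ed b a := by
  rw [cyc_cons]
  have h : a :: ((P ++ [b]) ++ [a]) = (a :: P) ++ b :: [a] := by
    simp only [List.append_assoc, List.cons_append, List.nil_append]
  rw [h, pc_append]
  show pc (a :: P ++ [b]) + (ed b a + (0 : Ch V)) = _
  rw [add_zero]
  rfl

theorem cyc_split (a : V) (P : List V) (b : V) (Q : List V) :
    cyc (a :: (P ++ b :: Q)) = pc (a :: (P ++ [b])) + pc (b :: (Q ++ [a])) := by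
  rw [cyc_cons]
  have h : a :: ((P ++ b :: Q) ++ [a]) = (a :: P) ++ b :: (Q ++ [a]) := by
    simp only [List.append_assoc, List.cons_append]
  rw [h, pc_append]
  rfl

theorem cyc_rot (l₁ l₂ : List V) : cyc (l₁ ++ l₂) = cyc (l₂ ++ l₁) := by
  cases l₁ with
  | nil => rw [List.nil_append, List.append_nil]
  | cons a l =>
    cases l₂ with
    | nil => rw [List.nil_append, List.append_nil]
    | cons b m =>
      show cyc (a :: (l ++ b :: m)) = cyc (b :: (m ++ a :: l))
      rw [cyc_split, cyc_split, add_comm]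

theorem cyc_isRotated {l l' : List V} (h : l ~r l') : cyc l = cyc l' := by
  obtain ⟨n, hn, rfl⟩ := List.isRotated_iff_mod.1 h
  rw [List.rotate_eq_drop_append_take hn, ← cyc_rot, List.take_append_drop]

theorem cyc_reverse (l : List V) : cyc l.reverse = cyc l := by
  cases l with
  | nil => rfl
  | cons a l =>
    rw [List.reverse_cons, cyc_rot]
    show cyc (a :: l.reverse) = cyc (a :: l)
    rw [cyc_cons, cyc_cons, ← pc_reverse (a :: (l ++ [a]))]
    congr 1
    simp only [List.reverse_cons, List.reverse_append, List.reverse_nil, List.nil_append,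
      List.cons_append]

/-- a chord splits a cycle -/
theorem cyc_chord (a : V) (P : List V) (b : V) (Q : List V) :
    cyc (a :: (P ++ b :: Q)) = cyc (a :: (P ++ [b])) + cyc (b :: (Q ++ [a])) := by
  rw [cyc_split, cyc_concat, cyc_concat, ed_comm b a]
  have h := CC3_two (ed a b)
  calc pc (a :: (P ++ [b])) + pc (b :: (Q ++ [a])) =
      pc (a :: (P ++ [b])) + pc (b :: (Q ++ [a])) + 0 := by rw [add_zero]
    _ = pc (a :: (P ++ [b])) + pc (b :: (Q ++ [a])) + (ed a b + ed a b) := by rw [h]
    _ = pc (a :: (P ++ [b])) + ed a b + (pc (b :: (Q ++ [a])) + ed a b) := by abel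

/-- an ear with one new vertex splits a cycle -/
theorem cyc_ear (a : V) (P : List V) (b : V) (Q : List V) (x : V) :
    cyc (a :: (P ++ b :: Q)) = cyc (a :: (P ++ [b, x])) + cyc (b :: (Q ++ [a, x])) := by
  have h1 : a :: (P ++ [b, x]) = a :: (P ++ b :: [x]) := rfl
  have h2 : b :: (Q ++ [a, x]) = b :: (Q ++ a :: [x]) := rfl
  rw [h1, h2, cyc_split, cyc_split a P b [x], cyc_split b Q a [x]]
  have h3 : pc (b :: ([x] ++ [a])) = ed b x + ed x a := by
    show ed b x + (ed x a + (0 : Ch V)) = _
    rw [add_zero]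
  have h4 : pc (a :: ([x] ++ [b])) = ed b x + ed x a := by
    show ed a x + (ed x b + (0 : Ch V)) = _
    rw [add_zero, ed_comm a x, ed_comm x b, add_comm]
  rw [h3, h4]
  have h := CC3_two (ed b x + ed x a)
  calc pc (a :: (P ++ [b])) + pc (b :: (Q ++ [a])) =
      pc (a :: (P ++ [b])) + pc (b :: (Q ++ [a])) + 0 := by rw [add_zero]
    _ = pc (a :: (P ++ [b])) + pc (b :: (Q ++ [a])) + ((ed b x + ed x a) + (ed b x + ed x a)) := by
        rw [h]
    _ = pc (a :: (P ++ [b])) + (ed b x + ed x a) +
        (pc (b :: (Q ++ [a])) + (ed b x + ed x a)) := by abel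

theorem cyc_triangle (a b c : V) : cyc [a, b, c] = ed a b + ed b c + ed c a := by
  show ed a b + (ed b c + (ed c a + (0 : Ch V))) = _
  rw [add_zero, add_assoc]

theorem symC_zero : SymC (0 : Ch V) := fun _ _ => rfl

theorem symC_add {g h : Ch V} (hg : SymC g) (hh : SymC h) : SymC (g + h) := by
  intro u v
  show g u v + h u v = g v u + h v u
  rw [hg u v, hh u v]

theorem symC_sum {ι : Type} (Y : Finset ι) (g : ι → Ch V) (hg : ∀ i ∈ Y, SymC (g i)) :
    SymC (∑ i ∈ Y, g i) := by
  intro u v
  rw [Finset.sum_apply, Finset.sum_apply, Finset.sum_apply, Finset.sum_apply]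
  exact Finset.sum_congr rfl fun i hi => hg i hi u v

theorem symC_ed (a b : V) : SymC (ed a b) := by
  intro u v
  unfold ed
  have h : (a ≠ b ∧ ((u = a ∧ v = b) ∨ (u = b ∧ v = a))) ↔
      (a ≠ b ∧ ((v = a ∧ u = b) ∨ (v = b ∧ u = a))) := by
    constructor
    · rintro ⟨h, ⟨h1, h2⟩ | ⟨h1, h2⟩⟩
      · exact ⟨h, Or.inr ⟨h2, h1⟩⟩
      · exact ⟨h, Or.inl ⟨h2, h1⟩⟩
    · rintro ⟨h, ⟨h1, h2⟩ | ⟨h1, h2⟩⟩
      · exact ⟨h, Or.inr ⟨h2, h1⟩⟩
      · exact ⟨h, Or.inl ⟨h2, h1⟩⟩
  simp only [h]

theorem symC_pc (l : List V) : SymC (pc l) := by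
  induction l with
  | nil => exact symC_zero
  | cons a l ih =>
    cases l with
    | nil => exact symC_zero
    | cons b l => exact symC_add (symC_ed a b) ih

theorem symC_cyc (l : List V) : SymC (cyc l) := by
  cases l with
  | nil => exact symC_zero
  | cons a l => exact symC_pc _

theorem ch_add_self (h : Ch V) : h + h = 0 := by
  funext u v
  exact CharTwo.add_self_eq_zero _

end CC3
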