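import Pool.Agent.Work.MP_3035da_co.ChainAlg

/-!
# ChainEven : degrees of the chains

* `sum_ed`: at most one `u` contributes. For `a = b` both sides vanish (`1 + 1 = 0`).
* `sum_pc`: induction on the list from `sum_ed` (the inner vertices cancel).
* `evn_cyc`: from `sum_pc` for the closed list `a :: (l ++ [a])`: head = last.
-/

set_option autoImplicit false
open Classical

namespace CC3

variable {V : Type} [Fintype V]

theorem sum_ed (a b v : V) :
    ∑ u, ed a b v u = (if v = a then 1 else 0) + (if v = b then 1 else 0) := by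
  by_cases hab : a = b
  · subst hab
    rw [ed_self]
    have h1 : ∑ u, (0 : Ch V) v u = 0 := Finset.sum_eq_zero fun _ _ => rfl
    rw [h1]
    exact (CharTwo.add_self_eq_zero _).symm
  · have h1 : ∀ u, ed a b v u = (if v = a then (if u = b then 1 else 0) else 0) +
        (if v = b then (if u = a then 1 else 0) else 0) := by
      intro u
      unfold ed
      by_cases hva : v = a
      · have hvb : v ≠ b := fun h => hab (hva.symm.trans h)
        by_cases hub : u = b
        · rw [if_pos ⟨hab, Or.inl ⟨hva, hub⟩⟩, if_pos hva, if_pos hub, if_neg hvb, add_zero]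
        · rw [if_neg, if_pos hva, if_neg hub, if_neg hvb, add_zero]
          rintro ⟨_, ⟨_, h⟩ | ⟨h, _⟩⟩
          · exact hub h
          · exact hvb h
      · by_cases hvb : v = b
        · by_cases hua : u = a
          · rw [if_pos ⟨hab, Or.inr ⟨hvb, hua⟩⟩, if_neg hva, if_pos hvb, if_pos hua, zero_add]
          · rw [if_neg, if_neg hva, if_pos hvb, if_neg hua, zero_add]
            rintro ⟨_, ⟨h, _⟩ | ⟨_, h⟩⟩
            · exact hva h
            · exact hua h
        · rw [if_neg, if_neg hva, if_neg hvb, zero_add]
          rintro ⟨_, ⟨h, _⟩ | ⟨h, _⟩⟩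
          · exact hva h
          · exact hvb h
    rw [Finset.sum_congr rfl (fun u _ => h1 u), Finset.sum_add_distrib]
    congr 1
    · split_ifs with h
      · rw [Finset.sum_ite_eq' Finset.univ b (fun _ => (1 : ZMod 2)), if_pos (Finset.mem_univ _)]
      · exact Finset.sum_const_zero
    · split_ifs with h
      · rw [Finset.sum_ite_eq' Finset.univ a (fun _ => (1 : ZMod 2)), if_pos (Finset.mem_univ _)]
      · exact Finset.sum_const_zero

theorem sum_pc (a : V) (l : List V) (b v : V) :
    ∑ u, pc (a :: (l ++ [b])) v u = (if v = a then 1 else 0) + (if v = b then 1 else 0) := by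
  induction l generalizing a with
  | nil =>
    have h : pc (a :: ([] ++ [b])) = ed a b := by
      show ed a b + (0 : Ch V) = ed a b
      rw [add_zero]
    rw [h]
    exact sum_ed a b v
  | cons c l ih =>
    have h : ∀ u, pc (a :: (c :: l ++ [b])) v u = ed a c v u + pc (c :: (l ++ [b])) v u :=
      fun u => rfl
    rw [Finset.sum_congr rfl (fun u _ => h u), Finset.sum_add_distrib, sum_ed, ih]
    have h2 := CharTwo.add_self_eq_zero (if v = c then (1 : ZMod 2) else 0)
    linear_combination h2

theorem evn_zero : EvnC (0 : Ch V) := by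
  intro v
  exact Finset.sum_eq_zero fun _ _ => rfl

theorem evn_add {g h : Ch V} (hg : EvnC g) (hh : EvnC h) : EvnC (g + h) := by
  intro v
  have h1 : ∀ u, (g + h) v u = g v u + h v u := fun _ => rfl
  rw [Finset.sum_congr rfl (fun u _ => h1 u), Finset.sum_add_distrib, hg v, hh v, add_zero]

theorem evn_sum {ι : Type} (Y : Finset ι) (g : ι → Ch V) (hg : ∀ i ∈ Y, EvnC (g i)) :
    EvnC (∑ i ∈ Y, g i) := by
  intro v
  have h1 : ∀ u, (∑ i ∈ Y, g i) v u = ∑ i ∈ Y, g i v u := fun u => by
    rw [Finset.sum_apply, Finset.sum_apply]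
  rw [Finset.sum_congr rfl (fun u _ => h1 u), Finset.sum_comm]
  exact Finset.sum_eq_zero fun i hi => hg i hi v

theorem evn_cyc (l : List V) : EvnC (cyc l) := by
  cases l with
  | nil => exact evn_zero
  | cons a l =>
    intro v
    rw [cyc_cons, sum_pc]
    exact CharTwo.add_self_eq_zero _

end CC3
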