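import Pool.Agent.Work.MP_3035da_co.ChainAlg

/-!
# ChainMem : where the chains of lists without repetition are nonzero

Everything by induction on the list. For `l.Nodup` the edges of the path `l` are distinct, so
`pc l u v = 1` exactly for the consecutive pairs; the same for `cyc l` when `3 ≤ l.length`.
For `cyc` rotate the list (`cyc_isRotated`, `List.IsRotated`): `cyc (a :: l) = pc (a :: l) + ed last a`
and the closing edge is not an edge of the path when the length is at least 3.
-/

set_option autoImplicit false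
open Classical

namespace CC3

variable {V : Type}

theorem zmod2_cases (x : ZMod 2) : x = 0 ∨ x = 1 := by
  revert x
  decide

theorem zmod2_ne (x : ZMod 2) : x ≠ 0 ↔ x = 1 := by
  revert x
  decide

private theorem cm_ed {a b u v : V} (h : ed a b u v ≠ 0) :
    a ≠ b ∧ ((u = a ∧ v = b) ∨ (u = b ∧ v = a)) := by
  by_contra h1
  apply h
  unfold ed
  rw [if_neg h1]

theorem pc_mem {l : List V} {u v : V} (h : pc l u v ≠ 0) : u ∈ l ∧ v ∈ l ∧ u ≠ v := by
  induction l with
  | nil => exact absurd rfl h
  | cons a l ih =>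
    cases l with
    | nil => exact absurd rfl h
    | cons b l =>
      have h1 : pc (a :: b :: l) u v = ed a b u v + pc (b :: l) u v := rfl
      by_cases h2 : pc (b :: l) u v = 0
      · rw [h1, h2, add_zero] at h
        obtain ⟨hab, hc⟩ := cm_ed h
        rcases hc with ⟨rfl, rfl⟩ | ⟨rfl, rfl⟩
        · exact ⟨List.mem_cons_self, List.mem_cons_of_mem _ List.mem_cons_self, hab⟩
        · exact ⟨List.mem_cons_of_mem _ List.mem_cons_self, List.mem_cons_self, hab.symm⟩
      · obtain ⟨h3, h4, h5⟩ := ih h2
        exact ⟨List.mem_cons_of_mem _ h3, List.mem_cons_of_mem _ h4, h5⟩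

theorem cyc_mem {l : List V} {u v : V} (h : cyc l u v ≠ 0) : u ∈ l ∧ v ∈ l ∧ u ≠ v := by
  cases l with
  | nil => exact absurd rfl h
  | cons a l =>
    rw [cyc_cons] at h
    obtain ⟨h1, h2, h3⟩ := pc_mem h
    have h4 : ∀ x, x ∈ a :: (l ++ [a]) → x ∈ a :: l := by
      intro x hx
      rcases List.mem_cons.1 hx with rfl | hx
      · exact List.mem_cons_self
      · rcases List.mem_append.1 hx with hx | hx
        · exact List.mem_cons_of_mem _ hx
        · rw [List.mem_singleton.1 hx]
          exact List.mem_cons_self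
    exact ⟨h4 u h1, h4 v h2, h3⟩

theorem pc_one_iff {l : List V} (hl : l.Nodup) (u v : V) :
    pc l u v = 1 ↔ ∃ l₁ l₂, l = l₁ ++ u :: v :: l₂ ∨ l = l₁ ++ v :: u :: l₂ := by
  induction l with
  | nil =>
    constructor
    · intro h
      exact absurd h (by show (0 : ZMod 2) ≠ 1; decide)
    · rintro ⟨l₁, l₂, h | h⟩
      · exact absurd (congrArg List.length h) (by simp)
      · exact absurd (congrArg List.length h) (by simp)
  | cons a l ih =>
    cases l with
    | nil =>
      constructor
      · intro h
        exact absurd h (by show (0 : ZMod 2) ≠ 1; decide)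
      · rintro ⟨l₁, l₂, h | h⟩
        · have := congrArg List.length h
          simp only [List.length_append, List.length_cons, List.length_nil] at this
          omega
        · have := congrArg List.length h
          simp only [List.length_append, List.length_cons, List.length_nil] at this
          omega
    | cons b l =>
      have h1 : pc (a :: b :: l) u v = ed a b u v + pc (b :: l) u v := rfl
      have hnd := List.nodup_cons.1 hl
      have hab : a ≠ b := fun e => hnd.1 (e ▸ List.mem_cons_self)
      by_cases hc : (u = a ∧ v = b) ∨ (u = b ∧ v = a)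
      · have h2 : pc (b :: l) u v = 0 := by
          by_contra h3
          obtain ⟨h4, h5, _⟩ := pc_mem h3
          rcases hc with ⟨h6, _⟩ | ⟨_, h6⟩
          · exact hnd.1 (h6 ▸ h4)
          · exact hnd.1 (h6 ▸ h5)
        have h3 : ed a b u v = 1 := by
          unfold ed
          rw [if_pos ⟨hab, hc⟩]
        rw [h1, h2, h3, add_zero]
        refine ⟨fun _ => ?_, fun _ => rfl⟩
        rcases hc with ⟨rfl, rfl⟩ | ⟨rfl, rfl⟩
        · exact ⟨[], l, Or.inl rfl⟩
        · exact ⟨[], l, Or.inr rfl⟩
      · have h3 : ed a b u v = 0 := by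
          unfold ed
          rw [if_neg (fun h => hc h.2)]
        rw [h1, h3, zero_add, ih hnd.2]
        constructor
        · rintro ⟨l₁, l₂, h | h⟩
          · exact ⟨a :: l₁, l₂, Or.inl (by rw [h]; rfl)⟩
          · exact ⟨a :: l₁, l₂, Or.inr (by rw [h]; rfl)⟩
        · rintro ⟨l₁, l₂, h | h⟩
          · cases l₁ with
            | nil =>
              simp only [List.nil_append, List.cons.injEq] at h
              exact absurd (Or.inl ⟨h.1.symm, h.2.1.symm⟩) hc
            | cons c l₁ =>
              simp only [List.cons_append, List.cons.injEq] at h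
              exact ⟨l₁, l₂, Or.inl h.2⟩
          · cases l₁ with
            | nil =>
              simp only [List.nil_append, List.cons.injEq] at h
              exact absurd (Or.inr ⟨h.2.1.symm, h.1.symm⟩) hc
            | cons c l₁ =>
              simp only [List.cons_append, List.cons.injEq] at h
              exact ⟨l₁, l₂, Or.inr h.2⟩

private theorem cm_rot {l : List V} (hl : l.Nodup) (h3 : 3 ≤ l.length) {u v : V} {l' : List V}
    (h : l ~r (u :: v :: l')) : cyc l u v = 1 := by
  have hnd : (u :: v :: l').Nodup := h.perm.nodup_iff.1 hl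
  have hlen : (u :: v :: l').length = l.length := h.perm.length_eq.symm
  rw [cyc_isRotated h]
  cases l' with
  | nil =>
    simp only [List.length_cons, List.length_nil] at hlen
    omega
  | cons c m =>
    have h1 := List.nodup_cons.1 hnd
    have h2 := List.nodup_cons.1 h1.2
    have huv : u ≠ v := fun e => h1.1 (e ▸ List.mem_cons_self)
    have huc : u ≠ c := fun e => h1.1 (e ▸ List.mem_cons_of_mem _ List.mem_cons_self)
    have e1 : pc (c :: (m ++ [u])) u v = 0 := by
      by_contra h4
      have h5 := (pc_mem h4).2.1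
      rcases List.mem_cons.1 h5 with h5 | h5
      · exact h2.1 (h5 ▸ List.mem_cons_self)
      · rcases List.mem_append.1 h5 with h5 | h5
        · exact h2.1 (List.mem_cons_of_mem _ h5)
        · exact huv (List.mem_singleton.1 h5).symm
    have e2 : ed v c u v = 0 := by
      by_contra h4
      rcases (cm_ed h4).2 with ⟨h5, _⟩ | ⟨h5, _⟩
      · exact huv h5
      · exact huc h5
    show ed u v u v + (ed v c u v + pc (c :: (m ++ [u])) u v) = 1
    rw [e1, e2, ed_one huv, add_zero, add_zero]

/-- consecutive entries of a cyclic list -/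
theorem cyc_one_iff {l : List V} (hl : l.Nodup) (h3 : 3 ≤ l.length) (u v : V) :
    cyc l u v = 1 ↔ ∃ l', l ~r (u :: v :: l') ∨ l ~r (v :: u :: l') := by
  constructor
  · intro h
    cases l with
    | nil => exact absurd h3 (by simp)
    | cons a m =>
      obtain ⟨P, b, rfl⟩ : ∃ P b, m = P ++ [b] := by
        have hm : m ≠ [] := by
          rintro rfl
          simp only [List.length_cons, List.length_nil] at h3
          omega
        exact ⟨m.dropLast, m.getLast hm, (List.dropLast_append_getLast hm).symm⟩
      rw [cyc_concat] at h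
      have h4 : pc (a :: (P ++ [b])) u v + ed b a u v = 1 := h
      rcases zmod2_cases (pc (a :: (P ++ [b])) u v) with h5 | h5
      · rw [h5, zero_add] at h4
        have h6 : ed b a u v ≠ 0 := by rw [h4]; decide
        obtain ⟨_, hc⟩ := cm_ed h6
        have h7 : a :: (P ++ [b]) ~r b :: a :: P := by
          have := List.isRotated_append (l := a :: P) (l' := [b])
          exact this
        rcases hc with ⟨rfl, rfl⟩ | ⟨rfl, rfl⟩
        · exact ⟨P, Or.inl h7⟩
        · exact ⟨P, Or.inr h7⟩
      · obtain ⟨l₁, l₂, h6 | h6⟩ := (pc_one_iff hl u v).1 h5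
        · exact ⟨l₂ ++ l₁, Or.inl (by rw [h6]; exact List.isRotated_append)⟩
        · exact ⟨l₂ ++ l₁, Or.inr (by rw [h6]; exact List.isRotated_append)⟩
  · rintro ⟨l', h | h⟩
    · exact cm_rot hl h3 h
    · rw [symC_cyc l u v]
      exact cm_rot hl h3 h

/-- edges of the path are edges of the cycle -/
theorem cyc_of_pc {l : List V} (hl : l.Nodup) (h3 : 3 ≤ l.length) {u v : V} (h : pc l u v = 1) :
    cyc l u v = 1 := by
  obtain ⟨l₁, l₂, h6 | h6⟩ := (pc_one_iff hl u v).1 h
  · exact (cyc_one_iff hl h3 u v).2 ⟨l₂ ++ l₁, Or.inl (by rw [h6]; exact List.isRotated_append)⟩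
  · exact (cyc_one_iff hl h3 u v).2 ⟨l₂ ++ l₁, Or.inr (by rw [h6]; exact List.isRotated_append)⟩

/-- a sub-path of a cyclic list -/
theorem cyc_of_infix {l₁ m l₂ : List V} (hl : (l₁ ++ m ++ l₂).Nodup)
    (h3 : 3 ≤ (l₁ ++ m ++ l₂).length) {u v : V} (h : pc m u v = 1) :
    cyc (l₁ ++ m ++ l₂) u v = 1 := by
  have hm : m.Nodup := (List.nodup_append.1 (List.nodup_append.1 hl).1).2.1
  apply cyc_of_pc hl h3
  rw [pc_one_iff hl]
  obtain ⟨m₁, m₂, h6 | h6⟩ := (pc_one_iff hm u v).1 h
  · refine ⟨l₁ ++ m₁, m₂ ++ l₂, Or.inl ?_⟩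
    rw [h6]
    simp only [List.append_assoc, List.cons_append]
  · refine ⟨l₁ ++ m₁, m₂ ++ l₂, Or.inr ?_⟩
    rw [h6]
    simp only [List.append_assoc, List.cons_append]

/-- two distinct members of a cyclic list -/
theorem rot_two {l : List V} {a b : V} (ha : a ∈ l) (hb : b ∈ l) (hab : a ≠ b) :
    ∃ P Q, l ~r (a :: (P ++ b :: Q)) := by
  obtain ⟨l₁, l₂, rfl⟩ := List.append_of_mem ha
  have hb2 : b ∈ l₂ ++ l₁ := by
    rcases List.mem_append.1 hb with hb | hb
    · exact List.mem_append.2 (Or.inr hb)
    · rcases List.mem_cons.1 hb with hb | hb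
      · exact absurd hb.symm hab
      · exact List.mem_append.2 (Or.inl hb)
  obtain ⟨P, Q, h⟩ := List.append_of_mem hb2
  refine ⟨P, Q, ?_⟩
  rw [← h]
  exact List.isRotated_append

theorem rot_one {l : List V} {a : V} (ha : a ∈ l) : ∃ P, l ~r (a :: P) := by
  obtain ⟨l₁, l₂, rfl⟩ := List.append_of_mem ha
  exact ⟨l₂ ++ l₁, List.isRotated_append⟩

private theorem cm_head {v s : V} {m : List V} {p : V} (hl : (v :: s :: (m ++ [p])).Nodup) (u : V) :
    cyc (v :: s :: (m ++ [p])) v u = 1 ↔ (u = s ∨ u = p) := by
  have e1 : v :: s :: (m ++ [p]) = v :: ((s :: m) ++ [p]) := rfl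
  have hnd := List.nodup_cons.1 hl
  have h1 : pc (s :: (m ++ [p])) v u = 0 := by
    by_contra h
    exact hnd.1 (pc_mem h).1
  have hvs : v ≠ s := fun e => hnd.1 (e ▸ List.mem_cons_self)
  have hvp : v ≠ p := fun e => hnd.1 (e ▸ List.mem_cons_of_mem _ (List.mem_append.2
    (Or.inr (List.mem_singleton.2 rfl))))
  have hsp : s ≠ p := fun e => (List.nodup_cons.1 hnd.2).1 (e ▸ List.mem_append.2
    (Or.inr (List.mem_singleton.2 rfl)))
  have h2 : cyc (v :: s :: (m ++ [p])) v u = ed v s v u + ed p v v u := by
    rw [e1, cyc_concat]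
    show ed v s v u + pc (s :: (m ++ [p])) v u + ed p v v u = _
    rw [h1, add_zero]
  have h3 : ed v s v u = if u = s then 1 else 0 := by
    unfold ed
    by_cases h : u = s
    · rw [if_pos ⟨hvs, Or.inl ⟨rfl, h⟩⟩, if_pos h]
    · rw [if_neg, if_neg h]
      rintro ⟨_, ⟨_, h'⟩ | ⟨h', _⟩⟩
      · exact h h'
      · exact hvs h'
  have h4 : ed p v v u = if u = p then 1 else 0 := by
    unfold ed
    by_cases h : u = p
    · rw [if_pos ⟨hvp.symm, Or.inr ⟨rfl, h⟩⟩, if_pos h]
    · rw [if_neg, if_neg h]
      rintro ⟨_, ⟨h', _⟩ | ⟨_, h'⟩⟩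
      · exact hvp h'
      · exact h h'
  rw [h2, h3, h4]
  by_cases hs : u = s
  · have hp : u ≠ p := fun h => hsp (hs.symm.trans h)
    rw [if_pos hs, if_neg hp, add_zero]
    exact ⟨fun _ => Or.inl hs, fun _ => rfl⟩
  · rw [if_neg hs, zero_add]
    by_cases hp : u = p
    · rw [if_pos hp]
      exact ⟨fun _ => Or.inr hp, fun _ => rfl⟩
    · rw [if_neg hp]
      constructor
      · intro h
        exact absurd h (by decide)
      · rintro (h | h)
        · exact absurd h hs
        · exact absurd h hp

/-- the two neighbours of a vertex on a cycle -/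
theorem cyc_nbrs {l : List V} (hl : l.Nodup) (h3 : 3 ≤ l.length) {v : V} (hv : v ∈ l) :
    ∃ p s, p ≠ s ∧ p ≠ v ∧ s ≠ v ∧ ∀ u, cyc l v u = 1 ↔ (u = p ∨ u = s) := by
  obtain ⟨P, hP⟩ := rot_one hv
  have hlen : (v :: P).length = l.length := hP.perm.length_eq.symm
  have hnd : (v :: P).Nodup := hP.perm.nodup_iff.1 hl
  rw [List.length_cons] at hlen
  cases P with
  | nil =>
    simp only [List.length_nil] at hlen
    omega
  | cons s m =>
    have hm : m ≠ [] := by
      rintro rfl
      simp only [List.length_cons, List.length_nil] at hlen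
      omega
    obtain ⟨m', p, rfl⟩ : ∃ P b, m = P ++ [b] :=
      ⟨m.dropLast, m.getLast hm, (List.dropLast_append_getLast hm).symm⟩
    have h1 := List.nodup_cons.1 hnd
    refine ⟨p, s, ?_, ?_, ?_, fun u => ?_⟩
    · intro e
      exact (List.nodup_cons.1 h1.2).1 (e ▸ List.mem_append.2 (Or.inr (List.mem_singleton.2 rfl)))
    · intro e
      exact h1.1 (e ▸ List.mem_cons_of_mem _ (List.mem_append.2
        (Or.inr (List.mem_singleton.2 rfl))))
    · intro e
      exact h1.1 (e ▸ List.mem_cons_self)
    · rw [cyc_isRotated hP, cm_head hnd, or_comm]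

theorem cyc_head {v s : V} {m : List V} {p : V} (hl : (v :: s :: (m ++ [p])).Nodup) (u : V) :
    cyc (v :: s :: (m ++ [p])) v u = 1 ↔ (u = s ∨ u = p) := by
  exact cm_head hl u

theorem sub_pc_iff (G : SimpleGraph V) {l : List V} (hl : l.Nodup) :
    Sub G (pc l) ↔ l.IsChain G.Adj := by
  induction l with
  | nil => exact ⟨fun _ => List.isChain_nil, fun _ a b h => absurd rfl h⟩
  | cons a l ih =>
    cases l with
    | nil => exact ⟨fun _ => List.isChain_singleton a, fun _ a b h => absurd rfl h⟩
    | cons b l =>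
      have hnd := List.nodup_cons.1 hl
      have hab : a ≠ b := fun e => hnd.1 (e ▸ List.mem_cons_self)
      rw [List.isChain_cons_cons, ← ih hnd.2]
      constructor
      · intro h
        refine ⟨h a b ?_, fun u v huv => h u v ?_⟩
        · have h1 : pc (b :: l) a b = 0 := by
            by_contra h2
            exact hnd.1 (pc_mem h2).1
          show ed a b a b + pc (b :: l) a b ≠ 0
          rw [h1, ed_one hab, add_zero]
          decide
        · have h1 : ed a b u v = 0 := by
            by_contra h2
            obtain ⟨h3, h4, _⟩ := pc_mem huv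
            rcases (cm_ed h2).2 with ⟨h5, _⟩ | ⟨_, h5⟩
            · exact hnd.1 (h5 ▸ h3)
            · exact hnd.1 (h5 ▸ h4)
          show ed a b u v + pc (b :: l) u v ≠ 0
          rw [h1, zero_add]
          exact huv
      · rintro ⟨h1, h2⟩ u v huv
        by_cases h3 : pc (b :: l) u v = 0
        · have h4 : ed a b u v ≠ 0 := by
            intro h5
            apply huv
            show ed a b u v + pc (b :: l) u v = 0
            rw [h5, h3, add_zero]
          rcases (cm_ed h4).2 with ⟨rfl, rfl⟩ | ⟨rfl, rfl⟩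
          · exact h1
          · exact h1.symm
        · exact h2 u v h3

end CC3
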