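import Pool.Agent.Work.MP_3035da_co.SubCycle

/-!
# DBase : basic facts on boundaries of sets of triangles

`bd_union`, `bd_sdiff`, `bd_tri`: counting in `ZMod 2` (`funext u v`, cases `u = v`).
`evn_bd`: every triangle containing `v` contributes `2` to the degree of `v`: for `t ∋ v` the number of
`u ≠ v` in `t` is 2; exchange the sums.
-/

set_option autoImplicit false
open Classical

namespace CC3

variable {V : Type} [Fintype V]

theorem mem_vs {J : Finset (Finset V)} {v : V} : v ∈ vs J ↔ ∃ t ∈ J, v ∈ t := by
  simp [vs]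

theorem mem_inn {J : Finset (Finset V)} {C : List V} {v : V} :
    v ∈ inn J C ↔ (∃ t ∈ J, v ∈ t) ∧ v ∉ C := by
  rw [inn, Finset.mem_filter, mem_vs]

theorem inn_congr {J : Finset (Finset V)} {C C' : List V} (h : ∀ v, v ∈ C ↔ v ∈ C') :
    inn J C = inn J C' := by
  ext v
  rw [mem_inn, mem_inn, h]

theorem JA.symm {J : Finset (Finset V)} {u v : V} (h : JA J u v) : JA J v u := by
  obtain ⟨h1, t, h2, h3, h4⟩ := h
  exact ⟨h1.symm, t, h2, h4, h3⟩

theorem JA.adj {T : Sph V} {J : Finset (Finset V)} (hJ : J ⊆ T.F) {u v : V} (h : JA J u v) :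
    T.gr.Adj u v := by
  obtain ⟨h1, t, h2, h3, h4⟩ := h
  exact ⟨h1, t, hJ h2, h3, h4⟩

theorem bd_empty : bd (∅ : Finset (Finset V)) = 0 := by
  funext u v
  simp [bd]

theorem bd_union {J1 J2 : Finset (Finset V)} (h : Disjoint J1 J2) :
    bd (J1 ∪ J2) = bd J1 + bd J2 := by
  funext u v
  simp only [bd, Pi.add_apply]
  split_ifs with huv
  · simp
  · rw [Finset.filter_union, Finset.card_union_of_disjoint
      (Finset.disjoint_filter_filter h), Nat.cast_add]

theorem bd_sdiff {J X : Finset (Finset V)} (h : X ⊆ J) : bd (J \ X) = bd J + bd X := by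
  have h1 : bd J = bd (J \ X) + bd X := by
    rw [← bd_union Finset.sdiff_disjoint, Finset.sdiff_union_of_subset h]
  rw [h1, add_assoc, ch_add_self, add_zero]

theorem bd_erase {J : Finset (Finset V)} {t : Finset V} (h : t ∈ J) :
    bd (J.erase t) = bd J + bd {t} := by
  rw [← Finset.sdiff_singleton_eq_erase, bd_sdiff (Finset.singleton_subset_iff.mpr h)]

private theorem bd_single (t : Finset V) (u v : V) :
    bd {t} u v = if u ≠ v ∧ u ∈ t ∧ v ∈ t then 1 else 0 := by
  simp only [bd]
  by_cases huv : u = v
  · simp [huv]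
  · rw [if_neg huv, Finset.filter_singleton]
    by_cases h : u ∈ t ∧ v ∈ t
    · rw [if_pos h, if_pos ⟨huv, h⟩]; simp
    · rw [if_neg h, if_neg (fun g => h g.2)]; simp

theorem bd_tri {a b c : V} (hab : a ≠ b) (hbc : b ≠ c) (hca : c ≠ a) :
    bd {({a, b, c} : Finset V)} = ed a b + ed b c + ed c a := by
  funext u v
  rw [bd_single]
  simp only [Pi.add_apply, ed, Finset.mem_insert, Finset.mem_singleton]
  by_cases h1 : u = a
  · subst h1
    by_cases h2 : v = u
    · subst h2; simp [hab, hbc, hca, hab.symm, hbc.symm, hca.symm]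
    · by_cases h3 : v = b
      · subst h3; simp [hab, hbc, hca, hab.symm, hbc.symm, hca.symm]
      · by_cases h4 : v = c
        · subst h4; simp [hab, hbc, hca, hab.symm, hbc.symm, hca.symm]
        · simp [hab, hbc, hca, hab.symm, hbc.symm, hca.symm, h2, h3, h4]
  · by_cases h1' : u = b
    · subst h1'
      by_cases h2 : v = a
      · subst h2; simp [hab, hbc, hca, hab.symm, hbc.symm, hca.symm]
      · by_cases h3 : v = u
        · subst h3; simp [hab, hbc, hca, hab.symm, hbc.symm, hca.symm]
        · by_cases h4 : v = c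
          · subst h4; simp [hab, hbc, hca, hab.symm, hbc.symm, hca.symm]
          · simp [hab, hbc, hca, hab.symm, hbc.symm, hca.symm, h2, h3, h4]
    · by_cases h1'' : u = c
      · subst h1''
        by_cases h2 : v = a
        · subst h2; simp [hab, hbc, hca, hab.symm, hbc.symm, hca.symm]
        · by_cases h3 : v = b
          · subst h3; simp [hab, hbc, hca, hab.symm, hbc.symm, hca.symm]
          · by_cases h4 : v = u
            · subst h4; simp [hab, hbc, hca, hab.symm, hbc.symm, hca.symm]
            · simp [hab, hbc, hca, hab.symm, hbc.symm, hca.symm, h2, h3, h4]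
      · simp [h1, h1', h1'']

theorem symC_bd (J : Finset (Finset V)) : SymC (bd J) := by
  intro u v
  simp only [bd]
  by_cases h : u = v
  · simp [h]
  · rw [if_neg h, if_neg (Ne.symm h)]
    congr 2
    ext t
    simp only [Finset.mem_filter]
    tauto

theorem evn_bd {J : Finset (Finset V)} (h : ∀ t ∈ J, t.card = 3) : EvnC (bd J) := by
  induction J using Finset.induction_on with
  | empty => intro v; simp [bd_empty]
  | insert t J ht ih =>
    rw [← Finset.singleton_union, bd_union (Finset.disjoint_singleton_left.mpr ht)]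
    apply evn_add
    · intro v
      simp only [bd_single]
      rw [Finset.sum_boole]
      by_cases hv : v ∈ t
      · have h3 := h t (Finset.mem_insert_self _ _)
        have : (Finset.univ.filter (fun u => v ≠ u ∧ v ∈ t ∧ u ∈ t)) = t.erase v := by
          ext u
          simp only [Finset.mem_filter, Finset.mem_univ, true_and, Finset.mem_erase]
          exact ⟨fun g => ⟨g.1.symm, g.2.2⟩, fun g => ⟨g.1.symm, hv, g.2⟩⟩
        rw [this, Finset.card_erase_of_mem hv, h3]
        rfl
      · have : (Finset.univ.filter (fun u => v ≠ u ∧ v ∈ t ∧ u ∈ t)) = ∅ := by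
          ext u
          simp [hv]
        rw [this]
        rfl
    · exact ih (fun t' ht' => h t' (Finset.mem_insert_of_mem ht'))

/-- a triangle given by three of its vertices -/
theorem tri_eq {T : Sph V} {t : Finset V} (ht : t ∈ T.F) {a b : V} (ha : a ∈ t) (hb : b ∈ t)
    (hab : a ≠ b) : ∃ x, x ≠ a ∧ x ≠ b ∧ t = {a, b, x} := by
  have h3 := T.card3 t ht
  have h1 : ((t.erase a).erase b).card = 1 := by
    rw [Finset.card_erase_of_mem (Finset.mem_erase.mpr ⟨hab.symm, hb⟩),
      Finset.card_erase_of_mem ha, h3]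
  obtain ⟨x, hx⟩ := Finset.card_eq_one.mp h1
  have hx1 : x ∈ (t.erase a).erase b := by rw [hx]; exact Finset.mem_singleton_self _
  rw [Finset.mem_erase, Finset.mem_erase] at hx1
  refine ⟨x, hx1.2.1, hx1.1, ?_⟩
  ext y
  simp only [Finset.mem_insert, Finset.mem_singleton]
  constructor
  · intro hy
    by_contra hcon
    push Not at hcon
    have : y ∈ (t.erase a).erase b :=
      Finset.mem_erase.mpr ⟨hcon.2.1, Finset.mem_erase.mpr ⟨hcon.1, hy⟩⟩
    rw [hx, Finset.mem_singleton] at this
    exact hcon.2.2 this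
  · rintro (rfl | rfl | rfl)
    · exact ha
    · exact hb
    · exact hx1.2.2

end CC3
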