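import Pool.Agent.Work.MP_3035da_co.DBase

/-!
# DBasic : basic facts on discs in a triangulated sphere

* `bd_union`, `bd_sdiff`, `bd_tri`: counting in `ZMod 2`.
* `evn_bd`: every triangle containing `v` contributes `2`.
* `Disc.out`: `v ∈ C` has a neighbour `s` on `C` (`cyc_nbrs`), `bd J v s = 1`; the edge `vs` is in two
  triangles of `T` (`edge2`), exactly one in `J`. `Disc.mem_vs`: the same.
* `allin`: the set `X = {t ∈ J | v ∈ t}` has `bd X v u = bd J v u = cyc C v u = 0` for all `u`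
  (`v ∉ C`, `cyc_mem`), so by `link` it is empty or all triangles at `v`.
* `bedge`: `bd J a b = 1` and at most 2 triangles contain `ab`, so exactly one in `J`; it has 3 elements.
* `iedge`: `bd J a b = 0`, `J` has one triangle with `ab`, so an even number `≥ 1`, so both.
* `notin_vs`: if `v ∈ vs J1` then `v` is interior in `J1`, so all triangles at `v` are in `J1 ⊆ J`
  (`allin`), contradiction to `Disc.out` for `J`.
-/

set_option autoImplicit false
open Classical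

namespace CC3

variable {V : Type} [Fintype V]

private theorem card_le2 {T : Sph V} {J : Finset (Finset V)} (hJ : J ⊆ T.F) {u v : V}
    (huv : u ≠ v) : (J.filter (fun t => u ∈ t ∧ v ∈ t)).card ≤ 2 := by
  by_cases h : ∃ t ∈ T.F, u ∈ t ∧ v ∈ t
  · rw [← T.edge2 u v huv h]
    exact Finset.card_le_card (Finset.filter_subset_filter _ hJ)
  · rw [Finset.filter_eq_empty_iff.mpr (fun {t} ht hh => h ⟨t, hJ ht, hh⟩)]
    simp

private theorem bd_eq {J : Finset (Finset V)} {u v : V} (huv : u ≠ v) :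
    bd J u v = ((J.filter (fun t => u ∈ t ∧ v ∈ t)).card : ZMod 2) := by
  simp only [bd]
  rw [if_neg huv]

private theorem card_of_one {T : Sph V} {J : Finset (Finset V)} (hJ : J ⊆ T.F) {u v : V}
    (huv : u ≠ v) (h : bd J u v = 1) : (J.filter (fun t => u ∈ t ∧ v ∈ t)).card = 1 := by
  have h1 := card_le2 hJ huv
  rw [bd_eq huv] at h
  generalize (J.filter (fun t => u ∈ t ∧ v ∈ t)).card = n at h1 h
  interval_cases n
  · exact absurd h (by decide)
  · rfl
  · exact absurd h (by decide)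

private theorem card_of_zero {T : Sph V} {J : Finset (Finset V)} (hJ : J ⊆ T.F) {u v : V}
    (huv : u ≠ v) (h : bd J u v = 0) : (J.filter (fun t => u ∈ t ∧ v ∈ t)).card = 0 ∨
      (J.filter (fun t => u ∈ t ∧ v ∈ t)).card = 2 := by
  have h1 := card_le2 hJ huv
  rw [bd_eq huv] at h
  generalize (J.filter (fun t => u ∈ t ∧ v ∈ t)).card = n at h1 h
  interval_cases n
  · exact Or.inl rfl
  · exact absurd h (by decide)
  · exact Or.inr rfl

theorem Disc.rotate {T : Sph V} {J : Finset (Finset V)} {C C' : List V} (h : Disc T J C)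
    (hr : C ~r C') : Disc T J C' := by
  refine ⟨h.sub, hr.nodup_iff.mp h.nd, ?_, ?_⟩
  · rw [← hr.perm.length_eq]; exact h.len
  · rw [← cyc_isRotated hr]; exact h.bdy

theorem Disc.rev {T : Sph V} {J : Finset (Finset V)} {C : List V} (h : Disc T J C) :
    Disc T J C.reverse := by
  refine ⟨h.sub, List.nodup_reverse.mpr h.nd, ?_, ?_⟩
  · rw [List.length_reverse]; exact h.len
  · rw [cyc_reverse]; exact h.bdy

theorem Disc.mem_vs {T : Sph V} {J : Finset (Finset V)} {C : List V} (h : Disc T J C) {v : V}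
    (hv : v ∈ C) : v ∈ vs J := by
  obtain ⟨p, s, _, hpv, _, hn⟩ := cyc_nbrs h.nd h.len hv
  have h1 : bd J v p = 1 := by rw [h.bdy]; exact (hn p).mpr (Or.inl rfl)
  have h2 := card_of_one h.sub hpv.symm h1
  obtain ⟨t, ht⟩ := Finset.card_pos.mp (by rw [h2]; exact Nat.one_pos)
  rw [Finset.mem_filter] at ht
  exact CC3.mem_vs.mpr ⟨t, ht.1, ht.2.1⟩

theorem Disc.out {T : Sph V} {J : Finset (Finset V)} {C : List V} (h : Disc T J C) {v : V}
    (hv : v ∈ C) : ∃ t ∈ T.F, v ∈ t ∧ t ∉ J := by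
  obtain ⟨p, s, _, hpv, _, hn⟩ := cyc_nbrs h.nd h.len hv
  have h1 : bd J v p = 1 := by rw [h.bdy]; exact (hn p).mpr (Or.inl rfl)
  have h2 := card_of_one h.sub hpv.symm h1
  obtain ⟨t, ht⟩ := Finset.card_pos.mp (by rw [h2]; exact Nat.one_pos)
  rw [Finset.mem_filter] at ht
  have h3 := T.edge2 v p hpv.symm ⟨t, h.sub ht.1, ht.2⟩
  by_contra hcon
  push Not at hcon
  have : (T.F.filter (fun t => v ∈ t ∧ p ∈ t)) ⊆ (J.filter (fun t => v ∈ t ∧ p ∈ t)) := by
    intro t' ht'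
    rw [Finset.mem_filter] at ht' ⊢
    exact ⟨hcon t' ht'.1 ht'.2.1, ht'.2⟩
  have := Finset.card_le_card this
  omega

theorem Disc.allin {T : Sph V} {J : Finset (Finset V)} {C : List V} (h : Disc T J C) {v : V}
    (hv : v ∈ inn J C) {t : Finset V} (ht : t ∈ T.F) (hvt : v ∈ t) : t ∈ J := by
  rw [mem_inn] at hv
  obtain ⟨⟨t0, ht0, hvt0⟩, hvC⟩ := hv
  have hX : J.filter (fun t => v ∈ t) ⊆ T.F := (Finset.filter_subset _ _).trans h.sub
  have h1 : ∀ u, bd (J.filter (fun t => v ∈ t)) v u = 0 := by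
    intro u
    by_cases huv : v = u
    · subst huv; simp [bd]
    · rw [bd_eq huv, Finset.filter_filter]
      have h2 : bd J v u = 0 := by
        rw [h.bdy]
        by_contra hcon
        exact hvC (cyc_mem hcon).1
      rw [bd_eq huv] at h2
      rw [← h2]
      congr 2
      ext t
      simp only [Finset.mem_filter]
      tauto
  rcases T.link v _ hX (fun t ht => (Finset.mem_filter.mp ht).2) h1 with h2 | h2
  · exfalso
    have : t0 ∈ J.filter (fun t => v ∈ t) := Finset.mem_filter.mpr ⟨ht0, hvt0⟩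
    rw [h2] at this
    exact Finset.notMem_empty _ this
  · have : t ∈ T.F.filter (fun t => v ∈ t) := Finset.mem_filter.mpr ⟨ht, hvt⟩
    rw [← h2] at this
    exact (Finset.mem_filter.mp this).1

/-- neighbours of interior vertices -/
theorem Disc.nbr {T : Sph V} {J : Finset (Finset V)} {C : List V} (h : Disc T J C) {v u : V}
    (hv : v ∈ inn J C) (hu : T.gr.Adj v u) : JA J v u ∧ (u ∈ inn J C ∨ u ∈ C) := by
  obtain ⟨h1, t, ht, hvt, hut⟩ := hu
  have htJ := h.allin hv ht hvt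
  refine ⟨⟨h1, t, htJ, hvt, hut⟩, ?_⟩
  by_cases huC : u ∈ C
  · exact Or.inr huC
  · exact Or.inl (mem_inn.mpr ⟨⟨t, htJ, hut⟩, huC⟩)

theorem Disc.bedge {T : Sph V} {J : Finset (Finset V)} {C : List V} (h : Disc T J C) {a b : V}
    (hab : cyc C a b = 1) : ∃ x, x ≠ a ∧ x ≠ b ∧ ({a, b, x} : Finset V) ∈ J ∧
      ∀ t ∈ J, a ∈ t → b ∈ t → t = {a, b, x} := by
  have hne : a ≠ b := (cyc_mem (by rw [hab]; decide)).2.2
  have h1 : bd J a b = 1 := by rw [h.bdy]; exact hab
  have h2 := card_of_one h.sub hne h1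
  obtain ⟨t, ht⟩ := Finset.card_eq_one.mp h2
  have htm : t ∈ J.filter (fun t => a ∈ t ∧ b ∈ t) := by rw [ht]; exact Finset.mem_singleton_self _
  rw [Finset.mem_filter] at htm
  obtain ⟨x, hxa, hxb, hx⟩ := tri_eq (h.sub htm.1) htm.2.1 htm.2.2 hne
  refine ⟨x, hxa, hxb, hx ▸ htm.1, ?_⟩
  intro t' ht' hat' hbt'
  have : t' ∈ J.filter (fun t => a ∈ t ∧ b ∈ t) := Finset.mem_filter.mpr ⟨ht', hat', hbt'⟩
  rw [ht, Finset.mem_singleton] at this
  rw [this, hx]

theorem Disc.iedge {T : Sph V} {J : Finset (Finset V)} {C : List V} (h : Disc T J C) {a b : V}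
    (hab : JA J a b) (hc : cyc C a b = 0) {t : Finset V} (ht : t ∈ T.F) (ha : a ∈ t)
    (hb : b ∈ t) : t ∈ J := by
  obtain ⟨hne, t0, ht0, hat0, hbt0⟩ := hab
  have h1 : bd J a b = 0 := by rw [h.bdy]; exact hc
  rcases card_of_zero h.sub hne h1 with h2 | h2
  · exfalso
    rw [Finset.card_eq_zero] at h2
    have : t0 ∈ J.filter (fun t => a ∈ t ∧ b ∈ t) := Finset.mem_filter.mpr ⟨ht0, hat0, hbt0⟩
    rw [h2] at this
    exact Finset.notMem_empty _ this
  · have h3 := T.edge2 a b hne ⟨t, ht, ha, hb⟩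
    have h4 := Finset.eq_of_subset_of_card_le
      (Finset.filter_subset_filter (fun t => a ∈ t ∧ b ∈ t) h.sub) (by rw [h2, h3])
    have : t ∈ T.F.filter (fun t => a ∈ t ∧ b ∈ t) := Finset.mem_filter.mpr ⟨ht, ha, hb⟩
    rw [← h4] at this
    exact (Finset.mem_filter.mp this).1

theorem Disc.ja_of_cyc {T : Sph V} {J : Finset (Finset V)} {C : List V} (h : Disc T J C)
    {a b : V} (hab : cyc C a b = 1) : JA J a b := by
  have hne : a ≠ b := (cyc_mem (by rw [hab]; decide)).2.2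
  obtain ⟨x, _, _, hx, _⟩ := h.bedge hab
  exact ⟨hne, _, hx, by simp, by simp⟩

theorem Disc.notin_vs {T : Sph V} {J J1 : Finset (Finset V)} {C C1 : List V} (h : Disc T J C)
    (h1 : Disc T J1 C1) (hJ : J1 ⊆ J) {v : V} (hv : v ∈ C) (hv1 : v ∉ C1) : v ∉ vs J1 := by
  intro hcon
  obtain ⟨t, ht, hvt, htJ⟩ := h.out hv
  exact htJ (hJ (h1.allin (mem_inn.mpr ⟨CC3.mem_vs.mp hcon, hv1⟩) ht hvt))

theorem Disc.inn_mono {T : Sph V} {J J1 : Finset (Finset V)} {C C1 : List V} (h : Disc T J C)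
    (h1 : Disc T J1 C1) (hJ : J1 ⊆ J) : inn J1 C1 ⊆ inn J C := by
  intro v hv
  rw [mem_inn] at hv ⊢
  obtain ⟨⟨t, ht, hvt⟩, hv1⟩ := hv
  refine ⟨⟨t, hJ ht, hvt⟩, fun hvC => ?_⟩
  exact h.notin_vs h1 hJ hvC hv1 (CC3.mem_vs.mpr ⟨t, ht, hvt⟩)

theorem Disc.inn_disj {T : Sph V} {J1 J2 : Finset (Finset V)} {C1 : List V}
    (h1 : Disc T J1 C1) (hJ2 : J2 ⊆ T.F) (hd : Disjoint J1 J2) {v : V} (hv : v ∈ inn J1 C1) :
    v ∉ vs J2 := by
  intro hcon
  obtain ⟨t, ht, hvt⟩ := CC3.mem_vs.mp hcon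
  exact Finset.disjoint_left.mp hd (h1.allin hv (hJ2 ht) hvt) ht

end CC3
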