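import Pool.Agent.Work.MP_3035da_co.DFan
import Pool.Agent.Work.MP_3035da_co.DChordless

/-!
# DRoot : the complement of the star of a vertex `r` is a disc

Let `t = {r, a, b}` be a triangle at `r`, `J = T.F.erase t`; `bd J = bd {t} = cyc [r, a, b]` (`bd_F`), so
`Disc T J [r, a, b]`. `Disc.fan_gen` (its hypothesis holds trivially: `x ∈ Q = [a, b]`) gives `ys` with
`bd (T.F.filter (r ∉ ·)) = cyc (ys ++ [a, b])` (`J.filter (r ∉ ·) = T.F.filter (r ∉ ·)`).
`ys ≠ []`: otherwise `bd = cyc [a, b] = 0`, so `T.F.filter (r ∉ ·) = ∅` (`T.closed`): all triangles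
contain `r`; but the edge `ab` is in two triangles (`edge2`), both equal `{r, a, b}`.
So `C = ys ++ [a, b]` has length at least 3 and is a disc boundary. Neighbours of `r`: an interior one is in
`ys` by the description; `inn J [r, a, b]` contains all vertices of `T.F` except `r, a, b`: a vertex
`u ≠ r, a, b` in a triangle `t'` has `t' ≠ t`.
`cover`: if `v ≠ r` and all triangles at `v` contain `r`, take one, `{v, r, x}`, the edge `vx` is in two
triangles, both contain `v, x, r`, contradiction.
-/

set_option autoImplicit false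
open Classical

namespace CC3

variable {V : Type} [Fintype V]

/-- not all triangles at an edge contain a given third vertex -/
private theorem edge_other (T : Sph V) {a b r : V} (hab : a ≠ b) (har : a ≠ r) (hbr : b ≠ r)
    (he : ∃ t ∈ T.F, a ∈ t ∧ b ∈ t) (hall : ∀ t ∈ T.F, a ∈ t → b ∈ t → r ∈ t) : False := by
  have h1 := T.edge2 a b hab he
  have h2 : (T.F.filter (fun t => a ∈ t ∧ b ∈ t)) ⊆ {({a, b, r} : Finset V)} := by
    intro t ht
    obtain ⟨g1, g2, g3⟩ := Finset.mem_filter.mp ht
    rw [Finset.mem_singleton]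
    have g4 := hall t g1 g2 g3
    have g5 : ({a, b, r} : Finset V) ⊆ t := by
      intro x hx
      simp only [Finset.mem_insert, Finset.mem_singleton] at hx
      rcases hx with rfl | rfl | rfl <;> assumption
    have g6 : ({a, b, r} : Finset V).card = 3 := Finset.card_eq_three.mpr
      ⟨a, b, r, hab, har, hbr, rfl⟩
    exact (Finset.eq_of_subset_of_card_le g5 (by rw [g6, T.card3 t g1])).symm
  have h3 := Finset.card_le_card h2
  rw [h1, Finset.card_singleton] at h3
  omega

theorem root_disc (T : Sph V) {r : V} (hr : r ∈ vs T.F) :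
    ∃ C, Disc T (T.F.filter (fun t => r ∉ t)) C ∧ (∀ u, T.gr.Adj r u ↔ u ∈ C) ∧
      ∀ v ∈ vs T.F, v ≠ r → v ∈ vs (T.F.filter (fun t => r ∉ t)) := by
  obtain ⟨t, ht, hrt⟩ := CC3.mem_vs.mp hr
  obtain ⟨a, ha⟩ : (t.erase r).Nonempty := by
    rw [← Finset.card_pos, Finset.card_erase_of_mem hrt, T.card3 t ht]
    omega
  rw [Finset.mem_erase] at ha
  obtain ⟨b, hbr, hba, htab⟩ := tri_eq ht hrt ha.2 ha.1.symm
  have har : a ≠ r := ha.1
  subst htab
  have hbd : bd (T.F.erase {r, a, b}) = cyc [r, a, b] := by
    rw [bd_erase ht, bd_F, zero_add, bd_tri har.symm hba.symm hbr, cyc_triangle]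
  have hD : Disc T (T.F.erase {r, a, b}) [r, a, b] := by
    refine ⟨Finset.erase_subset _ _, ?_, by simp, hbd⟩
    simp [har.symm, hba.symm, hbr.symm]
  obtain ⟨ys, h1, h2, h3⟩ := Disc.fan_gen (T.F.erase {r, a, b}).card (T.F.erase {r, a, b}) r [a, b]
    le_rfl hD (by
      intro t' _ _ x _ hx
      simp only [List.mem_cons, List.not_mem_nil, or_false] at hx
      rcases hx with rfl | rfl
      · left; rfl
      · right; rfl)
  have hfilt : (T.F.erase {r, a, b}).filter (fun t => r ∉ t) = T.F.filter (fun t => r ∉ t) := by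
    ext t'
    simp only [Finset.mem_filter, Finset.mem_erase]
    constructor
    · rintro ⟨⟨_, g1⟩, g2⟩
      exact ⟨g1, g2⟩
    · rintro ⟨g1, g2⟩
      exact ⟨⟨fun e => g2 (by rw [e]; simp), g1⟩, g2⟩
  rw [hfilt] at h3
  have hne : ys ≠ [] := by
    rintro rfl
    have h4 : cyc [a, b] = 0 := by
      have h5 : cyc [a, b] = ed a b + (ed b a + 0) := rfl
      rw [h5, add_zero, ed_comm b a, ch_add_self]
    rw [List.nil_append, h4] at h3
    rcases T.closed _ (Finset.filter_subset _ _) h3 with h5 | h5
    · apply edge_other T hba.symm har hbr ⟨_, ht, by simp, by simp⟩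
      intro t' ht' _ _
      by_contra hcon
      have : t' ∈ T.F.filter (fun t => r ∉ t) := Finset.mem_filter.mpr ⟨ht', hcon⟩
      rw [h5] at this
      exact Finset.notMem_empty _ this
    · rw [← h5] at ht
      exact (Finset.mem_filter.mp ht).2 (by simp)
  refine ⟨ys ++ [a, b], ⟨Finset.filter_subset _ _, h1, ?_, h3⟩, ?_, ?_⟩
  · have := List.length_pos_of_ne_nil hne
    simp only [List.length_append, List.length_cons, List.length_nil]
    omega
  · intro u
    rw [List.mem_append]
    constructor
    · intro hu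
      by_cases hua : u = a
      · right; simp [hua]
      by_cases hub : u = b
      · right; simp [hub]
      left
      apply (h2 u).mpr
      refine ⟨?_, hu⟩
      obtain ⟨hne', t', ht', hrt', hut'⟩ := hu
      refine mem_inn.mpr ⟨⟨t', Finset.mem_erase.mpr ⟨?_, ht'⟩, hut'⟩, ?_⟩
      · rintro rfl
        simp only [Finset.mem_insert, Finset.mem_singleton] at hut'
        rcases hut' with e | e | e
        · exact hne' e.symm
        · exact hua e
        · exact hub e
      · simp only [List.mem_cons, List.not_mem_nil, or_false]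
        rintro (e | e | e)
        · exact hne' e.symm
        · exact hua e
        · exact hub e
    · rintro (hu | hu)
      · exact ((h2 u).mp hu).2
      · simp only [List.mem_cons, List.not_mem_nil, or_false] at hu
        rcases hu with rfl | rfl
        · exact ⟨har.symm, _, ht, by simp, by simp⟩
        · exact ⟨hbr.symm, _, ht, by simp, by simp⟩
  · intro v hv hvr
    by_contra hcon
    obtain ⟨t', ht', hvt'⟩ := CC3.mem_vs.mp hv
    have hall : ∀ t ∈ T.F, v ∈ t → r ∈ t := by
      intro t'' ht'' hvt''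
      by_contra hr'
      exact hcon (CC3.mem_vs.mpr ⟨t'', Finset.mem_filter.mpr ⟨ht'', hr'⟩, hvt''⟩)
    have hrt' := hall t' ht' hvt'
    obtain ⟨x, hxv, hxr, hx⟩ := tri_eq ht' hvt' hrt' hvr
    apply edge_other T hxv.symm hvr hxr ⟨t', ht', hvt', by rw [hx]; simp⟩
    intro t'' ht'' g1 _
    exact hall t'' ht'' g1

end CC3
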