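import Pool.Agent.Work.MP_3035da_co.Connect

/-!
# Geod : geodesics with their distance potential

`U` connected (cut form). For `v ∈ U` let `d v` be the least length of a walk inside `U` from `x0` to `v`:
e.g. `d v = sInf {n | ∃ l : List V, l.length = n + 1 ∧ l.head? = some x0 ∧ l.getLast? = some v ∧
l.IsChain G.Adj ∧ ∀ w ∈ l, w ∈ U}`, or take `SimpleGraph.dist` in the graph `resg G U` (then
`Cn.reach` gives reachability). `p v = d v`. Lipschitz: extend a walk by one edge. A shortest walk
`s 0, ..., s n` from `x0` to `x1` satisfies `d (s i) = i` (`≤` clear, `<` would give a shorter walk to `x1`).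
So `S` has no repetition.
-/

set_option autoImplicit false
open Classical

namespace CC3

variable {V : Type} [Fintype V]

theorem geod {G : SimpleGraph V} {U : Finset V} (h : Cn G U) {x0 x1 : V} (h0 : x0 ∈ U)
    (h1 : x1 ∈ U) : ∃ (S : List V) (p : V → ℤ), S.Nodup ∧ (∀ s ∈ S, s ∈ U) ∧
      S.IsChain G.Adj ∧ S.head? = some x0 ∧ S.getLast? = some x1 ∧
      (∀ u ∈ U, ∀ v ∈ U, G.Adj u v → p u ≤ p v + 1) ∧
      ∀ (i : ℕ) (hi : i < S.length), p S[i] = i := by
  set H := resg G U with hH
  have hadj : ∀ {a b : V}, G.Adj a b → a ∈ U → b ∈ U → H.Adj a b := fun h1 h2 h3 => ⟨h1, h2, h3⟩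
  have hreach : ∀ v ∈ U, H.Reachable x0 v := by
    intro v hv
    induction h.reach h0 hv with
    | refl => exact SimpleGraph.Reachable.refl _
    | tail _ hbc ih =>
      obtain ⟨hadj', hb, hc⟩ := hbc
      exact (ih hb).trans (hadj hadj' hb hc).reachable
  obtain ⟨w, hw⟩ := (hreach x1 h1).exists_walk_length_eq_dist
  have hsup : ∀ v ∈ w.support, v ∈ U := by
    intro v hv
    obtain ⟨i, rfl, hi⟩ := SimpleGraph.Walk.mem_support_iff_exists_getVert.1 hv
    rcases Nat.eq_zero_or_pos i with h2 | h2
    · rw [h2, SimpleGraph.Walk.getVert_zero]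
      exact h0
    · obtain ⟨j, rfl⟩ : ∃ j, i = j + 1 := ⟨i - 1, by omega⟩
      exact (w.adj_getVert_succ (show j < w.length by omega)).2.2
  refine ⟨w.support, fun v => (H.dist x0 v : ℤ), (w.isPath_of_length_eq_dist hw).support_nodup,
    hsup, ?_, ?_, ?_, ?_, ?_⟩
  · exact w.isChain_adj_support.imp fun a b hab => hab.1
  · rw [List.head?_eq_some_head w.support_ne_nil, w.head_support]
  · rw [List.getLast?_eq_some_getLast w.support_ne_nil, w.getLast_support]
  · intro u hu v hv huv
    have h2 := (hreach v hv).dist_triangle_left u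
    have h3 : H.dist v u ≤ 1 := by
      have h4 := SimpleGraph.dist_le (SimpleGraph.Walk.cons (hadj huv.symm hv hu)
        SimpleGraph.Walk.nil)
      simpa using h4
    beta_reduce
    omega
  · intro i hi
    have hi' : i ≤ w.length := by
      rw [SimpleGraph.Walk.length_support] at hi
      omega
    rw [w.support_getElem_eq_getVert]
    have h2 : H.dist x0 (w.getVert i) ≤ i := by
      refine (SimpleGraph.dist_le (w.take i)).trans ?_
      rw [SimpleGraph.Walk.take_length]
      exact min_le_left _ _
    have h3 : H.dist (w.getVert i) x1 ≤ w.length - i := by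
      refine (SimpleGraph.dist_le (w.drop i)).trans ?_
      rw [SimpleGraph.Walk.drop_length]
    have h4 := (w.take i).reachable.dist_triangle_left x1
    have h5 : H.dist x0 (w.getVert i) = i := by omega
    show ((H.dist x0 (w.getVert i) : ℕ) : ℤ) = (i : ℤ)
    rw [h5]

end CC3
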