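import Pool.Agent.Work.MP_3035da_co.DSplit
import Pool.Agent.Work.MP_3035da_co.DChordless
import Pool.Agent.Work.MP_3035da_co.Geod

/-!
# GCtxEx : the geodesic context exists

Let `a1, ak` be the head and last of `A`, `b1, bl` of `B` (`A, B ≠ []`). `cyc (A ++ B) bl a1 = 1`
and `cyc (A ++ B) ak b1 = 1` (consecutive on the cyclic list of length at least 3: `cyc_one_iff`).
`Disc.apex` gives `x0, x1 ∈ K = inn J (A ++ B)` with `{bl, a1, x0}, {ak, b1, x1} ∈ J`.
`Disc.int_conn` and `geod` give `S` and `p`. `Disc.cross` gives `J1`, `J2`.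
-/

set_option autoImplicit false
open Classical

namespace CC3

variable {V : Type} [Fintype V]

theorem exists_gctx {T : Sph V} {D : ℕ} {s : Stt V} {J : Finset (Finset V)} {A B : List V}
    {a b : Fin 3} (hD : DegLe T.gr D) (inv : Inv T D s J A B a b) (hc : Chordless J (A ++ B))
    (hn : (inn J (A ++ B)).Nonempty)
    (hcorner : ∀ z, (A.head? = some z ∨ A.getLast? = some z ∨ B.head? = some z ∨
      B.getLast? = some z) → (s z).kd ≠ 0) :
    ∃ (S : List V) (p : V → ℤ) (J1 J2 : Finset (Finset V)),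
      GCtx T D s J A B a b S p J1 J2 := by
  have hA := inv.sideA.ne
  have hB := inv.sideB.ne
  have hnd := inv.disc.nd
  have hlen := inv.disc.len
  obtain ⟨a1, A', hA1⟩ := List.exists_cons_of_ne_nil hA
  obtain ⟨b1, B', hB1⟩ := List.exists_cons_of_ne_nil hB
  obtain ⟨A'', ak, hA2⟩ : ∃ l x, A = l ++ [x] :=
    ⟨A.dropLast, A.getLast hA, (List.dropLast_append_getLast hA).symm⟩
  obtain ⟨B'', bl, hB2⟩ : ∃ l x, B = l ++ [x] :=
    ⟨B.dropLast, B.getLast hB, (List.dropLast_append_getLast hB).symm⟩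
  have e0 : cyc (A ++ B) bl a1 = 1 := by
    rw [cyc_one_iff hnd hlen]
    refine ⟨A' ++ B'', Or.inl ?_⟩
    have : A ++ B = (a1 :: (A' ++ B'')) ++ [bl] := by rw [hB2, hA1]; simp
    rw [this]
    have h2 : bl :: a1 :: (A' ++ B'') = [bl] ++ (a1 :: (A' ++ B'')) := rfl
    rw [h2]
    exact List.isRotated_append
  have e1 : cyc (A ++ B) ak b1 = 1 := by
    rw [cyc_one_iff hnd hlen]
    refine ⟨B' ++ A'', Or.inl ?_⟩
    have : A ++ B = A'' ++ (ak :: b1 :: B') := by rw [hA2, hB1]; simp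
    rw [this]
    have h2 : ak :: b1 :: (B' ++ A'') = (ak :: b1 :: B') ++ A'' := rfl
    rw [h2]
    exact List.isRotated_append
  obtain ⟨x0, hx0, ht0, -⟩ := inv.disc.apex hc hn e0
  obtain ⟨x1, hx1, ht1, -⟩ := inv.disc.apex hc hn e1
  obtain ⟨S, p, hSn, hSK, hSc, hS0, hS1, hlip, hidx⟩ := geod (inv.disc.int_conn hc) hx0 hx1
  have qA0 : A.head? = some a1 := by rw [hA1]; rfl
  have qA1 : A.getLast? = some ak := by rw [hA2]; simp
  have qB0 : B.head? = some b1 := by rw [hB1]; rfl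
  have qB1 : B.getLast? = some bl := by rw [hB2]; simp
  obtain ⟨J1, J2, s1, s2, hd, c1, c2, bd1, bd2, hcov⟩ :=
    inv.disc.cross qA0 qA1 qB0 qB1 hS0 hS1 hSn hSK hSc ht0 ht1
  refine ⟨S, p, J1, J2, ⟨hD, inv, hc, hcorner, ?_, hSn, hSK, hSc, hlip, hidx, s1, s2, hd, c1, c2,
    bd1, bd2, ?_⟩⟩
  · rintro rfl
    simp at hS0
  · intro t ht
    rcases hcov t ht with h | h | h | h
    · exact Or.inl h
    · exact Or.inr (Or.inl h)
    · refine Or.inr (Or.inr fun v hv => ?_)
      rw [h] at hv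
      simp only [Finset.mem_insert, Finset.mem_singleton] at hv
      rcases hv with rfl | rfl | rfl
      · exact Or.inr (Or.inr (Or.inr (Or.inl qB1)))
      · exact Or.inl qA0
      · exact Or.inr (Or.inr (Or.inr (Or.inr (Or.inl hS0))))
    · refine Or.inr (Or.inr fun v hv => ?_)
      rw [h] at hv
      simp only [Finset.mem_insert, Finset.mem_singleton] at hv
      rcases hv with rfl | rfl | rfl
      · exact Or.inr (Or.inl qA1)
      · exact Or.inr (Or.inr (Or.inl qB0))
      · exact Or.inr (Or.inr (Or.inr (Or.inr (Or.inr hS1))))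

end CC3
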