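import Pool.Agent.Work.MP_3035da_co.GPos

/-!
# GCut : the final colour of a cut `t ∈ U` of the thread `S`

`s1 = mkS ..`, `s3` agrees with `s1` off `K1 ∪ K2`, `K1 = inn J1 (A ++ S.reverse)`,
`K2 = inn J2 (S ++ B)`; `Post` for both sub-discs. `c ≠ a`, `c ≠ b`.
Neighbours `v` of `t`: `t ∈ K` so `v ∈ K ∪ A ∪ B`, `K = K1 ∪ K2 ∪ S` (`GCtx.split`). `v ∈ A ∪ B` is not a cut
(`Cuts.far`); `v ∈ S` is not in `U` (`gap`) so it has kind 1 and colour `c`; `v ∈ K1 ∪ K2`: kind `≠ 0` by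
`good`.
Side 1 data `(t1, X1)`: `t1 ≠ c`, every neighbour `v ∈ A ∪ K1` of `t` has colour `c` or (colour `t1` and
label `X1`):
 * if `t` is adjacent to some `x ∈ A`: `t1 = a`, `X1 = (s x).lab`. Neighbours in `A`: colour `a`, label `X1`
   (`Side.cols`, `Cuts.labA`). Neighbours in `K1`: `JA J1 t x` (`GCtx.edge1`, `t` is neither head nor last
   of `S`), so `Rep` (`repB` of `Post` for `J1`, `t ∈ S.reverse`, kind 0) says they have colour `c`.
 * otherwise `Rep`, second half (`JA J1 t x` would imply adjacency): `t1`, `X1` and a hook `m ∈ K1`.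
Side 2 data `(t2, X2)` in the same way with `B`, `K2`, `repA` of `Post` for `J2`.
Choice: (i) `t1 = t2`: colour `cc` = the third colour (`≠ c, t1`), `k = 3`, `X = (t, t, t)`: no neighbour has
colour `cc`. (ii) `t1 ≠ t2`, side 1 has a hook: `cc = t1`, `X = X1`, `k = 4`. Neighbours with colour `t1` are on
side 1 (those on side 2 have colour `c` or `t2`) and have label `X1`. (iii) side 2 has a hook: `t2`, `X2`,
`k = 4`. (iv) `t` adjacent to `A` and to `B`, `t1 ≠ t2`: `Cuts.chg` gives `X` = the label of a neighbour in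
`B` = `X2` (`labB`); `cc = t2 = b`, `k = 5`; the certificate: each `q` in the set of `Cuts.chg` is in `S ⊆ K`,
`(s3 q).win = w q = t`, adjacent to `u ∈ B` with `(s3 u) = (s u)` of kind 1 or 2 (`Side.kds`) and label `X`.
-/

set_option autoImplicit false
open Classical

namespace CC3

variable {V : Type} [Fintype V]

/-- the data of one side of a cut `t` of the thread -/
private theorem gc_side {T : Sph V} {s s3 : Stt V} {Ji : Finset (Finset V)} {Ki : Finset V}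
    {Z : List V} {z c : Fin 3} {t : V} (hZ : ∀ v ∈ Z, s3 v = s v)
    (hcol : ∀ v ∈ Z, (s v).kd ≠ 0 → (s v).col = z) (hfar : ∀ v ∈ Z, T.gr.Adj t v → (s v).kd ≠ 0)
    (hlab : ∀ u ∈ Z, ∀ v ∈ Z, T.gr.Adj t u → T.gr.Adj t v → (s u).lab = (s v).lab)
    (hrep : Rep T s3 Ji Ki Z c t) (hedge : ∀ x ∈ Z, T.gr.Adj t x → JA Ji t x) (hJi : Ji ⊆ T.F)
    (hgood : ∀ v ∈ Ki, (s3 v).kd ≠ 0) (hzc : z ≠ c) :
    ∃ (t1 : Fin 3) (X1 : V × V × V), t1 ≠ c ∧
      (∀ v, (v ∈ Z ∨ v ∈ Ki) → T.gr.Adj t v → (s3 v).kd ≠ 0 ∧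
        ((s3 v).col = c ∨ ((s3 v).col = t1 ∧ (s3 v).lab = X1))) ∧
      ((∃ m ∈ Ki, ∃ i, (s3 m).kd = 1 ∧ (s3 m).lab = X1 ∧ (s3 m).oc i = t) ∨
        (t1 = z ∧ ∃ x ∈ Z, T.gr.Adj t x ∧ (s x).lab = X1)) := by
  by_cases hx : ∃ x ∈ Z, T.gr.Adj t x
  · obtain ⟨x, hxZ, htx⟩ := hx
    refine ⟨z, (s x).lab, hzc, ?_, Or.inr ⟨rfl, x, hxZ, htx, rfl⟩⟩
    intro v hv htv
    rcases hv with hv | hv
    · have hk := hfar v hv htv
      rw [hZ v hv]
      exact ⟨hk, Or.inr ⟨hcol v hv hk, hlab v hv x hxZ htv htx⟩⟩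
    · exact ⟨hgood v hv, Or.inl (hrep.1 ⟨x, hxZ, hedge x hxZ htx⟩ v hv htv)⟩
  · have hno : ¬ ∃ b ∈ Z, JA Ji t b := by
      rintro ⟨b, hb, hJb⟩
      exact hx ⟨b, hb, JA.adj hJi hJb⟩
    obtain ⟨t1, X, h1, h2, h3⟩ := hrep.2 hno
    refine ⟨t1, X, h1, ?_, Or.inl h3⟩
    intro v hv htv
    rcases hv with hv | hv
    · exact absurd ⟨v, hv, htv⟩ hx
    · exact ⟨hgood v hv, h2 v hv htv⟩

theorem GCtx.fin_cut {T : Sph V} {D : ℕ} {s : Stt V} {J J1 J2 : Finset (Finset V)}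
    {A B S : List V} {a b c : Fin 3} {p : V → ℤ} {U : Finset V} {w : V → V}
    {lb : V → V × V × V} (h : GCtx T D s J A B a b S p J1 J2)
    (hU : Cuts T D s (inn J (A ++ B)) A B S p U w) (hL : Labs D S p U lb) (hac : a ≠ c)
    (hbc : b ≠ c) {s3 : Stt V}
    (hs3 : ∀ v, v ∉ inn J1 (A ++ S.reverse) → v ∉ inn J2 (S ++ B) →
      s3 v = mkS T s A B S U w lb c v)
    (hP1 : Post T D s3 J1 A S.reverse a c) (hP2 : Post T D s3 J2 S B c b) {t : V} (ht : t ∈ U) :
    ∃ (cc : Fin 3) (X : V × V × V) (k : Fin 6), (k = 3 ∨ k = 4 ∨ k = 5) ∧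
      (∀ v, T.gr.Adj t v → (s3 v).kd ≠ 0 ∧ ((s3 v).col = cc → (s3 v).lab = X)) ∧
      (k = 3 → X = (t, t, t)) ∧
      (k = 4 → ∃ m ∈ inn J (A ++ B), ∃ i, (s3 m).kd = 1 ∧ (s3 m).lab = X ∧ (s3 m).oc i = t) ∧
      (k = 5 → 3 * D ≤ ((inn J (A ++ B)).filter (fun q => (s3 q).win = t ∧
        ∃ u, T.gr.Adj q u ∧ ((s3 u).kd = 1 ∨ (s3 u).kd = 2) ∧ (s3 u).lab = X)).card) := by
  obtain ⟨htS, hth, htl⟩ := hU.mem t ht
  have htK : t ∈ inn J (A ++ B) := h.inK t htS
  have hJ1 : J1 ⊆ T.F := fun x hx => h.inv.disc.sub (h.sub1 hx)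
  have hJ2 : J2 ⊆ T.F := fun x hx => h.inv.disc.sub (h.sub2 hx)
  have hSn : ∀ v ∈ S, v ∉ inn J1 (A ++ S.reverse) ∧ v ∉ inn J2 (S ++ B) := fun v hv =>
    ⟨fun hh => (h.k1_vs2 hh).2.1 hv, fun hh => (h.k2_vs1 hh).2.1 hv⟩
  have hAB : ∀ v, (v ∈ A ∨ v ∈ B) → s3 v = s v := by
    intro v hv
    have h1 : v ∉ inn J1 (A ++ S.reverse) := fun hh => by
      rcases hv with hv | hv
      · exact (h.k1_vs2 hh).2.2.1 hv
      · exact (h.k1_vs2 hh).2.2.2.1 hv
    have h2 : v ∉ inn J2 (S ++ B) := fun hh => by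
      rcases hv with hv | hv
      · exact (h.k2_vs1 hh).2.2.1 hv
      · exact (h.k2_vs1 hh).2.2.2.1 hv
    have h3 : v ∉ S := fun hh => by
      have := (mem_inn.1 (h.inK v hh)).2
      apply this
      rw [List.mem_append]
      exact hv
    rw [hs3 v h1 h2]
    simp only [mkS, if_neg h3]
  have hs3S : ∀ v ∈ S, s3 v = mkS T s A B S U w lb c v := fun v hv =>
    hs3 v (hSn v hv).1 (hSn v hv).2
  have hwin : ∀ v ∈ S, (s3 v).win = w v := by
    intro v hv
    rw [hs3S v hv]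
    simp only [mkS, if_pos hv]
    by_cases hvU : v ∈ U
    · simp only [if_pos hvU]
    · simp only [if_neg hvU]
  have hkt : (s3 t).kd = 0 := by
    rw [hs3S t htS]
    simp only [mkS, if_pos htS, if_pos ht]
  have hLs : (2 : ℤ) ≤ (Ls D : ℤ) := by
    simp only [Ls]; push_cast; omega
  have hS' : ∀ v ∈ S, T.gr.Adj t v → (s3 v).kd ≠ 0 ∧ (s3 v).col = c := by
    intro v hv htv
    have hvU : v ∉ U := by
      intro hvU
      rcases (h.pos_adj htS hv).1 htv with h1 | h1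
      · have := hU.gap t ht v hvU (by omega)
        omega
      · have := hU.gap v hvU t ht (by omega)
        omega
    rw [hs3S v hv]
    simp only [mkS, if_pos hv, if_neg hvU]
    exact ⟨by decide, trivial⟩
  have hfarA : ∀ v ∈ A, T.gr.Adj t v → (s v).kd ≠ 0 := fun v hv htv h0 =>
    (hU.far t ht v (Or.inl hv) h0).1 htv.symm
  have hfarB : ∀ v ∈ B, T.gr.Adj t v → (s v).kd ≠ 0 := fun v hv htv h0 =>
    (hU.far t ht v (Or.inr hv) h0).1 htv.symm
  obtain ⟨t1, X1, ht1, hn1, hh1⟩ := gc_side (T := T) (s := s) (s3 := s3) (Ji := J1)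
    (Ki := inn J1 (A ++ S.reverse)) (Z := A) (z := a) (c := c) (t := t)
    (fun v hv => hAB v (Or.inl hv)) h.inv.sideA.cols hfarA (hU.labA t ht)
    (hP1.repB t (List.mem_reverse.2 htS) hkt)
    (fun x hx htx => (h.edge1 hx htS htx.symm (Or.inr ⟨hth, htl⟩)).symm) hJ1
    (fun v hv => (hP1.good v hv).k0) hac
  obtain ⟨t2, X2, ht2, hn2, hh2⟩ := gc_side (T := T) (s := s) (s3 := s3) (Ji := J2)
    (Ki := inn J2 (S ++ B)) (Z := B) (z := b) (c := c) (t := t)
    (fun v hv => hAB v (Or.inr hv)) h.inv.sideB.cols hfarB (hU.labB t ht)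
    (hP2.repA t htS hkt)
    (fun x hx htx => (h.edge2 hx htS htx.symm (Or.inr ⟨hth, htl⟩)).symm) hJ2
    (fun v hv => (hP2.good v hv).k0) hbc
  have hall : ∀ v, T.gr.Adj t v → (s3 v).kd ≠ 0 ∧ ((s3 v).col = c ∨
      ((s3 v).col = t1 ∧ (s3 v).lab = X1) ∨ ((s3 v).col = t2 ∧ (s3 v).lab = X2)) := by
    intro v htv
    rcases (h.inv.disc.nbr htK htv).2 with hv | hv
    · rcases (h.split v).1 hv with hv | hv | hv
      · obtain ⟨e1, e2⟩ := hn1 v (Or.inr hv) htv
        exact ⟨e1, e2.elim Or.inl fun e => Or.inr (Or.inl e)⟩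
      · obtain ⟨e1, e2⟩ := hn2 v (Or.inr hv) htv
        exact ⟨e1, e2.elim Or.inl fun e => Or.inr (Or.inr e)⟩
      · exact ⟨(hS' v hv htv).1, Or.inl (hS' v hv htv).2⟩
    · rcases List.mem_append.1 hv with hv | hv
      · obtain ⟨e1, e2⟩ := hn1 v (Or.inl hv) htv
        exact ⟨e1, e2.elim Or.inl fun e => Or.inr (Or.inl e)⟩
      · obtain ⟨e1, e2⟩ := hn2 v (Or.inl hv) htv
        exact ⟨e1, e2.elim Or.inl fun e => Or.inr (Or.inr e)⟩
  have hK1 : ∀ v ∈ inn J1 (A ++ S.reverse), v ∈ inn J (A ++ B) := fun v hv =>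
    (h.split v).2 (Or.inl hv)
  have hK2 : ∀ v ∈ inn J2 (S ++ B), v ∈ inn J (A ++ B) := fun v hv =>
    (h.split v).2 (Or.inr (Or.inl hv))
  by_cases h12 : t1 = t2
  · obtain ⟨cc, hc1, hc2⟩ : ∃ cc : Fin 3, cc ≠ c ∧ cc ≠ t1 := by
      clear * -
      revert c t1
      decide
    refine ⟨cc, (t, t, t), 3, Or.inl rfl, ?_, fun _ => rfl, fun hk => ?_, fun hk => ?_⟩
    · intro v htv
      obtain ⟨e1, e2⟩ := hall v htv
      refine ⟨e1, fun e3 => ?_⟩
      rcases e2 with e2 | e2 | e2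
      · exact absurd (e3.symm.trans e2) hc1
      · exact absurd (e3.symm.trans e2.1) hc2
      · exact absurd (e3.symm.trans e2.1) (h12 ▸ hc2)
    · exact absurd hk (by decide)
    · exact absurd hk (by decide)
  · rcases hh1 with ⟨m, hm, i, e1, e2, e3⟩ | ⟨ea, x, hxA, htx, hxl⟩
    · refine ⟨t1, X1, 4, Or.inr (Or.inl rfl), ?_, fun hk => ?_, fun _ => ?_, fun hk => ?_⟩
      · intro v htv
        obtain ⟨e4, e5⟩ := hall v htv
        refine ⟨e4, fun e6 => ?_⟩
        rcases e5 with e5 | e5 | e5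
        · exact absurd (e6.symm.trans e5) ht1
        · exact e5.2
        · exact absurd (e6.symm.trans e5.1) h12
      · exact absurd hk (by decide)
      · exact ⟨m, hK1 m hm, i, e1, e2, e3⟩
      · exact absurd hk (by decide)
    · have hcc : ∀ v, T.gr.Adj t v → (s3 v).kd ≠ 0 ∧ ((s3 v).col = t2 → (s3 v).lab = X2) := by
        intro v htv
        obtain ⟨e4, e5⟩ := hall v htv
        refine ⟨e4, fun e6 => ?_⟩
        rcases e5 with e5 | e5 | e5
        · exact absurd (e6.symm.trans e5) ht2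
        · exact absurd (e5.1.symm.trans e6) h12
        · exact e5.2
      rcases hh2 with ⟨m, hm, i, e1, e2, e3⟩ | ⟨eb, y, hyB, hty, hyl⟩
      · refine ⟨t2, X2, 4, Or.inr (Or.inl rfl), hcc, fun hk => ?_, fun _ => ?_, fun hk => ?_⟩
        · exact absurd hk (by decide)
        · exact ⟨m, hK2 m hm, i, e1, e2, e3⟩
        · exact absurd hk (by decide)
      · rcases hU.chg t ht with hno | hno | ⟨X, ⟨u, huB, htu, hul⟩, hX⟩
        · exact absurd ⟨x, hxA, htx⟩ hno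
        · exact absurd ⟨y, hyB, hty⟩ hno
        · have hXX : X = X2 := by
            rw [← hul, ← hyl]
            exact hU.labB t ht u huB y hyB htu hty
          subst hXX
          refine ⟨t2, X, 5, Or.inr (Or.inr rfl), hcc, fun hk => ?_, fun hk => ?_, fun _ => ?_⟩
          · exact absurd hk (by decide)
          · exact absurd hk (by decide)
          · refine le_trans hX (Finset.card_le_card ?_)
            intro q hq
            rw [Finset.mem_filter, List.mem_toFinset] at hq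
            obtain ⟨hqS, hqw, u', hu', hqu, hk', hl'⟩ := hq
            rw [Finset.mem_filter]
            refine ⟨h.inK q hqS, (hwin q hqS).trans hqw, u', hqu, ?_, ?_⟩
            · rw [hAB u' (Or.inr hu')]
              rcases h.inv.sideB.kds u' hu' with e | e | e
              · exact absurd e hk'
              · exact Or.inl e
              · exact Or.inr e
            · rw [hAB u' (Or.inr hu')]
              exact hl'

end CC3
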