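import Pool.Agent.Work.MP_3035da_co.GWin

/-!
# GCuts : choosing one cut in each window

`P = Ls D + Mw D`. Windows: for `j ≥ 1` with `j P + Mw D < S.length` the window `[j P, j P + Mw D)`; choose
`t j` by `GCtx.window`. `U = {t j}`; `w v = t j` if `v` is in the window `j`, else `w v = v`
(or any vertex; only the members of windows matter; different windows are disjoint).
* `mem`: positions of cuts are `≥ P > 0` and `< j P + Mw D ≤ S.length - 1`.
* `gap`: `t j, t j'` with `j < j'`: `p (t j') ≥ (j+1) P > p (t j) - Mw D + P`, so `p (t j) + Ls D ≤ p (t j')`.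
* `run`: `u, v ∈ S`, `p u ≤ p v`, no cut position in `[p u, p v]`. If `p v + 1 > p u + Lm D`
  (`Lm D = P + Mw D`) then the interval `[p u, p v]` has more than `P + Mw D` integers and contains a whole
  window `[j P, j P + Mw D)` with `j ≥ 1` and `j P + Mw D ≤ p v < S.length`: take `j = p u / P + 1`:
  `j P ≤ p u + P` and `j P + Mw D ≤ p u + P + Mw D ≤ p v`. Its cut is in `[p u, p v]`, contradiction.
* `chg`: the set in `window` is contained in `{q ∈ S | w q = t ∧ ...}`.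
-/

set_option autoImplicit false
open Classical

namespace CC3

variable {V : Type} [Fintype V]

theorem GCtx.cuts {T : Sph V} {D : ℕ} {s : Stt V} {J J1 J2 : Finset (Finset V)}
    {A B S : List V} {a b : Fin 3} {p : V → ℤ} (h : GCtx T D s J A B a b S p J1 J2) :
    ∃ (U : Finset V) (w : V → V), Cuts T D s (inn J (A ++ B)) A B S p U w := by
  obtain ⟨P, hP⟩ : ∃ P : ℤ, P = (Ls D : ℤ) + (Mw D : ℤ) := ⟨_, rfl⟩
  have hLs : (Ls D : ℤ) = 12 * (D : ℤ) + 60 := by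
    simp [Ls]
  have hMw : (Mw D : ℤ) = 10 * (D : ℤ) + 20 := by
    simp [Mw]
  have hLm : (Lm D : ℤ) = P + (Mw D : ℤ) := by
    rw [hP, hLs, hMw]
    simp only [Lm]
    push_cast
    ring
  have hPpos : 0 < P := by omega
  have hPM : (Mw D : ℤ) < P := by omega
  -- the windows
  let cd : ℕ → Prop := fun j => 1 ≤ j ∧ (j : ℤ) * P + (Mw D : ℤ) < (S.length : ℤ)
  have hch : ∀ j : ℕ, ∃ t : V, cd j →
      (t ∈ S ∧ (j : ℤ) * P ≤ p t ∧ p t < (j : ℤ) * P + (Mw D : ℤ) ∧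
      (∀ r, (r ∈ A ∨ r ∈ B) → (s r).kd = 0 →
        ¬ T.gr.Adj r t ∧ ∀ y ∈ inn J (A ++ B), ¬ (T.gr.Adj r y ∧ T.gr.Adj t y)) ∧
      (∀ r, (r ∈ A ∨ r ∈ B) → (s r).kd = 0 → ∀ u ∈ S, ∀ v ∈ S,
        T.gr.Adj r u → T.gr.Adj r v → ¬ (p u ≤ p t ∧ p t ≤ p v)) ∧
      (∀ u ∈ A, ∀ v ∈ A, T.gr.Adj t u → T.gr.Adj t v → (s u).lab = (s v).lab) ∧
      (∀ u ∈ B, ∀ v ∈ B, T.gr.Adj t u → T.gr.Adj t v → (s u).lab = (s v).lab) ∧
      ((¬ ∃ u ∈ A, T.gr.Adj t u) ∨ (¬ ∃ u ∈ B, T.gr.Adj t u) ∨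
        ∃ X, (∃ u ∈ B, T.gr.Adj t u ∧ (s u).lab = X) ∧
          3 * D ≤ (S.toFinset.filter (fun v =>
            ((j : ℤ) * P ≤ p v ∧ p v < (j : ℤ) * P + (Mw D : ℤ)) ∧
            ∃ u ∈ B, T.gr.Adj v u ∧ (s u).kd ≠ 0 ∧ (s u).lab = X)).card)) := by
    intro j
    by_cases hj : cd j
    · have h0 : (0 : ℤ) ≤ (j : ℤ) * P := by positivity
      obtain ⟨t, ht⟩ := h.window ((j : ℤ) * P) h0 hj.2.le
      exact ⟨t, fun _ => ht⟩
    · obtain ⟨v0, hv0⟩ := List.exists_mem_of_ne_nil S h.ne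
      exact ⟨v0, fun h' => absurd h' hj⟩
  choose t ht using hch
  have hsep : ∀ i j : ℕ, i < j → (i : ℤ) * P + P ≤ (j : ℤ) * P := by
    intro i j hij
    have h1 : (i : ℤ) + 1 ≤ (j : ℤ) := by exact_mod_cast hij
    have h2 := mul_le_mul_of_nonneg_right h1 hPpos.le
    linarith
  have huniq : ∀ i j : ℕ, ∀ v : V, (i : ℤ) * P ≤ p v ∧ p v < (i : ℤ) * P + (Mw D : ℤ) →
      (j : ℤ) * P ≤ p v ∧ p v < (j : ℤ) * P + (Mw D : ℤ) → i = j := by
    rintro i j v ⟨h1, h2⟩ ⟨h3, h4⟩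
    rcases lt_trichotomy i j with h5 | h5 | h5
    · have := hsep i j h5
      omega
    · exact h5
    · have := hsep j i h5
      omega
  let U : Finset V := Finset.univ.filter (fun v => ∃ j, cd j ∧ t j = v)
  have hUmem : ∀ v, v ∈ U ↔ ∃ j, cd j ∧ t j = v := by
    intro v
    simp only [U, Finset.mem_filter, Finset.mem_univ, true_and]
  let w : V → V := fun v =>
    if hv : ∃ j, cd j ∧ ((j : ℤ) * P ≤ p v ∧ p v < (j : ℤ) * P + (Mw D : ℤ)) then t hv.choose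
    else v
  have hw : ∀ v, ∀ j, cd j → ((j : ℤ) * P ≤ p v ∧ p v < (j : ℤ) * P + (Mw D : ℤ)) →
      w v = t j := by
    intro v j hj hv
    have hex : ∃ j, cd j ∧ ((j : ℤ) * P ≤ p v ∧ p v < (j : ℤ) * P + (Mw D : ℤ)) :=
      ⟨j, hj, hv⟩
    have e : w v = t hex.choose := by
      simp only [w, dif_pos hex]
    rw [e, huniq _ _ v hex.choose_spec.2 hv]
  refine ⟨U, w, ?_, ?_, ?_, ?_, ?_, ?_, ?_, ?_⟩
  · intro v hv
    obtain ⟨j, hj, rfl⟩ := (hUmem v).1 hv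
    obtain ⟨h1, h2, h3, _⟩ := ht j hj
    refine ⟨h1, ?_, ?_⟩
    · intro h4
      have h5 := (h.pos_head h1).1.1 h4
      have h6 := hsep 0 j hj.1
      simp only [Nat.cast_zero, zero_mul, zero_add] at h6
      omega
    · intro h4
      have h5 := (h.pos_head h1).2.1 h4
      have h6 := hj.2
      omega
  · intro v hv v' hv' hlt
    obtain ⟨i, hi, rfl⟩ := (hUmem v).1 hv
    obtain ⟨j, hj, rfl⟩ := (hUmem v').1 hv'
    obtain ⟨h1, h2, h3, _⟩ := ht i hi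
    obtain ⟨h4, h5, h6, _⟩ := ht j hj
    rcases lt_trichotomy i j with h7 | h7 | h7
    · have := hsep i j h7
      omega
    · subst h7
      omega
    · have := hsep j i h7
      omega
  · intro u hu v hv huv hno
    by_contra hlt
    have hlt' : p u + (Lm D : ℤ) ≤ p v := by omega
    have hru := h.pos_range hu
    have hrv := h.pos_range hv
    have hdm := Int.mul_ediv_add_emod (p u) P
    have hm0 := Int.emod_nonneg (p u) hPpos.ne'
    have hm1 := Int.emod_lt_of_pos (p u) hPpos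
    have hq0 : 0 ≤ p u / P := Int.ediv_nonneg hru.1 hPpos.le
    obtain ⟨n, hn⟩ := Int.eq_ofNat_of_zero_le hq0
    have hnP : ((n + 1 : ℕ) : ℤ) * P = P * (p u / P) + P := by
      rw [hn]
      push_cast
      ring
    have hcd : cd (n + 1) := by
      refine ⟨by omega, ?_⟩
      rw [hnP]
      omega
    obtain ⟨h1, h2, h3, _⟩ := ht (n + 1) hcd
    rw [hnP] at h2 h3
    exact hno (t (n + 1)) ((hUmem _).2 ⟨n + 1, hcd, rfl⟩) ⟨by omega, by omega⟩
  · intro v hv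
    obtain ⟨j, hj, rfl⟩ := (hUmem v).1 hv
    exact (ht j hj).2.2.2.1
  · intro v hv
    obtain ⟨j, hj, rfl⟩ := (hUmem v).1 hv
    exact (ht j hj).2.2.2.2.1
  · intro v hv
    obtain ⟨j, hj, rfl⟩ := (hUmem v).1 hv
    exact (ht j hj).2.2.2.2.2.1
  · intro v hv
    obtain ⟨j, hj, rfl⟩ := (hUmem v).1 hv
    exact (ht j hj).2.2.2.2.2.2.1
  · intro v hv
    obtain ⟨j, hj, rfl⟩ := (hUmem v).1 hv
    rcases (ht j hj).2.2.2.2.2.2.2 with h1 | h1 | ⟨X, h1, h2⟩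
    · exact Or.inl h1
    · exact Or.inr (Or.inl h1)
    · refine Or.inr (Or.inr ⟨X, h1, h2.trans (Finset.card_le_card ?_)⟩)
      intro q hq
      have hq' := (@Finset.mem_filter _ _ (_) _ _).1 hq
      exact (@Finset.mem_filter _ _ (_) _ _).2 ⟨hq'.1, hw q j hj hq'.2.1, hq'.2.2⟩

end CC3
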