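import Pool.Agent.Work.MP_3035da_co.CSym
import Pool.Agent.Work.MP_3035da_co.DChordless

/-!
# GFacts : facts in the geodesic context `GCtx`

Notation `K = inn J (A ++ B)`, `K1 = inn J1 (A ++ S.reverse)`, `K2 = inn J2 (S ++ B)`.
`disc1`: no repetition since `S ⊆ K`. Degenerate case (`A.length = 1 = S.length`): `bd J1 = cyc [a, x] = 0`,
so by `T.closed` `J1 = ∅` (`J1 ≠ T.F` as `J1.card < J.card`).
`vsA`: `v ∈ A → v ∉ vs J2`: if `J2` is a disc by `Disc.notin_vs` (`v ∉ S ++ B`), if `J2 = ∅` clear.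
`split`: `v ∈ K`, `v ∉ S` is in a triangle of `J`, which is in `J1` or `J2` (a corner triangle has only
vertices of `A`, `B`, `S`); if in `J1`, `v ∉ A ++ S.reverse`, so `v ∈ K1`.
`edge1`: the edge `r t` is in a triangle of `J` (`Disc.nbr`, `t ∈ K`); this triangle is not in `J2`
(`r ∉ vs J2`), and it is not a corner triangle if one of `r`, `t` is no corner vertex.
`nbrA`: a neighbour `v ∈ K` of `r ∈ A` is not in `K2` (otherwise `r ∈ vs J2` by `Disc.nbr`).
-/

set_option autoImplicit false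
open Classical

namespace CC3

variable {V : Type} [Fintype V]

private theorem gf_cyc_inner {l₁ l₂ : List V} {p r s x : V}
    (hnd : ((l₁ ++ [p]) ++ r :: s :: l₂).Nodup)
    (h : cyc ((l₁ ++ [p]) ++ r :: s :: l₂) r x = 1) : x = s ∨ x = p := by
  have hrot : cyc ((l₁ ++ [p]) ++ r :: s :: l₂) = cyc (r :: s :: ((l₂ ++ l₁) ++ [p])) := by
    rw [cyc_rot]
    congr 1
    simp
  have hnd' : (r :: s :: ((l₂ ++ l₁) ++ [p])).Nodup := by
    have := (List.perm_append_comm (l₁ := l₁ ++ [p]) (l₂ := r :: s :: l₂)).nodup_iff.1 hnd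
    simpa using this
  rw [hrot] at h
  exact (cyc_head hnd' x).1 h

/-- a member of a list which is neither head nor last -/
private theorem gf_mid {A : List V} {r : V} (hr : r ∈ A) (h1 : A.head? ≠ some r)
    (h2 : A.getLast? ≠ some r) : ∃ l₁ p s l₂, A = (l₁ ++ [p]) ++ r :: s :: l₂ := by
  obtain ⟨m₁, m₂, rfl⟩ := List.append_of_mem hr
  rcases List.eq_nil_or_concat m₁ with h | ⟨l₁, p, rfl⟩
  · subst h
    exact absurd rfl h1
  · cases m₂ with
    | nil => exact absurd (by simp) h2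
    | cons s l₂ => exact ⟨l₁, p, s, l₂, by simp⟩

private theorem gf_mem_head {A : List V} {r : V} (h : A.head? = some r) : r ∈ A :=
  List.mem_of_head? h

private theorem gf_mem_last {A : List V} {r : V} (h : A.getLast? = some r) : r ∈ A :=
  List.mem_of_getLast? h

private theorem gf_cyc_two (a x : V) : cyc [a, x] = 0 := by
  rw [cyc_cons]
  show pc [a, x, a] = 0
  rw [pc_cons_cons, pc_cons_cons]
  show ed a x + (ed x a + 0) = 0
  rw [ed_comm x a, add_zero, ch_add_self]

section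

variable {T : Sph V} {D : ℕ} {s : Stt V} {J J1 J2 : Finset (Finset V)} {A B S : List V}
  {a b : Fin 3} {p : V → ℤ}

theorem GCtx.disc1 (h : GCtx T D s J A B a b S p J1 J2) :
    Disc T J1 (A ++ S.reverse) ∨ (J1 = ∅ ∧ A.length = 1 ∧ S.length = 1) := by
  have hsub : J1 ⊆ T.F := fun t ht => h.inv.disc.sub (h.sub1 ht)
  have hAS : ∀ v ∈ A, v ∉ S := by
    intro v hv hS
    have := h.inK v hS
    rw [mem_inn] at this
    exact this.2 (List.mem_append_left _ hv)
  have hA : A.Nodup := (List.nodup_append.1 h.inv.disc.nd).1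
  have hnd : (A ++ S.reverse).Nodup := by
    rw [List.nodup_append]
    refine ⟨hA, List.nodup_reverse.2 h.nd, ?_⟩
    intro x hx y hy hxy
    subst hxy
    exact hAS x hx (List.mem_reverse.1 hy)
  have hA1 : 1 ≤ A.length := List.length_pos_of_ne_nil h.inv.sideA.ne
  have hS1 : 1 ≤ S.length := List.length_pos_of_ne_nil h.ne
  by_cases hlen : 3 ≤ (A ++ S.reverse).length
  · exact Or.inl ⟨hsub, hnd, hlen, h.bd1⟩
  · right
    rw [List.length_append, List.length_reverse] at hlen
    have hAl : A.length = 1 := by omega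
    have hSl : S.length = 1 := by omega
    refine ⟨?_, hAl, hSl⟩
    obtain ⟨a', ha'⟩ := List.length_eq_one_iff.1 hAl
    obtain ⟨x', hx'⟩ := List.length_eq_one_iff.1 hSl
    have hb : bd J1 = 0 := by
      rw [h.bd1, ha', hx']
      exact gf_cyc_two a' x'
    rcases T.closed J1 hsub hb with h0 | h0
    · exact h0
    · exfalso
      have h1 := h.card1
      have h2 := Finset.card_le_card h.inv.disc.sub
      rw [h0] at h1
      omega

theorem GCtx.disc2 (h : GCtx T D s J A B a b S p J1 J2) :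
    Disc T J2 (S ++ B) ∨ (J2 = ∅ ∧ B.length = 1 ∧ S.length = 1) := by
  have hsub : J2 ⊆ T.F := fun t ht => h.inv.disc.sub (h.sub2 ht)
  have hBS : ∀ v ∈ B, v ∉ S := by
    intro v hv hS
    have := h.inK v hS
    rw [mem_inn] at this
    exact this.2 (List.mem_append_right _ hv)
  have hB : B.Nodup := (List.nodup_append.1 h.inv.disc.nd).2.1
  have hnd : (S ++ B).Nodup := by
    rw [List.nodup_append]
    refine ⟨h.nd, hB, ?_⟩
    intro x hx y hy hxy
    subst hxy
    exact hBS x hy hx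
  have hB1 : 1 ≤ B.length := List.length_pos_of_ne_nil h.inv.sideB.ne
  have hS1 : 1 ≤ S.length := List.length_pos_of_ne_nil h.ne
  by_cases hlen : 3 ≤ (S ++ B).length
  · exact Or.inl ⟨hsub, hnd, hlen, h.bd2⟩
  · right
    rw [List.length_append] at hlen
    have hBl : B.length = 1 := by omega
    have hSl : S.length = 1 := by omega
    refine ⟨?_, hBl, hSl⟩
    obtain ⟨a', ha'⟩ := List.length_eq_one_iff.1 hBl
    obtain ⟨x', hx'⟩ := List.length_eq_one_iff.1 hSl
    have hb : bd J2 = 0 := by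
      rw [h.bd2, ha', hx']
      exact gf_cyc_two x' a'
    rcases T.closed J2 hsub hb with h0 | h0
    · exact h0
    · exfalso
      have h1 := h.card2
      have h2 := Finset.card_le_card h.inv.disc.sub
      rw [h0] at h1
      omega

theorem GCtx.vsA (h : GCtx T D s J A B a b S p J1 J2) {v : V} (hv : v ∈ A) : v ∉ vs J2 := by
  have hvS : v ∉ S := by
    intro hS
    have := h.inK v hS
    rw [mem_inn] at this
    exact this.2 (List.mem_append_left _ hv)
  have hvB : v ∉ B := by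
    intro hB
    exact (List.nodup_append.1 h.inv.disc.nd).2.2 v hv v hB rfl
  rcases h.disc2 with h2 | ⟨h2, -, -⟩
  · refine h.inv.disc.notin_vs h2 h.sub2 (List.mem_append_left _ hv) ?_
    rw [List.mem_append]
    rintro (h' | h')
    · exact hvS h'
    · exact hvB h'
  · rw [mem_vs, h2]
    rintro ⟨t, ht, -⟩
    exact absurd ht (Finset.notMem_empty t)

theorem GCtx.vsB (h : GCtx T D s J A B a b S p J1 J2) {v : V} (hv : v ∈ B) : v ∉ vs J1 := by
  have hvS : v ∉ S := by
    intro hS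
    have := h.inK v hS
    rw [mem_inn] at this
    exact this.2 (List.mem_append_right _ hv)
  have hvA : v ∉ A := by
    intro hA
    exact (List.nodup_append.1 h.inv.disc.nd).2.2 v hA v hv rfl
  rcases h.disc1 with h1 | ⟨h1, -, -⟩
  · refine h.inv.disc.notin_vs h1 h.sub1 (List.mem_append_right _ hv) ?_
    rw [List.mem_append, List.mem_reverse]
    rintro (h' | h')
    · exact hvA h'
    · exact hvS h'
  · rw [mem_vs, h1]
    rintro ⟨t, ht, -⟩
    exact absurd ht (Finset.notMem_empty t)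

theorem GCtx.split (h : GCtx T D s J A B a b S p J1 J2) (v : V) :
    v ∈ inn J (A ++ B) ↔
      v ∈ inn J1 (A ++ S.reverse) ∨ v ∈ inn J2 (S ++ B) ∨ v ∈ S := by
  constructor
  · intro hv
    rw [mem_inn] at hv
    obtain ⟨⟨t, ht, hvt⟩, hvC⟩ := hv
    rw [List.mem_append, not_or] at hvC
    by_cases hS : v ∈ S
    · exact Or.inr (Or.inr hS)
    rcases h.cover t ht with h1 | h2 | h3
    · left
      rw [mem_inn]
      refine ⟨⟨t, h1, hvt⟩, ?_⟩
      rw [List.mem_append, List.mem_reverse]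
      rintro (h' | h')
      · exact hvC.1 h'
      · exact hS h'
    · right; left
      rw [mem_inn]
      refine ⟨⟨t, h2, hvt⟩, ?_⟩
      rw [List.mem_append]
      rintro (h' | h')
      · exact hS h'
      · exact hvC.2 h'
    · exfalso
      rcases h3 v hvt with h' | h' | h' | h' | h' | h'
      · exact hvC.1 (gf_mem_head h')
      · exact hvC.1 (gf_mem_last h')
      · exact hvC.2 (gf_mem_head h')
      · exact hvC.2 (gf_mem_last h')
      · exact hS (gf_mem_head h')
      · exact hS (gf_mem_last h')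
  · rintro (hv | hv | hv)
    · rw [mem_inn] at hv ⊢
      obtain ⟨⟨t, ht, hvt⟩, hvC⟩ := hv
      rw [List.mem_append, not_or] at hvC
      refine ⟨⟨t, h.sub1 ht, hvt⟩, ?_⟩
      rw [List.mem_append]
      rintro (h' | h')
      · exact hvC.1 h'
      · exact h.vsB h' (mem_vs.2 ⟨t, ht, hvt⟩)
    · rw [mem_inn] at hv ⊢
      obtain ⟨⟨t, ht, hvt⟩, hvC⟩ := hv
      rw [List.mem_append, not_or] at hvC
      refine ⟨⟨t, h.sub2 ht, hvt⟩, ?_⟩
      rw [List.mem_append]
      rintro (h' | h')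
      · exact h.vsA h' (mem_vs.2 ⟨t, ht, hvt⟩)
      · exact hvC.2 h'
    · exact h.inK v hv

theorem GCtx.k1_vs2 (h : GCtx T D s J A B a b S p J1 J2) {v : V}
    (hv : v ∈ inn J1 (A ++ S.reverse)) : v ∉ vs J2 ∧ v ∉ S ∧ v ∉ A ∧ v ∉ B ∧
      v ∉ inn J2 (S ++ B) := by
  have hv' := hv
  rw [mem_inn] at hv'
  obtain ⟨⟨t, ht, hvt⟩, hvC⟩ := hv'
  rw [List.mem_append, List.mem_reverse, not_or] at hvC
  have hvs : v ∉ vs J2 := by
    rcases h.disc1 with h1 | ⟨h1, -, -⟩
    · exact h1.inn_disj (fun t ht => h.inv.disc.sub (h.sub2 ht)) h.disj hv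
    · rw [h1] at ht
      exact absurd ht (Finset.notMem_empty t)
  refine ⟨hvs, hvC.2, hvC.1, fun hB => h.vsB hB (mem_vs.2 ⟨t, ht, hvt⟩), ?_⟩
  intro h2
  rw [mem_inn] at h2
  exact hvs (mem_vs.2 h2.1)

theorem GCtx.k2_vs1 (h : GCtx T D s J A B a b S p J1 J2) {v : V}
    (hv : v ∈ inn J2 (S ++ B)) : v ∉ vs J1 ∧ v ∉ S ∧ v ∉ A ∧ v ∉ B ∧
      v ∉ inn J1 (A ++ S.reverse) := by
  have hv' := hv
  rw [mem_inn] at hv'
  obtain ⟨⟨t, ht, hvt⟩, hvC⟩ := hv'
  rw [List.mem_append, not_or] at hvC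
  have hvs : v ∉ vs J1 := by
    rcases h.disc2 with h2 | ⟨h2, -, -⟩
    · exact h2.inn_disj (fun t ht => h.inv.disc.sub (h.sub1 ht)) h.disj.symm hv
    · rw [h2] at ht
      exact absurd ht (Finset.notMem_empty t)
  refine ⟨hvs, hvC.1, fun hA => h.vsA hA (mem_vs.2 ⟨t, ht, hvt⟩), hvC.2, ?_⟩
  intro h1
  rw [mem_inn] at h1
  exact hvs (mem_vs.2 h1.1)

theorem GCtx.nbrA (h : GCtx T D s J A B a b S p J1 J2) {r v : V} (hr : r ∈ A)
    (hv : v ∈ inn J (A ++ B)) (hrv : T.gr.Adj r v) :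
    v ∈ inn J1 (A ++ S.reverse) ∨ v ∈ S := by
  rcases h.split v |>.1 hv with h1 | h2 | h3
  · exact Or.inl h1
  · exfalso
    have hne : J2.Nonempty := by
      rw [mem_inn] at h2
      obtain ⟨⟨t, ht, -⟩, -⟩ := h2
      exact ⟨t, ht⟩
    rcases h.disc2 with hd | ⟨hd, -, -⟩
    · obtain ⟨⟨-, t, ht, -, hrt⟩, -⟩ := hd.nbr h2 hrv.symm
      exact h.vsA hr (mem_vs.2 ⟨t, ht, hrt⟩)
    · rw [hd] at hne
      exact Finset.not_nonempty_empty hne
  · exact Or.inr h3

theorem GCtx.nbrB (h : GCtx T D s J A B a b S p J1 J2) {r v : V} (hr : r ∈ B)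
    (hv : v ∈ inn J (A ++ B)) (hrv : T.gr.Adj r v) :
    v ∈ inn J2 (S ++ B) ∨ v ∈ S := by
  rcases h.split v |>.1 hv with h1 | h2 | h3
  · exfalso
    have hne : J1.Nonempty := by
      rw [mem_inn] at h1
      obtain ⟨⟨t, ht, -⟩, -⟩ := h1
      exact ⟨t, ht⟩
    rcases h.disc1 with hd | ⟨hd, -, -⟩
    · obtain ⟨⟨-, t, ht, -, hrt⟩, -⟩ := hd.nbr h1 hrv.symm
      exact h.vsB hr (mem_vs.2 ⟨t, ht, hrt⟩)
    · rw [hd] at hne
      exact Finset.not_nonempty_empty hne
  · exact Or.inl h2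
  · exact Or.inr h3

theorem GCtx.edge1 (h : GCtx T D s J A B a b S p J1 J2) {r t : V} (hr : r ∈ A) (ht : t ∈ S)
    (hrt : T.gr.Adj r t)
    (hc : (A.head? ≠ some r ∧ A.getLast? ≠ some r) ∨ (S.head? ≠ some t ∧ S.getLast? ≠ some t)) :
    JA J1 r t := by
  obtain ⟨⟨-, tt, htt, ht1, hr1⟩, -⟩ := h.inv.disc.nbr (h.inK t ht) hrt.symm
  have htC : t ∉ A ++ B := (mem_inn.1 (h.inK t ht)).2
  rw [List.mem_append, not_or] at htC
  have hrS : r ∉ S := by
    intro hS
    exact (mem_inn.1 (h.inK r hS)).2 (List.mem_append_left _ hr)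
  have hrB : r ∉ B := fun hB => (List.nodup_append.1 h.inv.disc.nd).2.2 r hr r hB rfl
  rcases h.cover tt htt with h1 | h2 | h3
  · exact ⟨hrt.ne, tt, h1, hr1, ht1⟩
  · exact absurd (mem_vs.2 ⟨tt, h2, hr1⟩) (h.vsA hr)
  · exfalso
    have hr2 : A.head? = some r ∨ A.getLast? = some r := by
      rcases h3 r hr1 with h' | h' | h' | h' | h' | h'
      · exact Or.inl h'
      · exact Or.inr h'
      · exact absurd (gf_mem_head h') hrB
      · exact absurd (gf_mem_last h') hrB
      · exact absurd (gf_mem_head h') hrS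
      · exact absurd (gf_mem_last h') hrS
    have ht2 : S.head? = some t ∨ S.getLast? = some t := by
      rcases h3 t ht1 with h' | h' | h' | h' | h' | h'
      · exact absurd (gf_mem_head h') htC.1
      · exact absurd (gf_mem_last h') htC.1
      · exact absurd (gf_mem_head h') htC.2
      · exact absurd (gf_mem_last h') htC.2
      · exact Or.inl h'
      · exact Or.inr h'
    rcases hc with hc | hc
    · rcases hr2 with h' | h'
      · exact hc.1 h'
      · exact hc.2 h'
    · rcases ht2 with h' | h'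
      · exact hc.1 h'
      · exact hc.2 h'

theorem GCtx.edge2 (h : GCtx T D s J A B a b S p J1 J2) {r t : V} (hr : r ∈ B) (ht : t ∈ S)
    (hrt : T.gr.Adj r t)
    (hc : (B.head? ≠ some r ∧ B.getLast? ≠ some r) ∨ (S.head? ≠ some t ∧ S.getLast? ≠ some t)) :
    JA J2 r t := by
  obtain ⟨⟨-, tt, htt, ht1, hr1⟩, -⟩ := h.inv.disc.nbr (h.inK t ht) hrt.symm
  have htC : t ∉ A ++ B := (mem_inn.1 (h.inK t ht)).2
  rw [List.mem_append, not_or] at htC
  have hrS : r ∉ S := by
    intro hS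
    exact (mem_inn.1 (h.inK r hS)).2 (List.mem_append_right _ hr)
  have hrA : r ∉ A := fun hA => (List.nodup_append.1 h.inv.disc.nd).2.2 r hA r hr rfl
  rcases h.cover tt htt with h1 | h2 | h3
  · exact absurd (mem_vs.2 ⟨tt, h1, hr1⟩) (h.vsB hr)
  · exact ⟨hrt.ne, tt, h2, hr1, ht1⟩
  · exfalso
    have hr2 : B.head? = some r ∨ B.getLast? = some r := by
      rcases h3 r hr1 with h' | h' | h' | h' | h' | h'
      · exact absurd (gf_mem_head h') hrA
      · exact absurd (gf_mem_last h') hrA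
      · exact Or.inl h'
      · exact Or.inr h'
      · exact absurd (gf_mem_head h') hrS
      · exact absurd (gf_mem_last h') hrS
    have ht2 : S.head? = some t ∨ S.getLast? = some t := by
      rcases h3 t ht1 with h' | h' | h' | h' | h' | h'
      · exact absurd (gf_mem_head h') htC.1
      · exact absurd (gf_mem_last h') htC.1
      · exact absurd (gf_mem_head h') htC.2
      · exact absurd (gf_mem_last h') htC.2
      · exact Or.inl h'
      · exact Or.inr h'
    rcases hc with hc | hc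
    · rcases hr2 with h' | h'
      · exact hc.1 h'
      · exact hc.2 h'
    · rcases ht2 with h' | h'
      · exact hc.1 h'
      · exact hc.2 h'

/-- a cut of `A` is not joined to `B` inside `J` -/
theorem GCtx.no_opp (h : GCtx T D s J A B a b S p J1 J2) {r : V} (hr : r ∈ A)
    (hk : (s r).kd = 0) : ¬ ∃ x ∈ B, JA J r x := by
  rintro ⟨x, hx, hj⟩
  have h1 := h.chl r (List.mem_append_left _ hr) x (List.mem_append_right _ hx) hj
  have hnh : A.head? ≠ some r := fun h' => h.corner r (Or.inl h') hk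
  have hnl : A.getLast? ≠ some r := fun h' => h.corner r (Or.inr (Or.inl h')) hk
  obtain ⟨l₁, q, q', l₂, hA⟩ := gf_mid hr hnh hnl
  have hnd := h.inv.disc.nd
  have hE : A ++ B = (l₁ ++ [q]) ++ r :: q' :: (l₂ ++ B) := by
    rw [hA]; simp
  have hxA : x ∉ A := fun hA' => (List.nodup_append.1 hnd).2.2 x hA' x hx rfl
  rw [hE] at hnd h1
  rcases gf_cyc_inner hnd h1 with h2 | h2
  · exact hxA (by rw [hA, h2]; simp)
  · exact hxA (by rw [hA, h2]; simp)

theorem GCtx.no_opp' (h : GCtx T D s J A B a b S p J1 J2) {r : V} (hr : r ∈ B)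
    (hk : (s r).kd = 0) : ¬ ∃ x ∈ A, JA J r x := by
  rintro ⟨x, hx, hj⟩
  have h1 := h.chl r (List.mem_append_right _ hr) x (List.mem_append_left _ hx) hj
  have hnh : B.head? ≠ some r := fun h' => h.corner r (Or.inr (Or.inr (Or.inl h'))) hk
  have hnl : B.getLast? ≠ some r := fun h' => h.corner r (Or.inr (Or.inr (Or.inr h'))) hk
  obtain ⟨l₁, q, q', l₂, hB⟩ := gf_mid hr hnh hnl
  have hnd := h.inv.disc.nd
  have hE : A ++ B = ((A ++ l₁) ++ [q]) ++ r :: q' :: l₂ := by
    rw [hB]; simp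
  have hxB : x ∉ B := fun hB' => (List.nodup_append.1 hnd).2.2 x hx x hB' rfl
  rw [hE] at hnd h1
  rcases gf_cyc_inner hnd h1 with h2 | h2
  · exact hxB (by rw [hB, h2]; simp)
  · exact hxB (by rw [hB, h2]; simp)

end

end CC3
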