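import Pool.Agent.Work.MP_3035da_co.CFrame

/-!
# GFar : two different cuts of the same side are far apart

`cuts_far`: `r, r' ∈ A`, `r ≠ r'`: decompose `A = l₁ ++ r :: l₂` (`List.append_of_mem`); if `r' ∈ l₂`: last
clause of `Phi` at `r`; if `r' ∈ l₁`: `l₁ = m₁ ++ r' :: m₂`, last clause at `r'`.
`cut_le_one`: with a potential `f` of the side: `|f r - f v| ≤ 1`, `|f r' - f v| ≤ 1`, but the cuts are
`Ls D ≥ 60` apart.
-/

set_option autoImplicit false
open Classical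

namespace CC3

variable {V : Type} [Fintype V]

theorem cuts_far {T : Sph V} {D : ℕ} {s : Stt V} {K : Finset V} {A : List V} {c : Fin 3}
    (h : Side T D s K A c) {r r' : V} (hr : r ∈ A) (hr' : r' ∈ A) (hk : (s r).kd = 0)
    (hk' : (s r').kd = 0) {f : V → ℤ} (hf : Phi T D s K A f) (hne : r ≠ r') :
    f r + (Ls D : ℤ) ≤ f r' ∨ f r' + (Ls D : ℤ) ≤ f r := by
  have _ := h
  obtain ⟨l₁, l₂, hA⟩ := List.append_of_mem hr
  have h2 : r' ∈ l₁ ++ r :: l₂ := hA ▸ hr'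
  rw [List.mem_append, List.mem_cons] at h2
  rcases h2 with h2 | h2 | h2
  · right
    obtain ⟨m₁, m₂, hm⟩ := List.append_of_mem h2
    have hA' : A = m₁ ++ r' :: (m₂ ++ r :: l₂) := by
      rw [hA, hm]
      simp
    exact (hf.2 _ _ _ hA' hk').2.2.2.2 r (by simp) hk
  · exact absurd h2.symm hne
  · left
    exact (hf.2 _ _ _ hA hk).2.2.2.2 r' h2 hk'

theorem cut_le_one {T : Sph V} {D : ℕ} {s : Stt V} {K : Finset V} {A : List V} {c : Fin 3}
    (h : Side T D s K A c) {r r' : V} (hr : r ∈ A) (hr' : r' ∈ A) (hk : (s r).kd = 0)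
    (hk' : (s r').kd = 0) {v : V} (hv : v ∈ K) (h1 : T.gr.Adj v r) (h2 : T.gr.Adj v r') :
    r = r' := by
  by_contra hne
  obtain ⟨f, hf⟩ := h.phi
  have e1 := hf.1 v r (Or.inr hv) (Or.inl hr) h1
  have e2 := hf.1 r v (Or.inl hr) (Or.inr hv) h1.symm
  have e3 := hf.1 v r' (Or.inr hv) (Or.inl hr') h2
  have e4 := hf.1 r' v (Or.inl hr') (Or.inr hv) h2.symm
  have hL : (Ls D : ℤ) = 12 * (D : ℤ) + 60 := by
    simp [Ls]
  rcases cuts_far h hr hr' hk hk' hf hne with h3 | h3 <;> omega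

end CC3
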