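import Pool.Agent.Work.MP_3035da_co.GPos

/-!
# GInv : the invariants of the two sub-instances after placing the thread `S`

`s1 = mkS T s A B S U w lb c`. Off `S` `s1 = s`; on `S`: kind 0 on `U`, kind 1 off `U`, colour `c`.
`sideS`: the side `S` (interior any `K' ⊆ K`): kinds, colours clear; `labs`: consecutive members `z z'`
of `S`, not in `U`, have positions `p z' = p z + 1` and no cut position in between: `Labs.same`;
`endR/endL`: `Labs.ends`. `Phi` with the potential `p`: Lipschitz on `S ∪ K' ⊆ K`; decompositions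
`S = l₁ ++ r :: l₂`: `GCtx.pos_split`, `Cuts.gap`.
The side `S.reverse`: `Side.reverse`.
`inv1`: `(J1; A, S.reverse)` with colours `a, c`: `disc` = hypothesis; `sideA`: `Side.congr` (`s1 = s` on `A`,
`K1 ⊆ K` by `GCtx.split`); `apart`: `Cuts.far`; `mode`: `a ≠ c`.
`inv2`: `(J2; S, B)` with colours `c, b`, for any state `s'` which agrees with `s1` off `K1`.
-/

set_option autoImplicit false
open Classical

namespace CC3

variable {V : Type} [Fintype V]

section

variable {T : Sph V} {D : ℕ} {s : Stt V} {J J1 J2 : Finset (Finset V)} {A B S : List V}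
  {a b c : Fin 3} {p : V → ℤ} {U : Finset V} {w : V → V} {lb : V → V × V × V}

private theorem pos_next (h : GCtx T D s J A B a b S p J1 J2) {l₁ l₂ : List V} {z z' : V}
    (hS : S = l₁ ++ z :: z' :: l₂) : p z' = p z + 1 := by
  have h1 : l₁.length < S.length := by rw [hS]; simp
  have h2 : l₁.length + 1 < S.length := by rw [hS]; simp
  have e1 := h.idx l₁.length h1
  have e2 := h.idx (l₁.length + 1) h2
  have g1 : S[l₁.length] = z := by
    simp [hS]
  have g2 : S[l₁.length + 1] = z' := by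
    simp [hS, List.getElem_append_right]
  rw [g1] at e1
  rw [g2] at e2
  push_cast at e2
  omega

private theorem mk_in (v : V) (hv : v ∈ S) (hu : v ∈ U) :
    (mkS T s A B S U w lb c v).kd = 0 := by
  unfold mkS
  rw [if_pos hv, if_pos hu]

private theorem mk_kd (v : V) (hv : v ∈ S) (hu : v ∉ U) :
    (mkS T s A B S U w lb c v).kd = 1 := by
  unfold mkS
  rw [if_pos hv, if_neg hu]

private theorem mk_lab (v : V) (hv : v ∈ S) (hu : v ∉ U) :
    (mkS T s A B S U w lb c v).lab = lb v := by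
  unfold mkS
  rw [if_pos hv, if_neg hu]

private theorem mk_col (v : V) (hv : v ∈ S) :
    (mkS T s A B S U w lb c v).col = c := by
  unfold mkS
  rw [if_pos hv]
  split_ifs <;> rfl

private theorem mk_off (v : V) (hv : v ∉ S) :
    mkS T s A B S U w lb c v = s v := by
  unfold mkS
  rw [if_neg hv]

private theorem mk_zero {v : V} (hv : v ∈ S) (h0 : (mkS T s A B S U w lb c v).kd = 0) : v ∈ U := by
  by_contra hu
  rw [mk_kd v hv hu] at h0
  exact absurd h0 (by decide)

private theorem mk_nz {v : V} (hv : v ∈ S) (h0 : (mkS T s A B S U w lb c v).kd ≠ 0) : v ∉ U :=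
  fun hu => h0 (mk_in v hv hu)

theorem GCtx.sideS (h : GCtx T D s J A B a b S p J1 J2)
    (hU : Cuts T D s (inn J (A ++ B)) A B S p U w) (hL : Labs D S p U lb) {K' : Finset V}
    (hK : K' ⊆ inn J (A ++ B)) : Side T D (mkS T s A B S U w lb c) K' S c := by
  refine ⟨h.ne, ?_, ?_, ?_, ?_, ?_, ⟨p, ?_, ?_⟩⟩
  · intro z hz
    by_cases hu : z ∈ U
    · exact Or.inl (mk_in z hz hu)
    · exact Or.inr (Or.inl (mk_kd z hz hu))
  · intro z hz _
    exact mk_col z hz
  · intro l₁ z z' l₂ hS h1 h2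
    have hz : z ∈ S := by rw [hS]; simp
    have hz' : z' ∈ S := by rw [hS]; simp
    have u1 := mk_nz hz h1
    have u2 := mk_nz hz' h2
    rw [mk_lab z hz u1, mk_lab z' hz' u2]
    have hp := pos_next h hS
    refine hL.same z hz z' hz' (by omega) ?_
    rintro t ht ⟨ht1, ht2⟩
    have htS := (hU.mem t ht).1
    have hc : p t = p z ∨ p t = p z' := by omega
    rcases hc with hc | hc
    · exact u1 (h.pos_inj htS hz hc ▸ ht)
    · exact u2 (h.pos_inj htS hz' hc ▸ ht)
  · intro l₁ z z' l₂ hS h1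
    have hz : z ∈ S := by rw [hS]; simp
    have hz' : z' ∈ S := by rw [hS]; simp
    have u1 := mk_zero hz h1
    have hp := pos_next h hS
    obtain ⟨u2, he⟩ := hL.ends z u1 z' hz' (Or.inl hp)
    rw [mk_kd z' hz' u2, mk_lab z' hz' u2]
    exact ⟨by decide, he⟩
  · intro l₁ z z' l₂ hS h1
    have hz : z ∈ S := by rw [hS]; simp
    have hz' : z' ∈ S := by rw [hS]; simp
    have u1 := mk_zero hz' h1
    have hp := pos_next h hS
    obtain ⟨u2, he⟩ := hL.ends z' u1 z hz (Or.inr hp.symm)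
    rw [mk_kd z hz u2, mk_lab z hz u2]
    exact ⟨by decide, he⟩
  · intro u v hu hv huv
    have hu' : u ∈ inn J (A ++ B) := hu.elim (h.inK u) fun h1 => hK h1
    have hv' : v ∈ inn J (A ++ B) := hv.elim (h.inK v) fun h1 => hK h1
    exact h.lip u hu' v hv' huv
  · intro l₁ r l₂ hS h0
    have hr : r ∈ S := by rw [hS]; simp
    have hrU := mk_zero hr h0
    obtain ⟨e1, e2⟩ := h.pos_split hS
    refine ⟨fun z hz => (e1 z hz).1, fun z hz => (e2 z hz).1, fun z hz => (e1 z hz).2,
      fun z hz => (e2 z hz).2, fun z hz hz0 => ?_⟩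
    have hzS : z ∈ S := by rw [hS]; simp [hz]
    have hzU := mk_zero hzS hz0
    exact hU.gap r hrU z hzU (by have := (e2 z hz).1; omega)

private theorem notS_A (h : GCtx T D s J A B a b S p J1 J2) {z : V} (hz : z ∈ A) : z ∉ S := by
  intro hS
  have := (mem_inn.1 (h.inK z hS)).2
  exact this (List.mem_append_left _ hz)

private theorem notS_B (h : GCtx T D s J A B a b S p J1 J2) {z : V} (hz : z ∈ B) : z ∉ S := by
  intro hS
  have := (mem_inn.1 (h.inK z hS)).2
  exact this (List.mem_append_right _ hz)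

theorem GCtx.inv1 (h : GCtx T D s J A B a b S p J1 J2)
    (hU : Cuts T D s (inn J (A ++ B)) A B S p U w) (hL : Labs D S p U lb) (hac : a ≠ c)
    (h1 : Disc T J1 (A ++ S.reverse)) :
    Inv T D (mkS T s A B S U w lb c) J1 A S.reverse a c := by
  have hsub : inn J1 (A ++ S.reverse) ⊆ inn J (A ++ B) := fun v hv =>
    (h.split v).2 (Or.inl hv)
  refine ⟨h1, ?_, ?_, ?_, Or.inl hac⟩
  · exact h.inv.sideA.congr (fun z hz => mk_off z (notS_A h hz)) hsub
  · exact (h.sideS hU hL hsub).reverse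
  · intro x hx x' hx' k1 k2
    rw [mk_off x (notS_A h hx)] at k1
    rw [List.mem_reverse] at hx'
    have hu := mk_zero hx' k2
    obtain ⟨g1, g2⟩ := hU.far x' hu x (Or.inl hx) k1
    exact ⟨g1, fun y hy => g2 y (hsub hy)⟩

theorem GCtx.inv2 (h : GCtx T D s J A B a b S p J1 J2)
    (hU : Cuts T D s (inn J (A ++ B)) A B S p U w) (hL : Labs D S p U lb) (hbc : b ≠ c)
    (h2 : Disc T J2 (S ++ B)) {s' : Stt V}
    (hs' : ∀ v, v ∉ inn J1 (A ++ S.reverse) → s' v = mkS T s A B S U w lb c v) :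
    Inv T D s' J2 S B c b := by
  have hsub : inn J2 (S ++ B) ⊆ inn J (A ++ B) := fun v hv =>
    (h.split v).2 (Or.inr (Or.inl hv))
  have eS : ∀ z ∈ S, s' z = mkS T s A B S U w lb c z := fun z hz =>
    hs' z fun hz' => (mem_inn.1 hz').2 (by simp [hz])
  have eB : ∀ z ∈ B, s' z = s z := fun z hz => by
    rw [hs' z fun hz' => h.vsB hz (mem_vs.2 (mem_inn.1 hz').1), mk_off z (notS_B h hz)]
  refine ⟨h2, ?_, ?_, ?_, Or.inl hbc.symm⟩
  · exact (h.sideS (c := c) hU hL hsub).congr eS (Finset.Subset.refl _)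
  · exact h.inv.sideB.congr eB hsub
  · intro x hx x' hx' k1 k2
    rw [eS x hx] at k1
    rw [eB x' hx'] at k2
    have hu := mk_zero hx k1
    obtain ⟨g1, g2⟩ := hU.far x hu x' (Or.inr hx') k2
    exact ⟨fun g => g1 g.symm, fun y hy g => g2 y (hsub hy) ⟨g.2, g.1⟩⟩

end

end CC3
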