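import Pool.Agent.Work.MP_3035da_co.GPos

/-!
# GLabs : labels of the segments

For `v ∈ S` let `pre v` = the last cut before `v`: the `t ∈ U` with `p t < p v` and `p t` maximal, if any,
and `nxt v` = the `t ∈ U` with `p v < p t`, `p t` minimal, if any. `fst v` = the member of `S` with position
`p (pre v) + 1`, or position `0` if there is no `pre v` (`pos_surj`).
`lb v = (fst v, pre v or v0, nxt v or v0)`, `v0` = a fixed member of `S` (outside `S` anything).
* `same`: no cut with position in `[p u, p v]`: the same cuts before and after.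
* `ends`: `p v = p t + 1`, `t ∈ U`: `pre v = t`; `v ∉ U` by `gap` (`Ls D ≥ 2`). Similarly `p v + 1 = p t`.
* `seg`: two vertices `u, v ∉ U` with `lb u = lb v`, `p u ≤ p v`: same `fst`, so the same last cut before
  them (or both none: if `fst` has position 0 there is none as cuts are not at the head, `mem`), so no cut
  in `[p u, p v]`, so `p v + 1 ≤ p u + Lm D` by `run`; `GCtx.card_interval`.
-/

set_option autoImplicit false
open Classical

namespace CC3

variable {V : Type} [Fintype V]

theorem GCtx.labs {T : Sph V} {D : ℕ} {s : Stt V} {J J1 J2 : Finset (Finset V)}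
    {A B S : List V} {a b : Fin 3} {p : V → ℤ} (h : GCtx T D s J A B a b S p J1 J2)
    {U : Finset V} {w : V → V} (hU : Cuts T D s (inn J (A ++ B)) A B S p U w) :
    ∃ lb : V → V × V × V, Labs D S p U lb := by
  obtain ⟨v0, hv0S, hv0p⟩ := h.pos_surj (i := 0) le_rfl
    (by exact_mod_cast List.length_pos_of_ne_nil h.ne)
  let mx : Finset V → V := fun X =>
    if hX : X.Nonempty then (X.exists_max_image p hX).choose else v0
  let mn : Finset V → V := fun X =>
    if hX : X.Nonempty then (X.exists_min_image p hX).choose else v0
  let fs : Finset V → V := fun X =>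
    if hX : ∃ w ∈ S, X.Nonempty ∧ p w = p (mx X) + 1 then hX.choose else v0
  have hmx : ∀ X : Finset V, X.Nonempty → mx X ∈ X ∧ ∀ t ∈ X, p t ≤ p (mx X) := by
    intro X hX
    have e : mx X = (X.exists_max_image p hX).choose := by
      simp only [mx, dif_pos hX]
    rw [e]
    exact (X.exists_max_image p hX).choose_spec
  have hmn : ∀ X : Finset V, X.Nonempty → mn X ∈ X ∧ ∀ t ∈ X, p (mn X) ≤ p t := by
    intro X hX
    have e : mn X = (X.exists_min_image p hX).choose := by
      simp only [mn, dif_pos hX]
    rw [e]
    exact (X.exists_min_image p hX).choose_spec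
  have hfsS : ∀ X : Finset V, fs X ∈ S := by
    intro X
    by_cases hX : ∃ w ∈ S, X.Nonempty ∧ p w = p (mx X) + 1
    · have e : fs X = hX.choose := by
        simp only [fs, dif_pos hX]
      rw [e]
      exact hX.choose_spec.1
    · have e : fs X = v0 := by
        simp only [fs, dif_neg hX]
      rw [e]
      exact hv0S
  have hfs1 : ∀ X : Finset V, X.Nonempty → (∃ w ∈ S, p w = p (mx X) + 1) →
      p (fs X) = p (mx X) + 1 := by
    intro X hne hw
    have hX : ∃ w ∈ S, X.Nonempty ∧ p w = p (mx X) + 1 := by
      obtain ⟨w, h1, h2⟩ := hw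
      exact ⟨w, h1, hne, h2⟩
    have e : fs X = hX.choose := by
      simp only [fs, dif_pos hX]
    rw [e]
    exact hX.choose_spec.2.2
  have hfs0 : ∀ X : Finset V, ¬ X.Nonempty → p (fs X) = 0 := by
    intro X hne
    have hX : ¬ ∃ w ∈ S, X.Nonempty ∧ p w = p (mx X) + 1 := by
      rintro ⟨w, h1, h2, h3⟩
      exact hne h2
    have e : fs X = v0 := by
      simp only [fs, dif_neg hX]
    rw [e]
    exact hv0p
  have hUS : ∀ t ∈ U, t ∈ S := fun t ht => (hU.mem t ht).1
  -- position of the first vertex of the segment of `u`
  have hpos : ∀ u ∈ S, ∀ t ∈ U, p t < p u →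
      ∃ m ∈ U, p t ≤ p m ∧ p m < p u ∧ mx (U.filter (fun t => p t < p u)) = m ∧
        p (fs (U.filter (fun t => p t < p u))) = p m + 1 := by
    intro u hu t ht htu
    have hne : (U.filter (fun t => p t < p u)).Nonempty := ⟨t, by simp [ht, htu]⟩
    obtain ⟨h1, h2⟩ := hmx _ hne
    have h3 := Finset.mem_filter.1 h1
    refine ⟨_, h3.1, h2 t (by simp [ht, htu]), h3.2, rfl, hfs1 _ hne ?_⟩
    have hr := h.pos_range hu
    have hr' := h.pos_range (hUS _ h3.1)
    exact h.pos_surj (by omega) (by omega)
  refine ⟨fun v => (fs (U.filter (fun t => p t < p v)), mx (U.filter (fun t => p t < p v)),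
    mn (U.filter (fun t => p v < p t))), ?_, ?_, ?_, ?_⟩
  · intro v hv
    exact hfsS _
  · intro u hu v hv huv hno
    have e1 : U.filter (fun t => p t < p u) = U.filter (fun t => p t < p v) := by
      apply Finset.filter_congr
      intro t ht
      have := hno t ht
      constructor
      · intro h1
        omega
      · intro h1
        by_contra h2
        exact this ⟨by omega, by omega⟩
    have e2 : U.filter (fun t => p u < p t) = U.filter (fun t => p v < p t) := by
      apply Finset.filter_congr
      intro t ht
      have := hno t ht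
      constructor
      · intro h1
        by_contra h2
        exact this ⟨by omega, by omega⟩
      · intro h1
        omega
    simp only [e1, e2]
  · intro t ht v hv htv
    have hL : (Ls D : ℤ) = 12 * (D : ℤ) + 60 := by
      simp [Ls]
    constructor
    · intro hvU
      rcases htv with h1 | h1
      · have := hU.gap t ht v hvU (by omega)
        omega
      · have := hU.gap v hvU t ht (by omega)
        omega
    · rcases htv with h1 | h1
      · left
        obtain ⟨m, hm, h2, h3, h4, _⟩ := hpos v hv t ht (by omega)
        show mx (U.filter (fun t => p t < p v)) = t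
        rw [h4]
        exact h.pos_inj (hUS m hm) (hUS t ht) (by omega)
      · right
        show mn (U.filter (fun t => p v < p t)) = t
        have hmem : t ∈ U.filter (fun t => p v < p t) := by
          simp only [Finset.mem_filter]
          exact ⟨ht, by omega⟩
        obtain ⟨h2, h3⟩ := hmn _ ⟨t, hmem⟩
        have h4 := Finset.mem_filter.1 h2
        have h5 := h3 t hmem
        exact h.pos_inj (hUS _ h4.1) (hUS t ht) (by omega)
  · intro X
    refine le_trans (Finset.card_le_card ?_) (h.card_interval (fun v => v ∉ U ∧
      (fs (U.filter (fun t => p t < p v)), mx (U.filter (fun t => p t < p v)),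
        mn (U.filter (fun t => p v < p t))) = X) (Lm D) ?_)
    · intro x hx
      exact (@Finset.mem_filter _ _ (_) _ _).2 ((@Finset.mem_filter _ _ (_) _ _).1 hx)
    rintro u hu v hv ⟨huU, hu1⟩ ⟨hvU, hv1⟩
    rcases le_or_gt (p v) (p u) with h1 | h1
    · apply hU.run v hv u hu h1
      rintro t ht ⟨h2, h3⟩
      have h4 : p t ≠ p v := fun e => hvU (by
        rw [← h.pos_inj (hUS t ht) hv e]; exact ht)
      have h5 : p t ≠ p u := fun e => huU (by
        rw [← h.pos_inj (hUS t ht) hu e]; exact ht)
      obtain ⟨m, hm, e1, e2, e3, e4⟩ := hpos u hu t ht (by omega)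
      have hfe : fs (U.filter (fun t => p t < p u)) = fs (U.filter (fun t => p t < p v)) := by
        have := hu1.trans hv1.symm
        exact congrArg Prod.fst this
      have hr := h.pos_range (hUS m hm)
      by_cases hne : (U.filter (fun t => p t < p v)).Nonempty
      · obtain ⟨t', ht'⟩ := hne
        have ht2 := Finset.mem_filter.1 ht'
        obtain ⟨m', hm', f1, f2, f3, f4⟩ := hpos v hv t' ht2.1 ht2.2
        rw [hfe, f4] at e4
        omega
      · have := hfs0 _ hne
        rw [hfe, this] at e4
        omega
    · have hL : (Lm D : ℤ) = 32 * (D : ℤ) + 100 := by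
        simp [Lm]
      omega

end CC3
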