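import Pool.Agent.Work.MP_3035da_co.GFacts

/-!
# GPos : positions on the geodesic `S` of a `GCtx`

`p S[i] = i`. Everything is index arithmetic (`List.mem_iff_getElem`, `List.isChain_iff_getElem`).
* `pos_adj`: `u, v ∈ S` adjacent, `u ≠ v`, so `|p u - p v| ≤ 1` by `lip` and not `0`.
* `pos_lip`: a function which is Lipschitz along adjacent vertices of `K` is Lipschitz with respect to
  positions on `S` (walk along `S`).
* `pos_before/after`: `S = l₁ ++ r :: l₂`: then `p r = l₁.length`.
* `card_interval`: at most `n` members of `S` have positions in an interval of `n` integers.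
* `cut_le_one` (`hook` uniqueness): two different cuts of the same side are `Ls D` apart in the potential,
  so they have no common neighbour in `K` and are not adjacent.
-/

set_option autoImplicit false
open Classical

namespace CC3

variable {V : Type} [Fintype V]

section

variable {T : Sph V} {D : ℕ} {s : Stt V} {J J1 J2 : Finset (Finset V)} {A B S : List V}
  {a b : Fin 3} {p : V → ℤ}

theorem GCtx.pos_inj (h : GCtx T D s J A B a b S p J1 J2) {u v : V} (hu : u ∈ S) (hv : v ∈ S)
    (huv : p u = p v) : u = v := by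
  obtain ⟨i, hi, rfl⟩ := List.mem_iff_getElem.1 hu
  obtain ⟨j, hj, rfl⟩ := List.mem_iff_getElem.1 hv
  have e1 := h.idx i hi
  have e2 := h.idx j hj
  have hij : i = j := by
    rw [e1, e2] at huv
    exact_mod_cast huv
  subst hij
  rfl

theorem GCtx.pos_range (h : GCtx T D s J A B a b S p J1 J2) {u : V} (hu : u ∈ S) :
    0 ≤ p u ∧ p u < (S.length : ℤ) := by
  obtain ⟨i, hi, rfl⟩ := List.mem_iff_getElem.1 hu
  have e1 := h.idx i hi
  rw [e1]
  constructor
  · exact Int.natCast_nonneg i
  · exact_mod_cast hi

theorem GCtx.pos_surj (h : GCtx T D s J A B a b S p J1 J2) {i : ℤ} (h0 : 0 ≤ i)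
    (h1 : i < (S.length : ℤ)) : ∃ u ∈ S, p u = i := by
  obtain ⟨n, rfl⟩ := Int.eq_ofNat_of_zero_le h0
  have hn : n < S.length := by exact_mod_cast h1
  exact ⟨S[n], List.getElem_mem hn, h.idx n hn⟩

theorem GCtx.pos_adj (h : GCtx T D s J A B a b S p J1 J2) {u v : V} (hu : u ∈ S) (hv : v ∈ S) :
    T.gr.Adj u v ↔ (p v = p u + 1 ∨ p u = p v + 1) := by
  constructor
  · intro hadj
    have e1 := h.lip u (h.inK u hu) v (h.inK v hv) hadj
    have e2 := h.lip v (h.inK v hv) u (h.inK u hu) hadj.symm
    have e3 : p u ≠ p v := fun e => hadj.ne (h.pos_inj hu hv e)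
    omega
  · have key : ∀ u v, u ∈ S → v ∈ S → p v = p u + 1 → T.gr.Adj u v := by
      intro u v hu hv huv
      obtain ⟨i, hi, rfl⟩ := List.mem_iff_getElem.1 hu
      obtain ⟨j, hj, rfl⟩ := List.mem_iff_getElem.1 hv
      rw [h.idx i hi, h.idx j hj] at huv
      have hij : j = i + 1 := by exact_mod_cast huv
      subst hij
      exact (List.isChain_iff_getElem.1 h.chain) i hj
    rintro (h1 | h1)
    · exact key u v hu hv h1
    · exact (key v u hv hu h1).symm

theorem GCtx.pos_head (h : GCtx T D s J A B a b S p J1 J2) {u : V} (hu : u ∈ S) :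
    (S.head? = some u ↔ p u = 0) ∧ (S.getLast? = some u ↔ p u + 1 = (S.length : ℤ)) := by
  have hpos : 0 < S.length := List.length_pos_of_mem hu
  constructor
  · constructor
    · intro h1
      have h2 : S[0] = u := by
        rw [List.head?_eq_getElem?, List.getElem?_eq_getElem hpos] at h1
        exact Option.some.inj h1
      have h3 := h.idx 0 hpos
      rw [h2] at h3
      simpa using h3
    · intro h1
      have h3 := h.idx 0 hpos
      have h4 : S[0] = u := h.pos_inj (List.getElem_mem hpos) hu (by rw [h3, h1]; rfl)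
      rw [List.head?_eq_getElem?, List.getElem?_eq_getElem hpos, h4]
  · have hl : S.length - 1 < S.length := by omega
    have h3 := h.idx (S.length - 1) hl
    have h3' : p S[S.length - 1] + 1 = (S.length : ℤ) := by
      rw [h3]
      push_cast [Nat.cast_sub hpos]
      omega
    constructor
    · intro h1
      have h2 : S[S.length - 1] = u := by
        rw [List.getLast?_eq_getElem?, List.getElem?_eq_getElem hl] at h1
        exact Option.some.inj h1
      rw [h2] at h3'
      exact h3'
    · intro h1
      have h4 : S[S.length - 1] = u := h.pos_inj (List.getElem_mem hl) hu (by omega)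
      rw [List.getLast?_eq_getElem?, List.getElem?_eq_getElem hl, h4]

theorem GCtx.pos_split (h : GCtx T D s J A B a b S p J1 J2) {l₁ l₂ : List V} {r : V}
    (hS : S = l₁ ++ r :: l₂) :
    (∀ z ∈ l₁, p z + 1 ≤ p r ∧ (p z + 1 = p r → l₁.getLast? = some z)) ∧
    (∀ z ∈ l₂, p r + 1 ≤ p z ∧ (p r + 1 = p z → l₂.head? = some z)) := by
  have hr : p r = (l₁.length : ℤ) := by
    have hlt : l₁.length < S.length := by
      rw [hS]
      simp
    have h1 := h.idx l₁.length hlt
    have h2 : S[l₁.length] = r := by
      subst hS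
      simp
    rw [h2] at h1
    exact h1
  constructor
  · intro z hz
    obtain ⟨i, hi, rfl⟩ := List.mem_iff_getElem.1 hz
    have hlt : i < S.length := by
      rw [hS]
      simp
      omega
    have h1 := h.idx i hlt
    have h2 : S[i] = l₁[i] := by
      subst hS
      rw [List.getElem_append_left hi]
    rw [h2] at h1
    rw [h1, hr]
    constructor
    · exact_mod_cast hi
    · intro h3
      have h4 : i + 1 = l₁.length := by exact_mod_cast h3
      have h5 : l₁.length - 1 = i := by omega
      rw [List.getLast?_eq_getElem?, h5, List.getElem?_eq_getElem hi]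
  · intro z hz
    obtain ⟨i, hi, rfl⟩ := List.mem_iff_getElem.1 hz
    have hlt : l₁.length + 1 + i < S.length := by
      rw [hS]
      simp
      omega
    have h1 := h.idx (l₁.length + 1 + i) hlt
    have h2 : S[l₁.length + 1 + i] = l₂[i] := by
      subst hS
      rw [List.getElem_append_right (by omega)]
      have e : l₁.length + 1 + i - l₁.length = i + 1 := by omega
      simp only [e, List.getElem_cons_succ]
    rw [h2] at h1
    rw [h1, hr]
    constructor
    · push_cast
      omega
    · intro h3
      have h4 : i = 0 := by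
        push_cast at h3
        omega
      subst h4
      rw [List.head?_eq_getElem?, List.getElem?_eq_getElem hi]

theorem GCtx.pos_lip (h : GCtx T D s J A B a b S p J1 J2) {f : V → ℤ}
    (hf : ∀ u ∈ inn J (A ++ B), ∀ v ∈ inn J (A ++ B), T.gr.Adj u v → f u ≤ f v + 1)
    {u v : V} (hu : u ∈ S) (hv : v ∈ S) : f u ≤ f v + |p u - p v| := by
  have key : ∀ (n : ℕ) (u v : V), u ∈ S → v ∈ S → p v = p u + (n : ℤ) →
      f u ≤ f v + (n : ℤ) ∧ f v ≤ f u + (n : ℤ) := by
    intro n
    induction n with
    | zero =>
      intro u v hu hv huv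
      have : u = v := h.pos_inj hu hv (by rw [huv]; simp)
      subst this
      simp
    | succ n ih =>
      intro u v hu hv huv
      have hr := h.pos_range hv
      have hru := h.pos_range hu
      obtain ⟨w, hw, hwp⟩ := h.pos_surj (i := p v - 1) (by push_cast at huv; omega) (by omega)
      have h1 := ih u w hu hw (by rw [hwp, huv]; push_cast; ring)
      have hadj : T.gr.Adj w v := (h.pos_adj hw hv).2 (Or.inl (by omega))
      have h2 := hf w (h.inK w hw) v (h.inK v hv) hadj
      have h3 := hf v (h.inK v hv) w (h.inK w hw) hadj.symm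
      push_cast
      constructor <;> omega
  rcases le_total (p u) (p v) with h1 | h1
  · obtain ⟨n, hn⟩ := Int.eq_ofNat_of_zero_le (sub_nonneg.2 h1)
    have h2 := (key n u v hu hv (by omega)).1
    have h3 : |p u - p v| = (n : ℤ) := by
      rw [abs_sub_comm, hn, abs_of_nonneg (Int.natCast_nonneg n)]
    rw [h3]
    exact h2
  · obtain ⟨n, hn⟩ := Int.eq_ofNat_of_zero_le (sub_nonneg.2 h1)
    have h2 := (key n v u hv hu (by omega)).2
    have h3 : |p u - p v| = (n : ℤ) := by
      rw [hn, abs_of_nonneg (Int.natCast_nonneg n)]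
    rw [h3]
    exact h2

theorem GCtx.card_interval (h : GCtx T D s J A B a b S p J1 J2) (P : V → Prop) (n : ℕ)
    (hP : ∀ u ∈ S, ∀ v ∈ S, P u → P v → p u + 1 ≤ p v + (n : ℤ)) :
    (S.toFinset.filter P).card ≤ n := by
  rcases Finset.eq_empty_or_nonempty (S.toFinset.filter P) with h0 | hne
  · rw [h0]
    simp
  obtain ⟨m, hm, hmin⟩ := Finset.exists_min_image (S.toFinset.filter P) p hne
  have hmS : m ∈ S ∧ P m := by simpa using hm
  have hmaps : ∀ x ∈ S.toFinset.filter P, p x ∈ Finset.Ico (p m) (p m + (n : ℤ)) := by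
    intro x hx
    have hxS : x ∈ S ∧ P x := by simpa using hx
    rw [Finset.mem_Ico]
    refine ⟨hmin x hx, ?_⟩
    have := hP x hxS.1 m hmS.1 hxS.2 hmS.2
    omega
  have hinj : Set.InjOn p (S.toFinset.filter P : Set V) := by
    intro x hx y hy hxy
    have hxS : x ∈ S ∧ P x := by simpa using hx
    have hyS : y ∈ S ∧ P y := by simpa using hy
    exact h.pos_inj hxS.1 hyS.1 hxy
  have h1 := Finset.card_le_card_of_injOn p hmaps hinj
  simpa using h1

end

end CC3
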