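import Pool.Agent.Work.MP_3035da_co.GPos
import Pool.Agent.Work.MP_3035da_co.GFar

/-!
# GPost : the postcondition for `J` after colouring the cuts of `S`

`s1, s3` as in `GCut`; `cc, X, k` = the data of `GCtx.fin_cut` for `t ∈ U`;
`s4 v = if v ∈ U then {s3 v with col := cc v, lab := X v, kd := k v} else s3 v`.
`K = K1 ∪ K2 ∪ S` (`GCtx.split`, pairwise disjoint by `k1_vs2`, `k2_vs1`).
* agreement off `K`: `s4 v = s3 v = s1 v = s v` for `v ∉ K`.
* `good`: `v ∈ K1`: `GoodAt.update`, `GoodAt.mono`; `v ∈ K2`: same; `v ∈ S \ U`: kind 1, clear; `v ∈ U`: the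
  data (`k4`: the hook `m` has kind 1, so `m ∉ U` and `s4 m = s3 m`; `k5`: `win` is not changed, `u` has kind
  1 or 2 so is not in `U`; `k3`).
* `name`: `v ∈ K1 ∪ K2`: from `Post`; `v ∈ S \ U`: `Labs.name`, `S ⊆ K`.
* `seg` for a label `X0`: the main vertices of `K` with label `X0`: if `X0.1 ∈ K1` all in `K1` (by `name` and
  disjointness), if in `K2` all in `K2`, if in `S` all in `S \ U` (`Labs.seg`), otherwise none.
* `adj`: `v ∈ K`, `u` adjacent, `(s4 u).kd ≠ 0`, same colours. If `v ∈ U` or `u ∈ U`: data of the cut (not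
  both are in `U` by `gap`; for `v ∉ U`, `u ∈ U` use the data of `u`). Otherwise:
  `v ∈ K1` or `v ∈ K2`: `adj` of the sub-disc. `v ∈ S`: `u ∈ K1 ∪ K2`: `adj` of the sub-disc at `u`;
  `u ∈ S`: consecutive (`pos_adj`), `Labs.same`; `u ∈ A` (`u ∈ B`): colour `a ≠ c` (`b ≠ c`), excluded.
* `repA`: `r ∈ A` a cut (`(s4 r) = (s r)`). `JA J r x` with `x ∈ B` does not happen (`no_opp`): second half.
  The neighbours of `r` in `K` are in `K1` or `S` (`nbrA`). If `r` has a neighbour `m ∈ S`: `t = c`,
  `X` = `lb m`. The neighbours of `r` in `S` are not in `U` (`far`), and all have the label of `m`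
  (`btw`: no cut between them; `Labs.same`), colour `c`. `JA J1 r m` (`edge1`, `r` is not head or last of `A`
  by `corner`), so by `repA` of the sub-disc `J1` all neighbours in `K1` have colour `a`. The hook: `m` has
  kind 1, `(s4 m).oc false = r` because the chosen cut of `A` adjacent to `m` is `r` (`cut_le_one`).
  If `r` has no neighbour in `S`: `¬ ∃ x ∈ S.reverse, JA J1 r x`, so `repA` of `J1`, second half; the hook is
  in `K1 ⊆ K`.
* `repB`: the same with `B`, `K2`, `edge2`, `repB` of `J2`, `oc true`.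
-/

set_option autoImplicit false
open Classical

namespace CC3

variable {V : Type} [Fintype V]

theorem GCtx.fin_post {T : Sph V} {D : ℕ} {s : Stt V} {J J1 J2 : Finset (Finset V)}
    {A B S : List V} {a b c : Fin 3} {p : V → ℤ} {U : Finset V} {w : V → V}
    {lb : V → V × V × V} (h : GCtx T D s J A B a b S p J1 J2)
    (hU : Cuts T D s (inn J (A ++ B)) A B S p U w) (hL : Labs D S p U lb) (hac : a ≠ c)
    (hbc : b ≠ c) {s3 : Stt V}
    (hs3 : ∀ v, v ∉ inn J1 (A ++ S.reverse) → v ∉ inn J2 (S ++ B) →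
      s3 v = mkS T s A B S U w lb c v)
    (hP1 : Post T D s3 J1 A S.reverse a c) (hP2 : Post T D s3 J2 S B c b)
    (cc : V → Fin 3) (X : V → V × V × V) (k : V → Fin 6)
    (hk : ∀ t ∈ U, k t = 3 ∨ k t = 4 ∨ k t = 5)
    (hcol : ∀ t ∈ U, ∀ v, T.gr.Adj t v → (s3 v).kd ≠ 0 ∧ ((s3 v).col = cc t → (s3 v).lab = X t))
    (hk3 : ∀ t ∈ U, k t = 3 → X t = (t, t, t))
    (hk4 : ∀ t ∈ U, k t = 4 → ∃ m ∈ inn J (A ++ B), ∃ i, (s3 m).kd = 1 ∧ (s3 m).lab = X t ∧
      (s3 m).oc i = t)
    (hk5 : ∀ t ∈ U, k t = 5 → 3 * D ≤ ((inn J (A ++ B)).filter (fun q => (s3 q).win = t ∧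
        ∃ u, T.gr.Adj q u ∧ ((s3 u).kd = 1 ∨ (s3 u).kd = 2) ∧ (s3 u).lab = X t)).card) :
    ∃ s4 : Stt V, (∀ v, v ∉ inn J (A ++ B) → s4 v = s v) ∧ Post T D s4 J A B a b := by
  set K := inn J (A ++ B) with hKdef
  set K1 := inn J1 (A ++ S.reverse) with hK1def
  set K2 := inn J2 (S ++ B) with hK2def
  have hUS : ∀ t ∈ U, t ∈ S := fun t ht => (hU.mem t ht).1
  have hSK : ∀ v ∈ S, v ∈ K := h.inK
  have hK1K : ∀ v ∈ K1, v ∈ K := fun v hv => (h.split v).2 (Or.inl hv)
  have hK2K : ∀ v ∈ K2, v ∈ K := fun v hv => (h.split v).2 (Or.inr (Or.inl hv))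
  have hKAB : ∀ v ∈ K, v ∉ A ∧ v ∉ B := by
    intro v hv
    have h1 := (mem_inn.1 hv).2
    rw [List.mem_append, not_or] at h1
    exact h1
  -- values of `s3`
  have hs3S : ∀ v ∈ S, s3 v = mkS T s A B S U w lb c v := fun v hv =>
    hs3 v (fun h1 => (h.k1_vs2 h1).2.1 hv) (fun h1 => (h.k2_vs1 h1).2.1 hv)
  have hs3U : ∀ v ∈ U, s3 v = ⟨c, (v, v, v), 0, fun _ => v, w v⟩ := by
    intro v hv
    rw [hs3S v (hUS v hv)]
    unfold mkS
    rw [if_pos (hUS v hv), if_pos hv]
  have hs3N : ∀ v ∈ S, v ∉ U → s3 v = ⟨c, lb v, 1, fun i =>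
        if h : ∃ r, r ∈ (if i then B else A) ∧ (s r).kd = 0 ∧ T.gr.Adj v r then h.choose else v,
        w v⟩ := by
    intro v hv hvU
    rw [hs3S v hv]
    unfold mkS
    rw [if_pos hv, if_neg hvU]
  have hs3o : ∀ v, v ∉ K → s3 v = s v := by
    intro v hv
    have h1 : v ∉ K1 := fun h' => hv (hK1K v h')
    have h2 : v ∉ K2 := fun h' => hv (hK2K v h')
    have h3 : v ∉ S := fun h' => hv (hSK v h')
    rw [hs3 v h1 h2]
    unfold mkS
    rw [if_neg h3]
  -- the new state
  let s4 : Stt V := fun v =>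
    if v ∈ U then { s3 v with col := cc v, lab := X v, kd := k v } else s3 v
  have e1 : ∀ v ∈ U, s4 v = { s3 v with col := cc v, lab := X v, kd := k v } :=
    fun v hv => if_pos hv
  have e0 : ∀ v, v ∉ U → s4 v = s3 v := fun v hv => if_neg hv
  have ewin : ∀ v, (s4 v).win = (s3 v).win := by
    intro v
    by_cases hv : v ∈ U
    · rw [e1 v hv]
    · rw [e0 v hv]
  have hK1U : ∀ v ∈ K1, v ∉ U := fun v hv hvU => (h.k1_vs2 hv).2.1 (hUS v hvU)
  have hK2U : ∀ v ∈ K2, v ∉ U := fun v hv hvU => (h.k2_vs1 hv).2.1 (hUS v hvU)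
  have hkU : ∀ v, (s3 v).kd ≠ 0 → v ∉ U := by
    intro v hv hvU
    rw [hs3U v hvU] at hv
    exact hv rfl
  have hkne : ∀ t ∈ U, k t ≠ 0 ∧ k t ≠ 1 ∧ k t ≠ 2 := by
    intro t ht
    rcases hk t ht with h1 | h1 | h1 <;> rw [h1] <;> decide
  have hAU : ∀ v ∈ A, v ∉ U := fun v hv hvU => (hKAB v (hSK v (hUS v hvU))).1 hv
  have hBU : ∀ v ∈ B, v ∉ U := fun v hv hvU => (hKAB v (hSK v (hUS v hvU))).2 hv
  have hAK : ∀ v ∈ A, v ∉ K := fun v hv hvK => (hKAB v hvK).1 hv
  have hBK : ∀ v ∈ B, v ∉ K := fun v hv hvK => (hKAB v hvK).2 hv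
  -- labels along `S`
  have hsame : ∀ u ∈ S, ∀ v ∈ S, (∀ t ∈ U, ¬ (p u ≤ p t ∧ p t ≤ p v)) →
      (∀ t ∈ U, ¬ (p v ≤ p t ∧ p t ≤ p u)) → lb u = lb v := by
    intro u hu v hv h1 h2
    rcases le_total (p u) (p v) with h3 | h3
    · exact hL.same u hu v hv h3 h1
    · exact (hL.same v hv u hu h3 h2).symm
  have hgapU : ∀ u ∈ U, ∀ v ∈ U, ¬ T.gr.Adj u v := by
    intro u hu v hv hadj
    have hLs : (Ls D : ℤ) = 12 * (D : ℤ) + 60 := by
      unfold Ls
      push_cast
      ring
    rcases (h.pos_adj (hUS u hu) (hUS v hv)).1 hadj with h1 | h1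
    · have := hU.gap u hu v hv (by omega)
      omega
    · have := hU.gap v hv u hu (by omega)
      omega
  refine ⟨s4, ?_, ?_⟩
  · intro v hv
    have h1 : v ∉ U := fun h' => hv (hSK v (hUS v h'))
    rw [e0 v h1, hs3o v hv]
  constructor
  · -- good
    intro v hv
    rcases (h.split v).1 hv with hv1 | hv1 | hv1
    · refine GoodAt.mono (GoodAt.update (hP1.good v hv1) hv1 (fun u hu => e0 u (hK1U u hu)) ?_)
        (fun u hu => hK1K u hu)
      intro u _ hu
      refine e0 u (hkU u ?_)
      rcases hu with hu | hu <;> rw [hu] <;> decide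
    · refine GoodAt.mono (GoodAt.update (hP2.good v hv1) hv1 (fun u hu => e0 u (hK2U u hu)) ?_)
        (fun u hu => hK2K u hu)
      intro u _ hu
      refine e0 u (hkU u ?_)
      rcases hu with hu | hu <;> rw [hu] <;> decide
    · by_cases hvU : v ∈ U
      · have hkd : (s4 v).kd = k v := by rw [e1 v hvU]
        have hlab : (s4 v).lab = X v := by rw [e1 v hvU]
        obtain ⟨n0, n1, n2⟩ := hkne v hvU
        constructor
        · rw [hkd]
          exact n0
        · intro h1
          rw [hkd] at h1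
          exact absurd h1 n2
        · intro h1
          rw [hkd] at h1
          rw [hlab]
          exact hk3 v hvU h1
        · intro h1
          rw [hkd] at h1
          obtain ⟨m, hm, i, h2, h3, h4⟩ := hk4 v hvU h1
          have hmU : m ∉ U := hkU m (by rw [h2]; decide)
          refine ⟨m, hm, i, ?_, ?_, ?_⟩
          · rw [e0 m hmU]
            exact h2
          · rw [e0 m hmU, hlab]
            exact h3
          · rw [e0 m hmU]
            exact h4
        · intro h1
          rw [hkd] at h1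
          refine (hk5 v hvU h1).trans (Finset.card_le_card ?_)
          intro q hq
          rw [Finset.mem_filter] at hq ⊢
          obtain ⟨hq1, hq2, u, hu1, hu2, hu3⟩ := hq
          have huU : u ∉ U := hkU u (by rcases hu2 with hu2 | hu2 <;> rw [hu2] <;> decide)
          refine ⟨hq1, by rw [ewin]; exact hq2, u, hu1, ?_, ?_⟩
          · rw [e0 u huU]
            exact hu2
          · rw [e0 u huU, hlab]
            exact hu3
      · have hkd : (s4 v).kd = 1 := by rw [e0 v hvU, hs3N v hv1 hvU]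
        constructor
        · rw [hkd]
          decide
        · intro h1
          rw [hkd] at h1
          exact absurd h1 (by decide)
        · intro h1
          rw [hkd] at h1
          exact absurd h1 (by decide)
        · intro h1
          rw [hkd] at h1
          exact absurd h1 (by decide)
        · intro h1
          rw [hkd] at h1
          exact absurd h1 (by decide)
  · -- name
    intro v hv hkd
    rcases (h.split v).1 hv with hv1 | hv1 | hv1
    · rw [e0 v (hK1U v hv1)] at hkd ⊢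
      exact hK1K _ (hP1.name v hv1 hkd)
    · rw [e0 v (hK2U v hv1)] at hkd ⊢
      exact hK2K _ (hP2.name v hv1 hkd)
    · by_cases hvU : v ∈ U
      · rw [e1 v hvU] at hkd
        exact absurd hkd (hkne v hvU).2.1
      · rw [e0 v hvU, hs3N v hv1 hvU]
        exact hSK _ (hL.name v hv1)
  · -- seg
    intro X0
    have hmain : ∀ v ∈ K, (s4 v).kd = 1 → (s4 v).lab = X0 →
        (v ∈ K1 ∧ X0.1 ∈ K1 ∧ (s3 v).kd = 1 ∧ (s3 v).lab = X0) ∨
        (v ∈ K2 ∧ X0.1 ∈ K2 ∧ (s3 v).kd = 1 ∧ (s3 v).lab = X0) ∨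
        (v ∈ S ∧ X0.1 ∈ S ∧ v ∉ U ∧ lb v = X0) := by
      intro v hv hkd hlab
      rcases (h.split v).1 hv with hv1 | hv1 | hv1
      · rw [e0 v (hK1U v hv1)] at hkd hlab
        have := hP1.name v hv1 hkd
        rw [hlab] at this
        exact Or.inl ⟨hv1, this, hkd, hlab⟩
      · rw [e0 v (hK2U v hv1)] at hkd hlab
        have := hP2.name v hv1 hkd
        rw [hlab] at this
        exact Or.inr (Or.inl ⟨hv1, this, hkd, hlab⟩)
      · by_cases hvU : v ∈ U
        · rw [e1 v hvU] at hkd
          exact absurd hkd (hkne v hvU).2.1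
        · rw [e0 v hvU, hs3N v hv1 hvU] at hlab
          have h2 := hL.name v hv1
          have h3 : lb v = X0 := hlab
          rw [h3] at h2
          exact Or.inr (Or.inr ⟨hv1, h2, hvU, h3⟩)
    by_cases hX1 : X0.1 ∈ K1
    · refine le_trans (Finset.card_le_card ?_) (hP1.seg X0)
      intro v hv
      rw [Finset.mem_filter] at hv ⊢
      rcases hmain v hv.1 hv.2.1 hv.2.2 with h1 | h1 | h1
      · exact ⟨h1.1, h1.2.2⟩
      · exact absurd h1.2.1 (h.k1_vs2 hX1).2.2.2.2
      · exact absurd h1.2.1 (h.k1_vs2 hX1).2.1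
    · by_cases hX2 : X0.1 ∈ K2
      · refine le_trans (Finset.card_le_card ?_) (hP2.seg X0)
        intro v hv
        rw [Finset.mem_filter] at hv ⊢
        rcases hmain v hv.1 hv.2.1 hv.2.2 with h1 | h1 | h1
        · exact absurd h1.2.1 hX1
        · exact ⟨h1.1, h1.2.2⟩
        · exact absurd h1.2.1 (h.k2_vs1 hX2).2.1
      · refine le_trans (Finset.card_le_card ?_) (hL.seg X0)
        intro v hv
        rw [Finset.mem_filter] at hv ⊢
        rcases hmain v hv.1 hv.2.1 hv.2.2 with h1 | h1 | h1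
        · exact absurd h1.2.1 hX1
        · exact absurd h1.2.1 hX2
        · exact ⟨List.mem_toFinset.2 h1.1, h1.2.2⟩
  · -- adj
    intro v hv u hadj hkd hcolr
    by_cases hvU : v ∈ U
    · have huU : u ∉ U := fun h1 => hgapU v hvU u h1 hadj
      rw [e0 u huU] at hkd hcolr ⊢
      rw [e1 v hvU] at hcolr ⊢
      exact (hcol v hvU u hadj).2 hcolr
    · rw [e0 v hvU] at hcolr ⊢
      by_cases huU : u ∈ U
      · rw [e1 u huU] at hcolr ⊢
        exact ((hcol u huU v hadj.symm).2 hcolr.symm).symm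
      · rw [e0 u huU] at hkd hcolr ⊢
        rcases (h.split v).1 hv with hv1 | hv1 | hv1
        · exact hP1.adj v hv1 u hadj hkd hcolr
        · exact hP2.adj v hv1 u hadj hkd hcolr
        · have hv3 := hs3N v hv1 hvU
          have hvk : (s3 v).kd ≠ 0 := by
            rw [hv3]
            show (1 : Fin 6) ≠ 0
            decide
          have hvc : (s3 v).col = c := by rw [hv3]
          rcases (h.inv.disc.nbr hv hadj).2 with hu | hu
          · rcases (h.split u).1 hu with hu1 | hu1 | hu1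
            · exact (hP1.adj u hu1 v hadj.symm hvk hcolr.symm).symm
            · exact (hP2.adj u hu1 v hadj.symm hvk hcolr.symm).symm
            · rw [hs3N u hu1 huU, hv3]
              show lb u = lb v
              have hpos := (h.pos_adj hv1 hu1).1 hadj
              have hno : ∀ t ∈ U, p t ≠ p u ∧ p t ≠ p v := by
                intro t ht
                constructor
                · intro h1
                  exact huU ((h.pos_inj (hUS t ht) hu1 h1) ▸ ht)
                · intro h1
                  exact hvU ((h.pos_inj (hUS t ht) hv1 h1) ▸ ht)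
              refine hsame u hu1 v hv1 ?_ ?_
              · intro t ht h1
                have := hno t ht
                omega
              · intro t ht h1
                have := hno t ht
                omega
          · rcases List.mem_append.1 hu with hu1 | hu1
            · exfalso
              rw [hs3o u (hAK u hu1)] at hkd hcolr
              have := h.inv.sideA.cols u hu1 hkd
              rw [this, hvc] at hcolr
              exact hac hcolr
            · exfalso
              rw [hs3o u (hBK u hu1)] at hkd hcolr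
              have := h.inv.sideB.cols u hu1 hkd
              rw [this, hvc] at hcolr
              exact hbc hcolr
  · -- repA
    intro r hr hkr
    have hr4 : s4 r = s r := by rw [e0 r (hAU r hr), hs3o r (hAK r hr)]
    rw [hr4] at hkr
    have hr3 : (s3 r).kd = 0 := by
      rw [hs3o r (hAK r hr)]
      exact hkr
    refine ⟨fun h1 => absurd h1 (h.no_opp hr hkr), fun _ => ?_⟩
    by_cases hm : ∃ m ∈ S, T.gr.Adj r m
    · obtain ⟨m, hm, hrm⟩ := hm
      have hmU : m ∉ U := fun h1 => (hU.far m h1 r (Or.inl hr) hkr).1 hrm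
      have hcr : A.head? ≠ some r ∧ A.getLast? ≠ some r := by
        constructor
        · intro h1
          exact h.corner r (Or.inl h1) hkr
        · intro h1
          exact h.corner r (Or.inr (Or.inl h1)) hkr
      have hJA := h.edge1 hr hm hrm (Or.inl hcr)
      have hrep := (hP1.repA r hr hr3).1 ⟨m, List.mem_reverse.2 hm, hJA⟩
      refine ⟨c, lb m, fun h1 => hac h1.symm, ?_, m, hSK m hm, false, ?_, ?_, ?_⟩
      · intro v hv hrv
        rcases h.nbrA hr hv hrv with hv1 | hv1
        · left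
          rw [e0 v (hK1U v hv1)]
          exact hrep v hv1 hrv
        · right
          have hvU : v ∉ U := fun h1 => (hU.far v h1 r (Or.inl hr) hkr).1 hrv
          rw [e0 v hvU, hs3N v hv1 hvU]
          refine ⟨rfl, ?_⟩
          show lb v = lb m
          exact hsame v hv1 m hm
            (fun t ht => hU.btw t ht r (Or.inl hr) hkr v hv1 m hm hrv hrm)
            (fun t ht => hU.btw t ht r (Or.inl hr) hkr m hm v hv1 hrm hrv)
      · rw [e0 m hmU, hs3N m hm hmU]
      · rw [e0 m hmU, hs3N m hm hmU]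
      · rw [e0 m hmU, hs3N m hm hmU]
        show (if h : ∃ r, r ∈ (if (false = true) then B else A) ∧ (s r).kd = 0 ∧ T.gr.Adj m r
          then h.choose else m) = r
        have hex : ∃ r, r ∈ (if (false = true) then B else A) ∧ (s r).kd = 0 ∧ T.gr.Adj m r := by
          refine ⟨r, ?_, hkr, hrm.symm⟩
          rw [if_neg (by decide)]
          exact hr
        rw [dif_pos hex]
        obtain ⟨h1, h2, h3⟩ := hex.choose_spec
        have h5 : ∀ x, x ∈ (if (false = true) then B else A) → x ∈ A := fun x hx => by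
          rw [if_neg (by decide)] at hx
          exact hx
        exact cut_le_one h.inv.sideA (h5 _ h1) hr h2 hkr (hSK m hm) h3 hrm.symm
    · have hno : ¬ ∃ x ∈ S.reverse, JA J1 r x := by
        rintro ⟨x, hx, hJ⟩
        exact hm ⟨x, List.mem_reverse.1 hx, JA.adj (h.sub1.trans h.inv.disc.sub) hJ⟩
      obtain ⟨t, Xr, ht, h1, m, hm1, i, hm2, hm3, hm4⟩ := (hP1.repA r hr hr3).2 hno
      refine ⟨t, Xr, ht, ?_, m, hK1K m hm1, i, ?_, ?_, ?_⟩
      · intro v hv hrv
        rcases h.nbrA hr hv hrv with hv1 | hv1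
        · rw [e0 v (hK1U v hv1)]
          exact h1 v hv1 hrv
        · exact absurd ⟨v, hv1, hrv⟩ hm
      · rw [e0 m (hK1U m hm1)]
        exact hm2
      · rw [e0 m (hK1U m hm1)]
        exact hm3
      · rw [e0 m (hK1U m hm1)]
        exact hm4
  · -- repB
    intro r hr hkr
    have hr4 : s4 r = s r := by rw [e0 r (hBU r hr), hs3o r (hBK r hr)]
    rw [hr4] at hkr
    have hr3 : (s3 r).kd = 0 := by
      rw [hs3o r (hBK r hr)]
      exact hkr
    refine ⟨fun h1 => absurd h1 (h.no_opp' hr hkr), fun _ => ?_⟩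
    by_cases hm : ∃ m ∈ S, T.gr.Adj r m
    · obtain ⟨m, hm, hrm⟩ := hm
      have hmU : m ∉ U := fun h1 => (hU.far m h1 r (Or.inr hr) hkr).1 hrm
      have hcr : B.head? ≠ some r ∧ B.getLast? ≠ some r := by
        constructor
        · intro h1
          exact h.corner r (Or.inr (Or.inr (Or.inl h1))) hkr
        · intro h1
          exact h.corner r (Or.inr (Or.inr (Or.inr h1))) hkr
      have hJA := h.edge2 hr hm hrm (Or.inl hcr)
      have hrep := (hP2.repB r hr hr3).1 ⟨m, hm, hJA⟩
      refine ⟨c, lb m, fun h1 => hbc h1.symm, ?_, m, hSK m hm, true, ?_, ?_, ?_⟩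
      · intro v hv hrv
        rcases h.nbrB hr hv hrv with hv1 | hv1
        · left
          rw [e0 v (hK2U v hv1)]
          exact hrep v hv1 hrv
        · right
          have hvU : v ∉ U := fun h1 => (hU.far v h1 r (Or.inr hr) hkr).1 hrv
          rw [e0 v hvU, hs3N v hv1 hvU]
          refine ⟨rfl, ?_⟩
          show lb v = lb m
          exact hsame v hv1 m hm
            (fun t ht => hU.btw t ht r (Or.inr hr) hkr v hv1 m hm hrv hrm)
            (fun t ht => hU.btw t ht r (Or.inr hr) hkr m hm v hv1 hrm hrv)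
      · rw [e0 m hmU, hs3N m hm hmU]
      · rw [e0 m hmU, hs3N m hm hmU]
      · rw [e0 m hmU, hs3N m hm hmU]
        show (if h : ∃ r, r ∈ (if (true = true) then B else A) ∧ (s r).kd = 0 ∧ T.gr.Adj m r
          then h.choose else m) = r
        have hex : ∃ r, r ∈ (if (true = true) then B else A) ∧ (s r).kd = 0 ∧ T.gr.Adj m r := by
          refine ⟨r, ?_, hkr, hrm.symm⟩
          rw [if_pos rfl]
          exact hr
        rw [dif_pos hex]
        obtain ⟨h1, h2, h3⟩ := hex.choose_spec
        have h5 : ∀ x, x ∈ (if (true = true) then B else A) → x ∈ B := fun x hx => by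
          rw [if_pos rfl] at hx
          exact hx
        exact cut_le_one h.inv.sideB (h5 _ h1) hr h2 hkr (hSK m hm) h3 hrm.symm
    · have hno : ¬ ∃ x ∈ S, JA J2 r x := by
        rintro ⟨x, hx, hJ⟩
        exact hm ⟨x, hx, JA.adj (h.sub2.trans h.inv.disc.sub) hJ⟩
      obtain ⟨t, Xr, ht, h1, m, hm1, i, hm2, hm3, hm4⟩ := (hP2.repB r hr hr3).2 hno
      refine ⟨t, Xr, ht, ?_, m, hK2K m hm1, i, ?_, ?_, ?_⟩
      · intro v hv hrv
        rcases h.nbrB hr hv hrv with hv1 | hv1
        · rw [e0 v (hK2U v hv1)]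
          exact h1 v hv1 hrv
        · exact absurd ⟨v, hv1, hrv⟩ hm
      · rw [e0 m (hK2U m hm1)]
        exact hm2
      · rw [e0 m (hK2U m hm1)]
        exact hm3
      · rw [e0 m (hK2U m hm1)]
        exact hm4

end CC3
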