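import Pool.Agent.Work.MP_3035da_co.GCtxEx
import Pool.Agent.Work.MP_3035da_co.GCuts
import Pool.Agent.Work.MP_3035da_co.GLabs
import Pool.Agent.Work.MP_3035da_co.GInv
import Pool.Agent.Work.MP_3035da_co.GCut
import Pool.Agent.Work.MP_3035da_co.GPost

/-!
# GStep : the geodesic step (assembly)

`exists_gctx`, `GCtx.cuts`, `GCtx.labs`; choose a colour `c ≠ a, b`. `s1 = mkS ...`.
Sub-instance 1: if `Disc T J1 (A ++ S.reverse)` then `GCtx.inv1` and `IH` give `s2` with
`Post T D s2 J1 A S.reverse a c`, `s2 = s1` off `K1`. In the degenerate case of `GCtx.disc1` (`J1 = ∅`, `A = [x]`,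
`S = [y]`): `s2 = s1`, `K1 = ∅`, all of `Post` is vacuous: no member of `A` is a cut (`corner`) and no member
of `S` is in `U` (`Cuts.mem`: `y` is the head of `S`).
Sub-instance 2: the same with `GCtx.inv2`: `s3`, equal to `s2` off `K2`.
`Post T D s3 J1 A S.reverse a c` still holds: `s3 = s2` on `K1`, on `A`, on `S` (`k2_vs1`), and on all
neighbours of `K1` (they are in `vs J1`); `GoodAt.update`, `Rep.congr`.
Then `GCtx.fin_cut` (choose `cc, X, k` on `U`) and `GCtx.fin_post`.
-/

set_option autoImplicit false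
open Classical

namespace CC3

variable {V : Type} [Fintype V]

section

variable {T : Sph V} {D : ℕ} {s : Stt V} {J J1 J2 : Finset (Finset V)} {A B S : List V}
  {a b c : Fin 3} {p : V → ℤ} {U : Finset V} {w : V → V} {lb : V → V × V × V}

omit [Fintype V] in
private theorem len_one {l : List V} (h : l.length = 1) {x : V} (hx : x ∈ l) :
    l.head? = some x := by
  obtain ⟨y, rfl⟩ := List.length_eq_one_iff.1 h
  rw [List.mem_singleton] at hx
  rw [hx]
  rfl

private theorem mk_off' (v : V) (hv : v ∉ S) :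
    mkS T s A B S U w lb c v = s v := by
  unfold mkS
  rw [if_neg hv]

private theorem mk_zero' {v : V} (hv : v ∈ S) (h0 : (mkS T s A B S U w lb c v).kd = 0) :
    v ∈ U := by
  by_contra hu
  unfold mkS at h0
  rw [if_pos hv, if_neg hu] at h0
  exact absurd h0 (show (1 : Fin 6) ≠ 0 by decide)

private theorem notS_A' (h : GCtx T D s J A B a b S p J1 J2) {z : V} (hz : z ∈ A) : z ∉ S := by
  intro hS
  have := (mem_inn.1 (h.inK z hS)).2
  exact this (List.mem_append_left _ hz)

private theorem notS_B' (h : GCtx T D s J A B a b S p J1 J2) {z : V} (hz : z ∈ B) : z ∉ S := by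
  intro hS
  have := (mem_inn.1 (h.inK z hS)).2
  exact this (List.mem_append_right _ hz)

private theorem inn_empty (C : List V) : inn (∅ : Finset (Finset V)) C = ∅ := by
  ext v
  rw [mem_inn]
  simp

private theorem nbr1 (h : GCtx T D s J A B a b S p J1 J2) {q u : V}
    (hq : q ∈ inn J1 (A ++ S.reverse)) (hqu : T.gr.Adj q u) : u ∉ inn J2 (S ++ B) := by
  rcases h.disc1 with hd | ⟨hJ, -, -⟩
  · obtain ⟨⟨-, t, ht, -, hu⟩, -⟩ := hd.nbr hq hqu
    exact fun hu2 => (h.k2_vs1 hu2).1 (mem_vs.2 ⟨t, ht, hu⟩)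
  · rw [hJ, inn_empty] at hq
    exact absurd hq (Finset.notMem_empty _)

private theorem post_keep (h : GCtx T D s J A B a b S p J1 J2) {s2 s3 : Stt V}
    (hP : Post T D s2 J1 A S.reverse a c) (hs : ∀ v, v ∉ inn J2 (S ++ B) → s3 v = s2 v) :
    Post T D s3 J1 A S.reverse a c := by
  have e1 : ∀ v ∈ inn J1 (A ++ S.reverse), s3 v = s2 v := fun v hv =>
    hs v (h.k1_vs2 hv).2.2.2.2
  have eA : ∀ v ∈ A, s3 v = s2 v := fun v hv =>
    hs v fun hv2 => (h.k2_vs1 hv2).2.2.1 hv
  have eS : ∀ v ∈ S, s3 v = s2 v := fun v hv =>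
    hs v fun hv2 => (h.k2_vs1 hv2).2.1 hv
  refine ⟨?_, ?_, ?_, ?_, ?_, ?_⟩
  · intro v hv
    exact (hP.good v hv).update hv e1 fun u ⟨q, hq, hqu⟩ _ => hs u (nbr1 h hq hqu)
  · intro v hv hk
    rw [e1 v hv] at hk ⊢
    exact hP.name v hv hk
  · intro X
    refine le_trans (le_of_eq ?_) (hP.seg X)
    congr 1
    refine Finset.filter_congr fun v hv => ?_
    rw [e1 v hv]
  · intro v hv u huv
    rw [e1 v hv, hs u (nbr1 h hv huv)]
    exact hP.adj v hv u huv
  · intro r hr hk
    rw [eA r hr] at hk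
    exact (hP.repA r hr hk).congr e1 fun _ => Iff.rfl
  · intro r hr hk
    rw [eS r (List.mem_reverse.1 hr)] at hk
    exact (hP.repB r hr hk).congr e1 fun _ => Iff.rfl

end

theorem step_geod {T : Sph V} {D : ℕ} {s : Stt V} {J : Finset (Finset V)} {A B : List V}
    {a b : Fin 3} (hD : DegLe T.gr D) (IH : IHyp T D J.card) (inv : Inv T D s J A B a b)
    (hc : Chordless J (A ++ B)) (hn : (inn J (A ++ B)).Nonempty)
    (hcorner : ∀ z, (A.head? = some z ∨ A.getLast? = some z ∨ B.head? = some z ∨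
      B.getLast? = some z) → (s z).kd ≠ 0) : Solv T D s J A B a b := by
  obtain ⟨S, p, J1, J2, h⟩ := exists_gctx hD inv hc hn hcorner
  obtain ⟨U, w, hU⟩ := h.cuts
  obtain ⟨lb, hL⟩ := h.labs hU
  obtain ⟨c, hac, hbc⟩ : ∃ c : Fin 3, a ≠ c ∧ b ≠ c := by
    revert a b
    intro a b _ _
    clear * -
    revert a b
    decide
  have claim1 : ∃ s2 : Stt V, (∀ v, v ∉ inn J1 (A ++ S.reverse) →
      s2 v = mkS T s A B S U w lb c v) ∧ Post T D s2 J1 A S.reverse a c := by
    rcases h.disc1 with hd | ⟨hJ, hA1, hS1⟩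
    · exact IH _ J1 A S.reverse a c h.card1 (h.inv1 hU hL hac hd)
    · refine ⟨mkS T s A B S U w lb c, fun _ _ => rfl, ?_⟩
      rw [hJ]
      refine ⟨?_, ?_, ?_, ?_, ?_, ?_⟩
      · intro v hv
        rw [inn_empty] at hv
        exact absurd hv (Finset.notMem_empty _)
      · intro v hv
        rw [inn_empty] at hv
        exact absurd hv (Finset.notMem_empty _)
      · intro X
        rw [inn_empty]
        simp
      · intro v hv
        rw [inn_empty] at hv
        exact absurd hv (Finset.notMem_empty _)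
      · intro r hr hk
        rw [mk_off' r (notS_A' h hr)] at hk
        exact absurd hk (hcorner r (Or.inl (len_one hA1 hr)))
      · intro r hr hk
        rw [List.mem_reverse] at hr
        exact absurd (len_one hS1 hr) (hU.mem r (mk_zero' hr hk)).2.1
  obtain ⟨s2, hs2, hP1⟩ := claim1
  have claim2 : ∃ s3 : Stt V, (∀ v, v ∉ inn J2 (S ++ B) → s3 v = s2 v) ∧
      Post T D s3 J2 S B c b := by
    rcases h.disc2 with hd | ⟨hJ, hB1, hS1⟩
    · exact IH _ J2 S B c b h.card2 (h.inv2 hU hL hbc hd hs2)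
    · refine ⟨s2, fun _ _ => rfl, ?_⟩
      rw [hJ]
      refine ⟨?_, ?_, ?_, ?_, ?_, ?_⟩
      · intro v hv
        rw [inn_empty] at hv
        exact absurd hv (Finset.notMem_empty _)
      · intro v hv
        rw [inn_empty] at hv
        exact absurd hv (Finset.notMem_empty _)
      · intro X
        rw [inn_empty]
        simp
      · intro v hv
        rw [inn_empty] at hv
        exact absurd hv (Finset.notMem_empty _)
      · intro r hr hk
        rw [hs2 r fun hr' => (mem_inn.1 hr').2 (by simp [hr])] at hk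
        exact absurd (len_one hS1 hr) (hU.mem r (mk_zero' hr hk)).2.1
      · intro r hr hk
        rw [hs2 r fun hr' => h.vsB hr (mem_vs.2 (mem_inn.1 hr').1),
          mk_off' r (notS_B' h hr)] at hk
        exact absurd hk (hcorner r (Or.inr (Or.inr (Or.inl (len_one hB1 hr)))))
  obtain ⟨s3, hs3, hP2⟩ := claim2
  have hP1' := post_keep h hP1 hs3
  have hs : ∀ v, v ∉ inn J1 (A ++ S.reverse) → v ∉ inn J2 (S ++ B) →
      s3 v = mkS T s A B S U w lb c v := fun v h1 h2 => (hs3 v h2).trans (hs2 v h1)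
  have key : ∀ t : V, ∃ (cc : Fin 3) (X : V × V × V) (k : Fin 6), t ∈ U →
      ((k = 3 ∨ k = 4 ∨ k = 5) ∧
      (∀ v, T.gr.Adj t v → (s3 v).kd ≠ 0 ∧ ((s3 v).col = cc → (s3 v).lab = X)) ∧
      (k = 3 → X = (t, t, t)) ∧
      (k = 4 → ∃ m ∈ inn J (A ++ B), ∃ i, (s3 m).kd = 1 ∧ (s3 m).lab = X ∧ (s3 m).oc i = t) ∧
      (k = 5 → 3 * D ≤ ((inn J (A ++ B)).filter (fun q => (s3 q).win = t ∧
        ∃ u, T.gr.Adj q u ∧ ((s3 u).kd = 1 ∨ (s3 u).kd = 2) ∧ (s3 u).lab = X)).card)) := by
    intro t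
    by_cases ht : t ∈ U
    · obtain ⟨cc, X, k, h1⟩ := h.fin_cut hU hL hac hbc hs hP1' hP2 ht
      exact ⟨cc, X, k, fun _ => h1⟩
    · exact ⟨0, (t, t, t), 3, fun h1 => absurd h1 ht⟩
  choose cc X k hall using key
  exact h.fin_post hU hL hac hbc hs hP1' hP2 cc X k (fun t ht => (hall t ht).1)
    (fun t ht => (hall t ht).2.1) (fun t ht => (hall t ht).2.2.1)
    (fun t ht => (hall t ht).2.2.2.1) (fun t ht => (hall t ht).2.2.2.2)

end CC3
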