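import Pool.Agent.Work.MP_3035da_co.GZone

/-!
# GWin : every window of `Mw D` consecutive vertices of the geodesic contains a good place for a cut

Window `ω = {v ∈ S | q ≤ p v < q + Mw D}`, `0 ≤ q`, `q + Mw D ≤ S.length`: it has `Mw D` members
(`pos_surj`, `pos_inj`).
(1) At most one cut `r` of `A` has a zone meeting `ω`: two such `r ≠ r'`, `v, v'` in the zones:
`|f r - f r'| ≤ 2 (D + 4) + |p v - p v'| < 2 D + 8 + Mw D < Ls D` with `f` the potential of the side `A`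
(`zone_close`, `pos_lip`), contradiction to `cuts_far`. The same for `B`.
(2) So by `zone_card` the set `Al` of the members of `ω` outside all zones (of cuts of `A` for `Z = A`, of
cuts of `B` for `Z = B`) has at least `Mw D - 2 (2 D + 3) ≥ 6 D + 1` members.
(3) Every `v ∈ Al` satisfies the conditions `far`, `btw`, `labA`, `labB` (`zone_far`, `zone_lab`).
(4) If some `v ∈ Al` has no neighbour in `A` or none in `B`, take `t = v`. Otherwise every `v ∈ Al` has a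
neighbour `x v ∈ B`, not a cut; let `L v = (s (x v)).lab`. `L` takes at most two values on `Al`: suppose
`v1, v2, v3` have different `L`; the vertices `x v1, x v2, x v3 ∈ B` are different; order them along `B`:
`B = l₀ ++ y1 :: (l₁ ++ y2 :: (l₂ ++ y3 :: l₃))`; there are cuts `r ∈ l₁`, `r' ∈ l₂` (`Side.lab_eq`). With the
potential `f` of `B`: `f y1 + 1 ≤ f r`, `f r + Ls D ≤ f r'`, `f r' + 1 ≤ f y3`, but
`|f y1 - f y3| ≤ 2 + Mw D` (`pos_lip`). Contradiction. So some value `X` is taken on at least `3 D` members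
of `Al` (if `D = 0` take any value taken); choose `t` among the `v ∈ Al` with `L v = X`.
-/

set_option autoImplicit false
open Classical

namespace CC3

variable {V : Type} [Fintype V]

/-- a cut strictly between two vertices of a side with different labels -/
private theorem gw_between {T : Sph V} {D : ℕ} {s : Stt V} {K : Finset V} {B : List V} {c : Fin 3}
    (h : Side T D s K B c) {f : V → ℤ} (hf : Phi T D s K B f) {x y : V} (hx : x ∈ B) (hy : y ∈ B)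
    (kx : (s x).kd ≠ 0) (ky : (s y).kd ≠ 0) (hl : (s x).lab ≠ (s y).lab) :
    ∃ r ∈ B, (s r).kd = 0 ∧ ((f x + 1 ≤ f r ∧ f r + 1 ≤ f y) ∨ (f y + 1 ≤ f r ∧ f r + 1 ≤ f x)) := by
  have key : ∀ l₁ u m v l₂, B = l₁ ++ u :: (m ++ v :: l₂) → (s u).kd ≠ 0 → (s v).kd ≠ 0 →
      (s u).lab ≠ (s v).lab → ∃ r ∈ B, (s r).kd = 0 ∧ (f u + 1 ≤ f r ∧ f r + 1 ≤ f v) := by
    intro l₁ u m v l₂ hB ku kv hne
    by_cases hm : ∀ z ∈ m, (s z).kd ≠ 0
    · exact absurd (Side.lab_eq (hB ▸ h) hm ku kv) hne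
    · push Not at hm
      obtain ⟨r, hrm, hr0⟩ := hm
      obtain ⟨m1, m2, rfl⟩ := List.append_of_mem hrm
      have hB' : B = (l₁ ++ u :: m1) ++ r :: (m2 ++ v :: l₂) := by
        rw [hB]; simp
      obtain ⟨h1, h2, -, -, -⟩ := hf.2 _ _ _ hB' hr0
      refine ⟨r, ?_, hr0, h1 u (by simp), h2 v (by simp)⟩
      rw [hB']; simp
  have hne : y ≠ x := by
    rintro rfl; exact hl rfl
  obtain ⟨l1, l2, hB⟩ := List.append_of_mem hx
  have hy' : y ∈ l1 ∨ y ∈ l2 := by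
    have : y ∈ l1 ++ x :: l2 := hB ▸ hy
    simp only [List.mem_append, List.mem_cons] at this
    tauto
  rcases hy' with hy' | hy'
  · obtain ⟨m0, m, rfl⟩ := List.append_of_mem hy'
    obtain ⟨r, h1, h2, h3⟩ := key m0 y m x l2 (by rw [hB]; simp) ky kx (Ne.symm hl)
    exact ⟨r, h1, h2, Or.inr h3⟩
  · obtain ⟨m, l3, rfl⟩ := List.append_of_mem hy'
    obtain ⟨r, h1, h2, h3⟩ := key l1 x m y l3 hB kx ky hl
    exact ⟨r, h1, h2, Or.inl h3⟩

/-- members of the window: distance of positions -/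
private theorem gw_abs {D : ℕ} {q x y : ℤ} (hx : q ≤ x ∧ x < q + (Mw D : ℤ))
    (hy : q ≤ y ∧ y < q + (Mw D : ℤ)) : |x - y| + 1 ≤ (Mw D : ℤ) := by
  rcases abs_cases (x - y) with ⟨h, -⟩ | ⟨h, -⟩ <;> omega

/-- the forbidden vertices of a window for one side -/
private theorem gw_bad {T : Sph V} {D : ℕ} {s : Stt V} {J J1 J2 : Finset (Finset V)}
    {A B S : List V} {a b : Fin 3} {p : V → ℤ} (h : GCtx T D s J A B a b S p J1 J2) (q : ℤ)
    {Z : List V} {c : Fin 3} (hZ : Z = A ∨ Z = B) (hs : Side T D s (inn J (A ++ B)) Z c) :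
    (S.toFinset.filter (fun v => (q ≤ p v ∧ p v < q + (Mw D : ℤ)) ∧
      ∃ r ∈ Z, (s r).kd = 0 ∧ Zn T (inn J (A ++ B)) S p Z r v)).card ≤ 2 * D + 3 := by
  obtain ⟨f, hf⟩ := hs.phi
  by_cases he : (S.toFinset.filter (fun v => (q ≤ p v ∧ p v < q + (Mw D : ℤ)) ∧
      ∃ r ∈ Z, (s r).kd = 0 ∧ Zn T (inn J (A ++ B)) S p Z r v)).Nonempty
  · obtain ⟨v0, hv0⟩ := he
    simp only [Finset.mem_filter, List.mem_toFinset] at hv0
    obtain ⟨hv0S, hw0, r0, hr0, hk0, hz0⟩ := hv0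
    refine le_trans (Finset.card_le_card ?_) (h.zone_card hZ hr0)
    intro v hv
    simp only [Finset.mem_filter, List.mem_toFinset] at hv ⊢
    obtain ⟨hvS, hw, r, hr, hk, hz⟩ := hv
    refine ⟨hvS, ?_⟩
    have hrr : r = r0 := by
      by_contra hne
      have h1 := h.zone_close hZ hr hz hf
      have h2 := h.zone_close hZ hr0 hz0 hf
      have hl : ∀ u ∈ inn J (A ++ B), ∀ v ∈ inn J (A ++ B), T.gr.Adj u v → f u ≤ f v + 1 :=
        fun u hu v hv huv => hf.1 u v (Or.inr hu) (Or.inr hv) huv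
      have h3 := h.pos_lip hl hvS hv0S
      have h4 := h.pos_lip hl hv0S hvS
      have h5 := gw_abs hw hw0
      have h6 := gw_abs hw0 hw
      have h7 := cuts_far hs hr hr0 hk hk0 hf hne
      rw [abs_le] at h1 h2
      simp only [Ls, Mw] at *
      push_cast at *
      omega
    exact hrr ▸ hz
  · rw [Finset.not_nonempty_iff_eq_empty] at he
    rw [he]; simp

/-- the window has at least `Mw D` members -/
private theorem gw_card {T : Sph V} {D : ℕ} {s : Stt V} {J J1 J2 : Finset (Finset V)}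
    {A B S : List V} {a b : Fin 3} {p : V → ℤ} (h : GCtx T D s J A B a b S p J1 J2) (q : ℤ)
    (hq : 0 ≤ q) (hq' : q + (Mw D : ℤ) ≤ (S.length : ℤ)) :
    Mw D ≤ (S.toFinset.filter (fun v => q ≤ p v ∧ p v < q + (Mw D : ℤ))).card := by
  have h1 : ∀ i : Fin (Mw D), ∃ u ∈ S, p u = q + (i : ℤ) := fun i =>
    h.pos_surj (by have := i.2; omega) (by have := i.2; omega)
  choose g hg hg' using h1
  have h2 : Function.Injective g := by
    intro i j hij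
    have := hg' i
    rw [hij, hg' j] at this
    ext
    omega
  calc Mw D = (Finset.univ : Finset (Fin (Mw D))).card := by simp
    _ = (Finset.univ.image g).card := (Finset.card_image_of_injective _ h2).symm
    _ ≤ _ := by
      apply Finset.card_le_card
      intro v hv
      simp only [Finset.mem_image, Finset.mem_univ, true_and] at hv
      obtain ⟨i, rfl⟩ := hv
      simp only [Finset.mem_filter, List.mem_toFinset]
      have := i.2
      exact ⟨hg i, by rw [hg' i]; omega, by rw [hg' i]; omega⟩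

/-- the labels seen by the window take at most two values -/
private theorem gw_two {T : Sph V} {D : ℕ} {s : Stt V} {J J1 J2 : Finset (Finset V)}
    {A B S : List V} {a b : Fin 3} {p : V → ℤ} (h : GCtx T D s J A B a b S p J1 J2) (q : ℤ)
    {v1 v2 v3 x1 x2 x3 : V} (h1 : v1 ∈ S) (h2 : v2 ∈ S) (h3 : v3 ∈ S)
    (w1 : q ≤ p v1 ∧ p v1 < q + (Mw D : ℤ)) (w2 : q ≤ p v2 ∧ p v2 < q + (Mw D : ℤ))
    (w3 : q ≤ p v3 ∧ p v3 < q + (Mw D : ℤ))
    (b1 : x1 ∈ B) (b2 : x2 ∈ B) (b3 : x3 ∈ B)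
    (a1 : T.gr.Adj v1 x1) (a2 : T.gr.Adj v2 x2) (a3 : T.gr.Adj v3 x3)
    (k1 : (s x1).kd ≠ 0) (k2 : (s x2).kd ≠ 0) (k3 : (s x3).kd ≠ 0)
    (l12 : (s x1).lab ≠ (s x2).lab) (l13 : (s x1).lab ≠ (s x3).lab)
    (l23 : (s x2).lab ≠ (s x3).lab) : False := by
  have hs := h.inv.sideB
  obtain ⟨f, hf⟩ := hs.phi
  have hl : ∀ u ∈ inn J (A ++ B), ∀ v ∈ inn J (A ++ B), T.gr.Adj u v → f u ≤ f v + 1 :=
    fun u hu v hv huv => hf.1 u v (Or.inr hu) (Or.inr hv) huv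
  have key : ∀ v v' x x', v ∈ S → v' ∈ S → (q ≤ p v ∧ p v < q + (Mw D : ℤ)) →
      (q ≤ p v' ∧ p v' < q + (Mw D : ℤ)) → x ∈ B → x' ∈ B → T.gr.Adj v x → T.gr.Adj v' x' →
      f x ≤ f x' + 1 + (Mw D : ℤ) := by
    intro v v' x x' hv hv' hw hw' hx hx' ha ha'
    have e1 := hf.1 x v (Or.inl hx) (Or.inr (h.inK v hv)) ha.symm
    have e2 := h.pos_lip hl hv hv'
    have e3 := hf.1 v' x' (Or.inr (h.inK v' hv')) (Or.inl hx') ha'
    have e4 := gw_abs hw hw'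
    omega
  have e12 := key _ _ _ _ h1 h2 w1 w2 b1 b2 a1 a2
  have e13 := key _ _ _ _ h1 h3 w1 w3 b1 b3 a1 a3
  have e21 := key _ _ _ _ h2 h1 w2 w1 b2 b1 a2 a1
  have e23 := key _ _ _ _ h2 h3 w2 w3 b2 b3 a2 a3
  have e31 := key _ _ _ _ h3 h1 w3 w1 b3 b1 a3 a1
  have e32 := key _ _ _ _ h3 h2 w3 w2 b3 b2 a3 a2
  obtain ⟨r, hr, hr0, c12⟩ := gw_between hs hf b1 b2 k1 k2 l12
  obtain ⟨r', hr', hr0', c13⟩ := gw_between hs hf b1 b3 k1 k3 l13
  obtain ⟨r'', hr'', hr0'', c23⟩ := gw_between hs hf b2 b3 k2 k3 l23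
  have hLM : (Mw D : ℤ) + 2 ≤ (Ls D : ℤ) := by
    simp only [Ls, Mw]; push_cast; omega
  have d1 : f r = f r' := by
    by_cases hne : r = r'
    · rw [hne]
    · have := cuts_far hs hr hr' hr0 hr0' hf hne
      omega
  have d2 : f r = f r'' := by
    by_cases hne : r = r''
    · rw [hne]
    · have := cuts_far hs hr hr'' hr0 hr0'' hf hne
      omega
  omega

theorem GCtx.window {T : Sph V} {D : ℕ} {s : Stt V} {J J1 J2 : Finset (Finset V)}
    {A B S : List V} {a b : Fin 3} {p : V → ℤ} (h : GCtx T D s J A B a b S p J1 J2) (q : ℤ)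
    (hq : 0 ≤ q) (hq' : q + (Mw D : ℤ) ≤ (S.length : ℤ)) :
    ∃ t ∈ S, q ≤ p t ∧ p t < q + (Mw D : ℤ) ∧
      (∀ r, (r ∈ A ∨ r ∈ B) → (s r).kd = 0 →
        ¬ T.gr.Adj r t ∧ ∀ y ∈ inn J (A ++ B), ¬ (T.gr.Adj r y ∧ T.gr.Adj t y)) ∧
      (∀ r, (r ∈ A ∨ r ∈ B) → (s r).kd = 0 → ∀ u ∈ S, ∀ v ∈ S,
        T.gr.Adj r u → T.gr.Adj r v → ¬ (p u ≤ p t ∧ p t ≤ p v)) ∧
      (∀ u ∈ A, ∀ v ∈ A, T.gr.Adj t u → T.gr.Adj t v → (s u).lab = (s v).lab) ∧
      (∀ u ∈ B, ∀ v ∈ B, T.gr.Adj t u → T.gr.Adj t v → (s u).lab = (s v).lab) ∧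
      ((¬ ∃ u ∈ A, T.gr.Adj t u) ∨ (¬ ∃ u ∈ B, T.gr.Adj t u) ∨
        ∃ X, (∃ u ∈ B, T.gr.Adj t u ∧ (s u).lab = X) ∧
          3 * D ≤ (S.toFinset.filter (fun v => (q ≤ p v ∧ p v < q + (Mw D : ℤ)) ∧
            ∃ u ∈ B, T.gr.Adj v u ∧ (s u).kd ≠ 0 ∧ (s u).lab = X)).card) := by
  set W := S.toFinset.filter (fun v => q ≤ p v ∧ p v < q + (Mw D : ℤ)) with hW
  have hWc := gw_card h q hq hq'
  rw [← hW] at hWc
  set Al := W.filter (fun v => (∀ r ∈ A, (s r).kd = 0 → ¬ Zn T (inn J (A ++ B)) S p A r v) ∧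
    (∀ r ∈ B, (s r).kd = 0 → ¬ Zn T (inn J (A ++ B)) S p B r v)) with hAl
  have hbA := gw_bad h q (Or.inl rfl) h.inv.sideA
  have hbB := gw_bad h q (Or.inr rfl) h.inv.sideB
  have hsub : W ⊆ Al ∪ (S.toFinset.filter (fun v => (q ≤ p v ∧ p v < q + (Mw D : ℤ)) ∧
      ∃ r ∈ A, (s r).kd = 0 ∧ Zn T (inn J (A ++ B)) S p A r v) ∪
      S.toFinset.filter (fun v => (q ≤ p v ∧ p v < q + (Mw D : ℤ)) ∧
      ∃ r ∈ B, (s r).kd = 0 ∧ Zn T (inn J (A ++ B)) S p B r v)) := by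
    intro v hv
    rw [hW, Finset.mem_filter] at hv
    by_cases e1 : ∀ r ∈ A, (s r).kd = 0 → ¬ Zn T (inn J (A ++ B)) S p A r v
    · by_cases e2 : ∀ r ∈ B, (s r).kd = 0 → ¬ Zn T (inn J (A ++ B)) S p B r v
      · refine Finset.mem_union_left _ ?_
        rw [hAl, Finset.mem_filter, hW, Finset.mem_filter]
        exact ⟨hv, e1, e2⟩
      · push Not at e2
        refine Finset.mem_union_right _ (Finset.mem_union_right _ ?_)
        rw [Finset.mem_filter]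
        exact ⟨hv.1, hv.2, e2⟩
    · push Not at e1
      refine Finset.mem_union_right _ (Finset.mem_union_left _ ?_)
      rw [Finset.mem_filter]
      exact ⟨hv.1, hv.2, e1⟩
  have hAlc : 6 * D + 1 ≤ Al.card := by
    have e1 := Finset.card_le_card hsub
    have e2 := Finset.card_union_le Al (S.toFinset.filter (fun v => (q ≤ p v ∧ p v < q + (Mw D : ℤ)) ∧
      ∃ r ∈ A, (s r).kd = 0 ∧ Zn T (inn J (A ++ B)) S p A r v) ∪
      S.toFinset.filter (fun v => (q ≤ p v ∧ p v < q + (Mw D : ℤ)) ∧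
      ∃ r ∈ B, (s r).kd = 0 ∧ Zn T (inn J (A ++ B)) S p B r v))
    have e3 := Finset.card_union_le (S.toFinset.filter (fun v => (q ≤ p v ∧ p v < q + (Mw D : ℤ)) ∧
      ∃ r ∈ A, (s r).kd = 0 ∧ Zn T (inn J (A ++ B)) S p A r v))
      (S.toFinset.filter (fun v => (q ≤ p v ∧ p v < q + (Mw D : ℤ)) ∧
      ∃ r ∈ B, (s r).kd = 0 ∧ Zn T (inn J (A ++ B)) S p B r v))
    have e4 : Mw D = 10 * D + 20 := rfl
    omega
  have hmem : ∀ v ∈ Al, v ∈ S ∧ (q ≤ p v ∧ p v < q + (Mw D : ℤ)) ∧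
      (∀ r ∈ A, (s r).kd = 0 → ¬ Zn T (inn J (A ++ B)) S p A r v) ∧
      (∀ r ∈ B, (s r).kd = 0 → ¬ Zn T (inn J (A ++ B)) S p B r v) := by
    intro v hv
    rw [hAl, Finset.mem_filter, hW, Finset.mem_filter, List.mem_toFinset] at hv
    exact ⟨hv.1.1, hv.1.2, hv.2⟩
  -- all conditions except the charging one hold on `Al`
  have main : ∀ t ∈ Al, ((¬ ∃ u ∈ A, T.gr.Adj t u) ∨ (¬ ∃ u ∈ B, T.gr.Adj t u) ∨
        ∃ X, (∃ u ∈ B, T.gr.Adj t u ∧ (s u).lab = X) ∧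
          3 * D ≤ (S.toFinset.filter (fun v => (q ≤ p v ∧ p v < q + (Mw D : ℤ)) ∧
            ∃ u ∈ B, T.gr.Adj v u ∧ (s u).kd ≠ 0 ∧ (s u).lab = X)).card) →
      ∃ t ∈ S, q ≤ p t ∧ p t < q + (Mw D : ℤ) ∧
      (∀ r, (r ∈ A ∨ r ∈ B) → (s r).kd = 0 →
        ¬ T.gr.Adj r t ∧ ∀ y ∈ inn J (A ++ B), ¬ (T.gr.Adj r y ∧ T.gr.Adj t y)) ∧
      (∀ r, (r ∈ A ∨ r ∈ B) → (s r).kd = 0 → ∀ u ∈ S, ∀ v ∈ S,
        T.gr.Adj r u → T.gr.Adj r v → ¬ (p u ≤ p t ∧ p t ≤ p v)) ∧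
      (∀ u ∈ A, ∀ v ∈ A, T.gr.Adj t u → T.gr.Adj t v → (s u).lab = (s v).lab) ∧
      (∀ u ∈ B, ∀ v ∈ B, T.gr.Adj t u → T.gr.Adj t v → (s u).lab = (s v).lab) ∧
      ((¬ ∃ u ∈ A, T.gr.Adj t u) ∨ (¬ ∃ u ∈ B, T.gr.Adj t u) ∨
        ∃ X, (∃ u ∈ B, T.gr.Adj t u ∧ (s u).lab = X) ∧
          3 * D ≤ (S.toFinset.filter (fun v => (q ≤ p v ∧ p v < q + (Mw D : ℤ)) ∧
            ∃ u ∈ B, T.gr.Adj v u ∧ (s u).kd ≠ 0 ∧ (s u).lab = X)).card) := by
    intro t ht hc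
    obtain ⟨htS, htw, htA, htB⟩ := hmem t ht
    refine ⟨t, htS, htw.1, htw.2, ?_, ?_, ?_, ?_, hc⟩
    · intro r hr hr0
      rcases hr with hr | hr
      · exact (h.zone_far (Or.inl rfl) hr htS (htA r hr hr0)).1
      · exact (h.zone_far (Or.inr rfl) hr htS (htB r hr hr0)).1
    · intro r hr hr0
      rcases hr with hr | hr
      · exact (h.zone_far (Or.inl rfl) hr htS (htA r hr hr0)).2
      · exact (h.zone_far (Or.inr rfl) hr htS (htB r hr hr0)).2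
    · intro u hu v hv h1 h2
      exact (h.zone_lab (Or.inl rfl) htS htA hu hv h1 h2).2.2
    · intro u hu v hv h1 h2
      exact (h.zone_lab (Or.inr rfl) htS htB hu hv h1 h2).2.2
  by_cases hcase : ∃ t ∈ Al, (¬ ∃ u ∈ A, T.gr.Adj t u) ∨ (¬ ∃ u ∈ B, T.gr.Adj t u)
  · obtain ⟨t, ht, hc⟩ := hcase
    exact main t ht (hc.elim Or.inl fun h' => Or.inr (Or.inl h'))
  · push Not at hcase
    have hx : ∀ v ∈ Al, ∃ u ∈ B, T.gr.Adj v u ∧ (s u).kd ≠ 0 := by
      intro v hv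
      obtain ⟨u, hu, huv⟩ := (hcase v hv).2
      obtain ⟨hvS, -, -, hvB⟩ := hmem v hv
      exact ⟨u, hu, huv, (h.zone_lab (Or.inr rfl) hvS hvB hu hu huv huv).1⟩
    choose! x hxB hxa hxk using hx
    have hAne : Al.Nonempty := by
      rw [← Finset.card_pos]; omega
    obtain ⟨v1, hv1⟩ := hAne
    have hincl : ∀ X, Al.filter (fun v => (s (x v)).lab = X) ⊆
        S.toFinset.filter (fun v => (q ≤ p v ∧ p v < q + (Mw D : ℤ)) ∧
            ∃ u ∈ B, T.gr.Adj v u ∧ (s u).kd ≠ 0 ∧ (s u).lab = X) := by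
      intro X v hv
      rw [Finset.mem_filter] at hv
      obtain ⟨hvS, hvw, -, -⟩ := hmem v hv.1
      rw [Finset.mem_filter, List.mem_toFinset]
      exact ⟨hvS, hvw, x v, hxB v hv.1, hxa v hv.1, hxk v hv.1, hv.2⟩
    by_cases hbig : 3 * D ≤ (Al.filter (fun v => (s (x v)).lab = (s (x v1)).lab)).card
    · exact main v1 hv1 (Or.inr (Or.inr ⟨(s (x v1)).lab, ⟨x v1, hxB v1 hv1, hxa v1 hv1, rfl⟩,
        le_trans hbig (Finset.card_le_card (hincl _))⟩))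
    · have hsum := Finset.card_filter_add_card_filter_not (s := Al)
        (fun v => (s (x v)).lab = (s (x v1)).lab)
      have hne2 : (Al.filter (fun v => ¬ (s (x v)).lab = (s (x v1)).lab)).Nonempty := by
        rw [← Finset.card_pos]; omega
      obtain ⟨v2, hv2⟩ := hne2
      rw [Finset.mem_filter] at hv2
      have hsub2 : Al.filter (fun v => ¬ (s (x v)).lab = (s (x v1)).lab) ⊆
          Al.filter (fun v => (s (x v)).lab = (s (x v2)).lab) := by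
        intro v hv
        rw [Finset.mem_filter] at hv ⊢
        refine ⟨hv.1, ?_⟩
        by_contra hne
        obtain ⟨s1, w1, -, -⟩ := hmem v1 hv1
        obtain ⟨s2, w2, -, -⟩ := hmem v2 hv2.1
        obtain ⟨s3, w3, -, -⟩ := hmem v hv.1
        exact gw_two h q s1 s2 s3 w1 w2 w3 (hxB _ hv1) (hxB _ hv2.1) (hxB _ hv.1)
          (hxa _ hv1) (hxa _ hv2.1) (hxa _ hv.1) (hxk _ hv1) (hxk _ hv2.1) (hxk _ hv.1)
          (fun e => hv2.2 e.symm) (fun e => hv.2 e.symm) (fun e => hne e.symm)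
      have hc2 := Finset.card_le_card hsub2
      exact main v2 hv2.1 (Or.inr (Or.inr ⟨(s (x v2)).lab, ⟨x v2, hxB v2 hv2.1, hxa v2 hv2.1, rfl⟩,
        le_trans (by omega) (Finset.card_le_card (hincl _))⟩))

end CC3
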