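import Pool.Agent.Work.MP_3035da_co.GZoneA
import Pool.Agent.Work.MP_3035da_co.GFar

/-!
# GZone : the forbidden zone of an old cut on the new geodesic

`K = inn J (A ++ B)`, `Z = A` or `Z = B`, `r ∈ Z` a cut.
* `nbr_spread`: for two neighbours `y, y'` of `r` in `K`: `p y ≤ p y' + D`. Rotate `A ++ B` to `r :: Q`
  (`rot_one`), `Disc.fan`: the neighbours of `r` in `K` are the members of the list `ys`, no repetition,
  consecutive members adjacent in `T.gr` (`Disc T _ (ys ++ Q)`: the edges of `cyc (ys ++ Q)` are edges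
  of `T`, `cyc_of_infix`, `Disc.ja_of_cyc`), all in `K`, so `p` changes by at most one along `ys`;
  `ys.length ≤ D` because all are neighbours of `r` (`deg`).
* `hr_spread`: `u, u' ∈ Hr r`: `p u ≤ p u' + D + 2`.
* `zone_card`: the first part of the zone lies in an interval of `D + 3` positions
  (`GCtx.card_interval`), the second part in the neighbours of one vertex `x` (the predecessor of `r` in
  `Z`, unique as `Z` has no repetition), at most `D`.
* `zone_close`: `f` Lipschitz on `Z ∪ K`: a vertex of `Hr r` is within 2 of `f r`; `v` with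
  `p u ≤ p v ≤ p u'`, `u, u' ∈ Hr r`: `|f v - f u| ≤ p v - p u ≤ D + 2` (`GCtx.pos_lip`); second part:
  within 2.
* `zone_far`: if `v ∈ S` is not in the zone of `r`: `r` is not adjacent to `v` (then `v ∈ Hr r`), no common
  neighbour `y ∈ K`, and `v` is not between two neighbours of `r` on `S`.
* `zone_lab`: `v ∈ S` outside all zones of the cuts of `Z`; `x, y ∈ Z` adjacent to `v`. They are not cuts.
  If their labels differ there is a cut between them in the list `Z` (`Side.lab_eq`):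
  `Z = l₁ ++ x :: (m₁ ++ r :: m₂) ++ y :: l₂` (or `x, y` exchanged). `f x + 1 ≤ f r`, `f r + 1 ≤ f y` and
  `|f x - f y| ≤ 2`, so equalities, so `x`, `y` are the immediate neighbours of `r` (`Phi`), `m₁ = m₂ = []`, and
  `v` is in the second part of the zone of `r`.
-/

set_option autoImplicit false
open Classical

namespace CC3

variable {V : Type} [Fintype V]

section

variable {T : Sph V} {D : ℕ} {s : Stt V} {J J1 J2 : Finset (Finset V)} {A B S : List V}
  {a b : Fin 3} {p : V → ℤ}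

private theorem cons_adj (h : GCtx T D s J A B a b S p J1 J2) {Z : List V}
    (hZ : Z = A ∨ Z = B) {l₁ l₂ : List V} {x y : V} (he : Z = l₁ ++ x :: y :: l₂) :
    T.gr.Adj x y := by
  have hnd := h.inv.disc.nd
  have hZn : Z.Nodup := by
    have := List.nodup_append.1 hnd
    rcases hZ with rfl | rfl
    · exact this.1
    · exact this.2.1
  have e1 : pc Z x y = 1 := (pc_one_iff hZn _ _).2 ⟨_, _, Or.inl he⟩
  have e2 : cyc (A ++ B) x y = 1 := by
    rcases hZ with hZ | hZ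
    · have := cyc_of_infix (l₁ := []) (m := A) (l₂ := B) (by simpa using hnd)
        (by simpa using h.inv.disc.len) (hZ ▸ e1)
      simpa using this
    · have := cyc_of_infix (l₁ := A) (m := B) (l₂ := []) (by simpa using hnd)
        (by simpa using h.inv.disc.len) (hZ ▸ e1)
      simpa using this
  exact (h.inv.disc.ja_of_cyc e2).adj h.inv.disc.sub

omit [Fintype V] in
private theorem mem_AB {Z : List V} (hZ : Z = A ∨ Z = B) {r : V} (hr : r ∈ Z) : r ∈ A ++ B := by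
  rcases hZ with rfl | rfl
  · exact List.mem_append_left _ hr
  · exact List.mem_append_right _ hr

theorem GCtx.zone_close (h : GCtx T D s J A B a b S p J1 J2) {Z : List V} (hZ : Z = A ∨ Z = B)
    {r v : V} (hr : r ∈ Z) (hv : Zn T (inn J (A ++ B)) S p Z r v) {f : V → ℤ}
    (hf : Phi T D s (inn J (A ++ B)) Z f) : |f v - f r| ≤ (D : ℤ) + 4 := by
  have hrAB := mem_AB hZ hr
  have lip := hf.1
  have hvK : v ∈ inn J (A ++ B) := h.inK v hv.1
  have key : ∀ u, Hr T (inn J (A ++ B)) S r u → f u ≤ f r + 2 ∧ f r ≤ f u + 2 := by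
    rintro u ⟨hu, h1 | ⟨y, hy, h1, h2⟩⟩
    · have g1 := lip u r (Or.inr (h.inK u hu)) (Or.inl hr) h1.symm
      have g2 := lip r u (Or.inl hr) (Or.inr (h.inK u hu)) h1
      omega
    · have g1 := lip y r (Or.inr hy) (Or.inl hr) h1.symm
      have g2 := lip r y (Or.inl hr) (Or.inr hy) h1
      have g3 := lip y u (Or.inr hy) (Or.inr (h.inK u hu)) h2
      have g4 := lip u y (Or.inr (h.inK u hu)) (Or.inr hy) h2.symm
      omega
  have lipK : ∀ u ∈ inn J (A ++ B), ∀ v ∈ inn J (A ++ B), T.gr.Adj u v → f u ≤ f v + 1 :=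
    fun u hu v hv huv => lip u v (Or.inr hu) (Or.inr hv) huv
  rcases hv.2 with ⟨u, u', hu, hu', q1, q2⟩ | ⟨l₁, x, y, l₂, he, g1, g2⟩
  · have s1 := h.hr_spread hrAB hu' hu
    have s2 := h.pos_lip lipK hv.1 hu.1
    have s3 := h.pos_lip lipK hu.1 hv.1
    have s4 := key u hu
    rw [abs_of_nonneg (by omega : (0 : ℤ) ≤ p v - p u)] at s2
    rw [abs_of_nonpos (by omega : p u - p v ≤ (0 : ℤ))] at s3
    rw [abs_le]
    constructor <;> omega
  · have hx : x ∈ Z := by rw [he]; simp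
    have e1 := cons_adj h hZ he
    have k1 := lip x r (Or.inl hx) (Or.inl hr) e1
    have k2 := lip r x (Or.inl hr) (Or.inl hx) e1.symm
    have k3 := lip v x (Or.inr hvK) (Or.inl hx) g1
    have k4 := lip x v (Or.inl hx) (Or.inr hvK) g1.symm
    rw [abs_le]
    constructor <;> omega

theorem GCtx.zone_far (h : GCtx T D s J A B a b S p J1 J2) {Z : List V} (hZ : Z = A ∨ Z = B)
    {r v : V} (hr : r ∈ Z) (hvS : v ∈ S) (hv : ¬ Zn T (inn J (A ++ B)) S p Z r v) :
    (¬ T.gr.Adj r v ∧ ∀ y ∈ inn J (A ++ B), ¬ (T.gr.Adj r y ∧ T.gr.Adj v y)) ∧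
    ∀ u ∈ S, ∀ u' ∈ S, T.gr.Adj r u → T.gr.Adj r u' → ¬ (p u ≤ p v ∧ p v ≤ p u') := by
  have key : ¬ Hr T (inn J (A ++ B)) S r v := fun hH =>
    hv ⟨hvS, Or.inl ⟨v, v, hH, hH, le_refl _, le_refl _⟩⟩
  refine ⟨⟨fun g => key ⟨hvS, Or.inl g⟩, fun y hy g => key ⟨hvS, Or.inr ⟨y, hy, g.1, g.2.symm⟩⟩⟩,
    fun u hu u' hu' g g' hp => hv ⟨hvS, Or.inl ⟨u, u', ⟨hu, Or.inl g⟩, ⟨hu', Or.inl g'⟩, hp⟩⟩⟩

private theorem lab_ord (h : GCtx T D s J A B a b S p J1 J2) {Z : List V} (hZ : Z = A ∨ Z = B)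
    {v : V} (hvS : v ∈ S) (hv : ∀ r ∈ Z, (s r).kd = 0 → ¬ Zn T (inn J (A ++ B)) S p Z r v)
    {x y : V} {l₁ m l₂ : List V} (he : Z = l₁ ++ x :: (m ++ y :: l₂))
    (h1 : T.gr.Adj v x) (h2 : T.gr.Adj v y)
    (k1 : (s x).kd ≠ 0) (k2 : (s y).kd ≠ 0) : (s x).lab = (s y).lab := by
  have hvK : v ∈ inn J (A ++ B) := h.inK v hvS
  have hZn : Z.Nodup := by
    have := List.nodup_append.1 h.inv.disc.nd
    rcases hZ with rfl | rfl
    · exact this.1
    · exact this.2.1
  obtain ⟨c, side⟩ : ∃ c, Side T D s (inn J (A ++ B)) Z c := by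
    rcases hZ with rfl | rfl
    · exact ⟨a, h.inv.sideA⟩
    · exact ⟨b, h.inv.sideB⟩
  by_cases hm : ∀ z ∈ m, (s z).kd ≠ 0
  · rw [he] at side
    exact side.lab_eq hm k1 k2
  exfalso
  push Not at hm
  obtain ⟨r, hrm, hr0⟩ := hm
  obtain ⟨m₁, m₂, rfl⟩ := List.append_of_mem hrm
  obtain ⟨f, hf⟩ := side.phi
  have hr : r ∈ Z := by rw [he]; simp
  have hx : x ∈ Z := by rw [he]; simp
  have hy : y ∈ Z := by rw [he]; simp
  have e2 : Z = (l₁ ++ x :: m₁) ++ r :: (m₂ ++ y :: l₂) := by rw [he]; simp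
  obtain ⟨g1, g2, g3, g4, -⟩ := hf.2 _ _ _ e2 hr0
  have q1 := g1 x (by simp)
  have q2 := g2 y (by simp)
  have q3 := hf.1 y v (Or.inl hy) (Or.inr hvK) h2.symm
  have q4 := hf.1 v x (Or.inr hvK) (Or.inl hx) h1
  have q5 := g3 x (by simp) (by omega)
  have q6 := g4 y (by simp) (by omega)
  have n1 : m₁ = [] := by
    by_contra hne
    obtain ⟨m', z, rfl⟩ : ∃ l z, m₁ = l ++ [z] :=
      ⟨m₁.dropLast, m₁.getLast hne, (List.dropLast_append_getLast hne).symm⟩
    have : l₁ ++ x :: (m' ++ [z]) = (l₁ ++ x :: m') ++ [z] := by simp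
    rw [this, List.getLast?_append] at q5
    simp only [List.getLast?_singleton, Option.some_or, Option.some.injEq] at q5
    rw [e2, q5] at hZn
    have h3 := (List.nodup_append.1 (List.nodup_append.1 hZn).1).2.1
    rw [List.nodup_cons] at h3
    exact h3.1 (by simp)
  have n2 : m₂ = [] := by
    by_contra hne
    obtain ⟨z, m', rfl⟩ := List.exists_cons_of_ne_nil hne
    simp only [List.cons_append, List.head?_cons, Option.some.injEq] at q6
    rw [e2, q6] at hZn
    have h3 := (List.nodup_append.1 hZn).2.1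
    rw [List.nodup_cons] at h3
    have h4 := h3.2
    simp only [List.cons_append, List.nodup_cons] at h4
    exact h4.1 (by simp)
  subst n1 n2
  refine hv r hr hr0 ⟨hvS, Or.inr ⟨l₁, x, y, l₂, ?_, h1, h2⟩⟩
  rw [he]
  simp

theorem GCtx.zone_lab (h : GCtx T D s J A B a b S p J1 J2) {Z : List V} (hZ : Z = A ∨ Z = B)
    {v : V} (hvS : v ∈ S) (hv : ∀ r ∈ Z, (s r).kd = 0 → ¬ Zn T (inn J (A ++ B)) S p Z r v)
    {x y : V} (hx : x ∈ Z) (hy : y ∈ Z) (h1 : T.gr.Adj v x) (h2 : T.gr.Adj v y) :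
    (s x).kd ≠ 0 ∧ (s y).kd ≠ 0 ∧ (s x).lab = (s y).lab := by
  have k1 : (s x).kd ≠ 0 := fun h0 =>
    (h.zone_far hZ hx hvS (hv x hx h0)).1.1 h1.symm
  have k2 : (s y).kd ≠ 0 := fun h0 =>
    (h.zone_far hZ hy hvS (hv y hy h0)).1.1 h2.symm
  refine ⟨k1, k2, ?_⟩
  by_cases hxy : x = y
  · rw [hxy]
  obtain ⟨l₁, l₂, he⟩ := List.append_of_mem hx
  rw [he, List.mem_append, List.mem_cons] at hy
  rcases hy with hy | hy | hy
  · obtain ⟨l₃, l₄, he2⟩ := List.append_of_mem hy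
    refine (lab_ord h hZ hvS hv (l₁ := l₃) (m := l₄) (l₂ := l₂) ?_ h2 h1 k2 k1).symm
    rw [he, he2]
    simp
  · exact absurd hy.symm hxy
  · obtain ⟨l₃, l₄, he2⟩ := List.append_of_mem hy
    refine lab_ord h hZ hvS hv (l₁ := l₁) (m := l₃) (l₂ := l₄) ?_ h1 h2 k1 k2
    rw [he, he2]

end

end CC3
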