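import Pool.Agent.Work.MP_3035da_co.GPos
import Pool.Agent.Work.MP_3035da_co.DFan

/-!
# GZoneA (first half: nbr_spread, hr_spread, zone_card) : the forbidden zone of an old cut on the new geodesic

`K = inn J (A ++ B)`, `Z = A` or `Z = B`, `r ∈ Z` a cut.
* `nbr_spread`: for two neighbours `y, y'` of `r` in `K`: `p y ≤ p y' + D`. Rotate `A ++ B` to `r :: Q`
  (`rot_one`), `Disc.fan`: the neighbours of `r` in `K` are the members of the list `ys`, no repetition,
  consecutive members adjacent in `T.gr` (`Disc T _ (ys ++ Q)`: the edges of `cyc (ys ++ Q)` are edges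
  of `T`, `cyc_of_infix`, `Disc.ja_of_cyc`), all in `K`, so `p` changes by at most one along `ys`;
  `ys.length ≤ D` because all are neighbours of `r` (`deg`).
* `hr_spread`: `u, u' ∈ Hr r`: `p u ≤ p u' + D + 2`.
* `zone_card`: the first part of the zone lies in an interval of `D + 3` positions
  (`GCtx.card_interval`), the second part in the neighbours of one vertex `x` (the predecessor of `r` in
  `Z`, unique as `Z` has no repetition), at most `D`.
* `zone_close`: `f` Lipschitz on `Z ∪ K`: a vertex of `Hr r` is within 2 of `f r`; `v` with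
  `p u ≤ p v ≤ p u'`, `u, u' ∈ Hr r`: `|f v - f u| ≤ p v - p u ≤ D + 2` (`GCtx.pos_lip`); second part:
  within 2.
* `zone_far`: if `v ∈ S` is not in the zone of `r`: `r` is not adjacent to `v` (then `v ∈ Hr r`), no common
  neighbour `y ∈ K`, and `v` is not between two neighbours of `r` on `S`.
* `zone_lab`: `v ∈ S` outside all zones of the cuts of `Z`; `x, y ∈ Z` adjacent to `v`. They are not cuts.
  If their labels differ there is a cut between them in the list `Z` (`Side.lab_eq`):
  `Z = l₁ ++ x :: (m₁ ++ r :: m₂) ++ y :: l₂` (or `x, y` exchanged). `f x + 1 ≤ f r`, `f r + 1 ≤ f y` and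
  `|f x - f y| ≤ 2`, so equalities, so `x`, `y` are the immediate neighbours of `r` (`Phi`), `m₁ = m₂ = []`, and
  `v` is in the second part of the zone of `r`.
-/

set_option autoImplicit false
open Classical

namespace CC3

variable {V : Type} [Fintype V]

section

variable {T : Sph V} {D : ℕ} {s : Stt V} {J J1 J2 : Finset (Finset V)} {A B S : List V}
  {a b : Fin 3} {p : V → ℤ}

omit [Fintype V] in
private theorem chain_spread (p : V → ℤ) : ∀ l : List V,
    l.IsChain (fun u v => p u ≤ p v + 1 ∧ p v ≤ p u + 1) →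
    ∀ x ∈ l, ∀ y ∈ l, p x + 1 ≤ p y + (l.length : ℤ)
  | [], _ => fun x hx => absurd hx List.not_mem_nil
  | [a], _ => fun x hx y hy => by
    rw [List.mem_singleton] at hx hy
    subst hx hy
    simp
  | a :: b :: l, h => by
    rw [List.isChain_cons_cons] at h
    have IH := chain_spread p (b :: l) h.2
    intro x hx y hy
    have hb : b ∈ b :: l := List.mem_cons_self
    rw [List.mem_cons] at hx hy
    simp only [List.length_cons] at IH ⊢
    push_cast at IH ⊢
    rcases hx with rfl | hx
    · rcases hy with rfl | hy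
      · omega
      · have := IH b hb y hy
        have := h.1
        omega
    · rcases hy with rfl | hy
      · have := IH x hx b hb
        have := h.1
        omega
      · have := IH x hx y hy
        omega

theorem GCtx.nbr_spread (h : GCtx T D s J A B a b S p J1 J2) {r y y' : V}
    (hr : r ∈ A ++ B) (hy : y ∈ inn J (A ++ B)) (hy' : y' ∈ inn J (A ++ B))
    (h1 : T.gr.Adj r y) (h2 : T.gr.Adj r y') : p y ≤ p y' + (D : ℤ) := by
  obtain ⟨Q, hQ⟩ := rot_one hr
  have hmem : ∀ v, v ∈ r :: Q ↔ v ∈ A ++ B := fun v => hQ.symm.mem_iff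
  have hdisc := h.inv.disc.rotate hQ
  have hinn : inn J (r :: Q) = inn J (A ++ B) := inn_congr hmem
  have hch : Chordless J (r :: Q) := by
    intro u hu v hv huv
    rw [← cyc_isRotated hQ]
    exact h.chl u ((hmem u).1 hu) v ((hmem v).1 hv) huv
  obtain ⟨ys, -, hys, hd, -, -⟩ := hdisc.fan hch (by rw [hinn]; exact ⟨y, hy⟩)
  have hnd : ys.Nodup := (List.nodup_append.1 hd.nd).1
  have hyK : ∀ z ∈ ys, z ∈ inn J (A ++ B) := fun z hz => by
    rw [← hinn]
    exact ((hys z).1 hz).1
  have hlen : ys.length ≤ D := by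
    rw [← List.toFinset_card_of_nodup hnd]
    refine le_trans (Finset.card_le_card fun z hz => ?_) (h.deg r)
    rw [List.mem_toFinset] at hz
    rw [Finset.mem_filter]
    exact ⟨Finset.mem_univ _, ((hys z).1 hz).2⟩
  have hchain : ys.IsChain (fun u v => p u ≤ p v + 1 ∧ p v ≤ p u + 1) := by
    rw [List.isChain_iff_getElem]
    intro i hi
    have e1 : ys = ys.take i ++ ys[i] :: ys[i + 1] :: ys.drop (i + 2) := by
      have a1 : ys.drop i = ys[i] :: ys.drop (i + 1) := List.drop_eq_getElem_cons (by omega)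
      have a2 : ys.drop (i + 1) = ys[i + 1] :: ys.drop (i + 2) :=
        List.drop_eq_getElem_cons (by omega)
      rw [← a2, ← a1, List.take_append_drop]
    have e2 : pc ys ys[i] ys[i + 1] = 1 := (pc_one_iff hnd _ _).2 ⟨_, _, Or.inl e1⟩
    have e3 : cyc (ys ++ Q) ys[i] ys[i + 1] = 1 := by
      have := cyc_of_infix (l₁ := []) (m := ys) (l₂ := Q) (by simpa using hd.nd)
        (by simpa using hd.len) e2
      simpa using this
    have e4 := hd.ja_of_cyc e3
    have e5 : T.gr.Adj ys[i] ys[i + 1] := e4.adj hd.sub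
    exact ⟨h.lip _ (hyK _ (List.getElem_mem _)) _ (hyK _ (List.getElem_mem _)) e5,
      h.lip _ (hyK _ (List.getElem_mem _)) _ (hyK _ (List.getElem_mem _)) e5.symm⟩
  have m1 : y ∈ ys := (hys y).2 ⟨by rw [hinn]; exact hy, h1⟩
  have m2 : y' ∈ ys := (hys y').2 ⟨by rw [hinn]; exact hy', h2⟩
  have := chain_spread p ys hchain y m1 y' m2
  omega

theorem GCtx.hr_spread (h : GCtx T D s J A B a b S p J1 J2) {r u u' : V}
    (hr : r ∈ A ++ B) (hu : Hr T (inn J (A ++ B)) S r u) (hu' : Hr T (inn J (A ++ B)) S r u') :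
    p u ≤ p u' + (D : ℤ) + 2 := by
  have key : ∀ v, Hr T (inn J (A ++ B)) S r v → ∃ y ∈ inn J (A ++ B), T.gr.Adj r y ∧
      p v ≤ p y + 1 ∧ p y ≤ p v + 1 := by
    rintro v ⟨hv, h1 | ⟨y, hy, h1, h2⟩⟩
    · exact ⟨v, h.inK v hv, h1, by omega, by omega⟩
    · exact ⟨y, hy, h1, h.lip v (h.inK v hv) y hy h2.symm, h.lip y hy v (h.inK v hv) h2⟩
  obtain ⟨y, hy, h1, h2, -⟩ := key u hu
  obtain ⟨y', hy', h1', -, h3⟩ := key u' hu'
  have := h.nbr_spread hr hy hy' h1 h1'
  omega

theorem GCtx.zone_card (h : GCtx T D s J A B a b S p J1 J2) {Z : List V} (hZ : Z = A ∨ Z = B)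
    {r : V} (hr : r ∈ Z) :
    (S.toFinset.filter (fun v => Zn T (inn J (A ++ B)) S p Z r v)).card ≤ 2 * D + 3 := by
  have hrAB : r ∈ A ++ B := by
    rcases hZ with rfl | rfl
    · exact List.mem_append_left _ hr
    · exact List.mem_append_right _ hr
  have hZn : Z.Nodup := by
    have := List.nodup_append.1 h.inv.disc.nd
    rcases hZ with rfl | rfl
    · exact this.1
    · exact this.2.1
  obtain ⟨P1, hP1⟩ : ∃ P : V → Prop, ∀ v, P v ↔ ∃ u u', Hr T (inn J (A ++ B)) S r u ∧
    Hr T (inn J (A ++ B)) S r u' ∧ p u ≤ p v ∧ p v ≤ p u' := ⟨_, fun _ => Iff.rfl⟩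
  obtain ⟨P2, hP2⟩ : ∃ P : V → Prop, ∀ v, P v ↔ ∃ l₁ x y l₂, Z = l₁ ++ x :: r :: y :: l₂ ∧
    T.gr.Adj v x ∧ T.gr.Adj v y := ⟨_, fun _ => Iff.rfl⟩
  have c1 : (S.toFinset.filter P1).card ≤ D + 3 := by
    refine h.card_interval P1 (D + 3) ?_
    intro u _ v _ hu hv
    obtain ⟨u1, u1', g1, g2, g3, g4⟩ := (hP1 u).1 hu
    obtain ⟨v1, v1', k1, k2, k3, k4⟩ := (hP1 v).1 hv
    have := h.hr_spread hrAB g2 k1
    push_cast
    omega
  have c2 : (S.toFinset.filter P2).card ≤ D := by
    by_cases hex : ∃ l₁ x y l₂, Z = l₁ ++ x :: r :: y :: l₂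
    · obtain ⟨l₁, x, y, l₂, he⟩ := hex
      refine le_trans (Finset.card_le_card ?_) (h.deg x)
      intro v hv
      rw [Finset.mem_filter] at hv ⊢
      obtain ⟨l₁', x', y', l₂', he', g1, g2⟩ := (hP2 v).1 hv.2
      refine ⟨Finset.mem_univ _, ?_⟩
      have q1 : Z = (l₁ ++ [x]) ++ r :: (y :: l₂) := by rw [he]; simp
      have q2 : Z = (l₁' ++ [x']) ++ r :: (y' :: l₂') := by rw [he']; simp
      have n1 : r ∉ l₁ ++ [x] := fun hm => by
        rw [q1] at hZn
        exact (List.nodup_append.1 hZn).2.2 r hm r List.mem_cons_self rfl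
      have n2 : r ∉ l₁' ++ [x'] := fun hm => by
        rw [q2] at hZn
        exact (List.nodup_append.1 hZn).2.2 r hm r List.mem_cons_self rfl
      have q3 : (l₁ ++ [x]) ++ r :: (y :: l₂) = (l₁' ++ [x']) ++ r :: (y' :: l₂') :=
        q1.symm.trans q2
      have q4 : l₁ ++ [x] = l₁' ++ [x'] := by
        rcases List.append_eq_append_iff.1 q3 with ⟨m, hm1, hm2⟩ | ⟨m, hm1, hm2⟩
        · cases m with
          | nil => simpa using hm1.symm
          | cons z m =>
            simp only [List.cons_append, List.cons.injEq] at hm2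
            exfalso
            apply n2
            rw [hm1, ← hm2.1]
            simp
        · cases m with
          | nil => simpa using hm1
          | cons z m =>
            simp only [List.cons_append, List.cons.injEq] at hm2
            exfalso
            apply n1
            rw [hm1, ← hm2.1]
            simp
      have q5 : x = x' := by
        have := congrArg List.getLast? q4
        simpa using this
      rw [q5]
      exact g1.symm
    · have : S.toFinset.filter P2 = ∅ := by
        rw [Finset.filter_eq_empty_iff]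
        intro v _ hv
        obtain ⟨l₁, x, y, l₂, he, -, -⟩ := (hP2 v).1 hv
        exact hex ⟨l₁, x, y, l₂, he⟩
      rw [this]
      simp
  have hsub : S.toFinset.filter (fun v => Zn T (inn J (A ++ B)) S p Z r v) ⊆
      S.toFinset.filter P1 ∪ S.toFinset.filter P2 := by
    intro v hv
    rw [Finset.mem_filter] at hv
    rw [Finset.mem_union, Finset.mem_filter, Finset.mem_filter]
    rcases hv.2.2 with h1 | h1
    · exact Or.inl ⟨hv.1, (hP1 v).2 h1⟩
    · exact Or.inr ⟨hv.1, (hP2 v).2 h1⟩
  refine le_trans (Finset.card_le_card hsub) (le_trans (Finset.card_union_le _ _) ?_)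
  omega

end

end CC3
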