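import Pool.Agent.Work.MP_3035da_co.CBase
import Pool.Agent.Work.MP_3035da_co.COpp
import Pool.Agent.Work.MP_3035da_co.CSame
import Pool.Agent.Work.MP_3035da_co.CCorner
import Pool.Agent.Work.MP_3035da_co.GStep

/-!
# Solve : every disc instance can be finished (assembly)

Strong induction on `J.card`.
(1) Not chordless: `z, z' ∈ A ++ B`, `JA J z z'`, `cyc (A ++ B) z z' ≠ 1`. Both in `A`: write
`A = A1 ++ z :: (M ++ z' :: A2)` (or with `z, z'` exchanged), `M ≠ []` because consecutive members would
give `cyc = 1`: `step_same`. Both in `B`: `Inv.swap`, `step_same`, `Solv.swap`. `z ∈ A`, `z' ∈ B` (or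
exchanged): `step_opp`; `A2 = [] ∧ B1 = []` or `B2 = [] ∧ A1 = []` would give `cyc = 1`.
(2) Chordless, `inn = ∅`: `step_base`.
(3) Chordless, `inn ≠ ∅`, a corner is a cut: `A.head?`: `A = w :: A'`: `step_corner`. `A.getLast?`:
`Inv.reverse`, then the head of `A.reverse`, `Solv.reverse` (`Chordless` and `inn` for the reversed lists:
`cyc` of a rotation/reversal). `B`: `Inv.swap` first.
(4) otherwise `step_geod`.
-/

set_option autoImplicit false
open Classical

namespace CC3

variable {V : Type} [Fintype V]

omit [Fintype V] in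
private theorem solve_two {A : List V} {z z' : V} (hz : z ∈ A) (hz' : z' ∈ A) (hne : z ≠ z') :
    ∃ A1 M A2, A = A1 ++ z :: (M ++ z' :: A2) ∨ A = A1 ++ z' :: (M ++ z :: A2) := by
  obtain ⟨P, Q, rfl⟩ := List.append_of_mem hz
  rcases List.mem_append.1 hz' with h | h
  · obtain ⟨P1, P2, rfl⟩ := List.append_of_mem h
    exact ⟨P1, P2, Q, Or.inr (by simp)⟩
  · rcases List.mem_cons.1 h with h | h
    · exact absurd h.symm hne
    · obtain ⟨Q1, Q2, rfl⟩ := List.append_of_mem h
      exact ⟨P, Q1, Q2, Or.inl rfl⟩

omit [Fintype V] in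
private theorem solve_pair {z z' : V} (h : z ≠ z') : pc [z, z'] z z' = 1 := by
  show (ed z z' + 0) z z' = 1
  rw [add_zero]
  exact ed_one h

omit [Fintype V] in
private theorem solve_symm (l : List V) (u v : V) : cyc l u v = cyc l v u := symC_cyc l u v

private theorem solve_same {T : Sph V} {D : ℕ} {s : Stt V} {J : Finset (Finset V)}
    {A B : List V} {a b : Fin 3} (IH : IHyp T D J.card) (inv : Inv T D s J A B a b) {z z' : V}
    (hz : z ∈ A) (hz' : z' ∈ A) (hJ : JA J z z') (hc : cyc (A ++ B) z z' ≠ 1) :
    Solv T D s J A B a b := by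
  have key : ∀ (x y : V) (A1 M A2 : List V), A = A1 ++ x :: (M ++ y :: A2) → JA J x y →
      cyc (A ++ B) x y ≠ 1 → Solv T D s J A B a b := by
    intro x y A1 M A2 hA hxy hcy
    subst hA
    refine step_same IH inv hxy ?_
    rintro rfl
    apply hcy
    have hnd := inv.disc.nd
    have hlen := inv.disc.len
    have heq : (A1 ++ x :: ([] ++ y :: A2)) ++ B = A1 ++ [x, y] ++ (A2 ++ B) := by simp
    rw [heq] at hnd hlen ⊢
    exact cyc_of_infix hnd hlen (solve_pair hxy.1)
  obtain ⟨A1, M, A2, h | h⟩ := solve_two hz hz' hJ.1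
  · exact key z z' A1 M A2 h hJ hc
  · refine key z' z A1 M A2 h hJ.symm ?_
    rw [solve_symm]; exact hc

private theorem solve_opp {T : Sph V} {D : ℕ} {s : Stt V} {J : Finset (Finset V)}
    {A B : List V} {a b : Fin 3} (IH : IHyp T D J.card) (inv : Inv T D s J A B a b) {z z' : V}
    (hz : z ∈ A) (hz' : z' ∈ B) (hJ : JA J z z') (hc : cyc (A ++ B) z z' ≠ 1) :
    Solv T D s J A B a b := by
  obtain ⟨A1, A2, rfl⟩ := List.append_of_mem hz
  obtain ⟨B1, B2, rfl⟩ := List.append_of_mem hz'
  have hnd := inv.disc.nd
  have hlen := inv.disc.len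
  refine step_opp IH inv hJ ?_ ?_
  · by_contra hcon
    push Not at hcon
    obtain ⟨rfl, rfl⟩ := hcon
    apply hc
    have heq : (A1 ++ z :: []) ++ ([] ++ z' :: B2) = A1 ++ [z, z'] ++ B2 := by simp
    rw [heq] at hnd hlen ⊢
    exact cyc_of_infix hnd hlen (solve_pair hJ.1)
  · by_contra hcon
    push Not at hcon
    obtain ⟨rfl, rfl⟩ := hcon
    apply hc
    rw [cyc_one_iff hnd hlen]
    refine ⟨A2 ++ B1, Or.inr ?_⟩
    have heq : ([] ++ z :: A2) ++ (B1 ++ z' :: []) = (z :: (A2 ++ B1)) ++ [z'] := by simp
    rw [heq]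
    have h2 : z' :: z :: (A2 ++ B1) = [z'] ++ (z :: (A2 ++ B1)) := by simp
    rw [h2]
    exact List.isRotated_append

private theorem solve_step {T : Sph V} {D : ℕ} (hD : DegLe T.gr D) {s : Stt V}
    {J : Finset (Finset V)} {A B : List V} {a b : Fin 3} (IH : IHyp T D J.card)
    (inv : Inv T D s J A B a b) : Solv T D s J A B a b := by
  have hmemBA : ∀ v, v ∈ A ++ B ↔ v ∈ B ++ A := fun v => by
    rw [List.mem_append, List.mem_append]; exact or_comm
  have hmemR : ∀ (P Q : List V) (v : V), v ∈ P ++ Q ↔ v ∈ P.reverse ++ Q.reverse := fun P Q v => by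
    rw [List.mem_append, List.mem_append, List.mem_reverse, List.mem_reverse]
  have hcycR : ∀ (P Q : List V), cyc (P.reverse ++ Q.reverse) = cyc (P ++ Q) := fun P Q => by
    rw [cyc_rot, ← List.reverse_append, cyc_reverse]
  by_cases hc : Chordless J (A ++ B)
  · have hcBA : Chordless J (B ++ A) := fun x hx y hy hxy => by
      rw [cyc_rot]
      exact hc x ((hmemBA x).2 hx) y ((hmemBA y).2 hy) hxy
    have hcR : ∀ (P Q : List V), Chordless J (P ++ Q) →
        Chordless J (P.reverse ++ Q.reverse) := fun P Q h x hx y hy hxy => by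
      rw [hcycR]
      exact h x ((hmemR P Q x).2 hx) y ((hmemR P Q y).2 hy) hxy
    by_cases hn : (inn J (A ++ B)).Nonempty
    · have hnBA : (inn J (B ++ A)).Nonempty := by
        rw [← inn_congr hmemBA]; exact hn
      have hnR : ∀ (P Q : List V), (inn J (P ++ Q)).Nonempty →
          (inn J (P.reverse ++ Q.reverse)).Nonempty := fun P Q h => by
        rw [← inn_congr (hmemR P Q)]; exact h
      have hcorner : ∀ (P Q : List V) (x y : Fin 3) (w : V), Inv T D s J P Q x y →
          Chordless J (P ++ Q) → (inn J (P ++ Q)).Nonempty → P.head? = some w →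
          (s w).kd = 0 → Solv T D s J P Q x y := by
        intro P Q x y w hi hch hne hh hk
        cases P with
        | nil => simp at hh
        | cons p P' =>
          simp only [List.head?_cons, Option.some.injEq] at hh
          subst hh
          exact step_corner IH hi hch hne hk
      have hcorner' : ∀ (P Q : List V) (x y : Fin 3) (w : V), Inv T D s J P Q x y →
          Chordless J (P ++ Q) → (inn J (P ++ Q)).Nonempty → P.getLast? = some w →
          (s w).kd = 0 → Solv T D s J P Q x y := by
        intro P Q x y w hi hch hne hh hk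
        refine Solv.reverse ?_
        refine hcorner P.reverse Q.reverse x y w hi.reverse (hcR P Q hch) (hnR P Q hne) ?_ hk
        rw [List.head?_reverse]; exact hh
      by_cases hall : ∀ z, (A.head? = some z ∨ A.getLast? = some z ∨ B.head? = some z ∨
          B.getLast? = some z) → (s z).kd ≠ 0
      · exact step_geod hD IH inv hc hn hall
      · push Not at hall
        obtain ⟨w, hw, hk⟩ := hall
        rcases hw with hw | hw | hw | hw
        · exact hcorner A B a b w inv hc hn hw hk
        · exact hcorner' A B a b w inv hc hn hw hk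
        · exact (hcorner B A b a w inv.swap hcBA hnBA hw hk).swap
        · exact (hcorner' B A b a w inv.swap hcBA hnBA hw hk).swap
    · rw [Finset.not_nonempty_iff_eq_empty] at hn
      exact step_base inv hc hn
  · unfold Chordless at hc
    push Not at hc
    obtain ⟨z, hz, z', hz', hJ, hcy⟩ := hc
    rcases List.mem_append.1 hz with h1 | h1 <;> rcases List.mem_append.1 hz' with h2 | h2
    · exact solve_same IH inv h1 h2 hJ hcy
    · exact solve_opp IH inv h1 h2 hJ hcy
    · refine solve_opp IH inv h2 h1 hJ.symm ?_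
      rw [solve_symm]; exact hcy
    · refine Solv.swap (solve_same IH inv.swap h1 h2 hJ ?_)
      rw [cyc_rot]; exact hcy

theorem solve {T : Sph V} {D : ℕ} (hD : DegLe T.gr D) {s : Stt V} {J : Finset (Finset V)}
    {A B : List V} {a b : Fin 3} (inv : Inv T D s J A B a b) : Solv T D s J A B a b := by
  have key : ∀ n, IHyp T D n := by
    intro n
    induction n with
    | zero => intro s J A B a b h _; exact absurd h (Nat.not_lt_zero _)
    | succ n ih =>
      intro s J A B a b h hi
      refine solve_step hD (fun s' J' A' B' a' b' h' hi' => ?_) hi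
      exact ih s' J' A' B' a' b' (by omega) hi'
  exact key (J.card + 1) s J A B a b (Nat.lt_succ_self _) inv

end CC3
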