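import Pool.Agent.Work.MP_3035da_co.DRoot
import Pool.Agent.Work.MP_3035da_co.Solve

/-!
# Count : colouring a triangulated sphere with a root, and bounding the clusters

`root_top`: `root_disc` gives `C` (length at least 3), write `C = c1 :: B`, `A = [c1]`, `J = T.F.filter (r ∉ ·)`.
Initial state `s0 = fun _ => ⟨0, (r, r, r), 2, fun _ => r, r⟩`. `Inv T D s0 J [c1] B 0 0`: no cuts, potential `0`,
`mode`: second alternative. `solve` gives `s` with `Post`, `s = s0` off `K = inn J C`.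
Every `v ∈ vs T.F`, `v ≠ r` is in `C` or in `K`.

`cluster_bound`: for a label `X` let `N i` = number of the `v` (`≠ r`, in `C ∪ K`) with kind `i`, label `X`.
 `N 1 ≤ Lm D` (`seg`; members of `C` have kind 2). `N 2 ≤ 2 D`: each is adjacent to an end of `X`
 (`k2`; members of `C` are adjacent to `r`, an end of `(r,r,r)`). `N 3 ≤ 1` (`k3`: `X = (v,v,v)`).
 `N 4 ≤ 2 N 1`: `v` is determined by `(m, i)`, `(s m).oc i = v`, `m` main with label `X`.
 `3 D * N 5 ≤ D (N 1 + N 2)`: the sets `{q | (s q).win = v, q ~ some u of kind 1, 2 and label X}` for the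
 different `v` of kind 5 and label `X` are disjoint, of size `≥ 3 D`, contained in the set of neighbours of the
 `N 1 + N 2` vertices `u` (the `u` are in `C ∪ K`: neighbours of `q ∈ K`). As `D ≥ 1`, `3 N 5 ≤ N 1 + N 2`.
 Total `≤ 3 Lm D + 2 D + 1 + (Lm D + 2 D)/3 ≤ 1000 D`.
Colouring `f r = 1`, `f v = (s v).col` for `v ≠ r`: all neighbours of `r` are in `C`, colour `0`.
A monochromatic component (in `T.gr`) of `v ≠ r` in `vs T.F` stays off `r` and has constant label: an edge `uv`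
with both ends `≠ r`: if one is in `K`: `adj` (kinds are `≠ 0`); if both in `C`: both labels are `(r, r, r)`.
(`D ≥ 1` because `r ∈ vs T.F` has a neighbour.)
-/

set_option autoImplicit false
open Classical

namespace CC3

variable {V : Type} [Fintype V]

private theorem rt_side {T : Sph V} {D : ℕ} {K : Finset V} {A : List V} {r : V} (hA : A ≠ []) :
    Side T D (fun _ => ⟨0, (r, r, r), 2, fun _ => r, r⟩) K A 0 := by
  have h20 : (2 : Fin 6) ≠ 0 := by decide
  refine ⟨hA, fun z _ => Or.inr (Or.inr rfl), fun z _ _ => rfl, fun _ _ _ _ _ _ _ => rfl,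
    fun _ _ _ _ _ h => absurd h h20, fun _ _ _ _ _ h => absurd h h20, fun _ => 0, ?_, ?_⟩
  · intro u v _ _ _
    norm_num
  · intro _ _ _ _ h
    exact absurd h h20

theorem root_top {T : Sph V} {D : ℕ} (hD : DegLe T.gr D) {r : V} (hr : r ∈ vs T.F) :
    ∃ (s : Stt V) (C : List V) (K : Finset V), r ∉ C ∧ r ∉ K ∧ (∀ u, T.gr.Adj r u ↔ u ∈ C) ∧
      (∀ v ∈ vs T.F, v = r ∨ v ∈ C ∨ v ∈ K) ∧ (∀ v ∈ C, v ∉ K) ∧
      (∀ v ∈ K, ∀ u, T.gr.Adj v u → u ∈ C ∨ u ∈ K) ∧
      (∀ v ∈ C, (s v).col = 0 ∧ (s v).kd = 2 ∧ (s v).lab = (r, r, r)) ∧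
      (∀ v ∈ K, GoodAt T D s K v) ∧
      (∀ X, (K.filter (fun v => (s v).kd = 1 ∧ (s v).lab = X)).card ≤ Lm D) ∧
      (∀ v ∈ K, ∀ u, T.gr.Adj v u → (s u).col = (s v).col → (s u).lab = (s v).lab) := by
  obtain ⟨C, hdisc, hC, hcov⟩ := root_disc T hr
  have hlen := hdisc.len
  cases C with
  | nil => simp at hlen
  | cons c1 B =>
    have hB : B ≠ [] := by
      rintro rfl
      simp at hlen
    have h20 : (2 : Fin 6) ≠ 0 := by decide
    have hinv : Inv T D (fun _ => ⟨0, (r, r, r), 2, fun _ => r, r⟩)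
        (T.F.filter (fun t => r ∉ t)) [c1] B 0 0 :=
      ⟨hdisc, rt_side (by simp), rt_side hB, fun _ _ _ _ h _ => absurd h h20,
        Or.inr ⟨rfl, fun _ _ => h20, fun _ _ _ _ => rfl⟩⟩
    obtain ⟨s, hs, hpost⟩ := solve hD hinv
    have hlist : [c1] ++ B = c1 :: B := rfl
    rw [hlist] at hs
    have hCK : ∀ v ∈ c1 :: B, v ∉ inn (T.F.filter (fun t => r ∉ t)) (c1 :: B) :=
      fun v hv hv' => (mem_inn.1 hv').2 hv
    have hK : ∀ v ∈ inn (T.F.filter (fun t => r ∉ t)) (c1 :: B), ∀ u, T.gr.Adj v u →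
        u ∈ c1 :: B ∨ u ∈ inn (T.F.filter (fun t => r ∉ t)) (c1 :: B) :=
      fun v hv u hvu => (hdisc.nbr hv hvu).2.symm
    have hsC : ∀ v ∈ c1 :: B, s v = ⟨0, (r, r, r), 2, fun _ => r, r⟩ :=
      fun v hv => hs v (hCK v hv)
    refine ⟨s, c1 :: B, inn (T.F.filter (fun t => r ∉ t)) (c1 :: B), ?_, ?_, hC, ?_, hCK, hK,
      ?_, hpost.good, hpost.seg, ?_⟩
    · intro h
      exact T.gr.loopless.irrefl r ((hC r).2 h)
    · intro h
      obtain ⟨⟨t, ht, hrt⟩, _⟩ := mem_inn.1 h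
      exact (Finset.mem_filter.1 ht).2 hrt
    · intro v hv
      by_cases hvr : v = r
      · exact Or.inl hvr
      · have h1 := hcov v hv hvr
        by_cases hvC : v ∈ c1 :: B
        · exact Or.inr (Or.inl hvC)
        · exact Or.inr (Or.inr (mem_inn.2 ⟨mem_vs.1 h1, hvC⟩))
    · intro v hv
      rw [hsC v hv]
      exact ⟨rfl, rfl, rfl⟩
    · intro v hv u hvu hcol
      refine hpost.adj v hv u hvu ?_ hcol
      rcases hK v hv u hvu with h | h
      · rw [hsC u h]; exact h20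
      · exact (hpost.good u h).k0

end CC3
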