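import Pool.Agent.Work.MP_3035da_co.ChainEven
import Pool.Agent.Work.MP_3035da_co.ChainMem

/-!
# SubCycle : even chains inside a cycle or a path

* `sub_path`: `h` lives on the edges of the path `l = v0 v1 ... vn` (no repetition), and has even degree
  at `v1, ..., v(n-1)`. By parity at `vi`, `h v(i-1) vi = h vi v(i+1)`, so `h` is constant on the path
  edges: `h = 0` or `h = pc l`. Induct on the list: for `a :: b :: c :: l` apply the induction
  hypothesis to `h + (h a b) • ed a b` restricted to `b :: c :: l`.
* `sub_cyc`: write `C = a :: m`; `cyc C = pc (a :: m) + ed last a`. If `h last a = 0` then `h` lives on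
  the path `a :: m`, by `sub_path` `h = 0` or `h = pc`, the second is not even at `a`. If `h last a = 1`
  apply this to `h + cyc C`.
* `theta_half`: `h` has odd degree exactly at `a, b`. Let `P1 = a :: (P ++ [b])`, `P2 = b :: (Q ++ [a])`.
  Then `h + pc P1` is even and lives on the cycle, so `sub_cyc` applies.
-/

set_option autoImplicit false
open Classical

namespace CC3

variable {V : Type} [Fintype V]

private theorem sc_ed {a b u v : V} (h : ed a b u v ≠ 0) :
    a ≠ b ∧ ((u = a ∧ v = b) ∨ (u = b ∧ v = a)) := by
  by_contra h1
  exact h (if_neg h1)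

private theorem sc_val {h : Ch V} (hs : SymC h) {a b u v : V} (he : ed a b u v ≠ 0) :
    h u v = h a b := by
  rcases (sc_ed he).2 with ⟨rfl, rfl⟩ | ⟨rfl, rfl⟩
  · rfl
  · exact hs _ _

private theorem sc_eq {g k : Ch V} (h : g + k = 0) : g = k := by
  funext u v
  have h1 : g u v + k u v = 0 := congrFun (congrFun h u) v
  exact CharTwo.add_eq_zero.1 h1

private theorem sc_sum_add (g k : Ch V) (v : V) :
    ∑ u, (g + k) v u = ∑ u, g v u + ∑ u, k v u := by
  rw [← Finset.sum_add_distrib]
  rfl

theorem sub_path {a b : V} {l : List V} (hl : (a :: (l ++ [b])).Nodup) {h : Ch V} (hs : SymC h)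
    (hle : ∀ u v, h u v ≠ 0 → pc (a :: (l ++ [b])) u v ≠ 0)
    (he : ∀ v ∈ l, ∑ u, h v u = 0) : h = 0 ∨ h = pc (a :: (l ++ [b])) := by
  induction l generalizing a h with
  | nil =>
    have hnd := List.nodup_cons.1 hl
    have hab : a ≠ b := fun e => hnd.1 (e ▸ List.mem_cons_self)
    have hpc : pc (a :: ([] ++ [b])) = ed a b := by
      show ed a b + (0 : Ch V) = ed a b
      rw [add_zero]
    rw [hpc] at hle ⊢
    rcases zmod2_cases (h a b) with h1 | h1
    · left
      funext u v
      by_contra h2
      have h3 : h u v ≠ 0 := h2
      exact h3 ((sc_val hs (hle u v h3)).trans h1)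
    · right
      funext u v
      by_cases h2 : ed a b u v = 0
      · rw [h2]
        by_contra h3
        exact hle u v h3 h2
      · rw [sc_val hs h2, h1, (zmod2_ne _).1 h2]
  | cons c l ih =>
    have hnd := List.nodup_cons.1 hl
    have hnd2 := List.nodup_cons.1 hnd.2
    have hac : a ≠ c := fun e => hnd.1 (e ▸ List.mem_cons_self)
    have hcb : c ≠ b := fun e => hnd2.1 (e ▸ List.mem_append.2 (Or.inr List.mem_cons_self))
    have hpc : pc (a :: (c :: l ++ [b])) = ed a c + pc (c :: (l ++ [b])) := rfl
    rw [hpc] at hle ⊢
    have hec : ∑ u, h c u = 0 := he c List.mem_cons_self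
    have h10 : (1 : ZMod 2) ≠ 0 := by decide
    rcases zmod2_cases (h a c) with h1 | h1
    · have h2 := ih hnd.2 hs (fun u v huv hp => by
        apply hle u v huv
        have h3 : ed a c u v = 0 := by
          by_contra h4
          exact huv ((sc_val hs h4).trans h1)
        show ed a c u v + pc (c :: (l ++ [b])) u v = 0
        rw [h3, hp, add_zero]) (fun v hv => he v (List.mem_cons_of_mem _ hv))
      rcases h2 with h2 | h2
      · exact Or.inl h2
      · exfalso
        rw [h2, sum_pc, if_pos rfl, if_neg hcb, add_zero] at hec
        exact h10 hec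
    · have h2 := ih (h := h + ed a c) hnd.2 (symC_add hs (symC_ed a c)) (fun u v huv hp => by
        have h3 : ed a c u v = 0 := by
          by_contra h4
          apply huv
          show h u v + ed a c u v = 0
          rw [sc_val hs h4, h1, (zmod2_ne _).1 h4]
          decide
        have h5 : h u v ≠ 0 := by
          intro h6
          apply huv
          show h u v + ed a c u v = 0
          rw [h6, h3, add_zero]
        apply hle u v h5
        show ed a c u v + pc (c :: (l ++ [b])) u v = 0
        rw [h3, hp, add_zero]) (fun v hv => by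
          have hva : v ≠ a := fun e => hnd.1 (e ▸ List.mem_cons_of_mem _
            (List.mem_append.2 (Or.inl hv)))
          have hvc : v ≠ c := fun e => hnd2.1 (e ▸ List.mem_append.2 (Or.inl hv))
          rw [sc_sum_add, he v (List.mem_cons_of_mem _ hv), sum_ed, if_neg hva, if_neg hvc,
            add_zero, add_zero])
      rcases h2 with h2 | h2
      · exfalso
        rw [sc_eq h2, sum_ed, if_neg (Ne.symm hac), if_pos rfl, zero_add] at hec
        exact h10 hec
      · right
        apply sc_eq
        rw [← h2]
        have h3 : h + (ed a c + (h + ed a c)) = (h + h) + (ed a c + ed a c) := by abel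
        rw [h3, ch_add_self, ch_add_self, add_zero]

private theorem sc_len {C : List V} (h3 : 3 ≤ C.length) : ∃ a P b, C = a :: (P ++ [b]) := by
  cases C with
  | nil =>
    simp only [List.length_nil] at h3
    omega
  | cons a m =>
    have hm : m ≠ [] := by
      rintro rfl
      simp only [List.length_cons, List.length_nil] at h3
      omega
    exact ⟨a, m.dropLast, m.getLast hm, by rw [List.dropLast_append_getLast hm]⟩

private theorem sc_zero {a b : V} {P : List V} (hC : (a :: (P ++ [b])).Nodup) {h : Ch V}
    (hs : SymC h) (he : EvnC h) (hle : ∀ u v, h u v ≠ 0 → cyc (a :: (P ++ [b])) u v ≠ 0)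
    (h0 : h b a = 0) : h = 0 := by
  have hnd := List.nodup_cons.1 hC
  have hab : a ≠ b := fun e => hnd.1 (e ▸ List.mem_append.2 (Or.inr List.mem_cons_self))
  rcases sub_path hC hs (fun u v huv hp => by
    apply hle u v huv
    rw [cyc_concat]
    have h3 : ed b a u v = 0 := by
      by_contra h4
      exact huv ((sc_val hs h4).trans h0)
    show pc (a :: (P ++ [b])) u v + ed b a u v = 0
    rw [h3, hp, add_zero]) (fun v _ => he v) with h1 | h1
  · exact h1
  · exfalso
    have h2 := he a
    rw [h1, sum_pc, if_pos rfl, if_neg hab, add_zero] at h2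
    exact absurd h2 (by decide)

theorem sub_cyc {C : List V} (hC : C.Nodup) (h3 : 3 ≤ C.length) {h : Ch V} (hs : SymC h)
    (he : EvnC h) (hle : ∀ u v, h u v ≠ 0 → cyc C u v ≠ 0) : h = 0 ∨ h = cyc C := by
  obtain ⟨a, P, b, rfl⟩ := sc_len h3
  rcases zmod2_cases (h b a) with h1 | h1
  · exact Or.inl (sc_zero hC hs he hle h1)
  · right
    apply sc_eq
    apply sc_zero hC (symC_add hs (symC_cyc _)) (evn_add he (evn_cyc _))
    · intro u v huv hc
      apply huv
      show h u v + cyc (a :: (P ++ [b])) u v = 0
      rw [hc, add_zero]
      by_contra h2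
      exact hle u v h2 hc
    · have h2 : cyc (a :: (P ++ [b])) b a = 1 := by
        apply (zmod2_ne _).1
        apply hle
        rw [h1]
        decide
      show h b a + cyc (a :: (P ++ [b])) b a = 0
      rw [h1, h2]
      decide

theorem theta_half {a b : V} {P Q : List V} (hC : (a :: (P ++ b :: Q)).Nodup)
    (h3 : 3 ≤ (a :: (P ++ b :: Q)).length) {h : Ch V} (hs : SymC h)
    (he : ∀ v, ∑ u, h v u = (if v = a then 1 else 0) + (if v = b then 1 else 0))
    (hle : ∀ u v, h u v ≠ 0 → cyc (a :: (P ++ b :: Q)) u v ≠ 0) :
    h = pc (a :: (P ++ [b])) ∨ h = pc (b :: (Q ++ [a])) := by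
  have hlist : ([] : List V) ++ (a :: (P ++ [b])) ++ Q = a :: (P ++ b :: Q) := by
    simp only [List.nil_append, List.cons_append, List.append_assoc]
  have h1 : ∀ u v, pc (a :: (P ++ [b])) u v ≠ 0 → cyc (a :: (P ++ b :: Q)) u v ≠ 0 := by
    intro u v huv
    have h2 := cyc_of_infix (l₁ := []) (m := a :: (P ++ [b])) (l₂ := Q) (by rw [hlist]; exact hC)
      (by rw [hlist]; exact h3) ((zmod2_ne _).1 huv)
    rw [hlist] at h2
    rw [h2]
    decide
  rcases sub_cyc hC h3 (symC_add hs (symC_pc (a :: (P ++ [b])))) (fun v => by
    rw [sc_sum_add, he v, sum_pc]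
    exact CharTwo.add_self_eq_zero _) (fun u v huv hc => by
      apply huv
      show h u v + pc (a :: (P ++ [b])) u v = 0
      have h4 : h u v = 0 := by
        by_contra h5
        exact hle u v h5 hc
      have h6 : pc (a :: (P ++ [b])) u v = 0 := by
        by_contra h7
        exact h1 u v h7 hc
      rw [h4, h6, add_zero]) with h2 | h2
  · exact Or.inl (sc_eq h2)
  · right
    rw [cyc_split] at h2
    apply sc_eq
    have h4 : h + pc (b :: (Q ++ [a])) = (h + pc (a :: (P ++ [b]))) +
        (pc (a :: (P ++ [b])) + pc (b :: (Q ++ [a]))) := by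
      have h5 : (h + pc (a :: (P ++ [b]))) + (pc (a :: (P ++ [b])) + pc (b :: (Q ++ [a]))) =
          h + pc (b :: (Q ++ [a])) + (pc (a :: (P ++ [b])) + pc (a :: (P ++ [b]))) := by abel
      rw [h5, ch_add_self, add_zero]
    rw [h4, h2, ch_add_self]

/-- a nonzero even chain contains a cycle -/
theorem exists_cycle {G : SimpleGraph V} {h : Ch V} (hs : SymC h) (he : EvnC h) (hG : Sub G h)
    (h0 : h ≠ 0) : ∃ C : List V, C.Nodup ∧ 3 ≤ C.length ∧ ∀ u v, cyc C u v ≠ 0 → h u v ≠ 0 := by
  by_contra hcon
  set H : SimpleGraph V :=
    { Adj := fun a b => h a b ≠ 0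
      symm := ⟨fun a b hab => by
        show h b a ≠ 0
        rw [hs b a]
        exact hab⟩
      loopless := ⟨fun a haa => (hG a a haa).ne rfl⟩ } with hH
  have hadj : ∀ a b, H.Adj a b ↔ h a b ≠ 0 := fun a b => Iff.rfl
  have key : ∀ n : ℕ, ∃ l : List V, l.Nodup ∧ l.IsChain H.Adj ∧ n + 2 ≤ l.length := by
    intro n
    induction n with
    | zero =>
      have h1 : ∃ u v, h u v ≠ 0 := by
        by_contra h2
        push Not at h2
        exact h0 (by funext u v; exact h2 u v)
      obtain ⟨u, v, huv⟩ := h1
      refine ⟨[u, v], ?_, ?_, le_refl _⟩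
      · rw [List.nodup_cons, List.mem_singleton]
        exact ⟨(hG u v huv).ne, List.nodup_singleton v⟩
      · rw [List.isChain_cons_cons]
        exact ⟨huv, List.isChain_singleton v⟩
    | succ n ih =>
      obtain ⟨l, hnd, hch, hlen⟩ := ih
      rcases l with _ | ⟨a, _ | ⟨b, l⟩⟩
      · simp only [List.length_nil] at hlen
        omega
      · simp only [List.length_cons, List.length_nil] at hlen
        omega
      · have hab : h a b ≠ 0 := (List.isChain_cons_cons.1 hch).1
        have hw : ∃ w, w ≠ b ∧ h a w ≠ 0 := by
          by_contra h2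
          push Not at h2
          have h3 := he a
          rw [Finset.sum_eq_single b (fun w _ hw => h2 w hw)
            (fun hb => absurd (Finset.mem_univ _) hb)] at h3
          exact hab h3
        obtain ⟨w, hwb, haw⟩ := hw
        have hwa : w ≠ a := fun e => (hG a w haw).ne e.symm
        by_cases hwl : w ∈ l
        · exfalso
          apply hcon
          obtain ⟨l₁, l₂, rfl⟩ := List.append_of_mem hwl
          have hpre : (a :: b :: (l₁ ++ w :: l₂)) = (a :: (b :: l₁ ++ [w])) ++ l₂ := by
            simp only [List.cons_append, List.append_assoc, List.nil_append]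
          rw [hpre] at hnd hch
          have hnd' := (List.nodup_append.1 hnd).1
          have hch' : (a :: (b :: l₁ ++ [w])).IsChain H.Adj := hch.left_of_append
          refine ⟨a :: (b :: l₁ ++ [w]), hnd', ?_, ?_⟩
          · simp only [List.length_cons, List.length_append, List.length_nil]
            omega
          · intro u v huv hz
            apply huv
            rw [cyc_concat]
            show pc (a :: (b :: l₁ ++ [w])) u v + ed w a u v = 0
            have h5 : pc (a :: (b :: l₁ ++ [w])) u v = 0 := by
              by_contra h6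
              exact (sub_pc_iff H hnd').2 hch' u v h6 hz
            have h7 : ed w a u v = 0 := by
              by_contra h8
              have h9 := sc_val hs h8
              rw [hz, hs w a] at h9
              exact haw h9.symm
            rw [h5, h7, add_zero]
        · refine ⟨w :: a :: b :: l, ?_, ?_, ?_⟩
          · rw [List.nodup_cons]
            refine ⟨fun hmem => ?_, hnd⟩
            rcases List.mem_cons.1 hmem with h5 | h5
            · exact hwa h5
            · rcases List.mem_cons.1 h5 with h6 | h6
              · exact hwb h6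
              · exact hwl h6
          · rw [List.isChain_cons_cons]
            refine ⟨?_, hch⟩
            show h w a ≠ 0
            rw [hs w a]
            exact haw
          · simp only [List.length_cons] at hlen ⊢
            omega
  obtain ⟨l, hnd, _, hlen⟩ := key (Fintype.card V)
  have := hnd.length_le_card
  omega

end CC3
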